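import Mathlib

/-!
# MP_d74fca_nt, number theory part (helper22)

Primes `ℓ ≡ -1 mod M` represented by binary quadratic forms of small discriminant (Siegel's theorem,
Selberg's sieve) and the counting argument for supersingular primes (abstract form `T_NT`).
-/

open scoped BigOperators
open Finset

namespace SSN

/-- `n ↦ (-Δ/n)` for odd `n`, `0` for even `n` -/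
def ch (Δ n : ℕ) : ℤ := if Even n then 0 else jacobiSym (-(Δ : ℤ)) n

/-- `r(n) = ∑_{d ∣ n} (-Δ/d)` -/
def rr (Δ n : ℕ) : ℤ := ∑ d ∈ n.divisors, ch Δ d

/-- value of a binary quadratic form -/
def qf (a b c x y : ℤ) : ℤ := a * x ^ 2 + b * x * y + c * y ^ 2

/-- the integer `n` is a value of the form -/
def Val (a b c n : ℤ) : Prop := ∃ x y : ℤ, qf a b c x y = n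

/-- reduced positive definite form of discriminant `-Δ` -/
def Red (a b c : ℤ) (Δ : ℕ) : Prop :=
  0 < a ∧ |b| ≤ a ∧ a ≤ c ∧ 4 * a * c - b ^ 2 = (Δ : ℤ) ∧ 0 < Δ

/-- `P` is a finite set of odd primes -/
def OddPr (P : Finset ℕ) : Prop := ∀ p ∈ P, p.Prime ∧ p ≠ 2

/-- the modulus `8 ∏_{p ∈ P} p` -/
def MM (P : Finset ℕ) : ℕ := 8 * ∏ p ∈ P, p

/-- the real number `∏_{p ∈ P} (p-1)` -/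
noncomputable def ph (P : Finset ℕ) : ℝ := ∏ p ∈ P, ((p : ℝ) - 1)

/-- `(1 - 1/p)(1 - χ(p)/p)` -/
noncomputable def eu (Δ p : ℕ) : ℝ := (1 - 1 / (p : ℝ)) * (1 - (ch Δ p : ℝ) / p)

/-- number of zeros mod `p` of a form of discriminant `-Δ` for `p ∤ 2Δ` -/
noncomputable def zr (Δ p : ℕ) : ℝ := 1 + ((p : ℝ) - 1) * (1 + (ch Δ p : ℝ))

/-! ## Characters and `L(1, χ)` -/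

/-- CHR -/
def T_CHR : Prop := ∀ Δ : ℕ, 0 < Δ → ∃ χ : DirichletCharacter ℂ (4 * Δ), χ ≠ 1 ∧
  ∀ n : ℕ, χ (n : ZMod (4 * Δ)) = ((ch Δ n : ℤ) : ℂ)

/-- RRM -/
def T_RRM : Prop := ∀ Δ : ℕ, 0 < Δ → (∀ n, 0 ≤ rr Δ n) ∧ (∀ n, n ≠ 0 → 1 ≤ rr Δ (n ^ 2)) ∧
  rr Δ 1 = 1 ∧ (∀ m n, m.Coprime n → rr Δ (m * n) = rr Δ m * rr Δ n) ∧
  (∀ p k, p.Prime → rr Δ (p ^ k) = ∑ i ∈ range (k + 1), (ch Δ p) ^ i) ∧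
  (∀ m n, ch Δ (m * n) = ch Δ m * ch Δ n) ∧
  (∀ n, ch Δ n = 0 ∨ ch Δ n = 1 ∨ ch Δ n = -1) ∧
  (∀ n, (ch Δ n = 0 ↔ ¬ n.Coprime (2 * Δ)))

/-- LBD -/
def T_LBD : Prop := ∀ (q : ℕ) [NeZero q] (χ : DirichletCharacter ℂ q), χ ≠ 1 →
  (∀ s : ℂ, 0 < s.re → ‖χ.LFunction s‖ ≤ q * ‖s‖ / s.re) ∧
  ∀ N : ℕ, 1 ≤ N → ‖(∑ n ∈ Icc 1 N, χ (n : ZMod q) / (n : ℂ)) - χ.LFunction 1‖ ≤ 2 * q / N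

/-- EST (Estermann's lemma) -/
def T_EST : Prop := ∀ (g : ℂ → ℂ) (lam K : ℝ) (b : ℕ → ℝ), 0 ≤ lam → 1 ≤ K →
  DifferentiableOn ℂ g (Metric.ball 2 (3 / 2)) →
  (∀ s ∈ Metric.ball (2 : ℂ) (3 / 2), ‖g s‖ ≤ K) → (∀ m, 0 ≤ b m) → 1 ≤ b 0 →
  (∀ s ∈ Metric.ball (2 : ℂ) 1,
    HasSum (fun m : ℕ => (b m : ℂ) * (2 - s) ^ m) (g s + lam / (s - 1))) →
  ∀ σ : ℝ, 7 / 8 ≤ σ → σ < 1 →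
    1 / 2 - 3 * lam * (8 * K) ^ (4 * (1 - σ)) / (1 - σ) ≤ (g σ).re + lam / (σ - 1)

/-- POS -/
def T_POS : Prop := ∀ (q₁ q₂ : ℕ) [NeZero q₁] [NeZero q₂] (χ₁ : DirichletCharacter ℂ q₁)
  (χ₂ : DirichletCharacter ℂ q₂) (χ : DirichletCharacter ℂ (q₁ * q₂)),
  (∀ n : ℕ, χ₁ (n : ZMod q₁) = 0 ∨ χ₁ (n : ZMod q₁) = 1 ∨ χ₁ (n : ZMod q₁) = -1) →
  (∀ n : ℕ, χ₂ (n : ZMod q₂) = 0 ∨ χ₂ (n : ZMod q₂) = 1 ∨ χ₂ (n : ZMod q₂) = -1) →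
  (∀ n : ℕ, χ (n : ZMod (q₁ * q₂)) = χ₁ (n : ZMod q₁) * χ₂ (n : ZMod q₂)) →
  ∃ b : ℕ → ℝ, (∀ m, 0 ≤ b m) ∧ 1 ≤ b 0 ∧ ∀ s ∈ Metric.ball (2 : ℂ) 1,
    HasSum (fun m : ℕ => (b m : ℂ) * (2 - s) ^ m)
      (riemannZeta s * χ₁.LFunction s * χ₂.LFunction s * χ.LFunction s)

/-- SIEG (Siegel's theorem for the characters `ch Δ`) -/
def T_SIEG : Prop := ∀ η : ℝ, 0 < η → ∃ c : ℝ, 0 < c ∧ ∀ Δ : ℕ, 0 < Δ → ∃ L : ℝ,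
  c * (Δ : ℝ) ^ (-η) ≤ L ∧
  ∀ N : ℕ, 1 ≤ N → |(∑ n ∈ Icc 1 N, (ch Δ n : ℝ) / n) - L| ≤ 8 * Δ / N

/-- AX -/
def T_AX : Prop := ∃ C : ℝ, 1 ≤ C ∧ ∀ (Δ : ℕ) (L : ℝ), 0 < Δ →
  (∀ N : ℕ, 1 ≤ N → |(∑ n ∈ Icc 1 N, (ch Δ n : ℝ) / n) - L| ≤ 8 * Δ / N) →
  ∀ N : ℕ, 4 * Δ ≤ N → |(∑ n ∈ Icc 1 N, (rr Δ n : ℝ)) - N * L| ≤ C * Real.sqrt (Δ * N)

/-- RL -/
def T_RL : Prop := ∀ η : ℝ, 0 < η → ∃ c : ℝ, 0 < c ∧ ∃ C₀ : ℝ, 1 ≤ C₀ ∧ ∀ Δ : ℕ, 0 < Δ →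
  ∀ N : ℕ, (C₀ * Δ) ^ 2 ≤ N →
    c * (Δ : ℝ) ^ (-η) * Real.log N ≤ ∑ n ∈ Icc 1 N, (rr Δ n : ℝ) / n

/-! ## Sieve -/

/-- SEL (Selberg's sieve) -/
def T_SEL : Prop := ∀ s : SelbergSieve, 0 ≤ s.totalMass →
  s.siftedSum ≤ s.totalMass / (∑ l ∈ s.prodPrimes.divisors,
      if (l : ℝ) ^ 2 ≤ s.level then s.selbergTerms l else 0) +
    ∑ d ∈ s.prodPrimes.divisors, if (d : ℝ) ≤ s.level then (d : ℝ) ^ 2 * |s.rem d| else 0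

/-- LAT (lattice points in an ellipse) -/
def T_LAT : Prop := ∃ C : ℝ, 0 < C ∧ ∀ (a b c : ℤ) (Δ : ℕ), Red a b c Δ → ∀ D : ℕ, 0 < D →
  ∀ u v : ℤ, ∀ t : ℝ, 1 ≤ t →
  {P : ℤ × ℤ | (qf a b c P.1 P.2 : ℝ) ≤ t ∧ (D : ℤ) ∣ P.1 - u ∧ (D : ℤ) ∣ P.2 - v}.Finite ∧
  |(({P : ℤ × ℤ | (qf a b c P.1 P.2 : ℝ) ≤ t ∧ (D : ℤ) ∣ P.1 - u ∧ (D : ℤ) ∣ P.2 - v}.ncard : ℕ)
    : ℝ) - 2 * Real.pi * t / (Real.sqrt Δ * D ^ 2)| ≤ C * Real.sqrt t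

/-- RED (reduction of forms) -/
def T_RED : Prop := ∀ a b c : ℤ, 0 < a → 0 < 4 * a * c - b ^ 2 → ∃ (a' b' c' : ℤ) (Δ : ℕ),
  Red a' b' c' Δ ∧ (Δ : ℤ) = 4 * a * c - b ^ 2 ∧ ∀ n, Val a b c n ↔ Val a' b' c' n

/-- TRIV -/
def T_TRIV : Prop := ∀ (a b c : ℤ) (Δ : ℕ), Red a b c Δ → ∀ t : ℝ, 0 ≤ t →
  {ℓ : ℕ | ℓ.Prime ∧ (ℓ : ℝ) ≤ t ∧ Val a b c ℓ}.Finite ∧
  (({ℓ : ℕ | ℓ.Prime ∧ (ℓ : ℝ) ≤ t ∧ Val a b c ℓ}.ncard : ℕ) : ℝ) ≤ 1 + 7 * t / Real.sqrt Δ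

/-- ROOT -/
def T_ROOT : Prop := ∀ (a b c : ℤ) (Δ : ℕ), Red a b c Δ → ∀ p : ℕ, p.Prime → p ≠ 2 →
  (¬ p ∣ Δ →
    (Nat.card {P : ZMod p × ZMod p //
      (a : ZMod p) * P.1 ^ 2 + b * P.1 * P.2 + c * P.2 ^ 2 = 0} : ℝ) = zr Δ p ∧
    (Nat.card {P : ZMod p × ZMod p //
      (a : ZMod p) * P.1 ^ 2 + b * P.1 * P.2 + c * P.2 ^ 2 = -1} : ℝ) = p - ch Δ p) ∧
  (p ∣ Δ → (Nat.card {P : ZMod p × ZMod p //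
      (a : ZMod p) * P.1 ^ 2 + b * P.1 * P.2 + c * P.2 ^ 2 = -1} : ℝ) ≤ 2 * p)

/-- CNT -/
def T_CNT : Prop := ∃ C : ℝ, 0 < C ∧ ∀ (a b c : ℤ) (Δ : ℕ), Red a b c Δ →
  ∀ P : Finset ℕ, OddPr P → ∃ ρ : ℝ, 0 ≤ ρ ∧
  ρ ≤ 64 * ∏ p ∈ P, (if p ∣ Δ then 2 * (p : ℝ) else (p : ℝ) - ch Δ p) ∧
  ∀ d : ℕ, Squarefree d → d.Coprime (2 * MM P * Δ) → ∀ t : ℝ, 1 ≤ t →
  |(({R : ℤ × ℤ | (qf a b c R.1 R.2 : ℝ) ≤ t ∧ (MM P : ℤ) ∣ qf a b c R.1 R.2 + 1 ∧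
      (d : ℤ) ∣ qf a b c R.1 R.2}.ncard : ℕ) : ℝ) -
    ρ * (∏ p ∈ d.primeFactors, zr Δ p) *
      (2 * Real.pi * t / (Real.sqrt Δ * ((MM P : ℝ) * d) ^ 2))| ≤
    C * ((MM P : ℝ) * d) ^ 2 * Real.sqrt t

/-- SHH -/
def T_SHH : Prop := ∀ Δ : ℕ, 0 < Δ → ∀ K : ℕ, 0 < K → ∀ z : ℕ,
  (∏ p ∈ K.primeFactors, eu Δ p) * (∑ n ∈ Icc 1 z, (rr Δ n : ℝ) / n) ≤
    ∑ l ∈ (Icc 1 z).filter (fun l => Squarefree l ∧ l.Coprime K),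
      ∏ p ∈ l.primeFactors, (1 / eu Δ p - 1)

/-- OMG -/
def T_OMG : Prop := ∀ η : ℝ, 0 < η → ∃ C : ℝ, 0 < C ∧ ∀ n : ℕ, 0 < n →
  (4 : ℝ) ^ n.primeFactors.card ≤ C * (n : ℝ) ^ η

/-- SIEVE -/
def T_SIEVE : Prop := ∃ C : ℝ, 0 < C ∧ ∀ P : Finset ℕ, OddPr P → ∃ t₀ : ℝ, ∀ t : ℝ, t₀ ≤ t →
  ∀ (a b c : ℤ) (Δ : ℕ), Red a b c Δ → (Δ : ℝ) ≤ (Real.log t) ^ 3 →
  (({ℓ : ℕ | ℓ.Prime ∧ (ℓ : ℝ) ≤ t ∧ MM P ∣ ℓ + 1 ∧ Val a b c ℓ}.ncard : ℕ) : ℝ) ≤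
    C * t / (ph P * (Δ : ℝ) ^ (1 / 4 : ℝ) * Real.log t)

/-! ## Primes in progressions, weights, conclusion -/

/-- DIR -/
def T_DIR : Prop := ∀ P : Finset ℕ, OddPr P → ∃ C : ℝ, ∀ s : ℝ, 1 < s → s ≤ 2 →
  1 / (4 * ph P * (s - 1)) - C ≤
    ∑' ℓ : ℕ, if ℓ.Prime ∧ MM P ∣ ℓ + 1 then Real.log ℓ * (ℓ : ℝ) ^ (-s) else 0

/-- ZS -/
def T_ZS : Prop := ∃ C : ℝ, 0 < C ∧ ∀ Y : ℝ, 1 ≤ Y →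
  Summable (fun n : ℕ => if 3 ≤ n then Real.log n * (n : ℝ) ^ (-1 - 1 / Y) else 0) ∧
  (∑' n : ℕ, if 3 ≤ n then Real.log n * (n : ℝ) ^ (-1 - 1 / Y) else 0) ≤ C * Y ^ 2 ∧
  Summable (fun n : ℕ => if 3 ≤ n then (Real.log n) ^ (-1 / 2 : ℝ) * (n : ℝ) ^ (-1 - 1 / Y) else 0) ∧
  (∑' n : ℕ, if 3 ≤ n then (Real.log n) ^ (-1 / 2 : ℝ) * (n : ℝ) ^ (-1 - 1 / Y) else 0) ≤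
    C * Real.sqrt Y ∧
  Summable (fun n : ℕ => if 3 ≤ n then (n : ℝ) ^ (-1 - 1 / Y) else 0) ∧
  (∑' n : ℕ, if 3 ≤ n then (n : ℝ) ^ (-1 - 1 / Y) else 0) ≤ Y

/-- PS (partial summation) -/
def T_PS : Prop := ∀ (F : Set ℕ) (w β : ℕ → ℝ), (∀ n ∈ F, 3 ≤ n) →
  (∀ n, 3 ≤ n → 0 ≤ w (n + 1) ∧ w (n + 1) ≤ w n) → (∀ n, 0 ≤ β n) →
  Summable (fun n => if 3 ≤ n then β n * w n else 0) →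
  (∀ n, 3 ≤ n → (((F ∩ Set.Iic n).ncard : ℕ) : ℝ) ≤ ∑ m ∈ Icc 3 n, β m) →
  ∀ G : Finset ℕ, (∀ n ∈ G, n ∈ F) →
    ∑ n ∈ G, w n ≤ ∑' n : ℕ, if 3 ≤ n then β n * w n else 0

/-- W -/
def T_W : Prop := ∃ C : ℝ, 0 < C ∧ ∀ (F : Set ℕ) (Y : ℝ), 1 ≤ Y → (∀ n ∈ F, 3 ≤ n) →
  Summable (F.indicator fun n : ℕ => Real.log n * (n : ℝ) ^ (-1 - 1 / Y)) ∧
  (∀ (L : ℕ) (α : ℝ), 3 ≤ L → 0 ≤ α → (∀ n ∈ F, L ≤ n) →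
    (∀ n : ℕ, 3 ≤ n → (((F ∩ Set.Iic n).ncard : ℕ) : ℝ) ≤ 1 + α * n) →
    (∑' n : ℕ, F.indicator (fun n : ℕ => Real.log n * (n : ℝ) ^ (-1 - 1 / Y)) n) ≤
      Real.log L / L + C * α * Y ^ 2) ∧
  (∀ A κ : ℝ, 0 ≤ A → 0 ≤ κ →
    (∀ n : ℕ, 3 ≤ n → (((F ∩ Set.Iic n).ncard : ℕ) : ℝ) ≤
      A + 7 * n / (Real.log n) ^ (3 / 2 : ℝ) + κ * n / Real.log n) →
    (∑' n : ℕ, F.indicator (fun n : ℕ => Real.log n * (n : ℝ) ^ (-1 - 1 / Y)) n) ≤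
      C * (A + Real.sqrt Y) + 3 * κ * Y)

/-- SUM -/
def T_SUM : Prop := ∀ (S : Set ℕ) (β γ x₀ : ℝ), 0 < β → β < γ →
  (∀ x : ℝ, x₀ ≤ x → (({p : ℕ | p ∈ S ∧ (p : ℝ) ≤ x}.ncard : ℕ) : ℝ) ≤ (Real.log x) ^ β) →
  Summable (S.indicator fun n : ℕ => if 3 ≤ n then (Real.log n) ^ (-γ) else 0) ∧
  Summable (S.indicator fun n : ℕ => (n : ℝ) ^ (-1 / 4 : ℝ))

/-- KIL (bounds for the set of primes killed by `p`) -/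
def T_KIL : Prop := ∃ C : ℝ, 0 < C ∧ ∀ P : Finset ℕ, OddPr P → ∃ A : ℝ, 0 ≤ A ∧
  ∀ (p : ℕ) (F : Set ℕ), 0 < p → (∀ ℓ ∈ F, ℓ.Prime ∧ MM P ∣ ℓ + 1) →
  (∀ G : Finset ℕ, 2 ≤ G.card → (∀ ℓ ∈ G, ℓ ∈ F) → ∃ a b c : ℤ, 0 < a ∧
    0 < 4 * a * c - b ^ 2 ∧ (p : ℤ) ∣ 4 * a * c - b ^ 2 ∧ ∀ ℓ ∈ G, Val a b c ℓ) →
  ∀ n : ℕ, 3 ≤ n →
    (((F ∩ Set.Iic n).ncard : ℕ) : ℝ) ≤ 1 + 7 / Real.sqrt p * n ∧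
    (((F ∩ Set.Iic n).ncard : ℕ) : ℝ) ≤ A + 7 * n / (Real.log n) ^ (3 / 2 : ℝ) +
      C / (ph P * (p : ℝ) ^ (1 / 4 : ℝ)) * n / Real.log n

/-- NT -/
def T_NT : Prop := ∀ (S : Set ℕ) (K : ℕ → ℕ → Prop) (P₀ : Finset ℕ), OddPr P₀ →
  (∀ p ∈ S, p.Prime ∧ p ≠ 2) →
  (∀ ε : ℝ, 0 < ε → ∃ L₀ : ℕ, ∀ ℓ : ℕ, L₀ ≤ ℓ → ℓ.Prime → MM P₀ ∣ ℓ + 1 →
    ℓ ∈ S ∨ ∃ p ∈ S, K ℓ p ∧ (p : ℝ) ≤ Real.exp ((ℓ : ℝ) ^ (1 / 2 + ε))) →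
  (∀ ℓ p, K ℓ p → ¬ 8 * p ∣ ℓ + 1) →
  (∀ p ∈ S, ∀ G : Finset ℕ, 2 ≤ G.card →
    (∀ ℓ ∈ G, ℓ.Prime ∧ MM P₀ ∣ ℓ + 1 ∧ K ℓ p) → ∃ a b c : ℤ, 0 < a ∧
    0 < 4 * a * c - b ^ 2 ∧ (p : ℤ) ∣ 4 * a * c - b ^ 2 ∧ ∀ ℓ ∈ G, Val a b c ℓ) →
  ∀ ε : ℝ, 0 < ε → ∀ x₀ : ℝ, ∃ x : ℝ, x₀ ≤ x ∧
    (Real.log x) ^ (2 - ε) ≤ (({p : ℕ | p ∈ S ∧ (p : ℝ) ≤ x}.ncard : ℕ) : ℝ)

end SSN
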