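import Pool.Agent.SSN.Targets

set_option autoImplicit false

/-!
# Trivial bound for primes represented by a reduced form (SSN-TRIV)
-/

open scoped BigOperators
open Finset

namespace SSN

namespace TRIV_

/-- number of integers between two reals -/
theorem card_le (α β : ℝ) (h : α ≤ β) :
    ((Icc ⌈α⌉ ⌊β⌋).card : ℝ) ≤ β - α + 1 := by
  rw [Int.card_Icc]
  have h1 := Int.floor_le β
  have h2 := Int.le_ceil α
  rcases le_total 0 (⌊β⌋ + 1 - ⌈α⌉) with h3 | h3
  · have h4 : (((⌊β⌋ + 1 - ⌈α⌉).toNat : ℤ) : ℝ) = ((⌊β⌋ + 1 - ⌈α⌉ : ℤ) : ℝ) := by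
      rw [Int.toNat_of_nonneg h3]
    rw [Int.cast_natCast] at h4
    rw [h4]
    push_cast
    linarith
  · rw [Int.toNat_of_nonpos h3]
    simp only [Nat.cast_zero]
    linarith

/-- completing the square -/
theorem four_mul (a b c x y : ℤ) (Δ : ℕ) (h : 4 * a * c - b ^ 2 = (Δ : ℤ)) :
    (2 * a * x + b * y) ^ 2 + Δ * y ^ 2 = 4 * a * qf a b c x y := by
  unfold qf
  rw [← h]
  ring

/-- the values with `y = 0` -/
theorem y_zero (a b c x : ℤ) (ha : 0 < a) (ℓ : ℕ) (hp : ℓ.Prime)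
    (h : qf a b c x 0 = ℓ) : ℓ = a.toNat := by
  have h1 : a * x ^ 2 = ℓ := by
    rw [← h]
    unfold qf
    ring
  have h2 : a.toNat * x.natAbs ^ 2 = ℓ := by
    zify
    rw [Int.toNat_of_nonneg ha.le, sq_abs]
    exact h1
  have h3 : x.natAbs ∣ ℓ := by
    rw [← h2]
    exact Dvd.dvd.mul_left (dvd_pow_self _ (by norm_num)) _
  rcases (Nat.dvd_prime hp).1 h3 with h4 | h4
  · rw [h4] at h2
    omega
  · exfalso
    rw [h4] at h2
    have h5 := hp.two_le
    have h6 : 0 < a.toNat := by omega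
    nlinarith [Nat.mul_le_mul h6 (Nat.mul_le_mul h5 (le_refl ℓ))]

end TRIV_

open TRIV_ in
/-- trivial bound -/
theorem p_TRIV : T_TRIV := by
  classical
  intro a b c Δ hr t ht
  obtain ⟨ha, hba, hac, hD, hΔ⟩ := hr
  have haR : (0 : ℝ) < a := by exact_mod_cast ha
  have hΔR : (0 : ℝ) < Δ := by exact_mod_cast hΔ
  set R : ℝ := 2 * Real.sqrt (a * t) with hR
  set Y : ℝ := Real.sqrt (4 * a * t / Δ) with hY
  have hR0 : 0 ≤ R := by positivity
  have hY0 : 0 ≤ Y := Real.sqrt_nonneg _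
  have hat : 0 ≤ (a : ℝ) * t := by positivity
  set F : Finset ℕ := (Icc 1 ⌊Y⌋).biUnion fun y : ℤ =>
    (Icc ⌈(-(b * y : ℝ) - R) / (2 * a)⌉ ⌊(-(b * y : ℝ) + R) / (2 * a)⌋).image
      fun x : ℤ => (qf a b c x y).toNat with hF
  have hsub : {ℓ : ℕ | ℓ.Prime ∧ (ℓ : ℝ) ≤ t ∧ Val a b c ℓ} ⊆
      ((insert a.toNat F : Finset ℕ) : Set ℕ) := by
    rintro ℓ ⟨hp, hℓt, x, y, hxy⟩
    rw [Finset.mem_coe, mem_insert]
    by_cases hy : y = 0
    · left
      subst hy
      exact y_zero a b c x ha ℓ hp hxy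
    · right
      obtain ⟨x', y', hy', hxy'⟩ : ∃ x' y' : ℤ, 1 ≤ y' ∧ qf a b c x' y' = ℓ := by
        rcases lt_or_gt_of_ne hy with h | h
        · refine ⟨-x, -y, by omega, ?_⟩
          rw [← hxy]
          unfold qf
          ring
        · exact ⟨x, y, by omega, hxy⟩
      have h4 := four_mul a b c x' y' Δ hD
      rw [hxy'] at h4
      have h4R : (2 * a * x' + b * y' : ℝ) ^ 2 + Δ * (y' : ℝ) ^ 2 = 4 * a * ℓ := by
        exact_mod_cast h4
      have h5 : (4 * a * ℓ : ℝ) ≤ 4 * (a * t) := by nlinarith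
      have hyY : (y' : ℝ) ≤ Y := by
        rw [hY]
        apply Real.le_sqrt_of_sq_le
        rw [le_div_iff₀ hΔR]
        nlinarith [sq_nonneg (2 * a * x' + b * y' : ℝ)]
      have hxR : |(2 * a * x' + b * y' : ℝ)| ≤ R := by
        apply abs_le_of_sq_le_sq _ hR0
        rw [hR, mul_pow, Real.sq_sqrt hat]
        nlinarith [mul_nonneg hΔR.le (sq_nonneg (y' : ℝ))]
      rw [abs_le] at hxR
      rw [hF, mem_biUnion]
      refine ⟨y', ?_, ?_⟩
      · rw [mem_Icc]
        exact ⟨hy', Int.le_floor.2 hyY⟩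
      · rw [mem_image]
        refine ⟨x', ?_, ?_⟩
        · rw [mem_Icc]
          refine ⟨Int.ceil_le.2 ?_, Int.le_floor.2 ?_⟩
          · rw [div_le_iff₀ (by positivity)]
            linarith [hxR.1]
          · rw [le_div_iff₀ (by positivity)]
            linarith [hxR.2]
        · rw [hxy']
          simp
  have hFc : (F.card : ℝ) ≤ Y * (R / a + 1) := by
    have h1 : F.card ≤ ∑ y ∈ Icc 1 ⌊Y⌋,
        (Icc ⌈(-(b * y : ℝ) - R) / (2 * a)⌉ ⌊(-(b * y : ℝ) + R) / (2 * a)⌋).card := by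
      rw [hF]
      exact card_biUnion_le.trans (sum_le_sum fun y _ => card_image_le)
    have h2 : (F.card : ℝ) ≤ ∑ y ∈ Icc 1 ⌊Y⌋, (R / a + 1) := by
      refine (Nat.cast_le.2 h1).trans ?_
      rw [Nat.cast_sum]
      apply sum_le_sum
      intro y _
      refine (card_le _ _ ?_).trans (le_of_eq ?_)
      · apply div_le_div_of_nonneg_right _ (by positivity)
        linarith
      · field_simp
        ring
    rw [sum_const, Int.card_Icc, nsmul_eq_mul] at h2
    refine h2.trans (mul_le_mul_of_nonneg_right ?_ (by positivity))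
    have h3 : (0 : ℤ) ≤ ⌊Y⌋ := Int.floor_nonneg.2 hY0
    have h4 : (((⌊Y⌋ + 1 - 1).toNat : ℤ) : ℝ) = ((⌊Y⌋ + 1 - 1 : ℤ) : ℝ) := by
      rw [Int.toNat_of_nonneg (by omega)]
    rw [Int.cast_natCast] at h4
    rw [h4]
    push_cast
    linarith [Int.floor_le Y]
  have hsq : Real.sqrt (Δ : ℝ) ^ 2 = Δ := Real.sq_sqrt hΔR.le
  have hsp : 0 < Real.sqrt (Δ : ℝ) := Real.sqrt_pos.2 hΔR
  have hYR : Y * (R / a) = 4 * t / Real.sqrt Δ := by
    rw [hY, hR, Real.sqrt_div (by positivity)]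
    have h1 : Real.sqrt (4 * a * t) = 2 * Real.sqrt (a * t) := by
      rw [show (4 * a * t : ℝ) = 2 ^ 2 * (a * t) by ring, Real.sqrt_mul (by positivity),
        Real.sqrt_sq (by norm_num)]
    rw [h1]
    have h2 : Real.sqrt ((a : ℝ) * t) * Real.sqrt (a * t) = a * t := Real.mul_self_sqrt hat
    field_simp
    nlinarith [h2]
  have hFc2 : (F.card : ℝ) ≤ 7 * t / Real.sqrt Δ := by
    by_cases hY1 : Y < 1
    · have h1 : ⌊Y⌋ < 1 := by
        rw [Int.floor_lt]
        exact_mod_cast hY1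
      have h2 : F = ∅ := by
        rw [hF, Icc_eq_empty (by omega), biUnion_empty]
      rw [h2]
      simp only [card_empty, Nat.cast_zero]
      positivity
    · push Not at hY1
      have h1 : (1 : ℝ) ≤ 4 * a * t / Δ := by
        by_contra hcon
        push Not at hcon
        have : Y < 1 := by
          rw [hY, Real.sqrt_lt' one_pos, one_pow]
          exact hcon
        linarith
      rw [le_div_iff₀ hΔR, one_mul] at h1
      have h3 : (3 * a ^ 2 : ℤ) ≤ Δ := by
        rw [← hD]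
        have : b ^ 2 ≤ a ^ 2 := sq_le_sq' (by linarith [neg_abs_le b]) (by linarith [le_abs_self b])
        nlinarith
      have h3R : (3 * a ^ 2 : ℝ) ≤ Δ := by exact_mod_cast h3
      have h4 : 3 * (a : ℝ) ≤ 4 * t := by
        have h5 : (a : ℝ) * (3 * a) ≤ a * (4 * t) := by nlinarith
        exact le_of_mul_le_mul_left h5 haR
      have h6 : Y ≤ 3 * t / Real.sqrt Δ := by
        rw [hY]
        apply Real.sqrt_le_iff.2
        refine ⟨by positivity, ?_⟩
        rw [div_pow, hsq]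
        apply div_le_div_of_nonneg_right _ hΔR.le
        nlinarith
      calc (F.card : ℝ) ≤ Y * (R / a + 1) := hFc
        _ = Y * (R / a) + Y := by ring
        _ ≤ 4 * t / Real.sqrt Δ + 3 * t / Real.sqrt Δ := by rw [hYR]; linarith
        _ = 7 * t / Real.sqrt Δ := by ring
  refine ⟨(Finset.finite_toSet _).subset hsub, ?_⟩
  have h7 : ({ℓ : ℕ | ℓ.Prime ∧ (ℓ : ℝ) ≤ t ∧ Val a b c ℓ}.ncard : ℝ) ≤
      ((insert a.toNat F).card : ℝ) := by
    have := Set.ncard_le_ncard hsub (Finset.finite_toSet _)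
    rw [Set.ncard_coe_finset] at this
    exact_mod_cast this
  have h8 : ((insert a.toNat F).card : ℝ) ≤ F.card + 1 := by
    exact_mod_cast card_insert_le _ _
  linarith

end SSN
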