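import Pool.Agent.SSN.Targets

/-!
# ROOT: zeros of `Q` and of `Q + 1` mod `p`
-/

open scoped BigOperators
open Finset

namespace SSN

namespace ROOT_

variable {p : ℕ} [Fact p.Prime]

theorem rc (hp : p ≠ 2) : ringChar (ZMod p) ≠ 2 := by
  rwa [ZMod.ringChar_zmod_n]

theorem two_ne (hp : p ≠ 2) : (2 : ZMod p) ≠ 0 :=
  Ring.two_ne_zero (rc hp)

/-- Jacobsthal sum -/
theorem jac (hp : p ≠ 2) (u d : ZMod p) (hu : u ≠ 0) (hd : d ≠ 0) :
    ∑ y : ZMod p, quadraticChar (ZMod p) (u + d * y ^ 2) = -quadraticChar (ZMod p) d := by
  classical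
  have h1 : ∑ y : ZMod p, quadraticChar (ZMod p) (u + d * y ^ 2) =
      ∑ z : ZMod p, (quadraticChar (ZMod p) z + 1) * quadraticChar (ZMod p) (u + d * z) := by
    rw [← Finset.sum_fiberwise univ (fun y : ZMod p => y ^ 2)]
    refine Finset.sum_congr rfl fun z _ => ?_
    have h2 : ∑ y ∈ univ.filter (fun y : ZMod p => y ^ 2 = z),
        quadraticChar (ZMod p) (u + d * y ^ 2) =
        ∑ y ∈ univ.filter (fun y : ZMod p => y ^ 2 = z), quadraticChar (ZMod p) (u + d * z) := by
      refine Finset.sum_congr rfl fun y hy => ?_
      rw [(Finset.mem_filter.1 hy).2]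
    rw [h2, Finset.sum_const, nsmul_eq_mul]
    congr 1
    rw [← quadraticChar_card_sqrts (rc hp) z]
    congr 2
    ext y
    simp
  have h3 : ∀ z : ZMod p, quadraticChar (ZMod p) z * quadraticChar (ZMod p) (u + d * z) =
      quadraticChar (ZMod p) (u * z⁻¹ + d) - if z = 0 then quadraticChar (ZMod p) d else 0 := by
    intro z
    by_cases hz : z = 0
    · subst hz
      simp
    · rw [if_neg hz, sub_zero, ← map_mul]
      have e : z * (u + d * z) = z ^ 2 * (u * z⁻¹ + d) := by
        field_simp
      rw [e, map_mul, map_pow, quadraticChar_sq_one hz, one_mul]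
  have h4 : ∑ z : ZMod p, quadraticChar (ZMod p) (u + d * z) = 0 := by
    rw [← quadraticChar_sum_zero (rc hp)]
    refine Function.Bijective.sum_comp (g := fun z => quadraticChar (ZMod p) z)
      (e := fun z => u + d * z) ?_
    refine Finite.injective_iff_bijective.1 fun x y h => ?_
    exact mul_left_cancel₀ hd (add_left_cancel h)
  have h5 : ∑ z : ZMod p, quadraticChar (ZMod p) (u * z⁻¹ + d) = 0 := by
    rw [← quadraticChar_sum_zero (rc hp)]
    refine Function.Bijective.sum_comp (g := fun z => quadraticChar (ZMod p) z)
      (e := fun z => u * z⁻¹ + d) ?_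
    refine Finite.injective_iff_bijective.1 fun x y h => ?_
    exact inv_injective (mul_left_cancel₀ hu (add_right_cancel h))
  rw [h1]
  have h6 : ∀ z : ZMod p, (quadraticChar (ZMod p) z + 1) * quadraticChar (ZMod p) (u + d * z) =
      quadraticChar (ZMod p) (u * z⁻¹ + d) - (if z = 0 then quadraticChar (ZMod p) d else 0) +
      quadraticChar (ZMod p) (u + d * z) := by
    intro z
    rw [add_mul, h3, one_mul]
  rw [Finset.sum_congr rfl fun z _ => h6 z, Finset.sum_add_distrib, Finset.sum_sub_distrib, h4, h5]
  simp

/-- fibrewise count -/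
theorem fib (a b c n : ZMod p) :
    (Nat.card {P : ZMod p × ZMod p // a * P.1 ^ 2 + b * P.1 * P.2 + c * P.2 ^ 2 = n} : ℤ) =
      ∑ y : ZMod p, ((univ.filter fun x : ZMod p =>
        a * x ^ 2 + b * x * y + c * y ^ 2 = n).card : ℤ) := by
  classical
  rw [Nat.card_eq_fintype_card, Fintype.card_subtype, Finset.card_filter,
    Fintype.sum_prod_type_right, Nat.cast_sum]
  refine Finset.sum_congr rfl fun y _ => ?_
  rw [Finset.card_filter]

/-- fibrewise count in the other direction -/
theorem fib' (a b c n : ZMod p) :
    (Nat.card {P : ZMod p × ZMod p // a * P.1 ^ 2 + b * P.1 * P.2 + c * P.2 ^ 2 = n} : ℤ) =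
      ∑ x : ZMod p, ((univ.filter fun y : ZMod p =>
        a * x ^ 2 + b * x * y + c * y ^ 2 = n).card : ℤ) := by
  classical
  rw [Nat.card_eq_fintype_card, Fintype.card_subtype, Finset.card_filter,
    Fintype.sum_prod_type, Nat.cast_sum]
  refine Finset.sum_congr rfl fun y _ => ?_
  rw [Finset.card_filter]

/-- one fibre for `a ≠ 0` -/
theorem fibre (hp : p ≠ 2) (a b c n y : ZMod p) (ha : a ≠ 0) :
    ((univ.filter fun x : ZMod p => a * x ^ 2 + b * x * y + c * y ^ 2 = n).card : ℤ) =
      quadraticChar (ZMod p) (4 * a * n + (-(4 * a * c - b ^ 2)) * y ^ 2) + 1 := by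
  classical
  rw [← quadraticChar_card_sqrts (rc hp)]
  congr 1
  have h2 := two_ne hp
  have h4 : (4 : ZMod p) * a ≠ 0 := by
    have : (4 : ZMod p) = 2 * 2 := by norm_num
    rw [this]
    exact mul_ne_zero (mul_ne_zero h2 h2) ha
  refine Finset.card_bij (fun x _ => 2 * a * x + b * y) ?_ ?_ ?_
  · intro x hx
    rw [Finset.mem_filter] at hx
    simp only [Set.mem_toFinset, Set.mem_ofPred_eq]
    rw [← hx.2]
    ring
  · intro x _ x' _ h
    have : 2 * a * x = 2 * a * x' := add_right_cancel h
    exact mul_left_cancel₀ (mul_ne_zero h2 ha) this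
  · intro X hX
    simp only [Set.mem_toFinset, Set.mem_ofPred_eq] at hX
    refine ⟨(X - b * y) / (2 * a), ?_, ?_⟩
    · rw [Finset.mem_filter]
      refine ⟨Finset.mem_univ _, ?_⟩
      refine mul_left_cancel₀ h4 ?_
      have e : X = 2 * a * ((X - b * y) / (2 * a)) + b * y := by
        field_simp
        ring
      set x := (X - b * y) / (2 * a)
      rw [e] at hX
      linear_combination hX
    · field_simp
      ring

end ROOT_

theorem p_ROOT : T_ROOT := by
  classical
  intro a b c Δ hR p hp hp2
  have : Fact p.Prime := ⟨hp⟩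
  have hΔ : (((Δ : ℤ) : ZMod p)) = 4 * a * c - b ^ 2 := by
    rw [← hR.2.2.2.1]
    push_cast
    ring
  have hch : ch Δ p = quadraticChar (ZMod p) (-(4 * (a : ZMod p) * c - b ^ 2)) := by
    have hodd : ¬ Even p := by
      intro h
      exact hp2 ((Nat.Prime.even_iff hp).1 h)
    rw [ch, if_neg hodd, ← jacobiSym.legendreSym.to_jacobiSym, legendreSym, ← hΔ]
    push_cast
    rfl
  have hpc : ∑ y : ZMod p, (1 : ℤ) = p := by
    rw [Finset.sum_const, Finset.card_univ, ZMod.card]
    simp
  have hχle : ∀ x : ZMod p, quadraticChar (ZMod p) x ≤ 1 := by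
    intro x
    by_cases hx : x = 0
    · rw [hx]; simp
    · rcases quadraticChar_dichotomy hx with h | h <;> rw [h]; norm_num
  have h2 := ROOT_.two_ne (p := p) hp2
  have h4 : (4 : ZMod p) ≠ 0 := by
    have : (4 : ZMod p) = 2 * 2 := by norm_num
    rw [this]
    exact mul_ne_zero h2 h2
  constructor
  · intro hpΔ
    have hd : (4 * (a : ZMod p) * c - b ^ 2) ≠ 0 := by
      rw [← hΔ]
      intro h
      rw [Int.cast_natCast, ZMod.natCast_eq_zero_iff] at h
      exact hpΔ h
    by_cases ha : (a : ZMod p) = 0
    · -- `a = 0`
      have hb : (b : ZMod p) ≠ 0 := by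
        intro h
        rw [ha, h] at hd
        simp at hd
      have hch1 : ch Δ p = 1 := by
        rw [hch, ha]
        have : (-(4 * (0 : ZMod p) * c - (b : ZMod p) ^ 2)) = (b : ZMod p) ^ 2 := by ring
        rw [this, map_pow, quadraticChar_sq_one hb]
      have hfib : ∀ n y : ZMod p, ((univ.filter fun x : ZMod p =>
          (a : ZMod p) * x ^ 2 + b * x * y + c * y ^ 2 = n).card : ℤ) =
          if y = 0 then (if n = 0 then (p : ℤ) else 0) else 1 := by
        intro n y
        by_cases hy : y = 0
        · subst hy
          rw [if_pos rfl]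
          by_cases hn : n = 0
          · subst hn
            rw [if_pos rfl, Finset.filter_true_of_mem, Finset.card_univ, ZMod.card]
            intro x _
            rw [ha]; ring
          · rw [if_neg hn, Finset.filter_false_of_mem]
            · simp
            · intro x _ h
              apply hn
              rw [← h, ha]; ring
        · rw [if_neg hy]
          have : (univ.filter fun x : ZMod p =>
              (a : ZMod p) * x ^ 2 + b * x * y + c * y ^ 2 = n) =
              {(n - c * y ^ 2) / (b * y)} := by
            ext x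
            rw [Finset.mem_filter, Finset.mem_singleton, ha, eq_div_iff (mul_ne_zero hb hy)]
            constructor
            · rintro ⟨_, h⟩
              rw [← h]; ring
            · intro h
              refine ⟨Finset.mem_univ _, ?_⟩
              linear_combination h
          rw [this]
          simp
      constructor
      · have h := ROOT_.fib (a : ZMod p) b c 0
        have e : ∑ y : ZMod p, ((univ.filter fun x : ZMod p =>
            (a : ZMod p) * x ^ 2 + b * x * y + c * y ^ 2 = 0).card : ℤ) = 2 * p - 1 := by
          rw [Finset.sum_congr rfl fun y _ => hfib 0 y]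
          have : ∀ y : ZMod p, (if y = 0 then (if (0 : ZMod p) = 0 then (p : ℤ) else 0) else 1) =
              1 + if y = 0 then (p : ℤ) - 1 else 0 := by
            intro y
            by_cases hy : y = 0 <;> simp [hy]
          rw [Finset.sum_congr rfl fun y _ => this y, Finset.sum_add_distrib, hpc]
          simp
          ring
        rw [e] at h
        have h' : (Nat.card {P : ZMod p × ZMod p //
            (a : ZMod p) * P.1 ^ 2 + b * P.1 * P.2 + c * P.2 ^ 2 = 0} : ℝ) = 2 * p - 1 := by
          exact_mod_cast h
        rw [h', zr, hch1]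
        push_cast
        ring
      · have h := ROOT_.fib (a : ZMod p) b c (-1)
        have e : ∑ y : ZMod p, ((univ.filter fun x : ZMod p =>
            (a : ZMod p) * x ^ 2 + b * x * y + c * y ^ 2 = -1).card : ℤ) = p - 1 := by
          rw [Finset.sum_congr rfl fun y _ => hfib (-1) y]
          have : ∀ y : ZMod p, (if y = 0 then (if (-1 : ZMod p) = 0 then (p : ℤ) else 0) else 1) =
              1 + if y = 0 then (-1 : ℤ) else 0 := by
            intro y
            by_cases hy : y = 0 <;> simp [hy]
          rw [Finset.sum_congr rfl fun y _ => this y, Finset.sum_add_distrib, hpc]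
          simp
          ring
        rw [e] at h
        have h' : (Nat.card {P : ZMod p × ZMod p //
            (a : ZMod p) * P.1 ^ 2 + b * P.1 * P.2 + c * P.2 ^ 2 = -1} : ℝ) = p - 1 := by
          exact_mod_cast h
        rw [h', hch1]
        push_cast
        ring
    · -- `a ≠ 0`
      constructor
      · have h := ROOT_.fib (a : ZMod p) b c 0
        have e : ∑ y : ZMod p, ((univ.filter fun x : ZMod p =>
            (a : ZMod p) * x ^ 2 + b * x * y + c * y ^ 2 = 0).card : ℤ) =
            p + (p - 1) * ch Δ p := by
          rw [Finset.sum_congr rfl fun y _ => ROOT_.fibre hp2 (a : ZMod p) b c 0 y ha, hch]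
          have : ∀ y : ZMod p, quadraticChar (ZMod p) (4 * (a : ZMod p) * 0 +
              (-(4 * (a : ZMod p) * c - b ^ 2)) * y ^ 2) + 1 =
              1 + (quadraticChar (ZMod p) (-(4 * (a : ZMod p) * c - b ^ 2)) -
                if y = 0 then quadraticChar (ZMod p) (-(4 * (a : ZMod p) * c - b ^ 2)) else 0) := by
            intro y
            by_cases hy : y = 0
            · subst hy; simp
            · rw [if_neg hy, mul_zero, zero_add, map_mul, map_pow, quadraticChar_sq_one hy]
              ring
          rw [Finset.sum_congr rfl fun y _ => this y, Finset.sum_add_distrib, hpc,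
            Finset.sum_sub_distrib, Finset.sum_const, Finset.card_univ, ZMod.card]
          simp
          ring
        rw [e] at h
        have h' : (Nat.card {P : ZMod p × ZMod p //
            (a : ZMod p) * P.1 ^ 2 + b * P.1 * P.2 + c * P.2 ^ 2 = 0} : ℝ) =
            p + (p - 1) * ch Δ p := by
          exact_mod_cast h
        rw [h', zr]
        ring
      · have h := ROOT_.fib (a : ZMod p) b c (-1)
        have e : ∑ y : ZMod p, ((univ.filter fun x : ZMod p =>
            (a : ZMod p) * x ^ 2 + b * x * y + c * y ^ 2 = -1).card : ℤ) = p - ch Δ p := by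
          rw [Finset.sum_congr rfl fun y _ => ROOT_.fibre hp2 (a : ZMod p) b c (-1) y ha, hch,
            Finset.sum_add_distrib, hpc, ROOT_.jac hp2 _ _ ?_ (neg_ne_zero.2 hd)]
          · ring
          · exact mul_ne_zero (mul_ne_zero h4 ha) (neg_ne_zero.2 one_ne_zero)
        rw [e] at h
        exact_mod_cast h
  · intro hpΔ
    have hd : (4 * (a : ZMod p) * c - b ^ 2) = 0 := by
      rw [← hΔ, Int.cast_natCast, ZMod.natCast_eq_zero_iff]
      exact hpΔ
    have key : (Nat.card {P : ZMod p × ZMod p //
        (a : ZMod p) * P.1 ^ 2 + b * P.1 * P.2 + c * P.2 ^ 2 = -1} : ℤ) ≤ 2 * p := by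
      have hs : ∑ y : ZMod p, (2 : ℤ) = 2 * p := by
        rw [Finset.sum_const, Finset.card_univ, ZMod.card]
        simp [mul_comm]
      by_cases ha : (a : ZMod p) = 0
      · have hb : (b : ZMod p) = 0 := by
          rw [ha] at hd
          have : (b : ZMod p) ^ 2 = 0 := by linear_combination -hd
          exact pow_eq_zero_iff two_ne_zero |>.1 this
        rw [ROOT_.fib', ← hs]
        refine Finset.sum_le_sum fun x _ => ?_
        by_cases hc : (c : ZMod p) = 0
        · rw [Finset.filter_false_of_mem]
          · simp
          · intro y _ h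
            rw [ha, hb, hc] at h
            have : (1 : ZMod p) = 0 := by linear_combination h
            exact one_ne_zero this
        · have h1 := quadraticChar_card_sqrts (ROOT_.rc hp2) (-(c : ZMod p)⁻¹)
          have h3 : ((univ.filter fun y : ZMod p =>
              (a : ZMod p) * x ^ 2 + b * x * y + c * y ^ 2 = -1).card : ℤ) =
              ({y : ZMod p | y ^ 2 = -(c : ZMod p)⁻¹}.toFinset.card : ℤ) := by
            congr 2
            ext y
            simp only [Finset.mem_filter, Finset.mem_univ, true_and, Set.mem_toFinset,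
              Set.mem_ofPred_eq, ha, hb]
            constructor
            · intro h
              field_simp
              linear_combination h
            · intro h
              rw [h]
              field_simp
              ring
          rw [h3, h1]
          have := hχle (-(c : ZMod p)⁻¹)
          linarith
      · rw [ROOT_.fib, ← hs]
        refine Finset.sum_le_sum fun y _ => ?_
        rw [ROOT_.fibre hp2 (a : ZMod p) b c (-1) y ha]
        have := hχle (4 * (a : ZMod p) * (-1) + (-(4 * (a : ZMod p) * c - b ^ 2)) * y ^ 2)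
        linarith
    exact_mod_cast key

end SSN
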