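import Pool.Agent.SSN.Targets

/-!
# LBD: bounds for Dirichlet `L`-functions by partial summation
-/

open scoped BigOperators Topology
open Finset

namespace SSN

namespace LBD_

/-- sums of a function on `ZMod q` with mean zero over initial segments -/
theorem norm_sum_range_le {q : ℕ} [NeZero q] (g : ZMod q → ℂ) (hg : ∑ x, g x = 0)
    (hb : ∀ x, ‖g x‖ ≤ 1) (m : ℕ) : ‖∑ k ∈ range m, g (k : ZMod q)‖ ≤ q := by
  have hq : 0 < q := Nat.pos_of_ne_zero (NeZero.ne q)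
  have h1 : ∑ k ∈ range q, g (k : ZMod q) = 0 := by
    rw [← hg]
    refine Finset.sum_nbij' (fun k => (k : ZMod q)) (fun x => x.val) ?_ ?_ ?_ ?_ ?_
    · intro k _; exact Finset.mem_univ _
    · intro x _; exact Finset.mem_range.2 (ZMod.val_lt x)
    · intro k hk; exact ZMod.val_cast_of_lt (Finset.mem_range.1 hk)
    · intro x _; exact ZMod.natCast_zmod_val x
    · intro k _; rfl
  have h2 : ∀ a : ℕ, ∑ k ∈ range (q * a), g (k : ZMod q) = 0 := by
    intro a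
    induction a with
    | zero => simp
    | succ a ih =>
      rw [Nat.mul_succ, Finset.sum_range_add, ih, zero_add, ← h1]
      refine Finset.sum_congr rfl (fun k _ => ?_)
      congr 1
      push_cast
      simp
  have h3 : m = q * (m / q) + m % q := (Nat.div_add_mod m q).symm
  rw [h3, Finset.sum_range_add, h2, zero_add]
  calc ‖∑ k ∈ range (m % q), g ((q * (m / q) + k : ℕ) : ZMod q)‖
      ≤ ∑ k ∈ range (m % q), ‖g ((q * (m / q) + k : ℕ) : ZMod q)‖ := norm_sum_le _ _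
    _ ≤ ∑ k ∈ range (m % q), (1 : ℝ) := Finset.sum_le_sum (fun k _ => hb _)
    _ = ((m % q : ℕ) : ℝ) := by simp
    _ ≤ q := by exact_mod_cast (Nat.mod_lt m hq).le

/-- partial sums of a character -/
noncomputable def AA {q : ℕ} (χ : DirichletCharacter ℂ q) (m : ℕ) : ℂ :=
  ∑ k ∈ range m, χ ((k + 1 : ℕ) : ZMod q)

theorem norm_AA {q : ℕ} [NeZero q] {χ : DirichletCharacter ℂ q} (hχ : χ ≠ 1) (m : ℕ) :
    ‖AA χ m‖ ≤ q := by
  have h1 : ∑ x : ZMod q, χ (x + 1) = 0 := by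
    have := Equiv.sum_comp (Equiv.addRight (1 : ZMod q)) (fun x => χ x)
    simp only [Equiv.coe_addRight] at this
    rw [this]
    exact MulChar.sum_eq_zero_of_ne_one hχ
  have h2 := norm_sum_range_le (fun x : ZMod q => χ (x + 1)) h1
    (fun x => DirichletCharacter.norm_le_one χ _) m
  unfold AA
  convert h2 using 3
  push_cast
  rfl

/-- the fine bound for the differences of `t ↦ t ^ (-s)` -/
theorem norm_diff_le {s : ℂ} (hs : 0 < s.re) {a : ℝ} (ha : 0 < a) {b : ℝ} (hab : a ≤ b) :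
    ‖((a : ℝ) : ℂ) ^ (-s) - ((b : ℝ) : ℂ) ^ (-s)‖ ≤
      ‖s‖ / s.re * (a ^ (-s.re) - b ^ (-s.re)) := by
  have hs0 : s ≠ 0 := by
    intro h; rw [h] at hs; simp at hs
  have hd : ∀ x : ℝ, 0 < x →
      HasDerivAt (fun x : ℝ => (x : ℂ) ^ (-s) - (a : ℂ) ^ (-s)) (-s * (x : ℂ) ^ (-s - 1)) x := by
    intro x hx
    have h1 := hasDerivAt_ofReal_cpow_const (x := x) hx.ne' (r := -s) (neg_ne_zero.2 hs0)
    exact h1.sub_const _
  have hB : ∀ x : ℝ, 0 < x →
      HasDerivAt (fun x : ℝ => ‖s‖ / s.re * (a ^ (-s.re) - x ^ (-s.re)))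
        (‖s‖ * x ^ (-s.re - 1)) x := by
    intro x hx
    have h1 := Real.hasDerivAt_rpow_const (x := x) (p := -s.re) (Or.inl hx.ne')
    have h2 := (h1.const_sub (a ^ (-s.re))).const_mul (‖s‖ / s.re)
    have h3 : ‖s‖ / s.re * -(-s.re * x ^ (-s.re - 1)) = ‖s‖ * x ^ (-s.re - 1) := by
      have h4 : s.re ≠ 0 := hs.ne'
      rw [neg_mul, neg_neg, ← mul_assoc, div_mul_cancel₀ _ h4]
    rw [← h3]
    exact h2
  have key := image_norm_le_of_norm_deriv_right_le_deriv_boundary'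
    (f := fun x : ℝ => (x : ℂ) ^ (-s) - (a : ℂ) ^ (-s)) (a := a) (b := b)
    (f' := fun x : ℝ => -s * (x : ℂ) ^ (-s - 1))
    (B := fun x : ℝ => ‖s‖ / s.re * (a ^ (-s.re) - x ^ (-s.re)))
    (B' := fun x : ℝ => ‖s‖ * x ^ (-s.re - 1))
    (fun x hx => (hd x (ha.trans_le hx.1)).continuousAt.continuousWithinAt)
    (fun x hx => (hd x (ha.trans_le hx.1)).hasDerivWithinAt)
    (by simp)
    (fun x hx => (hB x (ha.trans_le hx.1)).continuousAt.continuousWithinAt)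
    (fun x hx => (hB x (ha.trans_le hx.1)).hasDerivWithinAt)
    (fun x hx => by
      have hx0 : 0 < x := ha.trans_le hx.1
      rw [norm_mul, norm_neg, Complex.norm_cpow_eq_rpow_re_of_pos hx0]
      simp)
    (x := b) ⟨hab, le_rfl⟩
  rw [norm_sub_rev]
  exact key

/-- the crude bound for the differences of `t ↦ t ^ (-s)` -/
theorem norm_diff_le' {s : ℂ} (hs : 0 < s.re) {a : ℝ} (ha : 0 < a) :
    ‖((a : ℝ) : ℂ) ^ (-s) - (((a + 1 : ℝ)) : ℂ) ^ (-s)‖ ≤ ‖s‖ * a ^ (-s.re - 1) := by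
  have hs0 : s ≠ 0 := by
    intro h; rw [h] at hs; simp at hs
  have hd : ∀ x ∈ Set.Icc a (a + 1),
      HasDerivWithinAt (fun x : ℝ => (x : ℂ) ^ (-s)) (-s * (x : ℂ) ^ (-s - 1))
        (Set.Icc a (a + 1)) x := by
    intro x hx
    have hx0 : 0 < x := ha.trans_le hx.1
    exact (hasDerivAt_ofReal_cpow_const (x := x) hx0.ne' (r := -s)
      (neg_ne_zero.2 hs0)).hasDerivWithinAt
  have key := Convex.norm_image_sub_le_of_norm_hasDerivWithin_le
    (f := fun x : ℝ => (x : ℂ) ^ (-s)) (f' := fun x : ℝ => -s * (x : ℂ) ^ (-s - 1))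
    (C := ‖s‖ * a ^ (-s.re - 1)) hd
    (fun x hx => by
      have hx0 : 0 < x := ha.trans_le hx.1
      rw [norm_mul, norm_neg, Complex.norm_cpow_eq_rpow_re_of_pos hx0]
      refine mul_le_mul_of_nonneg_left ?_ (norm_nonneg _)
      have : (-s - 1).re = -s.re - 1 := by simp
      rw [this]
      exact Real.rpow_le_rpow_of_nonpos ha hx.1 (by linarith))
    (convex_Icc a (a + 1)) (x := a) (y := a + 1) ⟨le_rfl, by linarith⟩ ⟨by linarith, le_rfl⟩
  rw [norm_sub_rev]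
  simpa using key

/-- the `n`-th term -/
noncomputable def tm {q : ℕ} (χ : DirichletCharacter ℂ q) (n : ℕ) (s : ℂ) : ℂ :=
  AA χ (n + 1) * (((n + 1 : ℕ) : ℂ) ^ (-s) - ((n + 2 : ℕ) : ℂ) ^ (-s))

theorem norm_tm_le {q : ℕ} [NeZero q] {χ : DirichletCharacter ℂ q} (hχ : χ ≠ 1) (n : ℕ) {s : ℂ}
    (hs : 0 < s.re) : ‖tm χ n s‖ ≤ q * (‖s‖ / s.re) *
      ((((n + 1 : ℕ)) : ℝ) ^ (-s.re) - ((n + 1 + 1 : ℕ) : ℝ) ^ (-s.re)) := by
  unfold tm
  rw [norm_mul, mul_assoc]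
  refine mul_le_mul (norm_AA hχ _) ?_ (norm_nonneg _) (by positivity)
  have h := norm_diff_le hs (a := ((n + 1 : ℕ) : ℝ)) (by positivity)
    (b := ((n + 1 + 1 : ℕ) : ℝ)) (by push_cast; linarith)
  simpa only [Complex.ofReal_natCast] using h

theorem norm_tm_le' {q : ℕ} [NeZero q] {χ : DirichletCharacter ℂ q} (hχ : χ ≠ 1) (n : ℕ) {s : ℂ}
    (hs : 0 < s.re) : ‖tm χ n s‖ ≤ q * (‖s‖ * ((n + 1 : ℕ) : ℝ) ^ (-s.re - 1)) := by
  unfold tm
  rw [norm_mul]
  refine mul_le_mul (norm_AA hχ _) ?_ (norm_nonneg _) (by positivity)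
  have h := norm_diff_le' hs (a := ((n + 1 : ℕ) : ℝ)) (by positivity)
  have e : ((((n + 1 : ℕ) : ℝ) + 1 : ℝ) : ℂ) = ((n + 2 : ℕ) : ℂ) := by push_cast; ring
  rw [e] at h
  simpa only [Complex.ofReal_natCast] using h

/-- telescoping sums -/
theorem hasSum_tele {f : ℕ → ℝ} (h : Filter.Tendsto f Filter.atTop (𝓝 0))
    (hf : ∀ n, f (n + 1) ≤ f n) : HasSum (fun n => f n - f (n + 1)) (f 0) := by
  rw [hasSum_iff_tendsto_nat_of_nonneg (fun n => sub_nonneg.2 (hf n))]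
  have h1 : ∀ n, ∑ i ∈ range n, (f i - f (i + 1)) = f 0 - f n := fun n =>
    Finset.sum_range_sub' f n
  simp_rw [h1]
  simpa using (tendsto_const_nhds (x := f 0)).sub h

theorem hasSum_rpow {σ : ℝ} (hσ : 0 < σ) (N : ℕ) :
    HasSum (fun n : ℕ => (((n + N + 1 : ℕ)) : ℝ) ^ (-σ) - ((n + N + 1 + 1 : ℕ) : ℝ) ^ (-σ))
      (((N + 1 : ℕ) : ℝ) ^ (-σ)) := by
  have h := hasSum_tele (f := fun n : ℕ => (((n + N + 1 : ℕ)) : ℝ) ^ (-σ)) ?_ ?_
  · convert h using 3
    · push_cast; ring_nf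
    · simp
  · have h1 := (tendsto_rpow_neg_atTop hσ).comp (tendsto_natCast_atTop_atTop (R := ℝ))
    exact h1.comp (Filter.tendsto_add_atTop_nat (N + 1))
  · intro n
    exact Real.rpow_le_rpow_of_nonpos (by positivity) (by push_cast; linarith) (by linarith)

/-- the analytic continuation by partial summation -/
noncomputable def FF {q : ℕ} (χ : DirichletCharacter ℂ q) (s : ℂ) : ℂ := ∑' n, tm χ n s

theorem summable_tm {q : ℕ} [NeZero q] {χ : DirichletCharacter ℂ q} (hχ : χ ≠ 1) {s : ℂ}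
    (hs : 0 < s.re) : Summable (fun n => ‖tm χ n s‖) := by
  have h := (hasSum_rpow hs 0).summable.mul_left (q * (‖s‖ / s.re))
  refine Summable.of_nonneg_of_le (fun n => norm_nonneg _) (fun n => ?_) h
  simpa using norm_tm_le hχ n hs

theorem norm_tail_le {q : ℕ} [NeZero q] {χ : DirichletCharacter ℂ q} (hχ : χ ≠ 1) {s : ℂ}
    (hs : 0 < s.re) (N : ℕ) :
    ‖∑' n, tm χ (n + N) s‖ ≤ q * (‖s‖ / s.re) * ((N + 1 : ℕ) : ℝ) ^ (-s.re) := by
  have h := (hasSum_rpow hs N).mul_left (q * (‖s‖ / s.re))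
  exact tsum_of_norm_bounded h (fun n => norm_tm_le hχ (n + N) hs)

theorem norm_FF_le {q : ℕ} [NeZero q] {χ : DirichletCharacter ℂ q} (hχ : χ ≠ 1) {s : ℂ}
    (hs : 0 < s.re) : ‖FF χ s‖ ≤ q * ‖s‖ / s.re := by
  have h := norm_tail_le hχ hs 0
  simpa [FF, mul_div_assoc] using h

/-- summation by parts -/
theorem sum_parts {q : ℕ} (χ : DirichletCharacter ℂ q) (s : ℂ) (N : ℕ) :
    ∑ n ∈ range N, χ ((n + 1 : ℕ) : ZMod q) * ((n + 1 : ℕ) : ℂ) ^ (-s) =
      ∑ n ∈ range N, tm χ n s + AA χ N * ((N + 1 : ℕ) : ℂ) ^ (-s) := by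
  induction N with
  | zero => simp [AA]
  | succ N ih =>
    rw [Finset.sum_range_succ, Finset.sum_range_succ, ih]
    have h1 : AA χ (N + 1) = AA χ N + χ ((N + 1 : ℕ) : ZMod q) := by
      unfold AA; rw [Finset.sum_range_succ]
    unfold tm
    rw [h1]
    have h2 : ((N + 1 + 1 : ℕ) : ℂ) = ((N + 2 : ℕ) : ℂ) := by push_cast; ring
    rw [h2]
    ring

theorem norm_boundary_le {q : ℕ} [NeZero q] {χ : DirichletCharacter ℂ q} (hχ : χ ≠ 1) (s : ℂ)
    (N : ℕ) : ‖AA χ N * ((N + 1 : ℕ) : ℂ) ^ (-s)‖ ≤ q * ((N + 1 : ℕ) : ℝ) ^ (-s.re) := by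
  rw [norm_mul]
  refine mul_le_mul (norm_AA hχ _) ?_ (norm_nonneg _) (by positivity)
  have h : ‖((((N + 1 : ℕ) : ℝ)) : ℂ) ^ (-s)‖ = ((N + 1 : ℕ) : ℝ) ^ (-s).re :=
    Complex.norm_cpow_eq_rpow_re_of_pos (by positivity) _
  rw [Complex.ofReal_natCast] at h
  rw [h]
  simp

theorem tendsto_partial {q : ℕ} [NeZero q] {χ : DirichletCharacter ℂ q} (hχ : χ ≠ 1) {s : ℂ}
    (hs : 0 < s.re) :
    Filter.Tendsto (fun N : ℕ => ∑ n ∈ range N, χ ((n + 1 : ℕ) : ZMod q) * ((n + 1 : ℕ) : ℂ) ^ (-s))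
      Filter.atTop (𝓝 (FF χ s)) := by
  have h1 : Filter.Tendsto (fun N : ℕ => ∑ n ∈ range N, tm χ n s) Filter.atTop (𝓝 (FF χ s)) :=
    (summable_tm hχ hs).of_norm.hasSum.tendsto_sum_nat
  have h2 : Filter.Tendsto (fun N : ℕ => AA χ N * ((N + 1 : ℕ) : ℂ) ^ (-s)) Filter.atTop (𝓝 0) := by
    refine squeeze_zero_norm (norm_boundary_le hχ s) ?_
    have h3 := (tendsto_rpow_neg_atTop hs).comp (tendsto_natCast_atTop_atTop (R := ℝ))
    have h4 := (h3.comp (Filter.tendsto_add_atTop_nat 1)).const_mul (q : ℝ)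
    simpa using h4
  have h3 := h1.add h2
  rw [add_zero] at h3
  refine h3.congr (fun N => (sum_parts χ s N).symm)

theorem FF_eq_of_one_lt {q : ℕ} [NeZero q] {χ : DirichletCharacter ℂ q} (hχ : χ ≠ 1) {s : ℂ}
    (hs : 1 < s.re) : χ.LFunction s = FF χ s := by
  rw [DirichletCharacter.LFunction_eq_LSeries χ hs]
  have h1 : LSeriesSummable (fun n : ℕ => χ (n : ZMod q)) s :=
    DirichletCharacter.LSeriesSummable_of_one_lt_re χ hs
  have h2 := h1.hasSum.tendsto_sum_nat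
  have h3 := h2.comp (Filter.tendsto_add_atTop_nat 1)
  refine tendsto_nhds_unique h3 ((tendsto_partial hχ (by linarith : 0 < s.re)).congr (fun N => ?_))
  simp only [Function.comp]
  rw [Finset.sum_range_succ', LSeries.term_zero, add_zero]
  refine Finset.sum_congr rfl (fun n _ => ?_)
  rw [LSeries.term_of_ne_zero (Nat.succ_ne_zero n), Complex.cpow_neg, div_eq_mul_inv]

theorem differentiableOn_FF {q : ℕ} [NeZero q] {χ : DirichletCharacter ℂ q} (hχ : χ ≠ 1)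
    {δ R : ℝ} (hδ : 0 < δ) : DifferentiableOn ℂ (FF χ) {s : ℂ | δ < s.re ∧ ‖s‖ < R} := by
  by_cases hR : R ≤ 0
  · have : {s : ℂ | δ < s.re ∧ ‖s‖ < R} = ∅ := by
      ext s
      simp only [Set.mem_ofPred_eq, Set.mem_empty_iff_false, iff_false, not_and, not_lt]
      intro _; exact hR.trans (norm_nonneg _)
    rw [this]; exact differentiableOn_empty
  have hR0 : 0 < R := lt_of_not_ge hR
  have hopen : IsOpen {s : ℂ | δ < s.re ∧ ‖s‖ < R} :=
    (isOpen_lt continuous_const Complex.continuous_re).inter (isOpen_lt continuous_norm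
      continuous_const)
  have hsum : Summable (fun n : ℕ => q * (R * ((n + 1 : ℕ) : ℝ) ^ (-δ - 1))) := by
    refine Summable.mul_left _ (Summable.mul_left _ ?_)
    have h := (Real.summable_nat_rpow (p := -δ - 1)).2 (by linarith)
    exact (summable_nat_add_iff 1).2 h
  refine Complex.differentiableOn_tsum_of_summable_norm hsum (fun n => ?_) hopen (fun n s hs => ?_)
  · intro s hs
    have hs0 : s ≠ 0 := by
      intro h; rw [h] at hs; simp at hs; linarith [hs.1]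
    unfold tm
    refine DifferentiableAt.differentiableWithinAt ?_
    have hd : ∀ m : ℕ, m ≠ 0 → DifferentiableAt ℂ (fun s : ℂ => (m : ℂ) ^ (-s)) s := by
      intro m hm
      exact (differentiableAt_id.neg).const_cpow (Or.inl (by exact_mod_cast hm))
    exact ((hd (n + 1) (by omega)).sub (hd (n + 2) (by omega))).const_mul _
  · have hs1 : 0 < s.re := hδ.trans hs.1
    refine (norm_tm_le' hχ n hs1).trans ?_
    refine mul_le_mul_of_nonneg_left ?_ (by positivity)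
    refine mul_le_mul hs.2.le ?_ (by positivity) hR0.le
    exact Real.rpow_le_rpow_of_exponent_le (by push_cast; linarith) (by linarith [hs.1])

theorem differentiableAt_FF {q : ℕ} [NeZero q] {χ : DirichletCharacter ℂ q} (hχ : χ ≠ 1)
    {s : ℂ} (hs : 0 < s.re) : DifferentiableAt ℂ (FF χ) s := by
  have hopen : IsOpen {w : ℂ | s.re / 2 < w.re ∧ ‖w‖ < ‖s‖ + 1} :=
    (isOpen_lt continuous_const Complex.continuous_re).inter (isOpen_lt continuous_norm
      continuous_const)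
  exact (differentiableOn_FF hχ (δ := s.re / 2) (R := ‖s‖ + 1) (by linarith)).differentiableAt
    (hopen.mem_nhds ⟨by linarith, by linarith⟩)

theorem FF_eq {q : ℕ} [NeZero q] {χ : DirichletCharacter ℂ q} (hχ : χ ≠ 1) {s : ℂ}
    (hs : 0 < s.re) : χ.LFunction s = FF χ s := by
  have hopen : IsOpen {w : ℂ | 0 < w.re} := isOpen_lt continuous_const Complex.continuous_re
  have hconv : Convex ℝ {w : ℂ | 0 < w.re} := convex_halfSpace_re_gt 0
  have h1 : AnalyticOnNhd ℂ (χ.LFunction) {w : ℂ | 0 < w.re} :=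
    (DirichletCharacter.differentiable_LFunction hχ).differentiableOn.analyticOnNhd hopen
  have h2 : AnalyticOnNhd ℂ (FF χ) {w : ℂ | 0 < w.re} := by
    refine DifferentiableOn.analyticOnNhd (fun w hw => ?_) hopen
    exact (differentiableAt_FF hχ hw).differentiableWithinAt
  have h3 : (χ.LFunction) =ᶠ[𝓝 (2 : ℂ)] (FF χ) := by
    have hopen1 : IsOpen {w : ℂ | 1 < w.re} := isOpen_lt continuous_const Complex.continuous_re
    filter_upwards [hopen1.mem_nhds (show (1 : ℝ) < (2 : ℂ).re by norm_num)] with w hw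
    exact FF_eq_of_one_lt hχ hw
  exact h1.eqOn_of_preconnected_of_eventuallyEq h2 hconv.isPreconnected
    (show (0 : ℝ) < (2 : ℂ).re by norm_num) h3 hs

end LBD_

open LBD_ in
theorem p_LBD : T_LBD := by
  intro q _ χ hχ
  refine ⟨fun s hs => ?_, fun N hN => ?_⟩
  · rw [FF_eq hχ hs]; exact norm_FF_le hχ hs
  · have h1re : (0 : ℝ) < (1 : ℂ).re := by norm_num
    rw [FF_eq hχ h1re]
    have hsum : ∑ n ∈ Icc 1 N, χ (n : ZMod q) / (n : ℂ) =
        ∑ n ∈ range N, χ ((n + 1 : ℕ) : ZMod q) * ((n + 1 : ℕ) : ℂ) ^ (-(1 : ℂ)) := by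
      rw [Finset.range_eq_Ico, Finset.sum_Ico_add' (fun n : ℕ => χ (n : ZMod q) *
        ((n : ℕ) : ℂ) ^ (-(1 : ℂ))) 0 N 1]
      refine Finset.sum_congr ?_ (fun n _ => ?_)
      · ext n; simp only [Finset.mem_Icc, Finset.mem_Ico]; omega
      · rw [Complex.cpow_neg_one, div_eq_mul_inv]
    rw [hsum, sum_parts]
    have hsp : FF χ 1 = ∑ n ∈ range N, tm χ n 1 + ∑' n, tm χ (n + N) 1 :=
      ((summable_tm hχ h1re).of_norm.sum_add_tsum_nat_add N).symm
    rw [hsp]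
    have e : (∑ n ∈ range N, tm χ n 1 + AA χ N * ((N + 1 : ℕ) : ℂ) ^ (-(1 : ℂ))) -
        (∑ n ∈ range N, tm χ n 1 + ∑' n, tm χ (n + N) 1) =
        AA χ N * ((N + 1 : ℕ) : ℂ) ^ (-(1 : ℂ)) - ∑' n, tm χ (n + N) 1 := by ring
    rw [e]
    have hb := norm_boundary_le hχ 1 N
    have ht := norm_tail_le hχ h1re N
    have h2 : ((N + 1 : ℕ) : ℝ) ^ (-(1 : ℂ).re) ≤ 1 / N := by
      rw [Complex.one_re, Real.rpow_neg_one, ← one_div]
      have : (0 : ℝ) < N := by exact_mod_cast hN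
      exact one_div_le_one_div_of_le this (by push_cast; linarith)
    have h3 : (q : ℝ) * ((N + 1 : ℕ) : ℝ) ^ (-(1 : ℂ).re) ≤ q * (1 / N) :=
      mul_le_mul_of_nonneg_left h2 (by positivity)
    have h4 : (q : ℝ) * (‖(1 : ℂ)‖ / (1 : ℂ).re) * ((N + 1 : ℕ) : ℝ) ^ (-(1 : ℂ).re) ≤
        q * (1 / N) := by
      rw [Complex.one_re, norm_one, div_one, mul_one]
      rw [Complex.one_re] at h3
      exact h3
    calc ‖AA χ N * ((N + 1 : ℕ) : ℂ) ^ (-(1 : ℂ)) - ∑' n, tm χ (n + N) 1‖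
        ≤ ‖AA χ N * ((N + 1 : ℕ) : ℂ) ^ (-(1 : ℂ))‖ + ‖∑' n, tm χ (n + N) 1‖ := norm_sub_le _ _
      _ ≤ q * (1 / N) + q * (1 / N) := add_le_add (hb.trans h3) (ht.trans h4)
      _ = 2 * q / N := by ring

end SSN
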