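import Pool.Agent.SSN.Targets

/-!
# CHR: the Jacobi symbol as a Dirichlet character
-/

set_option autoImplicit false

open scoped BigOperators
open Finset

namespace SSN

namespace CHR_

lemma ch_mod {Δ : ℕ} (_hΔ : 0 < Δ) (n : ℕ) : ch Δ (n % (4 * Δ)) = ch Δ n := by
  have he : Even (n % (4 * Δ)) ↔ Even n := by
    have h1 := Nat.div_add_mod n (4 * Δ)
    conv_rhs => rw [← h1]
    rw [Nat.even_add]
    have : Even (4 * Δ * (n / (4 * Δ))) := by
      rw [mul_assoc]
      exact (by decide : Even 4).mul_right _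
    tauto
  unfold ch
  by_cases h : Even n
  · rw [if_pos h, if_pos (he.2 h)]
  · rw [if_neg h, if_neg (fun h' => h (he.1 h'))]
    rw [jacobiSym.mod_right (-(Δ : ℤ)) (Nat.not_even_iff_odd.1 h), Int.natAbs_neg,
      Int.natAbs_natCast]

lemma ch_mul (Δ m n : ℕ) : ch Δ (m * n) = ch Δ m * ch Δ n := by
  unfold ch
  by_cases hm : Even m
  · rw [if_pos hm, if_pos (hm.mul_right n), zero_mul]
  by_cases hn : Even n
  · rw [if_pos hn, if_pos (hn.mul_left m), mul_zero]
  rw [if_neg hm, if_neg hn, if_neg (fun h => by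
    rcases Nat.even_mul.1 h with h | h
    · exact hm h
    · exact hn h)]
  have hm0 : m ≠ 0 := by rintro rfl; exact hm (by decide)
  have hn0 : n ≠ 0 := by rintro rfl; exact hn (by decide)
  exact jacobiSym.mul_right' _ hm0 hn0

lemma ch_one (Δ : ℕ) : ch Δ 1 = 1 := by
  unfold ch
  rw [if_neg (by decide), jacobiSym.one_right]

lemma ch_zero {Δ n : ℕ} (h : ¬ n.Coprime (4 * Δ)) : ch Δ n = 0 := by
  unfold ch
  by_cases hn : Even n
  · rw [if_pos hn]
  · rw [if_neg hn]
    have hn0 : n ≠ 0 := by rintro rfl; exact hn (by decide)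
    have : NeZero n := ⟨hn0⟩
    rw [jacobiSym.eq_zero_iff_not_coprime]
    intro h'
    apply h
    have h1 : n.Coprime Δ := by
      rw [Int.neg_gcd, Int.gcd_natCast_natCast] at h'
      exact Nat.Coprime.symm h'
    have h2 : n.Coprime 4 := by
      have : n.Coprime 2 := (Nat.coprime_two_right).2 (Nat.not_even_iff_odd.1 hn)
      exact Nat.Coprime.pow_right 2 this
    exact Nat.Coprime.mul_right h2 h1

lemma ch_neg {Δ : ℕ} (hΔ : 0 < Δ) : ch Δ (4 * Δ - 1) = -1 := by
  have hodd : Odd (4 * Δ - 1) := ⟨2 * Δ - 1, by omega⟩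
  unfold ch
  rw [if_neg (Nat.not_even_iff_odd.2 hodd), neg_eq_neg_one_mul, jacobiSym.mul_left,
    jacobiSym.at_neg_one hodd, ZMod.χ₄_nat_three_mod_four (by omega)]
  have h1 : jacobiSym (4 * Δ) (4 * Δ - 1) = 1 := by
    rw [jacobiSym.mod_left]
    have : ((4 * Δ : ℤ)) % ((4 * Δ - 1 : ℕ) : ℤ) = 1 := by
      have h2 : ((4 * Δ - 1 : ℕ) : ℤ) = 4 * Δ - 1 := by omega
      rw [h2]
      rw [Int.emod_eq_iff (by omega)]
      refine ⟨by omega, by omega, ?_⟩
      exact ⟨-1, by ring⟩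
    rw [this, jacobiSym.one_left]
  have h2 : jacobiSym 4 (4 * Δ - 1) = 1 := by
    have : (4 : ℤ) = 2 ^ 2 := by norm_num
    rw [this, jacobiSym.pow_left, jacobiSym.sq_one]
    rw [Int.gcd_comm]
    have := (Nat.coprime_two_right).2 hodd
    exact_mod_cast this
  rw [jacobiSym.mul_left, h2, one_mul] at h1
  rw [h1]
  norm_num

end CHR_

open CHR_ in
theorem p_CHR : T_CHR := by
  intro Δ hΔ
  have : NeZero (4 * Δ) := ⟨by omega⟩
  let χ : DirichletCharacter ℂ (4 * Δ) :=
    { toFun := fun a => ((ch Δ a.val : ℤ) : ℂ)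
      map_one' := by
        have h1 : (1 : ZMod (4 * Δ)).val = 1 % (4 * Δ) := by
          have := ZMod.val_natCast (4 * Δ) 1
          rwa [Nat.cast_one] at this
        rw [h1, ch_mod hΔ, ch_one, Int.cast_one]
      map_mul' := by
        intro a b
        rw [ZMod.val_mul, ch_mod hΔ, ch_mul, Int.cast_mul]
      map_nonunit' := by
        intro a ha
        have h1 : ¬ a.val.Coprime (4 * Δ) := by
          intro h
          apply ha
          have := (ZMod.isUnit_iff_coprime a.val (4 * Δ)).2 h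
          rwa [ZMod.natCast_zmod_val] at this
        show ((ch Δ a.val : ℤ) : ℂ) = 0
        rw [ch_zero h1, Int.cast_zero] }
  have hχ : ∀ n : ℕ, χ (n : ZMod (4 * Δ)) = ((ch Δ n : ℤ) : ℂ) := by
    intro n
    show ((ch Δ (n : ZMod (4 * Δ)).val : ℤ) : ℂ) = _
    rw [ZMod.val_natCast, ch_mod hΔ]
  refine ⟨χ, ?_, hχ⟩
  intro h1
  have h2 := hχ (4 * Δ - 1)
  rw [h1, ch_neg hΔ] at h2
  by_cases hu : IsUnit ((4 * Δ - 1 : ℕ) : ZMod (4 * Δ))
  · rw [MulChar.one_apply hu] at h2
    norm_num at h2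
  · rw [MulChar.map_nonunit _ hu] at h2
    norm_num at h2

end SSN
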