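import Pool.Agent.SSN.Targets

set_option autoImplicit false

/-!
# RRM: `r(n)` is multiplicative and nonnegative
-/

open scoped BigOperators
open Finset

namespace SSN

namespace RRM_

theorem ch_one (Δ : ℕ) : ch Δ 1 = 1 := by
  unfold ch
  rw [if_neg (by decide), jacobiSym.one_right]

theorem ch_zero (Δ : ℕ) : ch Δ 0 = 0 := by
  unfold ch
  rw [if_pos (by decide)]

theorem ch_mul (Δ m n : ℕ) : ch Δ (m * n) = ch Δ m * ch Δ n := by
  unfold ch
  by_cases hm : Even m
  · rw [if_pos (hm.mul_right n), if_pos hm, zero_mul]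
  · by_cases hn : Even n
    · rw [if_pos (hn.mul_left m), if_pos hn, mul_zero]
    · have hmn : ¬ Even (m * n) := by
        rw [Nat.even_mul]
        tauto
      rw [if_neg hmn, if_neg hm, if_neg hn]
      have hm0 : m ≠ 0 := by
        rintro rfl
        exact hm (by decide)
      have hn0 : n ≠ 0 := by
        rintro rfl
        exact hn (by decide)
      have : NeZero m := ⟨hm0⟩
      have : NeZero n := ⟨hn0⟩
      exact jacobiSym.mul_right _ _ _

theorem ch_tri (Δ n : ℕ) : ch Δ n = 0 ∨ ch Δ n = 1 ∨ ch Δ n = -1 := by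
  unfold ch
  by_cases hn : Even n
  · left
    rw [if_pos hn]
  · rw [if_neg hn]
    exact jacobiSym.trichotomy _ _

theorem ch_zero_iff (Δ n : ℕ) : ch Δ n = 0 ↔ ¬ n.Coprime (2 * Δ) := by
  unfold ch
  by_cases hn : Even n
  · rw [if_pos hn]
    simp only [true_iff]
    intro h
    have h2 : n.Coprime 2 := Nat.Coprime.coprime_mul_right_right h
    rw [Nat.coprime_two_right] at h2
    exact (Nat.not_even_iff_odd.2 h2) hn
  · rw [if_neg hn]
    have hn0 : n ≠ 0 := by
      rintro rfl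
      exact hn (by decide)
    have : NeZero n := ⟨hn0⟩
    have hn2 : n.Coprime 2 := by
      rw [Nat.coprime_two_right]
      exact Nat.not_even_iff_odd.1 hn
    rw [jacobiSym.eq_zero_iff_not_coprime, Int.neg_gcd, Int.gcd_natCast_natCast,
      Nat.coprime_mul_iff_right]
    constructor
    · intro h h'
      exact h (Nat.Coprime.symm h'.2)
    · intro h h'
      exact h ⟨hn2, Nat.Coprime.symm h'⟩

/-- the character as an arithmetic function -/
def ca (Δ : ℕ) : ArithmeticFunction ℤ := ⟨ch Δ, ch_zero Δ⟩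

theorem ca_mult (Δ : ℕ) : (ca Δ).IsMultiplicative :=
  ⟨ch_one Δ, fun {m n} _ => ch_mul Δ m n⟩

theorem rr_eq (Δ n : ℕ) : rr Δ n = ((ArithmeticFunction.zeta : ArithmeticFunction ℤ) * ca Δ) n := by
  rw [ArithmeticFunction.coe_zeta_mul_apply]
  rfl

theorem rr_one (Δ : ℕ) : rr Δ 1 = 1 := by
  unfold rr
  rw [Nat.divisors_one, sum_singleton, ch_one]

theorem rr_mul (Δ m n : ℕ) (h : m.Coprime n) : rr Δ (m * n) = rr Δ m * rr Δ n := by
  rw [rr_eq, rr_eq, rr_eq]
  exact (ArithmeticFunction.isMultiplicative_zeta.natCast.mul (ca_mult Δ)).map_mul_of_coprime h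

theorem ch_pow (Δ p i : ℕ) : ch Δ (p ^ i) = ch Δ p ^ i := by
  induction i with
  | zero => rw [pow_zero, pow_zero, ch_one]
  | succ i ih => rw [pow_succ, pow_succ, ch_mul, ih]

theorem rr_pow (Δ p k : ℕ) (hp : p.Prime) :
    rr Δ (p ^ k) = ∑ i ∈ range (k + 1), (ch Δ p) ^ i := by
  unfold rr
  rw [Nat.sum_divisors_prime_pow hp]
  exact sum_congr rfl fun i _ => ch_pow Δ p i

theorem sum_pow_nonneg (Δ p k : ℕ) : 0 ≤ ∑ i ∈ range (k + 1), (ch Δ p) ^ i := by
  rcases ch_tri Δ p with h | h | h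
  · rw [h]
    exact sum_nonneg fun i _ => by positivity
  · rw [h]
    exact sum_nonneg fun i _ => by positivity
  · rw [h, neg_one_geom_sum]
    split_ifs <;> norm_num

theorem sum_pow_one_le (Δ p k : ℕ) : 1 ≤ ∑ i ∈ range (2 * k + 1), (ch Δ p) ^ i := by
  rcases ch_tri Δ p with h | h | h
  · rw [h, sum_range_succ']
    simp
  · rw [h]
    simp
  · rw [h, neg_one_geom_sum, if_neg]
    rw [Nat.not_even_iff_odd]
    exact ⟨k, rfl⟩

theorem rr_nonneg (Δ : ℕ) (n : ℕ) : 0 ≤ rr Δ n := by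
  induction n using Nat.recOnPosPrimePosCoprime with
  | prime_pow p n hp _ =>
    rw [rr_pow Δ p n hp]
    exact sum_pow_nonneg Δ p n
  | zero => simp [rr]
  | one => rw [rr_one]; norm_num
  | coprime a b _ _ hab ha hb =>
    rw [rr_mul Δ a b hab]
    exact mul_nonneg ha hb

theorem rr_sq (Δ : ℕ) (n : ℕ) : n ≠ 0 → 1 ≤ rr Δ (n ^ 2) := by
  induction n using Nat.recOnPosPrimePosCoprime with
  | prime_pow p n hp _ =>
    intro _
    rw [← pow_mul, rr_pow Δ p _ hp, mul_comm n 2]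
    exact sum_pow_one_le Δ p n
  | zero => intro h; exact absurd rfl h
  | one => intro _; rw [one_pow, rr_one]
  | coprime a b ha0 hb0 hab ha hb =>
    intro _
    rw [mul_pow, rr_mul Δ _ _ (Nat.Coprime.pow 2 2 hab)]
    have h1 := ha (by omega)
    have h2 := hb (by omega)
    nlinarith

end RRM_

open RRM_ in
/-- RRM -/
theorem p_RRM : T_RRM := fun Δ _ =>
  ⟨rr_nonneg Δ, rr_sq Δ, rr_one Δ, rr_mul Δ, fun p k hp => rr_pow Δ p k hp, ch_mul Δ, ch_tri Δ,
    ch_zero_iff Δ⟩

end SSN
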