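import Pool.Agent.SSN.Targets

/-!
# DIR: primes in the residue class `-1` modulo `MM P`
-/

open scoped BigOperators
open Finset

namespace SSN

namespace DIR_

open ArithmeticFunction ArithmeticFunction.vonMangoldt

lemma coprime_prod (P : Finset ℕ) (a : ℕ) (h : ∀ p ∈ P, Nat.Coprime a p) :
    Nat.Coprime a (∏ p ∈ P, p) :=
  Nat.Coprime.prod_right h

lemma totient_prod (P : Finset ℕ) (hP : OddPr P) :
    (∏ p ∈ P, p).totient = ∏ p ∈ P, (p - 1) := by
  induction P using Finset.induction_on with
  | empty => simp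
  | insert p P hp ih =>
    have h1 : OddPr P := fun q hq => hP q (Finset.mem_insert_of_mem hq)
    have h2 := hP p (Finset.mem_insert_self p P)
    have h3 : Nat.Coprime p (∏ q ∈ P, q) := by
      refine coprime_prod P p fun q hq => ?_
      refine (Nat.coprime_primes h2.1 (h1 q hq).1).2 ?_
      rintro rfl
      exact hp hq
    rw [Finset.prod_insert hp, Finset.prod_insert hp, Nat.totient_mul h3, ih h1,
      Nat.totient_prime h2.1]

lemma totient_MM (P : Finset ℕ) (hP : OddPr P) : ((MM P).totient : ℝ) = 4 * ph P := by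
  have h1 : Nat.Coprime 8 (∏ q ∈ P, q) := by
    refine coprime_prod P 8 fun q hq => ?_
    have h2 := hP q hq
    have h3 : Nat.Coprime 2 q := (Nat.coprime_primes Nat.prime_two h2.1).2 (Ne.symm h2.2)
    have h4 : (8 : ℕ) = 2 ^ 3 := by norm_num
    rw [h4]
    exact Nat.Coprime.pow_left 3 h3
  have h8 : Nat.totient 8 = 4 := by decide
  unfold MM ph
  rw [Nat.totient_mul h1, totient_prod P hP, h8]
  push_cast
  congr 1
  refine Finset.prod_congr rfl fun p hp => ?_
  have : 1 ≤ p := (hP p hp).1.one_lt.le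
  push_cast [Nat.cast_sub this]
  ring

lemma MM_pos (P : Finset ℕ) (hP : OddPr P) : 0 < MM P :=
  Nat.mul_pos (by norm_num) (Finset.prod_pos fun p hp => (hP p hp).1.pos)

lemma cast_eq_neg_one (M l : ℕ) : ((l : ZMod M) = -1) ↔ M ∣ l + 1 := by
  rw [← ZMod.natCast_eq_zero_iff, Nat.cast_add, Nat.cast_one, add_eq_zero_iff_eq_neg]

end DIR_

open DIR_ ArithmeticFunction ArithmeticFunction.vonMangoldt in
theorem p_DIR : T_DIR := by
  classical
  intro P hP
  have hM : NeZero (MM P) := ⟨(MM_pos P hP).ne'⟩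
  have ha : IsUnit (-1 : ZMod (MM P)) := isUnit_one.neg
  obtain ⟨C, hC⟩ := LSeries_residueClass_lower_bound ha
  have hnp := summable_residueClass_non_primes_div (-1 : ZMod (MM P))
  refine ⟨C + ∑' n : ℕ, (if n.Prime then 0 else residueClass (-1 : ZMod (MM P)) n) / n, ?_⟩
  intro s hs1 hs2
  have h1 := hC (x := s) ⟨hs1, hs2⟩
  have hsum : Summable fun n : ℕ => residueClass (-1 : ZMod (MM P)) n / (n : ℝ) ^ s :=
    LSeries.summable_real_of_abscissaOfAbsConv_lt <|
      (abscissaOfAbsConv_residueClass_le_one (-1 : ZMod (MM P))).trans_lt <| mod_cast hs1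
  have hnn : ∀ n : ℕ, 0 ≤ residueClass (-1 : ZMod (MM P)) n / (n : ℝ) ^ s := fun n =>
    div_nonneg (residueClass_nonneg _ n) (Real.rpow_nonneg (Nat.cast_nonneg n) s)
  -- the part of the primes
  have hpr : Summable fun n : ℕ =>
      if n.Prime then residueClass (-1 : ZMod (MM P)) n / (n : ℝ) ^ s else 0 := by
    refine Summable.of_nonneg_of_le (fun n => ?_) (fun n => ?_) hsum
    · split_ifs
      · exact hnn n
      · exact le_rfl
    · split_ifs
      · exact le_rfl
      · exact hnn n
  have hnpr : Summable fun n : ℕ =>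
      if n.Prime then 0 else residueClass (-1 : ZMod (MM P)) n / (n : ℝ) ^ s := by
    refine Summable.of_nonneg_of_le (fun n => ?_) (fun n => ?_) hsum
    · split_ifs
      · exact le_rfl
      · exact hnn n
    · split_ifs
      · exact hnn n
      · exact le_rfl
  have hsplit : ∑' n, residueClass (-1 : ZMod (MM P)) n / (n : ℝ) ^ s =
      (∑' n : ℕ, if n.Prime then residueClass (-1 : ZMod (MM P)) n / (n : ℝ) ^ s else 0) +
      ∑' n : ℕ, if n.Prime then 0 else residueClass (-1 : ZMod (MM P)) n / (n : ℝ) ^ s := by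
    rw [← hpr.tsum_add hnpr]
    refine tsum_congr fun n => ?_
    split_ifs <;> simp
  have hle : (∑' n : ℕ, if n.Prime then 0 else residueClass (-1 : ZMod (MM P)) n / (n : ℝ) ^ s) ≤
      ∑' n : ℕ, (if n.Prime then 0 else residueClass (-1 : ZMod (MM P)) n) / n := by
    refine hnpr.tsum_le_tsum (fun n => ?_) hnp
    split_ifs with hn
    · simp
    · rcases Nat.eq_zero_or_pos n with rfl | hn0
      · simp
      · refine div_le_div_of_nonneg_left (residueClass_nonneg _ _) (mod_cast hn0) ?_
        conv_lhs => rw [← Real.rpow_one (n : ℝ)]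
        exact Real.rpow_le_rpow_of_exponent_le (by norm_cast) hs1.le
  have heq : (∑' n : ℕ, if n.Prime then residueClass (-1 : ZMod (MM P)) n / (n : ℝ) ^ s else 0) =
      ∑' l : ℕ, if l.Prime ∧ MM P ∣ l + 1 then Real.log l * (l : ℝ) ^ (-s) else 0 := by
    refine tsum_congr fun n => ?_
    by_cases hn : n.Prime
    · by_cases hd : MM P ∣ n + 1
      · rw [if_pos hn, if_pos ⟨hn, hd⟩]
        have h2 : (n : ZMod (MM P)) = -1 := (cast_eq_neg_one _ _).2 hd
        have h3 : residueClass (-1 : ZMod (MM P)) n = Real.log n := by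
          rw [residueClass, Set.indicator_of_mem (by exact h2), vonMangoldt_apply_prime hn]
        rw [h3, Real.rpow_neg (Nat.cast_nonneg n)]
        rfl
      · rw [if_pos hn, if_neg (fun h => hd h.2)]
        have h2 : ¬ ((n : ZMod (MM P)) = -1) := fun h => hd ((cast_eq_neg_one _ _).1 h)
        have h3 : residueClass (-1 : ZMod (MM P)) n = 0 := by
          rw [residueClass, Set.indicator_of_notMem (by exact h2)]
        rw [h3, zero_div]
    · rw [if_neg hn, if_neg (fun h => hn h.1)]
  rw [← heq]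
  have htot := totient_MM P hP
  have h4 : ((MM P).totient : ℝ)⁻¹ / (s - 1) = 1 / (4 * ph P * (s - 1)) := by
    rw [htot, one_div, mul_inv (4 * ph P), div_eq_mul_inv]
  rw [h4, hsplit] at h1
  linarith

end SSN
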