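import Pool.Agent.SSN.Targets

set_option autoImplicit false

/-!
# EST: Estermann's lemma
-/

namespace SSN

open Finset

namespace EST_

theorem hcongr {E : Type*} [AddCommMonoid E] [TopologicalSpace E] {f g : ℕ → E} {x : E} (h : ∀ n, f n = g n)
    (hf : HasSum f x) : HasSum g x := by
  rwa [← funext h]

/-- uniqueness of the coefficients of a power series -/
theorem coeff_uniq {f : ℂ → ℂ} {c : ℂ} {a b : ℕ → ℂ} {r : ℝ} (hr : 0 < r)
    (ha : ∀ z ∈ Metric.ball c r, HasSum (fun n : ℕ => (z - c) ^ n * a n) (f z))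
    (hb : ∀ z ∈ Metric.ball c r, HasSum (fun n : ℕ => (z - c) ^ n * b n) (f z)) (n : ℕ) :
    a n = b n := by
  have h1 : HasFPowerSeriesAt f (FormalMultilinearSeries.ofScalars ℂ a) c := by
    rw [hasFPowerSeriesAt_iff']
    filter_upwards [Metric.ball_mem_nhds c hr] with z hz
    simp only [FormalMultilinearSeries.coeff_ofScalars, smul_eq_mul]
    exact ha z hz
  have h2 : HasFPowerSeriesAt f (FormalMultilinearSeries.ofScalars ℂ b) c := by
    rw [hasFPowerSeriesAt_iff']
    filter_upwards [Metric.ball_mem_nhds c hr] with z hz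
    simp only [FormalMultilinearSeries.coeff_ofScalars, smul_eq_mul]
    exact hb z hz
  have h3 := h1.eq_formalMultilinearSeries h2
  have h4 : (FormalMultilinearSeries.ofScalars ℂ a).coeff n =
      (FormalMultilinearSeries.ofScalars ℂ b).coeff n := by rw [h3]
  simpa only [FormalMultilinearSeries.coeff_ofScalars] using h4

/-- Cauchy estimates on all smaller discs -/
theorem cauchy {g : ℂ → ℂ} {c : ℂ} {R K : ℝ} (hR : 0 < R)
    (hd : DifferentiableOn ℂ g (Metric.ball c R)) (hK : ∀ s ∈ Metric.ball c R, ‖g s‖ ≤ K) (n : ℕ) :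
    ‖((n.factorial : ℂ)⁻¹ * iteratedDeriv n g c)‖ * R ^ n ≤ K := by
  set x : ℝ := ‖((n.factorial : ℂ)⁻¹ * iteratedDeriv n g c)‖ with hx
  have h1 : ∀ r, 0 < r → r < R → x * r ^ n ≤ K := by
    intro r hr0 hrR
    have hsub : Metric.closedBall c r ⊆ Metric.ball c R := Metric.closedBall_subset_ball hrR
    have h2 := Complex.norm_iteratedDeriv_le_of_forall_mem_sphere_norm_le (c := c) (R := r)
      (C := K) (f := g) n hr0 ((hd.mono hsub).diffContOnCl_ball le_rfl)
      (fun z hz => hK z (hsub (Metric.sphere_subset_closedBall hz)))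
    have h3 : x = (n.factorial : ℝ)⁻¹ * ‖iteratedDeriv n g c‖ := by
      rw [hx, norm_mul, norm_inv, Complex.norm_natCast]
    have hf : (0 : ℝ) < n.factorial := by exact_mod_cast n.factorial_pos
    rw [h3]
    rw [le_div_iff₀ (pow_pos hr0 n)] at h2
    rw [mul_assoc, inv_mul_le_iff₀ hf]
    exact h2
  have h4 : Filter.Tendsto (fun r : ℝ => x * r ^ n) (nhdsWithin R (Set.Iio R))
      (nhds (x * R ^ n)) := by
    have : Continuous fun r : ℝ => x * r ^ n := by fun_prop
    exact this.continuousWithinAt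
  refine le_of_tendsto h4 ?_
  have h5 : Set.Ioo 0 R ∈ nhdsWithin R (Set.Iio R) := Ioo_mem_nhdsLT hR
  filter_upwards [h5] with r hr
  exact h1 r hr.1 hr.2

/-- the real part of the lemma -/
theorem real_part {c b : ℕ → ℝ} {lam K u G : ℝ}
    (hcb : ∀ m, c m = b m - lam) (hc : ∀ m, |c m| * (3 / 2) ^ m ≤ K) (hb : ∀ m, 0 ≤ b m)
    (hb0 : 1 ≤ b 0) (hu1 : 1 < u) (hu2 : u ≤ 9 / 8) (hG : HasSum (fun m => c m * u ^ m) G)
    (M : ℕ) (hM : 1 ≤ M) :
    1 - lam * ((u ^ M - 1) / (u - 1)) - 4 * K * (3 / 4) ^ M ≤ G := by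
  have hu0 : 0 < u := by linarith
  have h1 := hG.summable.sum_add_tsum_nat_add M
  rw [hG.tsum_eq] at h1
  -- head
  have h2 : 1 - lam * ((u ^ M - 1) / (u - 1)) ≤ ∑ i ∈ range M, c i * u ^ i := by
    have e1 : ∑ i ∈ range M, c i * u ^ i = ∑ i ∈ range M, b i * u ^ i -
        lam * ∑ i ∈ range M, u ^ i := by
      rw [mul_sum, ← sum_sub_distrib]
      refine sum_congr rfl fun i _ => ?_
      rw [hcb]
      ring
    have e2 : ∑ i ∈ range M, u ^ i = (u ^ M - 1) / (u - 1) := geom_sum_eq (by linarith) M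
    have e3 : 1 ≤ ∑ i ∈ range M, b i * u ^ i := by
      have := single_le_sum (s := range M) (f := fun i => b i * u ^ i)
        (fun i _ => mul_nonneg (hb i) (by positivity)) (mem_range.2 (by omega : 0 < M))
      simp only [pow_zero, mul_one] at this
      linarith
    rw [e1, e2]
    linarith
  -- tail
  have h3 : -(4 * K * (3 / 4) ^ M) ≤ ∑' i, c (i + M) * u ^ (i + M) := by
    have t1 : ∀ i, |c (i + M) * u ^ (i + M)| ≤ K * (3 / 4) ^ M * (3 / 4) ^ i := by
      intro i
      have a1 := hc (i + M)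
      rw [abs_mul, abs_of_pos (pow_pos hu0 _)]
      have a2 : u ^ (i + M) ≤ (9 / 8) ^ (i + M) := pow_le_pow_left₀ hu0.le hu2 _
      have a3 : ((9 : ℝ) / 8) ^ (i + M) = (3 / 2) ^ (i + M) * (3 / 4) ^ (i + M) := by
        rw [← mul_pow]
        norm_num
      calc |c (i + M)| * u ^ (i + M) ≤ |c (i + M)| * (9 / 8) ^ (i + M) :=
            mul_le_mul_of_nonneg_left a2 (abs_nonneg _)
        _ = (|c (i + M)| * (3 / 2) ^ (i + M)) * (3 / 4) ^ (i + M) := by rw [a3]; ring
        _ ≤ K * (3 / 4) ^ (i + M) := mul_le_mul_of_nonneg_right a1 (by positivity)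
        _ = K * (3 / 4) ^ M * (3 / 4) ^ i := by rw [pow_add]; ring
    have t2 : HasSum (fun i : ℕ => K * (3 / 4) ^ M * (3 / 4 : ℝ) ^ i) (K * (3 / 4) ^ M * 4) := by
      have := (hasSum_geometric_of_lt_one (r := (3 / 4 : ℝ)) (by norm_num) (by norm_num)).mul_left
        (K * (3 / 4) ^ M)
      norm_num at this ⊢
      exact this
    have t3 : Summable fun i => c (i + M) * u ^ (i + M) :=
      Summable.of_norm_bounded t2.summable (fun i => by rw [Real.norm_eq_abs]; exact t1 i)
    have t4 : ∑' i, -(K * (3 / 4) ^ M * (3 / 4 : ℝ) ^ i) ≤ ∑' i, c (i + M) * u ^ (i + M) :=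
      Summable.tsum_le_tsum (fun i => (abs_le.1 (t1 i)).1) t2.summable.neg t3
    rw [tsum_neg, t2.tsum_eq] at t4
    linarith
  linarith

theorem log_ge : (1 : ℝ) / 4 ≤ Real.log (4 / 3) := by
  have h := Real.log_le_sub_one_of_pos (x := (3 / 4 : ℝ)) (by norm_num)
  have h2 : Real.log (4 / 3) = -Real.log (3 / 4) := by
    rw [← Real.log_inv]
    norm_num
  linarith

theorem choice {K d : ℝ} (hK : 1 ≤ K) (hd0 : 0 < d) (hd : d ≤ 1 / 8) :
    ∃ M : ℕ, 1 ≤ M ∧ 4 * K * (3 / 4) ^ M ≤ 1 / 2 ∧ (1 + d) ^ M ≤ 3 * (8 * K) ^ (4 * d) := by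
  have h8 : 0 < 8 * K := by linarith
  have hl : 0 < Real.log (8 * K) := Real.log_pos (by linarith)
  refine ⟨⌈4 * Real.log (8 * K)⌉₊, Nat.one_le_iff_ne_zero.2 (by
    have := Nat.ceil_pos.2 (by linarith : 0 < 4 * Real.log (8 * K)); omega), ?_, ?_⟩
  · set M := ⌈4 * Real.log (8 * K)⌉₊ with hM
    have h1 : 4 * Real.log (8 * K) ≤ M := Nat.le_ceil _
    have h2 : Real.log (8 * K) ≤ M * Real.log (4 / 3) := by
      have := mul_le_mul h1 log_ge (by norm_num) (Nat.cast_nonneg M)
      linarith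
    have h3 : 8 * K ≤ (4 / 3 : ℝ) ^ M := by
      rw [← Real.log_le_log_iff h8 (by positivity), Real.log_pow]
      exact h2
    have h4 : ((3 : ℝ) / 4) ^ M * (4 / 3) ^ M = 1 := by
      rw [← mul_pow]
      norm_num
    have h5 : 0 < ((3 : ℝ) / 4) ^ M := by positivity
    have h6 := mul_le_mul_of_nonneg_left h3 h5.le
    rw [h4] at h6
    linarith
  · set M := ⌈4 * Real.log (8 * K)⌉₊ with hM
    have h1 : (M : ℝ) < 4 * Real.log (8 * K) + 1 := Nat.ceil_lt_add_one (by linarith)
    have h2 : (1 + d) ^ M ≤ Real.exp (M * d) := by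
      have := Real.add_one_le_exp d
      calc (1 + d) ^ M ≤ (Real.exp d) ^ M := pow_le_pow_left₀ (by linarith) (by linarith) M
        _ = Real.exp (M * d) := by rw [← Real.exp_nat_mul]
    have h3 : Real.exp (M * d) ≤ Real.exp (Real.log (8 * K) * (4 * d) + d) := by
      apply Real.exp_le_exp.2
      nlinarith
    have h4 : Real.exp (Real.log (8 * K) * (4 * d) + d) = (8 * K) ^ (4 * d) * Real.exp d := by
      rw [Real.exp_add, Real.rpow_def_of_pos h8]
    have h5 : Real.exp d ≤ 3 := by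
      have := Real.exp_one_lt_d9
      have h6 : Real.exp d ≤ Real.exp 1 := Real.exp_le_exp.2 (by linarith)
      linarith
    have h7 : 0 < (8 * K) ^ (4 * d) := Real.rpow_pos_of_pos h8 _
    calc (1 + d) ^ M ≤ (8 * K) ^ (4 * d) * Real.exp d := by rw [← h4]; exact h2.trans h3
      _ ≤ (8 * K) ^ (4 * d) * 3 := mul_le_mul_of_nonneg_left h5 h7.le
      _ = _ := by ring

end EST_

open EST_ in
theorem p_EST : T_EST := by
  intro g lam K b _ hK hd hgK hb hb0 hsum σ hσ1 hσ2
  -- the Taylor coefficients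
  set a : ℕ → ℂ := fun n => (n.factorial : ℂ)⁻¹ * iteratedDeriv n g 2 with ha
  have hT : ∀ z ∈ Metric.ball (2 : ℂ) (3 / 2), HasSum (fun n : ℕ => (z - 2) ^ n * a n) (g z) := by
    intro z hz
    have h := Complex.hasSum_taylorSeries_on_ball hd hz
    refine hcongr (fun n => ?_) h
    simp only [ha, smul_eq_mul]
    ring
  have hS : ∀ z ∈ Metric.ball (2 : ℂ) 1,
      HasSum (fun n : ℕ => (z - 2) ^ n * ((-1) ^ n * ((b n : ℂ) - lam))) (g z) := by
    intro z hz
    have h1 := hsum z hz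
    have hn : ‖2 - z‖ < 1 := by
      rw [Metric.mem_ball, dist_eq_norm] at hz
      rw [norm_sub_rev]
      exact hz
    have h2 := (hasSum_geometric_of_norm_lt_one hn).mul_left (lam : ℂ)
    have h3 := h1.sub h2
    have e1 : g z + lam / (z - 1) - lam * (1 - (2 - z))⁻¹ = g z := by
      have : 1 - (2 - z) = z - 1 := by ring
      rw [this, div_eq_mul_inv]
      ring
    rw [e1] at h3
    refine hcongr (fun n => ?_) h3
    have e2 : (2 - z) ^ n = (z - 2) ^ n * (-1) ^ n := by
      rw [← mul_pow]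
      ring
    rw [e2]
    ring
  have hab : ∀ n, a n = (-1) ^ n * ((b n : ℂ) - lam) := fun n =>
    coeff_uniq one_pos (fun z hz => hT z (Metric.ball_subset_ball (by norm_num) hz)) hS n
  have hc : ∀ m, |b m - lam| * (3 / 2) ^ m ≤ K := by
    intro m
    have h1 := cauchy (by norm_num) hd hgK m
    have h2 : ‖((m.factorial : ℂ)⁻¹ * iteratedDeriv m g 2)‖ = |b m - lam| := by
      have h3 := hab m
      simp only [ha] at h3
      rw [h3, norm_mul, norm_pow, norm_neg, norm_one, one_pow, one_mul, ← Complex.ofReal_sub,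
        Complex.norm_real, Real.norm_eq_abs]
    rw [h2] at h1
    exact h1
  set u : ℝ := 2 - σ with hu
  have hG : HasSum (fun m => (b m - lam) * u ^ m) (g σ).re := by
    have hσ : (σ : ℂ) ∈ Metric.ball (2 : ℂ) (3 / 2) := by
      rw [Metric.mem_ball, dist_eq_norm]
      have : (σ : ℂ) - 2 = ((σ - 2 : ℝ) : ℂ) := by push_cast; ring
      rw [this, Complex.norm_real, Real.norm_eq_abs, abs_lt]
      constructor <;> linarith
    have h1 := (hT σ hσ).mapL Complex.reCLM
    refine hcongr (fun n => ?_) h1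
    rw [hab]
    have e1 : ((σ : ℂ) - 2) ^ n * ((-1) ^ n * ((b n : ℂ) - lam)) =
        (((b n - lam) * u ^ n : ℝ) : ℂ) := by
      have : ((σ : ℂ) - 2) ^ n * (-1) ^ n = (u : ℂ) ^ n := by
        rw [← mul_pow, hu]
        push_cast
        ring
      rw [← mul_assoc, this]
      push_cast
      ring
    rw [e1]
    exact Complex.ofReal_re _
  obtain ⟨M, hM1, hM2, hM3⟩ := choice hK (d := 1 - σ) (by linarith) (by linarith)
  have hr := real_part (c := fun m => b m - lam) (b := b) (lam := lam) (K := K) (u := u)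
    (fun m => rfl) hc hb hb0 (by linarith) (by linarith) hG M hM1
  have hd0 : 0 < 1 - σ := by linarith
  have e1 : u - 1 = 1 - σ := by rw [hu]; ring
  have e2 : 1 + (1 - σ) = u := by rw [hu]; ring
  rw [e1] at hr
  rw [e2] at hM3
  have e3 : lam * ((u ^ M - 1) / (1 - σ)) = lam * u ^ M / (1 - σ) - lam / (1 - σ) := by
    field_simp
  have e4 : lam / (σ - 1) = -(lam / (1 - σ)) := by
    rw [← neg_sub 1 σ, div_neg]
  have e5 : lam * u ^ M / (1 - σ) ≤ 3 * lam * (8 * K) ^ (4 * (1 - σ)) / (1 - σ) := by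
    refine div_le_div_of_nonneg_right ?_ hd0.le
    have : 0 ≤ lam := by assumption
    nlinarith [mul_le_mul_of_nonneg_left hM3 this]
  rw [e4]
  rw [e3] at hr
  linarith

end SSN
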