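import Pool.Agent.SSN.Targets

/-!
# KIL: bounds for the set of primes killed by `p`
-/

set_option autoImplicit false

open scoped BigOperators
open Finset

namespace SSN

namespace KIL_

theorem ph_pos {P : Finset ℕ} (hP : OddPr P) : 0 < ph P := by
  unfold ph
  refine Finset.prod_pos fun p hp => ?_
  have h1 := (hP p hp).1.two_le
  have h2 : (2 : ℝ) ≤ p := by exact_mod_cast h1
  linarith

theorem log_pos {n : ℕ} (hn : 3 ≤ n) : 0 < Real.log n := by
  apply Real.log_pos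
  have : (3 : ℝ) ≤ n := by exact_mod_cast hn
  linarith

end KIL_

open KIL_ in
theorem p_KIL (h1 : T_RED) (h2 : T_TRIV) (h3 : T_SIEVE) : T_KIL := by
  obtain ⟨C, hC, hS⟩ := h3
  refine ⟨C, hC, ?_⟩
  intro P hP
  obtain ⟨t₀, ht₀⟩ := hS P hP
  refine ⟨2 + |t₀|, by positivity, ?_⟩
  intro p F hp hF hform n hn
  have hph := ph_pos hP
  have hlog := log_pos hn
  have hn0 : (0 : ℝ) < n := by
    have : (3 : ℝ) ≤ n := by exact_mod_cast hn
    linarith
  have hp0 : (0 : ℝ) < p := by exact_mod_cast hp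
  have hfin : (F ∩ Set.Iic n).Finite := (Set.finite_Iic n).subset Set.inter_subset_right
  set N : ℕ := (F ∩ Set.Iic n).ncard with hN
  have hsq : 0 < Real.sqrt p := Real.sqrt_pos.mpr hp0
  have hl32 : 0 < (Real.log n) ^ (3 / 2 : ℝ) := Real.rpow_pos_of_pos hlog _
  have hp4 : 0 < (p : ℝ) ^ (1 / 4 : ℝ) := Real.rpow_pos_of_pos hp0 _
  have ht : 0 ≤ |t₀| := abs_nonneg t₀
  have e1 : 0 ≤ 7 / Real.sqrt p * n := by positivity
  have e2 : 0 ≤ 7 * n / (Real.log n) ^ (3 / 2 : ℝ) := by positivity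
  have e3 : 0 ≤ C / (ph P * (p : ℝ) ^ (1 / 4 : ℝ)) * n / Real.log n := by positivity
  by_cases hN1 : N ≤ 1
  · have hN1' : (N : ℝ) ≤ 1 := by exact_mod_cast hN1
    constructor <;> linarith
  · push Not at hN1
    have hGcard : hfin.toFinset.card = N := (Set.ncard_eq_toFinset_card _ hfin).symm
    obtain ⟨a, b, c, ha, hΔ0, hpΔ, hval⟩ := hform hfin.toFinset (by rw [hGcard]; exact hN1)
      (fun ℓ hℓ => ((Set.Finite.mem_toFinset hfin).mp hℓ).1)
    obtain ⟨a', b', c', Δ, hred, hΔ, hiff⟩ := h1 a b c ha hΔ0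
    have hΔpos : 0 < Δ := by
      have : (0 : ℤ) < Δ := by rw [hΔ]; exact hΔ0
      exact_mod_cast this
    have hpΔ' : p ∣ Δ := by
      rw [← hΔ] at hpΔ
      exact_mod_cast hpΔ
    have hpleΔ : p ≤ Δ := Nat.le_of_dvd hΔpos hpΔ'
    have hpleΔ' : (p : ℝ) ≤ Δ := by exact_mod_cast hpleΔ
    have hΔr : (0 : ℝ) < Δ := by exact_mod_cast hΔpos
    obtain ⟨hf, ht1⟩ := h2 a' b' c' Δ hred n hn0.le
    have hsub : F ∩ Set.Iic n ⊆
        {ℓ : ℕ | ℓ.Prime ∧ (ℓ : ℝ) ≤ n ∧ MM P ∣ ℓ + 1 ∧ Val a' b' c' ℓ} := by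
      intro ℓ hℓ
      refine ⟨(hF ℓ hℓ.1).1, by exact_mod_cast hℓ.2, (hF ℓ hℓ.1).2, ?_⟩
      rw [← hiff]
      exact hval ℓ ((Set.Finite.mem_toFinset hfin).mpr hℓ)
    have hsub2 : {ℓ : ℕ | ℓ.Prime ∧ (ℓ : ℝ) ≤ n ∧ MM P ∣ ℓ + 1 ∧ Val a' b' c' ℓ} ⊆
        {ℓ : ℕ | ℓ.Prime ∧ (ℓ : ℝ) ≤ n ∧ Val a' b' c' ℓ} :=
      fun ℓ hℓ => ⟨hℓ.1, hℓ.2.1, hℓ.2.2.2⟩
    have hNtriv : (N : ℝ) ≤ 1 + 7 * n / Real.sqrt Δ := by
      refine le_trans ?_ ht1
      exact_mod_cast Set.ncard_le_ncard (hsub.trans hsub2) hf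
    constructor
    · refine hNtriv.trans ?_
      have h4 : 7 * (n : ℝ) / Real.sqrt Δ ≤ 7 * n / Real.sqrt p := by
        apply div_le_div_of_nonneg_left (by positivity) hsq
        exact Real.sqrt_le_sqrt hpleΔ'
      have h5 : 7 * (n : ℝ) / Real.sqrt p = 7 / Real.sqrt p * n := by ring
      linarith
    · by_cases hnt : (n : ℝ) < t₀
      · have h4 : N ≤ n + 1 := by
          have := Set.ncard_le_ncard (Set.inter_subset_right (s := F) (t := Set.Iic n))
            (Set.finite_Iic n)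
          have h5 : (Set.Iic n).ncard = n + 1 := by
            rw [← Finset.coe_Iic, Set.ncard_coe_finset, Nat.card_Iic]
          rw [h5] at this
          exact this
        have h5 : (N : ℝ) ≤ n + 1 := by exact_mod_cast h4
        have h6 := le_abs_self t₀
        linarith
      · push Not at hnt
        by_cases hΔl : (Δ : ℝ) ≤ (Real.log n) ^ 3
        · have h4 := ht₀ n hnt a' b' c' Δ hred hΔl
          have h5 : (N : ℝ) ≤ C * n / (ph P * (Δ : ℝ) ^ (1 / 4 : ℝ) * Real.log n) := by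
            refine le_trans ?_ h4
            exact_mod_cast Set.ncard_le_ncard hsub (hf.subset hsub2)
          have h6 : C * n / (ph P * (Δ : ℝ) ^ (1 / 4 : ℝ) * Real.log n) ≤
              C * n / (ph P * (p : ℝ) ^ (1 / 4 : ℝ) * Real.log n) := by
            apply div_le_div_of_nonneg_left (by positivity) (by positivity)
            have := Real.rpow_le_rpow hp0.le hpleΔ' (by norm_num : (0 : ℝ) ≤ 1 / 4)
            gcongr
          have h7 : C * n / (ph P * (p : ℝ) ^ (1 / 4 : ℝ) * Real.log n) =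
              C / (ph P * (p : ℝ) ^ (1 / 4 : ℝ)) * n / Real.log n := by
            field_simp
          linarith
        · push Not at hΔl
          have h4 : (Real.log n) ^ (3 / 2 : ℝ) ≤ Real.sqrt Δ := by
            have h5 : (Real.log n) ^ (3 / 2 : ℝ) = Real.sqrt ((Real.log n) ^ 3) := by
              rw [Real.sqrt_eq_rpow, ← Real.rpow_natCast, ← Real.rpow_mul hlog.le]
              norm_num
            rw [h5]
            exact Real.sqrt_le_sqrt hΔl.le
          have h5 : 7 * (n : ℝ) / Real.sqrt Δ ≤ 7 * n / (Real.log n) ^ (3 / 2 : ℝ) :=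
            div_le_div_of_nonneg_left (by positivity) hl32 h4
          linarith

end SSN
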