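import Pool.Agent.SSN.Targets

set_option autoImplicit false

/-!
# Lattice points of a residue class in an ellipse (SSN-LAT)
-/

open scoped BigOperators
open Finset

namespace SSN

namespace LAT_

/-- number of integers between two reals -/
theorem card_near (α β : ℝ) (h : α ≤ β) :
    |((Icc ⌈α⌉ ⌊β⌋).card : ℝ) - (β - α)| ≤ 1 := by
  rw [Int.card_Icc]
  have h1 := Int.floor_le β
  have h2 := Int.le_ceil α
  have h3 := Int.lt_floor_add_one β
  have h4 := Int.ceil_lt_add_one α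
  have h5 : (-1 : ℤ) < ⌊β⌋ + 1 - ⌈α⌉ := by
    have : ((-1 : ℤ) : ℝ) < ((⌊β⌋ + 1 - ⌈α⌉ : ℤ) : ℝ) := by
      push_cast
      linarith
    exact_mod_cast this
  have h6 : (((⌊β⌋ + 1 - ⌈α⌉).toNat : ℤ) : ℝ) = ((⌊β⌋ + 1 - ⌈α⌉ : ℤ) : ℝ) := by
    rw [Int.toNat_of_nonneg (by omega)]
  rw [Int.cast_natCast] at h6
  rw [h6, abs_le]
  push_cast
  constructor <;> linarith

/-- the numbers `≡ u mod D` between `p` and `q` -/
noncomputable def ap (D : ℕ) (u : ℤ) (p q : ℝ) : Finset ℤ :=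
  (Icc ⌈(p - u) / D⌉ ⌊(q - u) / D⌋).image fun k : ℤ => u + D * k

theorem mem_ap (D : ℕ) (hD : 0 < D) (u : ℤ) (p q : ℝ) (x : ℤ) :
    x ∈ ap D u p q ↔ p ≤ x ∧ (x : ℝ) ≤ q ∧ (D : ℤ) ∣ x - u := by
  have hDR : (0 : ℝ) < D := by exact_mod_cast hD
  unfold ap
  rw [mem_image]
  constructor
  · rintro ⟨k, hk, rfl⟩
    rw [mem_Icc, Int.ceil_le, Int.le_floor, div_le_iff₀ hDR, le_div_iff₀ hDR] at hk
    push_cast
    refine ⟨by linarith [hk.1], by linarith [hk.2], ⟨k, by ring⟩⟩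
  · rintro ⟨h1, h2, k, hk⟩
    have hx : x = u + D * k := by linarith
    have hxR : (x : ℝ) = u + D * k := by
      rw [hx]
      push_cast
      ring
    refine ⟨k, ?_, hx.symm⟩
    rw [mem_Icc, Int.ceil_le, Int.le_floor, div_le_iff₀ hDR, le_div_iff₀ hDR]
    constructor <;> nlinarith

theorem card_ap (D : ℕ) (hD : 0 < D) (u : ℤ) (p q : ℝ) (h : p ≤ q) :
    |((ap D u p q).card : ℝ) - (q - p) / D| ≤ 1 := by
  have hDR : (0 : ℝ) < D := by exact_mod_cast hD
  unfold ap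
  rw [card_image_of_injective]
  · have := card_near ((p - u) / D) ((q - u) / D)
      (div_le_div_of_nonneg_right (by linarith) hDR.le)
    rw [show (q - u) / (D : ℝ) - (p - u) / D = (q - p) / D by ring] at this
    exact this
  · intro k l hkl
    have hD' : (D : ℤ) ≠ 0 := by exact_mod_cast hD.ne'
    simp only [add_right_inj, mul_eq_mul_left_iff] at hkl
    tauto

/-- sum over a symmetric range -/
theorem sum_sym (g : ℤ → ℝ) (n : ℕ) : ∑ k ∈ Ico (-(n : ℤ)) n, g k =
    ∑ i ∈ range n, g i + ∑ i ∈ range n, g (-1 - i) := by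
  induction n with
  | zero => simp
  | succ n ih =>
    have h : Ico (-((n + 1 : ℕ) : ℤ)) ((n + 1 : ℕ) : ℤ) =
        insert (-1 - (n : ℤ)) (insert (n : ℤ) (Ico (-(n : ℤ)) n)) := by
      ext k
      simp only [mem_insert, mem_Ico]
      push_cast
      omega
    rw [h, sum_insert, sum_insert, ih, sum_range_succ, sum_range_succ]
    · ring
    · rw [mem_Ico]
      omega
    · rw [mem_insert, mem_Ico]
      omega

/-- Riemann sums of a decreasing function -/
theorem riem (h : ℝ → ℝ) (ha : AntitoneOn h (Set.Ici 0)) (h0 : ∀ x, 0 ≤ h x) (θ : ℝ)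
    (hθ0 : 0 ≤ θ) (hθ1 : θ ≤ 1) (n : ℕ) :
    |(∑ i ∈ range n, h (θ + i)) - ∫ x in (0 : ℝ)..n, h x| ≤ h 0 := by
  have hsub : Set.Icc (0 : ℝ) (0 + n) ⊆ Set.Ici 0 := fun x hx => hx.1
  have h1 := (ha.mono hsub).sum_le_integral
  have h2 := (ha.mono hsub).integral_le_sum
  simp only [zero_add] at h1 h2
  have h3 : ∑ i ∈ range n, h ((i + 1 : ℕ) : ℝ) ≤ ∑ i ∈ range n, h (θ + i) := by
    apply sum_le_sum
    intro i _
    have hi : (0 : ℝ) ≤ i := Nat.cast_nonneg i
    apply ha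
    · exact Set.mem_Ici.2 (by linarith)
    · exact Set.mem_Ici.2 (by positivity)
    · push_cast
      linarith
  have h4 : ∑ i ∈ range n, h (θ + i) ≤ ∑ i ∈ range n, h (i : ℝ) := by
    apply sum_le_sum
    intro i _
    have hi : (0 : ℝ) ≤ i := Nat.cast_nonneg i
    apply ha
    · exact Set.mem_Ici.2 hi
    · exact Set.mem_Ici.2 (by linarith)
    · linarith
  have h5 : ∑ i ∈ range n, h (i : ℝ) - ∑ i ∈ range n, h ((i + 1 : ℕ) : ℝ) ≤ h 0 := by
    rw [← sum_sub_distrib, sum_range_sub' (fun i : ℕ => h (i : ℝ)) n]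
    have := h0 (n : ℝ)
    simp only [Nat.cast_zero]
    linarith
  rw [abs_le]
  constructor <;> linarith

/-- quarter of the unit disc -/
theorem quarter : ∫ x in (0 : ℝ)..1, Real.sqrt (1 - x ^ 2) = Real.pi / 4 := by
  have hc : Continuous fun x : ℝ => Real.sqrt (1 - x ^ 2) := by fun_prop
  have h1 := integral_sqrt_one_sub_sq
  rw [← intervalIntegral.integral_add_adjacent_intervals (hc.intervalIntegrable (-1) 0)
    (hc.intervalIntegrable 0 1)] at h1
  have h2 : ∫ x in (-1 : ℝ)..0, Real.sqrt (1 - x ^ 2) =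
      ∫ x in (0 : ℝ)..1, Real.sqrt (1 - x ^ 2) := by
    have := intervalIntegral.integral_comp_neg (a := (-1 : ℝ)) (b := 0)
      (fun x : ℝ => Real.sqrt (1 - x ^ 2))
    simp only [neg_zero, neg_neg, even_two, Even.neg_pow] at this
    exact this
  rw [h2] at h1
  linarith

/-- the integral of `√(1 - (s/X)²)` -/
theorem scaled (X : ℝ) (hX : 0 < X) (n : ℝ) (hn : X ≤ n) :
    ∫ s in (0 : ℝ)..n, Real.sqrt (1 - (s / X) ^ 2) = X * (Real.pi / 4) := by
  have hc : Continuous fun x : ℝ => Real.sqrt (1 - x ^ 2) := by fun_prop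
  rw [intervalIntegral.integral_comp_div (fun x : ℝ => Real.sqrt (1 - x ^ 2)) hX.ne',
    zero_div, smul_eq_mul,
    ← intervalIntegral.integral_add_adjacent_intervals (hc.intervalIntegrable 0 1)
      (hc.intervalIntegrable 1 (n / X)), quarter]
  have h1 : (1 : ℝ) ≤ n / X := by
    rw [le_div_iff₀ hX, one_mul]
    exact hn
  have h2 : ∫ x in (1 : ℝ)..(n / X), Real.sqrt (1 - x ^ 2) = 0 := by
    rw [intervalIntegral.integral_congr (g := fun _ => (0 : ℝ))]
    · simp
    · intro x hx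
      rw [Set.uIcc_of_le h1] at hx
      apply Real.sqrt_eq_zero_of_nonpos
      nlinarith [hx.1]
  rw [h2, add_zero]

/-- completing the square -/
theorem four_mul (a b c x y : ℤ) (Δ : ℕ) (h : 4 * a * c - b ^ 2 = (Δ : ℤ)) :
    (2 * a * x + b * y : ℝ) ^ 2 + Δ * (y : ℝ) ^ 2 = 4 * a * (qf a b c x y : ℝ) := by
  have : (2 * a * x + b * y) ^ 2 + (Δ : ℤ) * y ^ 2 = 4 * a * qf a b c x y := by
    unfold qf
    rw [← h]
    ring
  exact_mod_cast this

/-- the main estimate for `0 ≤ v < D` -/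
theorem main (a b c : ℤ) (Δ : ℕ) (hr : Red a b c Δ) (D : ℕ) (hD : 0 < D) (u v : ℤ)
    (hv0 : 0 ≤ v) (hvD : v < D) (t : ℝ) (ht : 1 ≤ t) :
    {P : ℤ × ℤ | (qf a b c P.1 P.2 : ℝ) ≤ t ∧ (D : ℤ) ∣ P.1 - u ∧ (D : ℤ) ∣ P.2 - v}.Finite ∧
    |(({P : ℤ × ℤ | (qf a b c P.1 P.2 : ℝ) ≤ t ∧ (D : ℤ) ∣ P.1 - u ∧
        (D : ℤ) ∣ P.2 - v}.ncard : ℕ) : ℝ) - 2 * Real.pi * t / (Real.sqrt Δ * D ^ 2)| ≤
      9 * Real.sqrt t := by
  classical
  obtain ⟨ha, hba, hac, hdisc, hΔ⟩ := hr
  have haR : (0 : ℝ) < a := by exact_mod_cast ha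
  have ha1 : (1 : ℝ) ≤ a := by exact_mod_cast ha
  have hΔR : (0 : ℝ) < Δ := by exact_mod_cast hΔ
  have hDR : (0 : ℝ) < D := by exact_mod_cast hD
  have hD1 : (1 : ℝ) ≤ D := by exact_mod_cast hD
  have ht0 : 0 < t := by linarith
  have h3 : (3 * a ^ 2 : ℤ) ≤ Δ := by
    rw [← hdisc]
    have : b ^ 2 ≤ a ^ 2 := sq_le_sq' (by linarith [neg_abs_le b]) (by linarith [le_abs_self b])
    nlinarith
  have h3R : (3 * a ^ 2 : ℝ) ≤ Δ := by exact_mod_cast h3
  have hst1 : 1 ≤ Real.sqrt t := by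
    rw [Real.one_le_sqrt]
    exact ht
  set Y : ℝ := Real.sqrt (4 * a * t / Δ) with hY
  have hY0 : 0 < Y := Real.sqrt_pos.2 (by positivity)
  have hYsq : Y ^ 2 = 4 * a * t / Δ := Real.sq_sqrt (by positivity)
  have hYΔ : Δ * Y ^ 2 = 4 * a * t := by
    rw [hYsq]
    field_simp
  have hYt : Y ≤ 2 * Real.sqrt t := by
    rw [hY]
    apply Real.sqrt_le_iff.2
    refine ⟨by positivity, ?_⟩
    rw [mul_pow, Real.sq_sqrt ht0.le, div_le_iff₀ hΔR]
    have : (a : ℝ) ≤ Δ := by nlinarith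
    nlinarith
  set n : ℕ := ⌈Y⌉₊ + 1 with hn
  have hnY : Y + 1 ≤ n := by
    rw [hn]
    push_cast
    linarith [Nat.le_ceil Y]
  -- the quantities for `k`
  set s : ℤ → ℝ := fun k => 4 * a * t - Δ * ((v + D * k : ℤ) : ℝ) ^ 2 with hs
  set X : ℤ → Finset ℤ := fun k => if s k < 0 then ∅ else
    ap D u ((-(b * (v + D * k : ℤ) : ℝ) - Real.sqrt (s k)) / (2 * a))
      ((-(b * (v + D * k : ℤ) : ℝ) + Real.sqrt (s k)) / (2 * a)) with hX
  have hmemX : ∀ k x, x ∈ X k ↔ (qf a b c x (v + D * k) : ℝ) ≤ t ∧ (D : ℤ) ∣ x - u := by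
    intro k x
    have h4 := four_mul a b c x (v + D * k) Δ hdisc
    simp only [hX]
    by_cases hsk : s k < 0
    · rw [if_pos hsk]
      simp only [notMem_empty, false_iff, not_and]
      intro hq
      exfalso
      simp only [hs] at hsk
      nlinarith [sq_nonneg (2 * a * x + b * (v + D * k : ℤ) : ℝ)]
    · rw [if_neg hsk, mem_ap D hD]
      push Not at hsk
      rw [← and_assoc, and_congr_left_iff]
      intro _
      rw [div_le_iff₀ (by positivity), le_div_iff₀ (by positivity)]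
      have h5 : (qf a b c x (v + D * k) : ℝ) ≤ t ↔
          (2 * a * x + b * (v + D * k : ℤ) : ℝ) ^ 2 ≤ s k := by
        simp only [hs]
        constructor
        · intro h
          nlinarith
        · intro h
          have : (4 * a : ℝ) * (qf a b c x (v + D * k) : ℝ) ≤ (4 * a) * t := by nlinarith
          exact le_of_mul_le_mul_left this (by positivity)
      rw [h5, Real.sq_le hsk]
      constructor
      · rintro ⟨h6, h7⟩
        constructor <;> linarith
      · rintro ⟨h6, h7⟩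
        constructor <;> linarith
  have hrange : ∀ k, 0 ≤ s k → k ∈ Ico (-(n : ℤ)) n ∧
      k ∈ Icc ⌈(-Y - v) / (D : ℝ)⌉ ⌊(Y - v) / (D : ℝ)⌋ := by
    intro k hk
    have h4 : ((v + D * k : ℤ) : ℝ) ^ 2 ≤ Y ^ 2 := by
      simp only [hs] at hk
      rw [hYsq, le_div_iff₀ hΔR]
      linarith
    have h5 := abs_le_of_sq_le_sq' h4 hY0.le
    push_cast at h5
    have hv0R : (0 : ℝ) ≤ v := by exact_mod_cast hv0
    have hvDR : (v : ℝ) < D := by exact_mod_cast hvD
    constructor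
    · rw [mem_Ico]
      constructor
      · have h6 : (-(n : ℝ)) ≤ k := by
          by_contra hcon
          push Not at hcon
          nlinarith [h5.1]
        exact_mod_cast h6
      · have h6 : (k : ℝ) < n := by
          by_contra hcon
          push Not at hcon
          nlinarith [h5.2]
        exact_mod_cast h6
    · rw [mem_Icc, Int.ceil_le, Int.le_floor, div_le_iff₀ hDR, le_div_iff₀ hDR]
      constructor <;> linarith [h5.1, h5.2]
  -- the set as an image
  have hset : {P : ℤ × ℤ | (qf a b c P.1 P.2 : ℝ) ≤ t ∧ (D : ℤ) ∣ P.1 - u ∧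
      (D : ℤ) ∣ P.2 - v} =
      (fun p : (_ : ℤ) × ℤ => (p.2, v + D * p.1)) ''
        (((Ico (-(n : ℤ)) n).sigma X : Finset _) : Set ((_ : ℤ) × ℤ)) := by
    ext ⟨x, y⟩
    simp only [Set.mem_ofPred_eq, Set.mem_image, Finset.mem_coe, Prod.mk.injEq]
    constructor
    · rintro ⟨h1, h2, k, hk⟩
      have hy : y = v + D * k := by linarith
      subst hy
      refine ⟨⟨k, x⟩, ?_, rfl, rfl⟩
      rw [mem_sigma]
      have hxk : x ∈ X k := (hmemX k x).2 ⟨h1, h2⟩
      refine ⟨(hrange k ?_).1, hxk⟩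
      by_contra hcon
      push Not at hcon
      simp only [hX, if_pos hcon] at hxk
      exact absurd hxk (notMem_empty _)
    · rintro ⟨⟨k, x'⟩, hk, h1, h2⟩
      rw [mem_sigma] at hk
      simp only at h1 h2 hk
      subst h1 h2
      have := (hmemX k x').1 hk.2
      exact ⟨this.1, this.2, ⟨k, by ring⟩⟩
  have hinj : Function.Injective (fun p : (_ : ℤ) × ℤ => (p.2, v + D * p.1)) := by
    rintro ⟨k, x⟩ ⟨l, y⟩ h
    have hD' : (D : ℤ) ≠ 0 := by exact_mod_cast hD.ne'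
    simp only [Prod.mk.injEq, add_right_inj, mul_eq_mul_left_iff] at h
    obtain ⟨h1, h2⟩ := h
    rcases h2 with h2 | h2
    · rw [h1, h2]
    · exact absurd h2 hD'
  refine ⟨?_, ?_⟩
  · rw [hset]
    exact (Finset.finite_toSet _).image _
  rw [hset, Set.ncard_image_of_injective _ hinj, Set.ncard_coe_finset, card_sigma, Nat.cast_sum]
  -- the profile
  set H : ℝ → ℝ := fun w => Real.sqrt (4 * a * t - Δ * (D * w) ^ 2) / a with hH
  have hH0 : ∀ w, 0 ≤ H w := fun w => div_nonneg (Real.sqrt_nonneg _) haR.le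
  have hHanti : AntitoneOn H (Set.Ici 0) := by
    intro w hw w' hw' hww
    rw [Set.mem_Ici] at hw hw'
    simp only [hH]
    apply div_le_div_of_nonneg_right _ haR.le
    apply Real.sqrt_le_sqrt
    have : (D * w) ^ 2 ≤ (D * w') ^ 2 := by
      apply pow_le_pow_left₀ (by positivity)
      exact mul_le_mul_of_nonneg_left hww hDR.le
    nlinarith
  set θ : ℝ := (v : ℝ) / D with hθ
  have hθ0 : 0 ≤ θ := by
    have : (0 : ℝ) ≤ v := by exact_mod_cast hv0
    positivity
  have hθ1 : θ ≤ 1 := by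
    rw [hθ, div_le_one hDR]
    exact_mod_cast hvD.le
  have hHs : ∀ k : ℤ, Real.sqrt (s k) / a = H (θ + k) := by
    intro k
    simp only [hH, hs]
    congr 3
    push_cast
    rw [hθ]
    field_simp
  have hHeven : ∀ w, H (-w) = H w := by
    intro w
    simp only [hH]
    congr 3
    ring
  -- first error
  have herr1 : |(∑ k ∈ Ico (-(n : ℤ)) n, ((X k).card : ℝ)) -
      ∑ k ∈ Ico (-(n : ℤ)) n, H (θ + k) / D| ≤ 2 * Y / D + 1 := by
    rw [← sum_sub_distrib]
    refine (abs_sum_le_sum_abs _ _).trans ?_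
    have hone : ∀ k ∈ Ico (-(n : ℤ)) n, |((X k).card : ℝ) - H (θ + k) / D| ≤
        if k ∈ Icc ⌈(-Y - v) / (D : ℝ)⌉ ⌊(Y - v) / (D : ℝ)⌋ then 1 else 0 := by
      intro k _
      rw [← hHs k]
      by_cases hsk : s k < 0
      · simp only [hX, if_pos hsk, card_empty, Nat.cast_zero]
        rw [Real.sqrt_eq_zero_of_nonpos hsk.le, zero_div, zero_div, sub_zero, abs_zero]
        split_ifs <;> norm_num
      · push Not at hsk
        rw [if_pos (hrange k hsk).2]
        simp only [hX, if_neg (not_lt.2 hsk)]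
        have h5 := card_ap D hD u ((-(b * (v + D * k : ℤ) : ℝ) - Real.sqrt (s k)) / (2 * a))
          ((-(b * (v + D * k : ℤ) : ℝ) + Real.sqrt (s k)) / (2 * a)) (by
            apply div_le_div_of_nonneg_right _ (by positivity)
            linarith [Real.sqrt_nonneg (s k)])
        rw [show (-(b * (v + D * k : ℤ) : ℝ) + Real.sqrt (s k)) / (2 * a) -
          (-(b * (v + D * k : ℤ) : ℝ) - Real.sqrt (s k)) / (2 * a) = Real.sqrt (s k) / a by
            field_simp; ring] at h5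
        exact h5
    refine (sum_le_sum hone).trans ?_
    rw [← sum_filter, sum_const, nsmul_eq_mul, mul_one]
    have h5 : (((Ico (-(n : ℤ)) n).filter fun k =>
        k ∈ Icc ⌈(-Y - v) / (D : ℝ)⌉ ⌊(Y - v) / (D : ℝ)⌋).card : ℝ) ≤
        ((Icc ⌈(-Y - v) / (D : ℝ)⌉ ⌊(Y - v) / (D : ℝ)⌋).card : ℝ) := by
      apply Nat.cast_le.2
      apply card_le_card
      intro k hk
      exact (mem_filter.1 hk).2
    refine h5.trans ?_
    have h6 := card_near ((-Y - v) / (D : ℝ)) ((Y - v) / (D : ℝ))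
      (div_le_div_of_nonneg_right (by linarith) hDR.le)
    rw [abs_le] at h6
    have h7 : (Y - v) / (D : ℝ) - (-Y - v) / D = 2 * Y / D := by ring
    rw [h7] at h6
    linarith [h6.2]
  -- second error
  have hsum : ∑ k ∈ Ico (-(n : ℤ)) n, H (θ + k) / D =
      ((∑ i ∈ range n, H (θ + i)) + ∑ i ∈ range n, H (1 - θ + i)) / D := by
    rw [← sum_div, sum_sym]
    congr 2
    apply sum_congr rfl
    intro i _
    rw [← hHeven]
    congr 1
    push_cast
    ring
  have hr1 := riem H hHanti hH0 θ hθ0 hθ1 n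
  have hr2 := riem H hHanti hH0 (1 - θ) (by linarith) (by linarith) n
  have hint : ∫ x in (0 : ℝ)..n, H x = Real.pi * t / (Real.sqrt Δ * D) := by
    have hX' : (0 : ℝ) < Y / D := by positivity
    have h4at : 0 ≤ 4 * a * t := by positivity
    have hHX : ∀ w, H w = Real.sqrt (4 * a * t) / a * Real.sqrt (1 - (w / (Y / D)) ^ 2) := by
      intro w
      simp only [hH]
      rw [div_mul_eq_mul_div, ← Real.sqrt_mul h4at]
      congr 2
      rw [div_pow, div_pow, hYsq]
      field_simp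
    have hfun : H = fun w => Real.sqrt (4 * a * t) / a *
        Real.sqrt (1 - (w / (Y / D)) ^ 2) := funext hHX
    rw [hfun, intervalIntegral.integral_const_mul, scaled (Y / D) hX' n (by
      have : Y / D ≤ Y := div_le_self hY0.le hD1
      linarith)]
    rw [hY, Real.sqrt_div h4at]
    have h5 : Real.sqrt (4 * a * t) * Real.sqrt (4 * a * t) = 4 * a * t :=
      Real.mul_self_sqrt h4at
    have hsp : 0 < Real.sqrt (Δ : ℝ) := Real.sqrt_pos.2 hΔR
    field_simp
    nlinarith [h5]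
  have hHzero : H 0 ≤ 2 * Real.sqrt t := by
    simp only [hH, mul_zero, ne_eq, OfNat.ofNat_ne_zero, not_false_eq_true, zero_pow, sub_zero]
    rw [div_le_iff₀ haR]
    apply Real.sqrt_le_iff.2
    refine ⟨by positivity, ?_⟩
    have : (2 * Real.sqrt t * a) ^ 2 = 4 * (a * a) * t := by
      rw [mul_pow, mul_pow, Real.sq_sqrt ht0.le]
      ring
    rw [this]
    nlinarith [mul_pos haR ht0]
  rw [hint] at hr1 hr2
  rw [hsum] at herr1
  set S1 := ∑ i ∈ range n, H (θ + i)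
  set S2 := ∑ i ∈ range n, H (1 - θ + i)
  have h8 : |(S1 + S2) / D - 2 * Real.pi * t / (Real.sqrt Δ * D ^ 2)| ≤ 4 * Real.sqrt t := by
    have h9 : (S1 + S2) / D - 2 * Real.pi * t / (Real.sqrt Δ * D ^ 2) =
        ((S1 - Real.pi * t / (Real.sqrt Δ * D)) + (S2 - Real.pi * t / (Real.sqrt Δ * D))) / D := by
      have hsp : 0 < Real.sqrt (Δ : ℝ) := Real.sqrt_pos.2 hΔR
      field_simp
      ring
    rw [h9, abs_div, abs_of_pos hDR, div_le_iff₀ hDR]
    have h10 := abs_add_le (S1 - Real.pi * t / (Real.sqrt Δ * D))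
      (S2 - Real.pi * t / (Real.sqrt Δ * D))
    have h11 : 4 * Real.sqrt t ≤ 4 * Real.sqrt t * D := by
      nlinarith [Real.sqrt_nonneg t]
    linarith
  have h12 : 2 * Y / D + 1 ≤ 5 * Real.sqrt t := by
    have : 2 * Y / D ≤ 2 * Y := div_le_self (by positivity) hD1
    linarith
  have h13 := abs_sub_le (∑ k ∈ Ico (-(n : ℤ)) n, ((X k).card : ℝ)) ((S1 + S2) / D)
    (2 * Real.pi * t / (Real.sqrt Δ * D ^ 2))
  linarith

end LAT_

open LAT_ in
/-- lattice points of a residue class in an ellipse -/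
theorem p_LAT : T_LAT := by
  refine ⟨9, by norm_num, ?_⟩
  intro a b c Δ hr D hD u v t ht
  have hD' : (D : ℤ) ≠ 0 := by exact_mod_cast hD.ne'
  have hDpos : (0 : ℤ) < D := by exact_mod_cast hD
  have h := main a b c Δ hr D hD u (v % D) (Int.emod_nonneg v hD') (Int.emod_lt_of_pos v hDpos) t ht
  have hset : {P : ℤ × ℤ | (qf a b c P.1 P.2 : ℝ) ≤ t ∧ (D : ℤ) ∣ P.1 - u ∧
      (D : ℤ) ∣ P.2 - v} = {P : ℤ × ℤ | (qf a b c P.1 P.2 : ℝ) ≤ t ∧ (D : ℤ) ∣ P.1 - u ∧
      (D : ℤ) ∣ P.2 - v % D} := by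
    ext P
    simp only [Set.mem_ofPred_eq]
    have h1 : P.2 - v % D = P.2 - v + D * (v / D) := by
      have := Int.emod_add_mul_ediv v D
      linarith
    have h2 : (D : ℤ) ∣ P.2 - v ↔ (D : ℤ) ∣ P.2 - v % D := by
      rw [h1]
      exact (dvd_add_left (dvd_mul_right _ _)).symm
    rw [h2]
  rw [hset]
  exact h

end SSN
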