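import Pool.Agent.SSN.Targets

/-!
# SSN-NT: the final counting argument
-/

set_option autoImplicit false

open scoped BigOperators
open Finset Filter Topology

namespace SSN

namespace NT_

/-- domination of a finite sum -/
lemma fin_bound (S : Set ℕ) (w : ℕ → ℝ) (hw : ∀ n, 0 ≤ w n) (Q : ℕ → Prop) [DecidablePred Q]
    (F : ℕ → Set ℕ) (L₀ y0 : ℕ) (hS : Summable (S.indicator w))
    (hF : ∀ p, p ∈ S → Summable ((F p).indicator w))
    (hcov : ∀ ℓ, Q ℓ → L₀ ≤ ℓ → ℓ ∉ S → ∃ p, p ∈ S ∧ y0 < p ∧ ℓ ∈ F p) (bd : ℝ)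
    (hb : ∀ T : Finset ℕ, (∀ p ∈ T, p ∈ S ∧ y0 < p) →
      ∑ p ∈ T, (∑' ℓ, (F p).indicator w ℓ) ≤ bd) (G : Finset ℕ) :
    ∑ ℓ ∈ G, (if Q ℓ then w ℓ else 0) ≤
      ∑ ℓ ∈ range L₀, w ℓ + (∑' ℓ, S.indicator w ℓ) + bd := by
  classical
  choose! g hg using hcov
  set T : Finset ℕ := (G.filter (fun ℓ => Q ℓ ∧ L₀ ≤ ℓ ∧ ℓ ∉ S)).image g with hT
  have hTS : ∀ p ∈ T, p ∈ S ∧ y0 < p := by
    intro p hp
    rw [hT, Finset.mem_image] at hp
    obtain ⟨ℓ, hℓ, rfl⟩ := hp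
    rw [Finset.mem_filter] at hℓ
    exact ⟨(hg ℓ hℓ.2.1 hℓ.2.2.1 hℓ.2.2.2).1, (hg ℓ hℓ.2.1 hℓ.2.2.1 hℓ.2.2.2).2.1⟩
  have hind : ∀ (A : Set ℕ) (n : ℕ), 0 ≤ A.indicator w n := fun A n =>
    Set.indicator_nonneg (fun i _ => hw i) n
  have hpt : ∀ ℓ ∈ G, (if Q ℓ then w ℓ else 0) ≤
      (if ℓ < L₀ then w ℓ else 0) + S.indicator w ℓ + ∑ p ∈ T, (F p).indicator w ℓ := by
    intro ℓ hℓ
    have h1 : (0 : ℝ) ≤ if ℓ < L₀ then w ℓ else 0 := by
      split_ifs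
      · exact hw ℓ
      · exact le_refl _
    have h2 := hind S ℓ
    have h3 : 0 ≤ ∑ p ∈ T, (F p).indicator w ℓ := Finset.sum_nonneg fun p _ => hind _ _
    by_cases hQ : Q ℓ
    · rw [if_pos hQ]
      by_cases hL : ℓ < L₀
      · rw [if_pos hL]
        linarith
      · by_cases hSℓ : ℓ ∈ S
        · rw [Set.indicator_of_mem hSℓ]
          linarith
        · obtain ⟨g1, g2, g3⟩ := hg ℓ hQ (not_lt.1 hL) hSℓ
          have hgT : g ℓ ∈ T := by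
            rw [hT, Finset.mem_image]
            exact ⟨ℓ, Finset.mem_filter.2 ⟨hℓ, hQ, not_lt.1 hL, hSℓ⟩, rfl⟩
          have h4 : (F (g ℓ)).indicator w ℓ ≤ ∑ p ∈ T, (F p).indicator w ℓ :=
            Finset.single_le_sum (f := fun p => (F p).indicator w ℓ) (fun p _ => hind _ _) hgT
          rw [Set.indicator_of_mem g3] at h4
          linarith
    · rw [if_neg hQ]
      linarith
  calc ∑ ℓ ∈ G, (if Q ℓ then w ℓ else 0) ≤
      ∑ ℓ ∈ G, ((if ℓ < L₀ then w ℓ else 0) + S.indicator w ℓ + ∑ p ∈ T, (F p).indicator w ℓ) :=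
        Finset.sum_le_sum hpt
    _ = ∑ ℓ ∈ G, (if ℓ < L₀ then w ℓ else 0) + ∑ ℓ ∈ G, S.indicator w ℓ +
        ∑ p ∈ T, ∑ ℓ ∈ G, (F p).indicator w ℓ := by
        rw [Finset.sum_add_distrib, Finset.sum_add_distrib, Finset.sum_comm (s := G) (t := T)]
    _ ≤ ∑ ℓ ∈ range L₀, w ℓ + (∑' ℓ, S.indicator w ℓ) + bd := by
        have e1 : ∑ ℓ ∈ G, (if ℓ < L₀ then w ℓ else 0) ≤ ∑ ℓ ∈ range L₀, w ℓ := by
          rw [← Finset.sum_filter]
          apply Finset.sum_le_sum_of_subset_of_nonneg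
          · intro ℓ hℓ
            rw [Finset.mem_filter] at hℓ
            exact Finset.mem_range.2 hℓ.2
          · intro i _ _
            exact hw i
        have e2 : ∑ ℓ ∈ G, S.indicator w ℓ ≤ ∑' ℓ, S.indicator w ℓ :=
          hS.sum_le_tsum G fun i _ => hind _ _
        have e3 : ∑ p ∈ T, ∑ ℓ ∈ G, (F p).indicator w ℓ ≤ bd := by
          refine le_trans (Finset.sum_le_sum fun p hp => ?_) (hb T hTS)
          exact (hF p (hTS p hp).1).sum_le_tsum G fun i _ => hind _ _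
        linarith

/-- the weight of a set of primes beyond `(log p)^(2-ε/2)` -/
lemma log_div_le (u θ : ℝ) (L : ℕ) (hu : 0 < u) (hθ : 0 < θ) (hθ1 : θ ≤ 1) (hL : u ≤ L) :
    Real.log L / L ≤ 1 / θ * u ^ (θ - 1) := by
  have hL0 : (0 : ℝ) < L := lt_of_lt_of_le hu hL
  have h1 : Real.log L ≤ (L : ℝ) ^ θ / θ := Real.log_le_rpow_div hL0.le hθ
  have h2 : Real.log L / L ≤ (L : ℝ) ^ θ / θ / L := div_le_div_of_nonneg_right h1 hL0.le
  have h3 : (L : ℝ) ^ θ / θ / L = 1 / θ * (L : ℝ) ^ (θ - 1) := by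
    rw [Real.rpow_sub hL0, Real.rpow_one]
    field_simp
  have h4 : (L : ℝ) ^ (θ - 1) ≤ u ^ (θ - 1) :=
    Real.rpow_le_rpow_of_nonpos hu hL (by linarith)
  rw [h3] at h2
  exact h2.trans (mul_le_mul_of_nonneg_left h4 (by positivity))

/-- the set of elements of `S` up to `x` -/
lemma fin_S (S : Set ℕ) (x : ℝ) : {p : ℕ | p ∈ S ∧ (p : ℝ) ≤ x}.Finite := by
  apply (Set.finite_Iic ⌊x⌋₊).subset
  rintro p ⟨_, hp⟩
  exact Nat.le_floor hp

/-- the contradiction for large `Y` -/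
lemma final (a c D E : ℝ) (ha : 0 < a) (hc : 0 ≤ c) :
    ∃ Y : ℝ, D ≤ Y ∧ E + c * ((Real.log Y) ^ 2 * Real.sqrt Y) < a * Y := by
  have h1 : (fun x : ℝ => Real.log x ^ (2 : ℝ)) =o[atTop] fun x : ℝ => x ^ (1 / 2 : ℝ) :=
    isLittleO_log_rpow_rpow_atTop 2 (by norm_num)
  have hk : (0 : ℝ) < a / (2 * (c + 1)) := by positivity
  have h2 := h1.bound hk
  obtain ⟨Y, hY1, hY2, hY3⟩ := (h2.and ((eventually_ge_atTop (max D 1)).and
    (eventually_gt_atTop (2 * E / a)))).exists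
  have hYD : D ≤ Y := (le_max_left _ _).trans hY2
  have hY0 : 1 ≤ Y := (le_max_right _ _).trans hY2
  have hlog : 0 ≤ Real.log Y := Real.log_nonneg hY0
  refine ⟨Y, hYD, ?_⟩
  rw [Real.norm_of_nonneg (Real.rpow_nonneg hlog _),
    Real.norm_of_nonneg (Real.rpow_nonneg (by linarith) _), Real.rpow_two,
    ← Real.sqrt_eq_rpow] at hY1
  have h3 : (Real.log Y) ^ 2 * Real.sqrt Y ≤ a / (2 * (c + 1)) * Y := by
    calc (Real.log Y) ^ 2 * Real.sqrt Y ≤ (a / (2 * (c + 1)) * Real.sqrt Y) * Real.sqrt Y := by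
          gcongr
      _ = a / (2 * (c + 1)) * (Real.sqrt Y * Real.sqrt Y) := by ring
      _ = _ := by rw [Real.mul_self_sqrt (by linarith)]
  have h4 : c * ((Real.log Y) ^ 2 * Real.sqrt Y) ≤ a * Y / 2 := by
    calc c * ((Real.log Y) ^ 2 * Real.sqrt Y) ≤ (c + 1) * (a / (2 * (c + 1)) * Y) := by
          apply mul_le_mul (by linarith) h3 (by positivity) (by linarith)
      _ = a * Y / 2 := by field_simp
  rw [div_lt_iff₀ ha] at hY3
  linarith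

/-- the weights -/
lemma w_nonneg (Y : ℝ) (n : ℕ) : 0 ≤ Real.log n * (n : ℝ) ^ (-1 - 1 / Y) :=
  mul_nonneg (Real.log_natCast_nonneg n) (Real.rpow_nonneg (Nat.cast_nonneg n) _)

lemma w_le_log (Y : ℝ) (hY : 0 < Y) (n : ℕ) :
    Real.log n * (n : ℝ) ^ (-1 - 1 / Y) ≤ Real.log n := by
  rcases Nat.eq_zero_or_pos n with h | h
  · subst h
    simp
  · have hn : (1 : ℝ) ≤ n := by exact_mod_cast h
    have h1 : (n : ℝ) ^ (-1 - 1 / Y) ≤ 1 := by
      apply Real.rpow_le_one_of_one_le_of_nonpos hn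
      have : 0 < 1 / Y := by positivity
      linarith
    calc Real.log n * (n : ℝ) ^ (-1 - 1 / Y) ≤ Real.log n * 1 :=
          mul_le_mul_of_nonneg_left h1 (Real.log_nonneg hn)
      _ = Real.log n := mul_one _

lemma w_le_quarter (Y : ℝ) (hY : 0 < Y) (n : ℕ) :
    Real.log n * (n : ℝ) ^ (-1 - 1 / Y) ≤ 4 / 3 * (n : ℝ) ^ (-1 / 4 : ℝ) := by
  rcases Nat.eq_zero_or_pos n with h | h
  · subst h
    simp
  · have hn : (1 : ℝ) ≤ n := by exact_mod_cast h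
    have hn0 : (0 : ℝ) < n := by linarith
    have h1 : (n : ℝ) ^ (-1 - 1 / Y) ≤ (n : ℝ) ^ (-1 : ℝ) := by
      apply Real.rpow_le_rpow_of_exponent_le hn
      have : 0 < 1 / Y := by positivity
      linarith
    have h2 : Real.log n ≤ (n : ℝ) ^ (3 / 4 : ℝ) / (3 / 4) :=
      Real.log_le_rpow_div hn0.le (by norm_num)
    calc Real.log n * (n : ℝ) ^ (-1 - 1 / Y) ≤ ((n : ℝ) ^ (3 / 4 : ℝ) / (3 / 4)) * (n : ℝ) ^ (-1 : ℝ) := by
          apply mul_le_mul h2 h1 (by positivity) (by positivity)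
      _ = 4 / 3 * ((n : ℝ) ^ (3 / 4 : ℝ) * (n : ℝ) ^ (-1 : ℝ)) := by ring
      _ = 4 / 3 * (n : ℝ) ^ (-1 / 4 : ℝ) := by
          rw [← Real.rpow_add hn0]
          norm_num

end NT_

open NT_ in
theorem p_NT (h1 : T_DIR) (h2 : T_W) (h3 : T_SUM) (h4 : T_KIL) : T_NT := by
  classical
  intro S K P₀ hP₀ hS hcov hkill hform ε₀ hε₀ x₀
  by_contra hcon
  push Not at hcon
  -- normalise `ε`
  obtain ⟨ε, hε, hε1, hεε⟩ : ∃ ε : ℝ, 0 < ε ∧ ε ≤ 1 ∧ ε ≤ ε₀ :=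
    ⟨min ε₀ 1, lt_min hε₀ one_pos, min_le_right _ _, min_le_left _ _⟩
  obtain ⟨x₁, hx₁⟩ : ∃ x₁ : ℝ, x₁ = max x₀ (Real.exp 1) := ⟨_, rfl⟩
  have hcount : ∀ x : ℝ, x₁ ≤ x →
      (({p : ℕ | p ∈ S ∧ (p : ℝ) ≤ x}.ncard : ℕ) : ℝ) ≤ (Real.log x) ^ (2 - ε) := by
    intro x hx
    have e1 : Real.exp 1 ≤ x := by rw [hx₁] at hx; exact (le_max_right _ _).trans hx
    have e2 : x₀ ≤ x := by rw [hx₁] at hx; exact (le_max_left _ _).trans hx
    have e3 : 1 ≤ Real.log x := by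
      rw [Real.le_log_iff_exp_le (lt_of_lt_of_le (Real.exp_pos 1) e1)]
      exact e1
    exact (hcon x e2).le.trans (Real.rpow_le_rpow_of_exponent_le e3 (by linarith))
  obtain ⟨hsumL, hsumQ⟩ := h3 S (2 - ε) (2 - 3 * ε / 4) x₁ (by linarith) (by linarith) hcount
  obtain ⟨CW, hCW, hW⟩ := h2
  obtain ⟨CK, hCK, hKIL⟩ := h4
  -- the functions `a₁`, `a₂`
  obtain ⟨a₁, ha₁⟩ : ∃ a₁ : ℕ → ℝ, a₁ = S.indicator fun n : ℕ =>
      if 3 ≤ n then (Real.log n) ^ (-(2 - 3 * ε / 4)) else 0 := ⟨_, rfl⟩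
  obtain ⟨a₂, ha₂⟩ : ∃ a₂ : ℕ → ℝ, a₂ = S.indicator fun n : ℕ => (n : ℝ) ^ (-1 / 4 : ℝ) := ⟨_, rfl⟩
  rw [← ha₁] at hsumL
  rw [← ha₂] at hsumQ
  have ha₁0 : ∀ n, 0 ≤ a₁ n := by
    intro n
    rw [ha₁]
    apply Set.indicator_nonneg
    intro i _
    split_ifs
    · exact Real.rpow_nonneg (Real.log_natCast_nonneg i) _
    · exact le_refl _
  have ha₂0 : ∀ n, 0 ≤ a₂ n := by
    intro n
    rw [ha₂]
    apply Set.indicator_nonneg
    intro i _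
    exact Real.rpow_nonneg (Nat.cast_nonneg i) _
  -- the set `P`
  obtain ⟨s0, hs0⟩ := summable_iff_vanishing_norm.1 hsumQ (1 / (48 * CK)) (by positivity)
  obtain ⟨y0, hy0⟩ : ∃ y0 : ℕ, ∀ n ∈ s0, n ≤ y0 := ⟨s0.sup id, fun n hn => Finset.le_sup (f := id) hn⟩
  have htail : ∀ T : Finset ℕ, (∀ p ∈ T, p ∈ S ∧ y0 < p) → ∑ p ∈ T, a₂ p ≤ 1 / (48 * CK) := by
    intro T hT
    have hd : Disjoint T s0 := by
      rw [Finset.disjoint_left]
      intro n hn hn'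
      have := (hT n hn).2
      have := hy0 n hn'
      omega
    exact (le_abs_self _).trans (hs0 T hd).le
  obtain ⟨P, hP⟩ : ∃ P : Finset ℕ, P = P₀ ∪ (Finset.range (y0 + 1)).filter (fun p => p ∈ S) :=
    ⟨_, rfl⟩
  have hPodd : OddPr P := by
    intro p hp
    rw [hP, Finset.mem_union, Finset.mem_filter] at hp
    rcases hp with hp | hp
    · exact hP₀ p hp
    · exact hS p hp.2
  have hMM : MM P₀ ∣ MM P := by
    unfold MM
    apply Nat.mul_dvd_mul_left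
    apply Finset.prod_dvd_prod_of_subset
    rw [hP]
    exact Finset.subset_union_left
  have h8 : ∀ p ∈ P, 8 * p ∣ MM P := by
    intro p hp
    unfold MM
    exact Nat.mul_dvd_mul_left 8 (Finset.dvd_prod_of_mem (fun p => p) hp)
  have h8' : 8 ∣ MM P := Dvd.intro _ rfl
  have hph : 0 < ph P := by
    unfold ph
    apply Finset.prod_pos
    intro p hp
    have : 2 ≤ p := (hPodd p hp).1.two_le
    have : (2 : ℝ) ≤ p := by exact_mod_cast this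
    linarith
  obtain ⟨CP, hCP⟩ := h1 P hPodd
  obtain ⟨A, hA, hKILA⟩ := hKIL P hPodd
  -- the exponent
  obtain ⟨e, he⟩ : ∃ e : ℝ, e = 2 - ε / 2 := ⟨_, rfl⟩
  have he0 : 0 < e := by rw [he]; linarith
  obtain ⟨L₀, hL₀⟩ := hcov (1 / e - 1 / 2) (by
    have : 1 / 2 < 1 / e := by
      apply one_div_lt_one_div_of_lt he0
      rw [he]; linarith
    linarith)
  have hexp : (1 / 2 + (1 / e - 1 / 2) : ℝ) = 1 / e := by ring
  rw [hexp] at hL₀
  -- the sets `F p`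
  obtain ⟨F, hF⟩ : ∃ F : ℕ → Set ℕ, F = fun p => {ℓ : ℕ | ℓ.Prime ∧ MM P ∣ ℓ + 1 ∧ K ℓ p ∧
      (p : ℝ) ≤ Real.exp ((ℓ : ℝ) ^ (1 / e))} := ⟨_, rfl⟩
  have hF7 : ∀ p, ∀ ℓ ∈ F p, 7 ≤ ℓ := by
    intro p ℓ hℓ
    rw [hF] at hℓ
    have h := Nat.le_of_dvd (by omega) (h8'.trans hℓ.2.1)
    omega
  have hFcov : ∀ ℓ, (ℓ.Prime ∧ MM P ∣ ℓ + 1) → L₀ ≤ ℓ → ℓ ∉ S → ∃ p, p ∈ S ∧ y0 < p ∧ ℓ ∈ F p := by
    rintro ℓ ⟨hℓp, hℓM⟩ hℓL hℓS
    rcases hL₀ ℓ hℓL hℓp (hMM.trans hℓM) with h | ⟨p, hpS, hKp, hpe⟩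
    · exact absurd h hℓS
    · refine ⟨p, hpS, ?_, ?_⟩
      · by_contra hlt
        have hpP : p ∈ P := by
          rw [hP, Finset.mem_union, Finset.mem_filter, Finset.mem_range]
          right
          exact ⟨by omega, hpS⟩
        exact hkill ℓ p hKp ((h8 p hpP).trans hℓM)
      · rw [hF]
        exact ⟨hℓp, hℓM, hKp, hpe⟩
  have hFform : ∀ p ∈ S, ∀ G : Finset ℕ, 2 ≤ G.card → (∀ ℓ ∈ G, ℓ ∈ F p) → ∃ a b c : ℤ, 0 < a ∧
      0 < 4 * a * c - b ^ 2 ∧ (p : ℤ) ∣ 4 * a * c - b ^ 2 ∧ ∀ ℓ ∈ G, Val a b c ℓ := by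
    intro p hp G hG hGF
    apply hform p hp G hG
    intro ℓ hℓ
    have h := hGF ℓ hℓ
    rw [hF] at h
    exact ⟨h.1, hMM.trans h.2.1, h.2.2.1⟩
  have hKF : ∀ p ∈ S, ∀ n : ℕ, 3 ≤ n →
    (((F p ∩ Set.Iic n).ncard : ℕ) : ℝ) ≤ 1 + 7 / Real.sqrt p * n ∧
    (((F p ∩ Set.Iic n).ncard : ℕ) : ℝ) ≤ A + 7 * n / (Real.log n) ^ (3 / 2 : ℝ) +
      CK / (ph P * (p : ℝ) ^ (1 / 4 : ℝ)) * n / Real.log n := by
    intro p hp
    apply hKILA p (F p) (hS p hp).1.pos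
    · intro ℓ hℓ
      rw [hF] at hℓ
      exact ⟨hℓ.1, hℓ.2.1⟩
    · exact hFform p hp
  -- the exponent `θ`
  obtain ⟨θ, hθ⟩ : ∃ θ : ℝ, θ = 1 - (2 - 3 * ε / 4) / e := ⟨_, rfl⟩
  have hγe : (2 - 3 * ε / 4) / e < 1 := by
    rw [div_lt_one he0, he]
    linarith
  have hγ0 : 0 < (2 - 3 * ε / 4) / e := by
    apply div_pos _ he0
    linarith
  have hθ0 : 0 < θ := by rw [hθ]; linarith
  have hθ1 : θ ≤ 1 := by rw [hθ]; linarith
  have hθe : e * (θ - 1) = -(2 - 3 * ε / 4) := by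
    rw [hθ]
    field_simp
    ring
  have hWp : ∀ Y : ℝ, 1 ≤ Y → ∀ p ∈ S,
      (∑' n : ℕ, (F p).indicator (fun n : ℕ => Real.log n * (n : ℝ) ^ (-1 - 1 / Y)) n) ≤
      1 / θ * a₁ p + 7 * CW * a₂ p + (if (p : ℝ) ≤ Y ^ 8 then CW * (A + Real.sqrt Y) else 0) +
        3 * CK * Y / ph P * a₂ p := by
    intro Y hY p hp
    have hp3 : 3 ≤ p := by
      have h := (hS p hp).1.two_le
      have h' := (hS p hp).2
      omega
    have hp3r : (3 : ℝ) ≤ p := by exact_mod_cast hp3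
    have hp0 : (0 : ℝ) < p := by linarith
    have hlogp : 0 < Real.log p := Real.log_pos (by linarith)
    have e1 : a₁ p = (Real.log p) ^ (-(2 - 3 * ε / 4)) := by
      rw [ha₁, Set.indicator_of_mem hp, if_pos hp3]
    have e2 : a₂ p = (p : ℝ) ^ (-1 / 4 : ℝ) := by
      rw [ha₂, Set.indicator_of_mem hp]
    have hF3 : ∀ n ∈ F p, 3 ≤ n := fun n hn => by
      have := hF7 p n hn
      omega
    obtain ⟨_, hW1, hW2⟩ := hW (F p) Y hY hF3
    have h10 := ha₁0 p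
    have h20 := ha₂0 p
    have hq1 : 0 ≤ 1 / θ * a₁ p := by positivity
    have hq2 : 0 ≤ 7 * CW * a₂ p := by positivity
    have hq3 : 0 ≤ 3 * CK * Y / ph P * a₂ p := by positivity
    by_cases hpY : (p : ℝ) ≤ Y ^ 8
    · rw [if_pos hpY]
      have h := hW2 A (CK / (ph P * (p : ℝ) ^ (1 / 4 : ℝ))) hA (by positivity)
        (fun n hn => (hKF p hp n hn).2)
      have e3 : 3 * (CK / (ph P * (p : ℝ) ^ (1 / 4 : ℝ))) * Y = 3 * CK * Y / ph P * a₂ p := by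
        rw [e2, show (-1 / 4 : ℝ) = -(1 / 4) by norm_num, Real.rpow_neg hp0.le]
        field_simp
      rw [e3] at h
      linarith
    · rw [if_neg hpY]
      push Not at hpY
      obtain ⟨u, hu⟩ : ∃ u : ℝ, u = (Real.log p) ^ e := ⟨_, rfl⟩
      have hu0 : 0 < u := by rw [hu]; positivity
      have hLF : ∀ n ∈ F p, max 3 ⌈u⌉₊ ≤ n := by
        intro n hn
        apply max_le (hF3 n hn)
        rw [Nat.ceil_le, hu]
        have hn' := hn
        rw [hF] at hn'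
        have h5 : Real.log p ≤ (n : ℝ) ^ (1 / e) := by
          rw [Real.log_le_iff_le_exp hp0]
          exact hn'.2.2.2
        calc (Real.log p) ^ e ≤ ((n : ℝ) ^ (1 / e)) ^ e := Real.rpow_le_rpow hlogp.le h5 he0.le
          _ = n := by
            rw [← Real.rpow_mul (Nat.cast_nonneg n), one_div, inv_mul_cancel₀ he0.ne',
              Real.rpow_one]
      have h := hW1 (max 3 ⌈u⌉₊) (7 / Real.sqrt p) (le_max_left _ _) (by positivity) hLF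
        (fun n hn => (hKF p hp n hn).1)
      have huL : u ≤ ((max 3 ⌈u⌉₊ : ℕ) : ℝ) := by
        refine (Nat.le_ceil u).trans ?_
        exact_mod_cast le_max_right 3 ⌈u⌉₊
      have h6 := log_div_le u θ (max 3 ⌈u⌉₊) hu0 hθ0 hθ1 huL
      have e4 : u ^ (θ - 1) = a₁ p := by
        rw [e1, hu, ← Real.rpow_mul hlogp.le, hθe]
      rw [e4] at h6
      have e5 : CW * (7 / Real.sqrt p) * Y ^ 2 ≤ 7 * CW * a₂ p := by
        have hY2 : Y ^ 2 ≤ (p : ℝ) ^ (1 / 4 : ℝ) := by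
          have e6 : Y ^ 2 = (Y ^ 8) ^ (1 / 4 : ℝ) := by
            rw [← Real.rpow_natCast Y 8, ← Real.rpow_mul (by linarith)]
            norm_num
          rw [e6]
          exact Real.rpow_le_rpow (by positivity) hpY.le (by norm_num)
        have e7 : (p : ℝ) ^ (1 / 4 : ℝ) / Real.sqrt p = a₂ p := by
          rw [e2, Real.sqrt_eq_rpow, ← Real.rpow_sub hp0]
          norm_num
        calc CW * (7 / Real.sqrt p) * Y ^ 2 = 7 * CW * (Y ^ 2 / Real.sqrt p) := by ring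
          _ ≤ 7 * CW * ((p : ℝ) ^ (1 / 4 : ℝ) / Real.sqrt p) := by gcongr
          _ = 7 * CW * a₂ p := by rw [e7]
      linarith
  -- constants
  obtain ⟨A1, hA1⟩ : ∃ A1 : ℝ, A1 = ∑' n, a₁ n := ⟨_, rfl⟩
  obtain ⟨A2, hA2⟩ : ∃ A2 : ℝ, A2 = ∑' n, a₂ n := ⟨_, rfl⟩
  have hA20 : 0 ≤ A2 := by rw [hA2]; exact tsum_nonneg ha₂0
  have hA10 : 0 ≤ A1 := by rw [hA1]; exact tsum_nonneg ha₁0
  obtain ⟨Y, hYD, hYlt⟩ := final (3 / (16 * ph P)) (64 * CW * (A + 1)) (max x₁ (Real.exp 1))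
    (CP + ∑ ℓ ∈ range L₀, Real.log ℓ + 4 / 3 * A2 + 1 / θ * A1 + 7 * CW * A2)
    (by positivity) (by positivity)
  have hYe : Real.exp 1 ≤ Y := (le_max_right _ _).trans hYD
  have hYx : x₁ ≤ Y := (le_max_left _ _).trans hYD
  have hexp1 : 1 ≤ Real.exp 1 := Real.one_le_exp (by norm_num)
  have hY1 : 1 ≤ Y := hexp1.trans hYe
  have hY0 : 0 < Y := by linarith
  have hlogY : 1 ≤ Real.log Y := by
    rw [Real.le_log_iff_exp_le hY0]
    exact hYe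
  obtain ⟨w, hw⟩ : ∃ w : ℕ → ℝ, w = fun n : ℕ => Real.log n * (n : ℝ) ^ (-1 - 1 / Y) := ⟨_, rfl⟩
  have hw0 : ∀ n, 0 ≤ w n := fun n => by rw [hw]; exact w_nonneg Y n
  -- the sum over `S`
  have hSle : ∀ n, S.indicator w n ≤ 4 / 3 * a₂ n := by
    intro n
    by_cases hn : n ∈ S
    · rw [Set.indicator_of_mem hn, ha₂, Set.indicator_of_mem hn, hw]
      exact w_le_quarter Y hY0 n
    · rw [Set.indicator_of_notMem hn]
      have := ha₂0 n
      positivity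
  have hSsum : Summable (S.indicator w) :=
    Summable.of_nonneg_of_le (fun n => Set.indicator_nonneg (fun i _ => hw0 i) n) hSle
      (hsumQ.mul_left _)
  have hStsum : (∑' n, S.indicator w n) ≤ 4 / 3 * A2 := by
    rw [hA2, ← tsum_mul_left]
    exact hSsum.tsum_le_tsum hSle (hsumQ.mul_left _)
  have hFsum : ∀ p, p ∈ S → Summable ((F p).indicator w) := by
    intro p _
    have h := (hW (F p) Y hY1 (fun n hn => by have := hF7 p n hn; omega)).1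
    rw [hw]
    exact h
  -- the bound for the primes of `T`
  have hTb : ∀ T : Finset ℕ, (∀ p ∈ T, p ∈ S ∧ y0 < p) →
      ∑ p ∈ T, (∑' ℓ, (F p).indicator w ℓ) ≤
        1 / θ * A1 + 7 * CW * A2 + 64 * (Real.log Y) ^ 2 * (CW * (A + Real.sqrt Y)) +
          Y / (16 * ph P) := by
    intro T hT
    have s1 : ∑ p ∈ T, a₁ p ≤ A1 := by
      rw [hA1]
      exact hsumL.sum_le_tsum T fun i _ => ha₁0 i
    have s2 : ∑ p ∈ T, a₂ p ≤ A2 := by
      rw [hA2]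
      exact hsumQ.sum_le_tsum T fun i _ => ha₂0 i
    have s3 := htail T hT
    have hY8 : Real.log (Y ^ 8) = 8 * Real.log Y := by
      rw [Real.log_pow]
      norm_num
    have s4 : (((T.filter (fun p : ℕ => (p : ℝ) ≤ Y ^ 8)).card : ℕ) : ℝ) ≤
        64 * (Real.log Y) ^ 2 := by
      have hsub : ((T.filter (fun p : ℕ => (p : ℝ) ≤ Y ^ 8) : Finset ℕ) : Set ℕ) ⊆
          {p : ℕ | p ∈ S ∧ (p : ℝ) ≤ Y ^ 8} := by
        intro p hp
        rw [Finset.mem_coe, Finset.mem_filter] at hp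
        exact ⟨(hT p hp.1).1, hp.2⟩
      have hc := Set.ncard_le_ncard hsub (fin_S S (Y ^ 8))
      rw [Set.ncard_coe_finset] at hc
      have hYY : Y ≤ Y ^ 8 := le_self_pow₀ hY1 (by norm_num)
      have hc2 := hcount (Y ^ 8) (hYx.trans hYY)
      have hc3 : (Real.log (Y ^ 8)) ^ (2 - ε) ≤ (Real.log (Y ^ 8)) ^ (2 : ℝ) := by
        apply Real.rpow_le_rpow_of_exponent_le
        · rw [hY8]; linarith
        · linarith
      rw [Real.rpow_two, hY8] at hc3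
      have hc4 : ((T.filter (fun p : ℕ => (p : ℝ) ≤ Y ^ 8)).card : ℝ) ≤
          (({p : ℕ | p ∈ S ∧ (p : ℝ) ≤ Y ^ 8}.ncard : ℕ) : ℝ) := by exact_mod_cast hc
      rw [hY8] at hc2
      calc _ ≤ _ := hc4
        _ ≤ _ := hc2
        _ ≤ _ := hc3
        _ = _ := by ring
    have hsq : 0 ≤ CW * (A + Real.sqrt Y) := by positivity
    calc ∑ p ∈ T, (∑' ℓ, (F p).indicator w ℓ)
        ≤ ∑ p ∈ T, (1 / θ * a₁ p + 7 * CW * a₂ p +
          (if (p : ℝ) ≤ Y ^ 8 then CW * (A + Real.sqrt Y) else 0) +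
            3 * CK * Y / ph P * a₂ p) := by
          apply Finset.sum_le_sum
          intro p hp
          rw [hw]
          exact hWp Y hY1 p (hT p hp).1
      _ = 1 / θ * ∑ p ∈ T, a₁ p + 7 * CW * ∑ p ∈ T, a₂ p +
          ((T.filter (fun p : ℕ => (p : ℝ) ≤ Y ^ 8)).card : ℝ) * (CW * (A + Real.sqrt Y)) +
            3 * CK * Y / ph P * ∑ p ∈ T, a₂ p := by
          rw [Finset.sum_add_distrib, Finset.sum_add_distrib, Finset.sum_add_distrib,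
            ← Finset.mul_sum, ← Finset.mul_sum, ← Finset.mul_sum, ← Finset.sum_filter,
            Finset.sum_const, nsmul_eq_mul]
      _ ≤ 1 / θ * A1 + 7 * CW * A2 + 64 * (Real.log Y) ^ 2 * (CW * (A + Real.sqrt Y)) +
          3 * CK * Y / ph P * (1 / (48 * CK)) := by
          gcongr
      _ = _ := by
          field_simp
          ring
  have hfin : ∀ G : Finset ℕ, ∑ ℓ ∈ G, (if ℓ.Prime ∧ MM P ∣ ℓ + 1 then w ℓ else 0) ≤
      ∑ ℓ ∈ range L₀, w ℓ + (∑' ℓ, S.indicator w ℓ) +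
        (1 / θ * A1 + 7 * CW * A2 + 64 * (Real.log Y) ^ 2 * (CW * (A + Real.sqrt Y)) +
          Y / (16 * ph P)) :=
    fin_bound S w hw0 (fun ℓ => ℓ.Prime ∧ MM P ∣ ℓ + 1) F L₀ y0 hSsum hFsum hFcov _ hTb
  have hlow := hCP (1 + 1 / Y) (by
    have : 0 < 1 / Y := by positivity
    linarith) (by
    have : 1 / Y ≤ 1 := by rw [div_le_one hY0]; exact hY1
    linarith)
  have hfun : (fun ℓ : ℕ => if ℓ.Prime ∧ MM P ∣ ℓ + 1 then
      Real.log ℓ * (ℓ : ℝ) ^ (-(1 + 1 / Y)) else 0) =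
      fun ℓ : ℕ => if ℓ.Prime ∧ MM P ∣ ℓ + 1 then w ℓ else 0 := by
    funext ℓ
    rw [hw]
    have : -(1 + 1 / Y) = -1 - 1 / Y := by ring
    rw [this]
  rw [hfun] at hlow
  have hup : (∑' ℓ : ℕ, if ℓ.Prime ∧ MM P ∣ ℓ + 1 then w ℓ else 0) ≤
      ∑ ℓ ∈ range L₀, w ℓ + (∑' ℓ, S.indicator w ℓ) +
        (1 / θ * A1 + 7 * CW * A2 + 64 * (Real.log Y) ^ 2 * (CW * (A + Real.sqrt Y)) +
          Y / (16 * ph P)) := by
    apply tsum_le_of_sum_le' _ hfin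
    have := hfin ∅
    simpa using this
  have hwl : ∑ ℓ ∈ range L₀, w ℓ ≤ ∑ ℓ ∈ range L₀, Real.log ℓ := by
    apply Finset.sum_le_sum
    intro ℓ _
    rw [hw]
    exact w_le_log Y hY0 ℓ
  have hsq1 : 1 ≤ Real.sqrt Y := Real.one_le_sqrt.2 hY1
  have hAs : A + Real.sqrt Y ≤ (A + 1) * Real.sqrt Y := by
    have : A * 1 ≤ A * Real.sqrt Y := mul_le_mul_of_nonneg_left hsq1 hA
    have e8 : (A + 1) * Real.sqrt Y = A * Real.sqrt Y + Real.sqrt Y := by ring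
    rw [e8]
    linarith
  have hmid : 64 * (Real.log Y) ^ 2 * (CW * (A + Real.sqrt Y)) ≤
      64 * CW * (A + 1) * ((Real.log Y) ^ 2 * Real.sqrt Y) := by
    calc 64 * (Real.log Y) ^ 2 * (CW * (A + Real.sqrt Y)) ≤
        64 * (Real.log Y) ^ 2 * (CW * ((A + 1) * Real.sqrt Y)) := by gcongr
      _ = _ := by ring
  have hmain : 1 / (4 * ph P * (1 + 1 / Y - 1)) = Y / (4 * ph P) := by
    have e9 : (1 + 1 / Y - 1 : ℝ) = 1 / Y := by ring
    rw [e9]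
    field_simp
  rw [hmain] at hlow
  have e10 : 3 / (16 * ph P) * Y = Y / (4 * ph P) - Y / (16 * ph P) := by
    field_simp
    ring
  rw [e10] at hYlt
  linarith

end SSN
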