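import Pool.Agent.SSN.Targets

/-!
# OMG: the number of prime factors
-/

set_option autoImplicit false

open scoped BigOperators
open Finset

namespace SSN

namespace OMG_

/-- the small primes contribute a bounded factor -/
theorem small (s : Finset ℕ) (N : ℕ) :
    ∏ p ∈ s, (if p < N then (4 : ℝ) else 1) ≤ 4 ^ N := by
  rw [Finset.prod_ite, Finset.prod_const, Finset.prod_const_one, mul_one]
  refine pow_le_pow_right₀ (by norm_num) ?_
  have h : s.filter (fun p => p < N) ⊆ Finset.range N := by
    intro p hp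
    exact Finset.mem_range.2 (Finset.mem_filter.1 hp).2
  have := Finset.card_le_card h
  rwa [Finset.card_range] at this

end OMG_

open OMG_ in
/-- the number of prime factors is small -/
theorem p_OMG : T_OMG := by
  intro η hη
  obtain ⟨N, hN⟩ := exists_nat_ge ((4 : ℝ) ^ (1 / η))
  refine ⟨4 ^ N, by positivity, fun n hn => ?_⟩
  have h1 : ∀ p ∈ n.primeFactors, (4 : ℝ) ≤ (if p < N then (4 : ℝ) else 1) * (p : ℝ) ^ η := by
    intro p hp
    have hp1 : (1 : ℝ) ≤ (p : ℝ) := by
      exact_mod_cast (Nat.prime_of_mem_primeFactors hp).one_lt.le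
    split_ifs with h
    · have := Real.one_le_rpow hp1 hη.le
      linarith
    · rw [one_mul]
      have h2 : (4 : ℝ) ^ (1 / η) ≤ (p : ℝ) := by
        refine hN.trans ?_
        exact_mod_cast not_lt.1 h
      have h3 := Real.rpow_le_rpow (by positivity) h2 hη.le
      rw [← Real.rpow_mul (by norm_num)] at h3
      have h4 : 1 / η * η = 1 := by
        field_simp
      rw [h4, Real.rpow_one] at h3
      exact h3
  calc (4 : ℝ) ^ n.primeFactors.card = ∏ p ∈ n.primeFactors, (4 : ℝ) := by
        rw [Finset.prod_const]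
    _ ≤ ∏ p ∈ n.primeFactors, ((if p < N then (4 : ℝ) else 1) * (p : ℝ) ^ η) :=
        Finset.prod_le_prod (fun _ _ => by norm_num) h1
    _ = (∏ p ∈ n.primeFactors, (if p < N then (4 : ℝ) else 1)) *
          ∏ p ∈ n.primeFactors, (p : ℝ) ^ η := Finset.prod_mul_distrib
    _ ≤ 4 ^ N * (n : ℝ) ^ η := by
        refine mul_le_mul (small _ N) ?_ (Finset.prod_nonneg fun _ _ => by positivity)
          (by positivity)
        rw [Real.finsetProd_rpow _ _ (fun _ _ => Nat.cast_nonneg _)]
        refine Real.rpow_le_rpow (Finset.prod_nonneg fun _ _ => Nat.cast_nonneg _) ?_ hη.le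
        have h5 : (∏ p ∈ n.primeFactors, p) ≤ n :=
          Nat.le_of_dvd hn (Nat.prod_primeFactors_dvd n)
        have h6 : ((∏ p ∈ n.primeFactors, p : ℕ) : ℝ) ≤ (n : ℝ) := Nat.cast_le.2 h5
        rw [Nat.cast_prod] at h6
        exact h6

end SSN
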