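import Mathlib
import Pool.Agent.SSN.Targets

/-!
# SSN-POS: nonnegative Taylor coefficients of `ζ L L L` at `2`
-/

open scoped BigOperators ComplexOrder
open Finset ArithmeticFunction

namespace SSN

namespace POS_

/-! ## Power series with nonnegative coefficients -/

/-- all coefficients are nonnegative -/
def NN (P : PowerSeries ℂ) : Prop := ∀ k, 0 ≤ PowerSeries.coeff k P

/-- the geometric series -/
noncomputable def EE (e : ℂ) : PowerSeries ℂ := PowerSeries.mk fun k => e ^ k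

theorem NN.mul {P Q : PowerSeries ℂ} (hP : NN P) (hQ : NN Q) : NN (P * Q) := by
  intro k
  rw [PowerSeries.coeff_mul]
  exact Finset.sum_nonneg fun x _ => mul_nonneg (hP _) (hQ _)

theorem NN_zero : NN (EE 0) := by
  intro k
  simp only [EE, PowerSeries.coeff_mk]
  exact pow_nonneg le_rfl _

theorem NN_one : NN (EE 1) := by
  intro k
  simp [EE, PowerSeries.coeff_mk]

theorem NN_neg : NN (EE 1 * EE (-1)) := by
  intro k
  rw [PowerSeries.coeff_mul]
  simp only [EE, PowerSeries.coeff_mk, one_pow, one_mul]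
  rw [Finset.Nat.sum_antidiagonal_eq_sum_range_succ (fun i j => (-1 : ℂ) ^ j),
    ← Finset.sum_range_reflect]
  have h : ∀ j ∈ range (k + 1), (-1 : ℂ) ^ (k - (k + 1 - 1 - j)) = (-1 : ℂ) ^ j := by
    intro j hj
    have hj' := Finset.mem_range.1 hj
    congr 1
    omega
  rw [Finset.sum_congr rfl h, neg_one_geom_sum]
  split_ifs
  exacts [le_rfl, zero_le_one]

theorem NN_four {e₁ e₂ : ℂ} (h₁ : e₁ = 0 ∨ e₁ = 1 ∨ e₁ = -1) (h₂ : e₂ = 0 ∨ e₂ = 1 ∨ e₂ = -1) :
    NN (EE 1 * EE e₁ * EE e₂ * EE (e₁ * e₂)) := by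
  rcases h₂ with rfl | rfl | rfl
  · rw [mul_zero]
    refine NN.mul (NN.mul ?_ NN_zero) NN_zero
    rcases h₁ with rfl | rfl | rfl
    · exact NN.mul NN_one NN_zero
    · exact NN.mul NN_one NN_one
    · exact NN_neg
  · rw [mul_one, mul_assoc (EE 1 * EE e₁)]
    rcases h₁ with rfl | rfl | rfl
    · exact NN.mul (NN.mul NN_one NN_zero) (NN.mul NN_one NN_zero)
    · exact NN.mul (NN.mul NN_one NN_one) (NN.mul NN_one NN_one)
    · exact NN.mul NN_neg NN_neg
  · rcases h₁ with rfl | rfl | rfl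
    · rw [zero_mul]
      have h : EE 1 * EE 0 * EE (-1) * EE 0 = (EE 1 * EE (-1)) * (EE 0 * EE 0) := by ring
      rw [h]
      exact NN.mul NN_neg (NN.mul NN_zero NN_zero)
    · rw [one_mul]
      have h : EE 1 * EE 1 * EE (-1) * EE (-1) = (EE 1 * EE (-1)) * (EE 1 * EE (-1)) := by ring
      rw [h]
      exact NN.mul NN_neg NN_neg
    · have h0 : (-1 : ℂ) * -1 = 1 := by norm_num
      rw [h0]
      have h : EE 1 * EE (-1) * EE (-1) * EE 1 = (EE 1 * EE (-1)) * (EE 1 * EE (-1)) := by ring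
      rw [h]
      exact NN.mul NN_neg NN_neg

/-! ## Bell series -/

/-- Bell series -/
noncomputable def BB (p : ℕ) (f : ArithmeticFunction ℂ) : PowerSeries ℂ :=
  PowerSeries.mk fun k => f (p ^ k)

theorem BB_mul {p : ℕ} (hp : p.Prime) (f g : ArithmeticFunction ℂ) :
    BB p (f * g) = BB p f * BB p g := by
  ext k
  rw [PowerSeries.coeff_mul]
  simp only [BB, PowerSeries.coeff_mk]
  rw [ArithmeticFunction.mul_apply, Nat.sum_divisorsAntidiagonal (fun a b => f a * g b),
    Nat.sum_divisors_prime_pow hp,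
    Finset.Nat.sum_antidiagonal_eq_sum_range_succ (fun i j => f (p ^ i) * g (p ^ j))]
  refine Finset.sum_congr rfl fun i hi => ?_
  have hi' : i ≤ k := Nat.lt_succ_iff.1 (Finset.mem_range.1 hi)
  rw [Nat.pow_div hi' hp.pos]

theorem BB_char {N : ℕ} (χ : DirichletCharacter ℂ N) {p : ℕ} (hp : p.Prime) :
    BB p (toArithmeticFunction (fun n : ℕ => χ n)) = EE (χ p) := by
  ext k
  simp only [BB, EE, PowerSeries.coeff_mk, toArithmeticFunction, ArithmeticFunction.coe_mk]
  rw [if_neg (pow_ne_zero k hp.ne_zero), Nat.cast_pow, map_pow]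

theorem BB_zeta {p : ℕ} (hp : p.Prime) :
    BB p (ArithmeticFunction.zeta : ArithmeticFunction ℂ) = EE 1 := by
  ext k
  simp [BB, EE, PowerSeries.coeff_mk, hp.ne_zero]

variable {q₁ q₂ : ℕ} (χ₁ : DirichletCharacter ℂ q₁) (χ₂ : DirichletCharacter ℂ q₂)
  (χ : DirichletCharacter ℂ (q₁ * q₂))

/-- the coefficients -/
noncomputable def AA : ArithmeticFunction ℂ :=
  (ArithmeticFunction.zeta : ArithmeticFunction ℂ) * toArithmeticFunction (fun n : ℕ => χ₁ n) *
    toArithmeticFunction (fun n : ℕ => χ₂ n) * toArithmeticFunction (fun n : ℕ => χ n)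

theorem AA_mult : (AA χ₁ χ₂ χ).IsMultiplicative :=
  ((isMultiplicative_zeta.natCast.mul
    (DirichletCharacter.isMultiplicative_toArithmeticFunction χ₁)).mul
    (DirichletCharacter.isMultiplicative_toArithmeticFunction χ₂)).mul
    (DirichletCharacter.isMultiplicative_toArithmeticFunction χ)

theorem AA_one : AA χ₁ χ₂ χ 1 = 1 := (AA_mult χ₁ χ₂ χ).map_one

theorem AA_nonneg
    (h₁ : ∀ n : ℕ, χ₁ (n : ZMod q₁) = 0 ∨ χ₁ (n : ZMod q₁) = 1 ∨ χ₁ (n : ZMod q₁) = -1)
    (h₂ : ∀ n : ℕ, χ₂ (n : ZMod q₂) = 0 ∨ χ₂ (n : ZMod q₂) = 1 ∨ χ₂ (n : ZMod q₂) = -1)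
    (h : ∀ n : ℕ, χ (n : ZMod (q₁ * q₂)) = χ₁ (n : ZMod q₁) * χ₂ (n : ZMod q₂)) (n : ℕ) :
    0 ≤ AA χ₁ χ₂ χ n := by
  rcases eq_or_ne n 0 with rfl | hn
  · simp only [ArithmeticFunction.map_zero, le_refl]
  · rw [(AA_mult χ₁ χ₂ χ).multiplicative_factorization _ hn]
    refine Finset.prod_nonneg fun p hp => ?_
    have hpp : p.Prime := Nat.prime_of_mem_primeFactors hp
    have hb : BB p (AA χ₁ χ₂ χ) = EE 1 * EE (χ₁ p) * EE (χ₂ p) * EE (χ₁ p * χ₂ p) := by
      rw [AA, BB_mul hpp, BB_mul hpp, BB_mul hpp, BB_char _ hpp, BB_char _ hpp, BB_char _ hpp,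
        BB_zeta hpp, h p]
    have := NN_four (h₁ p) (h₂ p) (n.factorization p)
    rw [← hb] at this
    simpa only [BB, PowerSeries.coeff_mk] using this

theorem char_hasSum {N : ℕ} [NeZero N] (ψ : DirichletCharacter ℂ N) {s : ℂ} (hs : 1 < s.re) :
    LSeriesHasSum (toArithmeticFunction (fun n : ℕ => ψ n)) s (ψ.LFunction s) := by
  have hsum : LSeriesSummable (fun n : ℕ => ψ n) s :=
    DirichletCharacter.LSeriesSummable_of_one_lt_re ψ hs
  have hsum' : LSeriesSummable (toArithmeticFunction (fun n : ℕ => ψ n)) s :=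
    (LSeriesSummable_congr s fun {n} hn =>
      (DirichletCharacter.apply_eq_toArithmeticFunction_apply ψ hn)).mp hsum
  have heq : LSeries (toArithmeticFunction (fun n : ℕ => ψ n)) s = ψ.LFunction s := by
    rw [DirichletCharacter.LFunction_eq_LSeries ψ hs]
    exact (LSeries_congr (fun {n} hn =>
      (DirichletCharacter.apply_eq_toArithmeticFunction_apply ψ hn)) s).symm
  rw [← heq]
  exact hsum'.LSeriesHasSum

theorem AA_hasSum [NeZero q₁] [NeZero q₂] {s : ℂ} (hs : 1 < s.re) :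
    LSeriesHasSum (AA χ₁ χ₂ χ) s
      (riemannZeta s * χ₁.LFunction s * χ₂.LFunction s * χ.LFunction s) := by
  unfold AA
  exact ArithmeticFunction.LSeriesHasSum_mul (ArithmeticFunction.LSeriesHasSum_mul
    (ArithmeticFunction.LSeriesHasSum_mul (ArithmeticFunction.LSeriesHasSum_zeta hs)
      (char_hasSum χ₁ hs)) (char_hasSum χ₂ hs)) (char_hasSum χ hs)

/-! ## Taylor coefficients -/

/-- general statement for nonnegative coefficients -/
theorem taylor (A : ArithmeticFunction ℂ) (hA : ∀ n, 0 ≤ A n) (h1 : A 1 = 1) (F : ℂ → ℂ)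
    (hF : ∀ s : ℂ, 1 < s.re → LSeriesHasSum A s (F s)) :
    ∃ b : ℕ → ℝ, (∀ m, 0 ≤ b m) ∧ 1 ≤ b 0 ∧ ∀ s ∈ Metric.ball (2 : ℂ) 1,
      HasSum (fun m : ℕ => (b m : ℂ) * (2 - s) ^ m) (F s) := by
  -- real coefficients
  obtain ⟨w, hw0, hw⟩ : ∃ w : ℕ → ℝ, (∀ n, 0 ≤ w n) ∧ ∀ n, A n = (w n : ℂ) := by
    refine ⟨fun n => (A n).re, fun n => ?_, fun n => ?_⟩
    · exact (Complex.nonneg_iff.1 (hA n)).1
    · apply Complex.ext
      · simp
      · simpa using (Complex.nonneg_iff.1 (hA n)).2.symm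
  have hw00 : w 0 = 0 := by
    have := hw 0
    rw [ArithmeticFunction.map_zero] at this
    exact_mod_cast this.symm
  have hw11 : w 1 = 1 := by
    have := hw 1
    rw [h1] at this
    exact_mod_cast this.symm
  -- absolute convergence
  have hrow : ∀ (r : ℝ) (n : ℕ), HasSum
      (fun m : ℕ => w n / (n : ℝ) ^ 2 * ((r * Real.log n) ^ m / (m.factorial : ℝ)))
      (w n / (n : ℝ) ^ 2 * Real.exp (r * Real.log n)) := by
    intro r n
    have := NormedSpace.expSeries_div_hasSum_exp (r * Real.log n)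
    rw [← Real.exp_eq_exp_ℝ] at this
    exact this.mul_left _
  have hkey : ∀ r : ℝ, 0 ≤ r → r < 1 → Summable (fun p : ℕ × ℕ =>
      w p.1 / (p.1 : ℝ) ^ 2 * ((r * Real.log p.1) ^ p.2 / (p.2.factorial : ℝ))) := by
    intro r hr0 hr1
    rw [summable_prod_of_nonneg]
    · refine ⟨fun n => (hrow r n).summable, ?_⟩
      have h2 : Summable fun n : ℕ => w n / (n : ℝ) ^ 2 * Real.exp (r * Real.log n) := by
        have h3 := (hF ((2 - r : ℝ) : ℂ) (by rw [Complex.ofReal_re]; linarith)).summable.norm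
        refine h3.congr fun n => ?_
        rcases eq_or_ne n 0 with rfl | hn
        · simp [hw00]
        · have hnpos : (0 : ℝ) < n := by exact_mod_cast Nat.pos_of_ne_zero hn
          rw [LSeries.norm_term_eq, if_neg hn, hw, Complex.ofReal_re, Complex.norm_real,
            Real.norm_of_nonneg (hw0 n), Real.rpow_sub hnpos, Real.rpow_def_of_pos hnpos r,
            mul_comm (Real.log n) r]
          have : (n : ℝ) ^ (2 : ℝ) = (n : ℝ) ^ 2 := by norm_cast
          rw [this]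
          field_simp
      refine h2.congr fun n => ?_
      exact (hrow r n).tsum_eq.symm
    · intro p
      have : 0 ≤ Real.log (p.1 : ℝ) := Real.log_natCast_nonneg _
      have := hw0 p.1
      positivity
  -- the coefficients
  have hcol : ∀ m : ℕ, Summable fun n : ℕ =>
      w n / (n : ℝ) ^ 2 * (Real.log n ^ m / (m.factorial : ℝ)) := by
    intro m
    have h2 := ((Equiv.prodComm ℕ ℕ).summable_iff.2 (hkey (1 / 2) (by norm_num) (by norm_num)))
    have h3 := h2.prod_factor m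
    refine (h3.mul_left ((2 : ℝ) ^ m)).congr fun n => ?_
    simp only [Function.comp, Equiv.prodComm_apply, Prod.swap, mul_pow]
    have : (2 : ℝ) ^ m * (1 / 2) ^ m = 1 := by rw [← mul_pow]; norm_num
    calc (2 : ℝ) ^ m * (w n / (n : ℝ) ^ 2 * ((1 / 2) ^ m * Real.log n ^ m / (m.factorial : ℝ)))
        = (2 : ℝ) ^ m * (1 / 2) ^ m * (w n / (n : ℝ) ^ 2 *
          (Real.log n ^ m / (m.factorial : ℝ))) := by ring
      _ = _ := by rw [this, one_mul]
  refine ⟨fun m => ∑' n : ℕ, w n / (n : ℝ) ^ 2 * (Real.log n ^ m / (m.factorial : ℝ)),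
    fun m => tsum_nonneg fun n => ?_, ?_, ?_⟩
  · have : 0 ≤ Real.log (n : ℝ) := Real.log_natCast_nonneg _
    have := hw0 n
    positivity
  · have h := (hcol 0).le_tsum 1 (fun n _ => by
      have : 0 ≤ Real.log (n : ℝ) := Real.log_natCast_nonneg _
      have := hw0 n
      positivity)
    simpa [hw11] using h
  · intro s hs
    rw [Metric.mem_ball, dist_eq_norm, norm_sub_rev] at hs
    set x : ℂ := 2 - s with hx
    have hs2 : s = 2 - x := by rw [hx]; ring
    have hsre : 1 < s.re := by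
      have h1 : x.re ≤ ‖x‖ := Complex.re_le_norm x
      rw [hs2, Complex.sub_re]
      simp only [Complex.re_ofNat]
      linarith
    -- complex double family
    set G : ℕ × ℕ → ℂ := fun p => (w p.1 : ℂ) / (p.1 : ℂ) ^ 2 *
      ((x * (Real.log p.1 : ℂ)) ^ p.2 / (p.2.factorial : ℂ)) with hG
    have hGs : Summable G := by
      refine Summable.of_norm ((hkey ‖x‖ (norm_nonneg _) hs).congr fun p => ?_)
      have h0 : 0 ≤ Real.log (p.1 : ℝ) := Real.log_natCast_nonneg _
      rw [hG]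
      simp only [norm_mul, norm_div, norm_pow, Complex.norm_real, Complex.norm_natCast,
        Real.norm_of_nonneg h0, Real.norm_of_nonneg (hw0 p.1)]
    have hGrow : ∀ n : ℕ, HasSum (fun m => G (n, m)) (LSeries.term A s n) := by
      intro n
      have h := NormedSpace.expSeries_div_hasSum_exp (x * (Real.log n : ℂ))
      rw [← Complex.exp_eq_exp_ℂ] at h
      have h' := h.mul_left ((w n : ℂ) / (n : ℂ) ^ 2)
      have he : (w n : ℂ) / (n : ℂ) ^ 2 * Complex.exp (x * (Real.log n : ℂ)) =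
          LSeries.term A s n := by
        rcases eq_or_ne n 0 with rfl | hn
        · simp [hw00]
        · have hnc : (n : ℂ) ≠ 0 := by exact_mod_cast hn
          rw [LSeries.term_of_ne_zero hn, hw, hs2, Complex.cpow_sub _ _ hnc,
            Complex.cpow_def_of_ne_zero hnc x, ← Complex.natCast_log,
            mul_comm ((Real.log (n : ℝ) : ℝ) : ℂ) x]
          have : (n : ℂ) ^ (2 : ℂ) = (n : ℂ) ^ 2 := by norm_cast
          rw [this]
          have he0 := Complex.exp_ne_zero (x * ((Real.log (n : ℝ) : ℝ) : ℂ))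
          field_simp
      rw [he] at h'
      exact h'
    have hF' : HasSum (fun n => LSeries.term A s n) (F s) := hF s hsre
    have hGt : HasSum G (F s) := by
      have h := hGs.hasSum.prod_fiberwise hGrow
      rw [hF'.unique h]
      exact hGs.hasSum
    have hGt' : HasSum (G ∘ (Equiv.prodComm ℕ ℕ)) (F s) := (Equiv.prodComm ℕ ℕ).hasSum_iff.2 hGt
    refine hGt'.prod_fiberwise fun m => ?_
    have hc := (Complex.hasSum_ofReal.2 (hcol m).hasSum).mul_right (x ^ m)
    have he : (fun n : ℕ => (G ∘ (Equiv.prodComm ℕ ℕ)) (m, n)) = fun n : ℕ =>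
        ((w n / (n : ℝ) ^ 2 * (Real.log n ^ m / (m.factorial : ℝ)) : ℝ) : ℂ) * x ^ m := by
      funext n
      simp only [hG, Function.comp, Equiv.prodComm_apply, Prod.swap]
      push_cast
      ring_nf
    rw [he]
    exact hc

end POS_

theorem p_POS : T_POS := by
  intro q₁ q₂ _ _ χ₁ χ₂ χ h₁ h₂ h
  exact POS_.taylor (POS_.AA χ₁ χ₂ χ) (POS_.AA_nonneg χ₁ χ₂ χ h₁ h₂ h) (POS_.AA_one χ₁ χ₂ χ) _
    fun s hs => POS_.AA_hasSum χ₁ χ₂ χ hs

end SSN
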