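import Pool.Agent.SSN.Targets

/-!
# Partial summation (SSN-PS)
-/

set_option autoImplicit false

open scoped BigOperators
open Finset

namespace SSN

namespace PS_

/-- comparison of two sums by partial summation -/
theorem step (a β w : ℕ → ℝ) (hw : ∀ n, 3 ≤ n → 0 ≤ w (n + 1) ∧ w (n + 1) ≤ w n)
    (h : ∀ n, 3 ≤ n → ∑ m ∈ Icc 3 n, a m ≤ ∑ m ∈ Icc 3 n, β m) (n : ℕ) (hn : 3 ≤ n) :
    w n * (∑ m ∈ Icc 3 n, β m - ∑ m ∈ Icc 3 n, a m) ≤
      ∑ m ∈ Icc 3 n, β m * w m - ∑ m ∈ Icc 3 n, a m * w m := by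
  induction n, hn using Nat.le_induction with
  | base =>
    simp only [Icc_self, sum_singleton]
    exact le_of_eq (by ring)
  | succ n hn ih =>
    rw [sum_Icc_succ_top (by omega), sum_Icc_succ_top (by omega), sum_Icc_succ_top (by omega),
      sum_Icc_succ_top (by omega)]
    have h1 := (hw n hn).2
    have h2 := h n hn
    nlinarith [mul_le_mul_of_nonneg_right h1 (sub_nonneg.2 h2)]

end PS_

open PS_ in
/-- partial summation -/
theorem p_PS : T_PS := by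
  classical
  intro F w β hF hw hβ hs hN G hG
  have hw0 : ∀ n, 3 ≤ n → 0 ≤ w n := fun n hn => (hw n hn).1.trans (hw n hn).2
  obtain ⟨R, hR3, hR⟩ : ∃ R, 3 ≤ R ∧ ∀ n ∈ G, n ≤ R :=
    ⟨max 3 (G.sup id), le_max_left _ _, fun n hn => le_max_of_le_right (Finset.le_sup (f := id) hn)⟩
  have hGR : G ⊆ Icc 3 R := fun n hn => mem_Icc.2 ⟨hF n (hG n hn), hR n hn⟩
  have hA : ∀ n, 3 ≤ n → ∑ m ∈ Icc 3 n, (if m ∈ G then (1 : ℝ) else 0) ≤
      ∑ m ∈ Icc 3 n, β m := by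
    intro n hn
    refine le_trans ?_ (hN n hn)
    rw [Finset.sum_boole]
    have hfin : (F ∩ Set.Iic n).Finite := (Set.finite_Iic n).subset Set.inter_subset_right
    have h1 : (((Icc 3 n).filter fun m => m ∈ G : Finset ℕ) : Set ℕ) ⊆ F ∩ Set.Iic n := by
      intro m hm
      rw [mem_coe, mem_filter, mem_Icc] at hm
      exact ⟨hG m hm.2, hm.1.2⟩
    have h2 := Set.ncard_le_ncard h1 hfin
    rw [Set.ncard_coe_finset] at h2
    exact_mod_cast h2
  have h1 := step (fun m => if m ∈ G then (1 : ℝ) else 0) β w hw hA R hR3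
  have h2 : 0 ≤ w R * (∑ m ∈ Icc 3 R, β m - ∑ m ∈ Icc 3 R, (if m ∈ G then (1 : ℝ) else 0)) :=
    mul_nonneg (hw0 R hR3) (sub_nonneg.2 (hA R hR3))
  have h3 : ∑ m ∈ Icc 3 R, (if m ∈ G then (1 : ℝ) else 0) * w m = ∑ m ∈ G, w m := by
    simp only [ite_mul, one_mul, zero_mul]
    rw [Finset.sum_ite_mem, Finset.inter_eq_right.2 hGR]
  have h4 : ∑ m ∈ Icc 3 R, β m * w m =
      ∑ m ∈ Icc 3 R, (if 3 ≤ m then β m * w m else 0) :=
    Finset.sum_congr rfl fun m hm => by rw [if_pos (mem_Icc.1 hm).1]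
  have h5 := hs.sum_le_tsum (Icc 3 R) fun m _ => by
    split_ifs with h
    · exact mul_nonneg (hβ m) (hw0 m h)
    · exact le_rfl
  linarith

end SSN
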