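import Pool.Agent.SSN.Targets

set_option autoImplicit false

/-!
# Reduction of positive definite binary forms (SSN-RED)
-/

open scoped BigOperators
open Finset

namespace SSN

namespace RED_

/-- translation `x ↦ x + k y` -/
theorem val_shift (a b c k n : ℤ) :
    Val a b c n ↔ Val a (b + 2 * a * k) (c + b * k + a * k ^ 2) n := by
  unfold Val qf
  constructor
  · rintro ⟨x, y, h⟩
    exact ⟨x - k * y, y, by rw [← h]; ring⟩
  · rintro ⟨x, y, h⟩
    exact ⟨x + k * y, y, by rw [← h]; ring⟩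

/-- exchange of the variables -/
theorem val_swap (a b c n : ℤ) : Val a b c n ↔ Val c b a n := by
  unfold Val qf
  constructor
  · rintro ⟨x, y, h⟩
    exact ⟨y, x, by rw [← h]; ring⟩
  · rintro ⟨x, y, h⟩
    exact ⟨y, x, by rw [← h]; ring⟩

theorem aux (m : ℕ) : ∀ a b c : ℤ, a.toNat ≤ m → 0 < a → 0 < 4 * a * c - b ^ 2 →
    ∃ (a' b' c' : ℤ) (Δ : ℕ), Red a' b' c' Δ ∧ (Δ : ℤ) = 4 * a * c - b ^ 2 ∧
      ∀ n, Val a b c n ↔ Val a' b' c' n := by
  induction m with
  | zero =>
    intro a b c hm ha h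
    omega
  | succ m ih =>
    intro a b c hm ha h
    obtain ⟨k, hk⟩ : ∃ k : ℤ, |b + 2 * a * k| ≤ a := by
      refine ⟨-((b + a) / (2 * a)), ?_⟩
      have h1 := Int.emod_add_mul_ediv (b + a) (2 * a)
      have h2 := Int.emod_nonneg (b + a) (show (2 * a) ≠ 0 by omega)
      have h3 := Int.emod_lt_of_pos (b + a) (show 0 < 2 * a by omega)
      rw [abs_le]
      constructor <;> nlinarith
    set b' : ℤ := b + 2 * a * k with hb'
    set c' : ℤ := c + b * k + a * k ^ 2 with hc'
    have hD : 4 * a * c' - b' ^ 2 = 4 * a * c - b ^ 2 := by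
      rw [hb', hc']
      ring
    have hv : ∀ n, Val a b c n ↔ Val a b' c' n := fun n => val_shift a b c k n
    by_cases hac : a ≤ c'
    · refine ⟨a, b', c', (4 * a * c - b ^ 2).toNat, ⟨ha, hk, hac, ?_, ?_⟩, ?_, hv⟩
      · rw [hD, Int.toNat_of_nonneg h.le]
      · omega
      · rw [Int.toNat_of_nonneg h.le]
    · push Not at hac
      have hc0 : 0 < c' := by
        by_contra hcon
        push Not at hcon
        nlinarith [sq_nonneg b', mul_nonneg ha.le (neg_nonneg.2 hcon)]
      obtain ⟨a₁, b₁, c₁, Δ, hr, hΔ, hval⟩ := ih c' b' a (by omega) hc0 (by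
        have : 4 * c' * a - b' ^ 2 = 4 * a * c' - b' ^ 2 := by ring
        rw [this, hD]
        exact h)
      refine ⟨a₁, b₁, c₁, Δ, hr, ?_, ?_⟩
      · rw [hΔ, ← hD]
        ring
      · intro n
        rw [hv n, val_swap a b' c' n]
        exact hval n

end RED_

/-- reduction of forms -/
theorem p_RED : T_RED := by
  intro a b c ha h
  exact RED_.aux a.toNat a b c le_rfl ha h

end SSN
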