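import Pool.Agent.SSN.Targets

set_option autoImplicit false

/-!
# Lower bound for `∑ r(n)/n` (SSN-RL)
-/

open scoped BigOperators
open Finset

namespace SSN

namespace RL_

/-- one block `(M, 4M]` -/
theorem block (r : ℕ → ℝ) (hr : ∀ n, 0 ≤ r n) (M : ℕ) (hM : 0 < M) :
    (∑ n ∈ Icc 1 M, r n / n) + ((∑ n ∈ Icc 1 (4 * M), r n) - ∑ n ∈ Icc 1 M, r n) / (4 * M) ≤
      ∑ n ∈ Icc 1 (4 * M), r n / n := by
  have hMR : (0 : ℝ) < M := by exact_mod_cast hM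
  have hsplit : ∀ f : ℕ → ℝ, ∑ n ∈ Icc 1 (4 * M), f n =
      (∑ n ∈ Icc 1 M, f n) + ∑ n ∈ Ioc M (4 * M), f n := by
    intro f
    rw [← sum_union]
    · apply sum_congr _ fun _ _ => rfl
      ext n
      simp only [mem_union, mem_Icc, mem_Ioc]
      omega
    · rw [disjoint_left]
      intro n h1 h2
      rw [mem_Icc] at h1
      rw [mem_Ioc] at h2
      omega
  rw [hsplit (fun n => r n / n), hsplit r]
  have h : (∑ n ∈ Ioc M (4 * M), r n) / (4 * M) ≤ ∑ n ∈ Ioc M (4 * M), r n / n := by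
    rw [sum_div]
    apply sum_le_sum
    intro n hn
    rw [mem_Ioc] at hn
    have hn0 : (0 : ℝ) < n := by exact_mod_cast (by omega : 0 < n)
    apply div_le_div_of_nonneg_left (hr n) hn0
    exact_mod_cast hn.2
  have : (∑ n ∈ Icc 1 M, r n) + (∑ n ∈ Ioc M (4 * M), r n) - ∑ n ∈ Icc 1 M, r n =
      ∑ n ∈ Ioc M (4 * M), r n := by ring
  rw [this]
  linarith

/-- induction over the blocks -/
theorem blocks (r : ℕ → ℝ) (hr : ∀ n, 0 ≤ r n) (h1 : 1 ≤ r 1) (L E : ℝ) (N₁ : ℕ)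
    (hN₁ : 0 < N₁) (hE1 : E ≤ (2 / 3) * Real.sqrt N₁)
    (hA : ∀ N : ℕ, N₁ ≤ N → |(∑ n ∈ Icc 1 N, r n) - N * L| ≤ E * Real.sqrt N) (J : ℕ) :
    1 + J * (3 / 4 * L) - (1 - (1 / 2) ^ J) ≤ ∑ n ∈ Icc 1 (N₁ * 4 ^ J), r n / n := by
  induction J with
  | zero =>
    simp only [pow_zero, mul_one, Nat.cast_zero, zero_mul, add_zero, sub_self, sub_zero]
    have : r 1 / ((1 : ℕ) : ℝ) ≤ ∑ n ∈ Icc 1 N₁, r n / n := by
      apply single_le_sum (f := fun n : ℕ => r n / n) _ (by rw [mem_Icc]; omega)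
      intro n _
      exact div_nonneg (hr n) (Nat.cast_nonneg n)
    simp only [Nat.cast_one, div_one] at this
    linarith
  | succ J ih =>
    have hM : 0 < N₁ * 4 ^ J := by positivity
    have hM1 : N₁ ≤ N₁ * 4 ^ J := Nat.le_mul_of_pos_right _ (by positivity)
    have hb := block r hr (N₁ * 4 ^ J) hM
    have e1 : 4 * (N₁ * 4 ^ J) = N₁ * 4 ^ (J + 1) := by ring
    have ha1 := hA _ hM1
    have ha2 := hA (4 * (N₁ * 4 ^ J)) (by omega)
    set S1 := ∑ n ∈ Icc 1 (N₁ * 4 ^ J), r n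
    set S2 := ∑ n ∈ Icc 1 (4 * (N₁ * 4 ^ J)), r n
    rw [abs_le] at ha1 ha2
    have hs4 : Real.sqrt ((4 : ℝ) ^ J) = 2 ^ J := by
      rw [show (4 : ℝ) ^ J = (2 ^ J) ^ 2 by rw [← pow_mul, mul_comm, pow_mul]; norm_num]
      exact Real.sqrt_sq (by positivity)
    have hs : Real.sqrt ((N₁ * 4 ^ J : ℕ) : ℝ) = Real.sqrt N₁ * 2 ^ J := by
      push_cast
      rw [Real.sqrt_mul (Nat.cast_nonneg _), hs4]
    have hs2 : Real.sqrt ((4 * (N₁ * 4 ^ J) : ℕ) : ℝ) = 2 * (Real.sqrt N₁ * 2 ^ J) := by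
      push_cast
      rw [show (4 * ((N₁ : ℝ) * 4 ^ J)) = 2 ^ 2 * (N₁ * 4 ^ J) by ring,
        Real.sqrt_mul (by positivity), Real.sqrt_sq (by norm_num),
        Real.sqrt_mul (Nat.cast_nonneg _), hs4]
    rw [hs] at ha1
    rw [hs2] at ha2
    push_cast at ha1 ha2 hb
    have hN₁R : (0 : ℝ) < N₁ := by exact_mod_cast hN₁
    have h4J : (0 : ℝ) < 4 ^ J := by positivity
    have h2J : (0 : ℝ) < 2 ^ J := by positivity
    have h42 : (4 : ℝ) ^ J = 2 ^ J * 2 ^ J := by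
      rw [← mul_pow]
      norm_num
    have hsN : Real.sqrt (N₁ : ℝ) * Real.sqrt N₁ = N₁ := Real.mul_self_sqrt hN₁R.le
    have hhalf : ((1 : ℝ) / 2) ^ J * 2 ^ J = 1 := by
      rw [← mul_pow]
      norm_num
    -- the gain of the block
    have hgain : 3 / 4 * L - (1 / 2) ^ (J + 1) ≤ (S2 - S1) / (4 * (N₁ * 4 ^ J)) := by
      rw [le_div_iff₀ (by positivity)]
      have h3 : 3 * (N₁ * 4 ^ J) * L - 3 * (E * (Real.sqrt N₁ * 2 ^ J)) ≤ S2 - S1 := by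
        nlinarith [ha1.2, ha2.1]
      refine le_trans ?_ h3
      have h4 : 3 * (E * (Real.sqrt N₁ * 2 ^ J)) ≤ 2 * (N₁ * 2 ^ J) := by
        have : E * Real.sqrt N₁ ≤ (2 / 3) * Real.sqrt N₁ * Real.sqrt N₁ :=
          mul_le_mul_of_nonneg_right hE1 (Real.sqrt_nonneg _)
        have h5 : E * Real.sqrt N₁ ≤ (2 / 3) * N₁ := by nlinarith
        nlinarith [mul_le_mul_of_nonneg_right h5 h2J.le]
      have h6 : (1 / 2 : ℝ) ^ (J + 1) * (4 * (N₁ * 4 ^ J)) = 2 * (N₁ * 2 ^ J) := by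
        rw [h42, pow_succ]
        calc (1 / 2 : ℝ) ^ J * (1 / 2) * (4 * (N₁ * (2 ^ J * 2 ^ J)))
            = 2 * ((1 / 2 : ℝ) ^ J * 2 ^ J) * (N₁ * 2 ^ J) := by ring
          _ = 2 * (N₁ * 2 ^ J) := by rw [hhalf]; ring
      nlinarith
    rw [← e1]
    refine le_trans ?_ hb
    push_cast
    have h7 : ((1 : ℝ) / 2) ^ (J + 1) = (1 / 2) ^ J / 2 := by rw [pow_succ]; ring
    rw [h7] at hgain ⊢
    nlinarith

end RL_

open RL_ in
/-- lower bound for `∑ r(n)/n` -/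
theorem p_RL (h1 : T_SIEG) (h2 : T_AX) (h3 : T_RRM) : T_RL := by
  intro η hη
  obtain ⟨c, hc, hs⟩ := h1 η hη
  obtain ⟨C, hC, hax⟩ := h2
  obtain ⟨K, hK⟩ := exists_nat_ge (max 4 (9 / 4 * C ^ 2))
  have hK4 : (4 : ℝ) ≤ K := (le_max_left _ _).trans hK
  have hKC : 9 / 4 * C ^ 2 ≤ (K : ℝ) := (le_max_right _ _).trans hK
  have hK4N : 4 ≤ K := by exact_mod_cast hK4
  refine ⟨3 / 16 * c, by positivity, 4 * K, by linarith, ?_⟩
  intro Δ hΔ N hN
  obtain ⟨L, hL, hpart⟩ := hs Δ hΔ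
  have hA := hax Δ L hΔ hpart
  obtain ⟨hr0, _, hr1, _⟩ := h3 Δ hΔ
  have hΔR : (0 : ℝ) < Δ := by exact_mod_cast hΔ
  have hKR : (0 : ℝ) < K := by linarith
  have hL0 : 0 < L := lt_of_lt_of_le (by positivity) hL
  set r : ℕ → ℝ := fun n => (rr Δ n : ℝ) with hrdef
  have hr : ∀ n, 0 ≤ r n := fun n => Int.cast_nonneg (hr0 n)
  have hr1' : 1 ≤ r 1 := by
    rw [hrdef]
    simp only [hr1, Int.cast_one, le_refl]
  set N₁ : ℕ := K * Δ with hN₁
  have hN₁0 : 0 < N₁ := by positivity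
  set E : ℝ := C * Real.sqrt Δ with hE
  have hE1 : E ≤ 2 / 3 * Real.sqrt N₁ := by
    rw [hE, hN₁]
    push_cast
    rw [Real.sqrt_mul hKR.le]
    have : C ≤ 2 / 3 * Real.sqrt K := by
      have h5 : 3 / 2 * C ≤ Real.sqrt K := by
        apply Real.le_sqrt_of_sq_le
        nlinarith
      linarith
    calc C * Real.sqrt Δ ≤ 2 / 3 * Real.sqrt K * Real.sqrt Δ :=
          mul_le_mul_of_nonneg_right this (Real.sqrt_nonneg _)
      _ = _ := by ring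
  have hA' : ∀ M : ℕ, N₁ ≤ M → |(∑ n ∈ Icc 1 M, r n) - M * L| ≤ E * Real.sqrt M := by
    intro M hM
    have h5 := hA M (le_trans (Nat.mul_le_mul_right Δ hK4N) hM)
    refine h5.trans (le_of_eq ?_)
    rw [hE, Real.sqrt_mul hΔR.le]
    ring
  have hNN₁ : 4 * N₁ * (4 * N₁) ≤ N := by
    have : ((4 * N₁ * (4 * N₁) : ℕ) : ℝ) ≤ (N : ℝ) := by
      refine le_trans (le_of_eq ?_) hN
      rw [hN₁]
      push_cast
      ring
    exact_mod_cast this
  have hN₁N : N₁ ≤ N := by nlinarith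
  have hq0 : N / N₁ ≠ 0 := by
    rw [Nat.div_ne_zero_iff]
    omega
  set J : ℕ := Nat.log 4 (N / N₁) with hJ
  have hJ1 : N₁ * 4 ^ J ≤ N := by
    have : 4 ^ J ≤ N / N₁ := Nat.pow_log_le_self 4 hq0
    calc N₁ * 4 ^ J ≤ N₁ * (N / N₁) := Nat.mul_le_mul_left _ this
      _ ≤ N := Nat.mul_div_le N N₁
  have hJ2 : N < N₁ * 4 ^ (J + 1) := by
    have : N / N₁ < 4 ^ (J + 1) := Nat.lt_pow_succ_log_self (by norm_num) _
    rw [Nat.div_lt_iff_lt_mul hN₁0] at this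
    rw [mul_comm]
    exact this
  have hb := blocks r hr hr1' L E N₁ hN₁0 hE1 hA' J
  have hmono : ∑ n ∈ Icc 1 (N₁ * 4 ^ J), r n / n ≤ ∑ n ∈ Icc 1 N, r n / n := by
    apply sum_le_sum_of_subset_of_nonneg
    · exact Icc_subset_Icc_right hJ1
    · intro n _ _
      exact div_nonneg (hr n) (Nat.cast_nonneg n)
  have hN0 : 0 < N := by nlinarith
  have hNR : (0 : ℝ) < N := by exact_mod_cast hN0
  -- `log N ≤ 4 J`
  have hlog : Real.log N ≤ 4 * J := by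
    have h5 : (N : ℝ) ≤ 4 ^ J * 4 ^ J := by
      have h6 : (4 * N₁ : ℝ) * (4 * N₁) ≤ N := by exact_mod_cast hNN₁
      have h7 : (N : ℝ) ≤ N₁ * 4 ^ J * 4 := by
        have h77 : (N : ℝ) ≤ ((N₁ * 4 ^ (J + 1) : ℕ) : ℝ) := by exact_mod_cast hJ2.le
        refine h77.trans (le_of_eq ?_)
        push_cast
        ring
      have h8 : (4 * N₁ : ℝ) ≤ 4 ^ J := by
        have hN₁R : (0 : ℝ) < N₁ := by exact_mod_cast hN₁0
        have h9 : (4 * N₁ : ℝ) * (4 * N₁) ≤ (4 * N₁) * 4 ^ J := by nlinarith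
        exact le_of_mul_le_mul_left h9 (by positivity)
      have h4J : (0 : ℝ) < 4 ^ J := by positivity
      nlinarith
    have h6 : Real.log N ≤ Real.log (4 ^ J * 4 ^ J) := Real.log_le_log hNR h5
    rw [← pow_add, Real.log_pow] at h6
    have h7 : Real.log 4 ≤ 2 := by
      have : Real.log 4 = 2 * Real.log 2 := by
        rw [show (4 : ℝ) = 2 ^ 2 by norm_num, Real.log_pow]
        norm_num
      rw [this]
      have := Real.log_two_lt_d9
      linarith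
    have hJ0 : (0 : ℝ) ≤ J := Nat.cast_nonneg J
    refine h6.trans ?_
    push_cast
    nlinarith
  have hlog0 : 0 ≤ Real.log N := Real.log_natCast_nonneg N
  have hhalf : (0 : ℝ) < (1 / 2) ^ J := by positivity
  calc 3 / 16 * c * (Δ : ℝ) ^ (-η) * Real.log N = 3 / 16 * (c * (Δ : ℝ) ^ (-η)) * Real.log N := by
        ring
    _ ≤ 3 / 16 * L * Real.log N := by
        apply mul_le_mul_of_nonneg_right _ hlog0
        linarith
    _ ≤ 3 / 16 * L * (4 * J) := by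
        apply mul_le_mul_of_nonneg_left hlog
        positivity
    _ ≤ 1 + J * (3 / 4 * L) - (1 - (1 / 2) ^ J) := by nlinarith
    _ ≤ ∑ n ∈ Icc 1 N, (rr Δ n : ℝ) / n := hb.trans hmono

end SSN
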