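import Pool.Agent.SSN.Targets

/-!
# SSN: SHH, the lower bound for the Selberg sum (helper46)
-/

open scoped BigOperators
open Finset

namespace SSN

namespace SHH_

/-- partial sums of `[(1-x)(1-ex)]⁻¹` -/
theorem partial_id (e x : ℝ) (m : ℕ) :
    (1 - x) * (1 - e * x) * (∑ k ∈ range (m + 1), (∑ i ∈ range (k + 1), e ^ i) * x ^ k) =
      1 - (∑ i ∈ range (m + 2), e ^ i) * x ^ (m + 1) +
        e * (∑ i ∈ range (m + 1), e ^ i) * x ^ (m + 2) := by
  induction m with
  | zero =>
    simp [Finset.sum_range_succ]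
    ring
  | succ m ih =>
    rw [Finset.sum_range_succ (n := m + 1), mul_add, ih]
    have h1 : ∀ j : ℕ, ∑ i ∈ range (j + 1), e ^ i = 1 + e * ∑ i ∈ range j, e ^ i := by
      intro j
      rw [Finset.sum_range_succ', Finset.mul_sum]
      simp [pow_succ, mul_comm, add_comm]
    have h3 := h1 (m + 2)
    have h2 := h1 (m + 1)
    set a := ∑ i ∈ range (m + 1), e ^ i with ha
    have e3 : ∑ i ∈ range (m + 1 + 2), e ^ i = 1 + e * (1 + e * a) := by
      rw [show m + 1 + 2 = m + 2 + 1 from by ring, h3, show m + 2 = m + 1 + 1 from rfl, h2]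
    have e2 : ∑ i ∈ range (m + 2), e ^ i = 1 + e * a := h2
    rw [e3, e2]
    ring

theorem neg_one_sum (m : ℕ) : 0 ≤ ∑ i ∈ range m, (-1 : ℝ) ^ i ∧
    ∑ i ∈ range m, (-1 : ℝ) ^ i ≤ 1 := by
  induction m with
  | zero => simp
  | succ m ih =>
    rw [Finset.sum_range_succ']
    have : ∑ k ∈ range m, (-1 : ℝ) ^ (k + 1) = - ∑ k ∈ range m, (-1 : ℝ) ^ k := by
      rw [← Finset.sum_neg_distrib]
      exact Finset.sum_congr rfl fun k _ => by rw [pow_succ]; ring
    rw [this]
    rw [pow_zero]
    constructor <;> linarith [ih.1, ih.2]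

theorem partial_le (e x : ℝ) (he : e = 0 ∨ e = 1 ∨ e = -1) (hx : 0 < x) (hx1 : x < 1) (m : ℕ) :
    ∑ k ∈ range (m + 1), (∑ i ∈ range (k + 1), e ^ i) * x ^ k ≤
      1 / ((1 - x) * (1 - e * x)) := by
  have hpos : 0 < (1 - x) * (1 - e * x) := by
    apply mul_pos (by linarith)
    rcases he with rfl | rfl | rfl <;> linarith
  rw [le_div_iff₀ hpos, mul_comm, partial_id]
  have h1 : ∑ i ∈ range (m + 2), e ^ i = 1 + e * ∑ i ∈ range (m + 1), e ^ i := by
    rw [Finset.sum_range_succ', Finset.mul_sum]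
    simp [pow_succ, mul_comm, add_comm]
  rw [h1]
  have hxp : 0 < x ^ (m + 1) := pow_pos hx _
  have h2 : 0 ≤ 1 + e * (∑ i ∈ range (m + 1), e ^ i) * (1 - x) := by
    rcases he with rfl | rfl | rfl
    · simp
    · have : 0 ≤ ∑ i ∈ range (m + 1), (1 : ℝ) ^ i := by positivity
      have := mul_nonneg this (by linarith : 0 ≤ 1 - x)
      linarith
    · have h := neg_one_sum (m + 1)
      nlinarith [h.1, h.2]
  have h3 : x ^ (m + 2) = x ^ (m + 1) * x := pow_succ _ _
  rw [h3]
  nlinarith [mul_nonneg h2 hxp.le]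

/-- the injection `n ↦ (v_q(n), n / q^{v_q(n)})` -/
theorem inj_sum (f : ℕ → ℝ) (q : ℕ) (hq : q.Prime) (hf : ∀ n, 0 ≤ f n)
    (hmul : ∀ m n, m.Coprime n → f (m * n) = f m * f n) (A B Ks : Finset ℕ)
    (hA : ∀ n ∈ A, n ≠ 0 ∧ n.factorization q ∈ Ks ∧ n / q ^ n.factorization q ∈ B) :
    ∑ n ∈ A, f n ≤ (∑ k ∈ Ks, f (q ^ k)) * ∑ m ∈ B, f m := by
  rw [Finset.sum_mul_sum, ← Finset.sum_product']
  have h1 : ∀ n ∈ A, f n = f (q ^ n.factorization q) * f (n / q ^ n.factorization q) := by
    intro n hn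
    rw [← hmul, Nat.ordProj_mul_ordCompl_eq_self]
    exact (Nat.coprime_ordCompl hq (hA n hn).1).pow_left _
  rw [Finset.sum_congr rfl h1]
  have hinj : Set.InjOn (fun n => (n.factorization q, n / q ^ n.factorization q)) (A : Set ℕ) := by
    intro a _ b _ hab
    simp only [Prod.mk.injEq] at hab
    rw [← Nat.ordProj_mul_ordCompl_eq_self a q, ← Nat.ordProj_mul_ordCompl_eq_self b q,
      hab.2, hab.1]
  rw [← Finset.sum_image (f := fun x : ℕ × ℕ => f (q ^ x.1) * f x.2) hinj]
  apply Finset.sum_le_sum_of_subset_of_nonneg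
  · intro x hx
    rw [Finset.mem_image] at hx
    obtain ⟨n, hn, rfl⟩ := hx
    exact Finset.mem_product.2 ⟨(hA n hn).2.1, (hA n hn).2.2⟩
  · intro x _ _
    exact mul_nonneg (hf _) (hf _)

end SHH_

open SHH_ in
theorem p_SHH (h1 : T_RRM) : T_SHH := by
  intro Δ hΔ K hK z
  obtain ⟨hnn, -, hone, hmul, hpow, -, hval, -⟩ := h1 Δ hΔ
  set f : ℕ → ℝ := fun n => (rr Δ n : ℝ) / n with hf
  have hf0 : ∀ n, 0 ≤ f n := fun n => div_nonneg (by exact_mod_cast hnn n) (Nat.cast_nonneg _)
  have hfm : ∀ m n, m.Coprime n → f (m * n) = f m * f n := by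
    intro m n hmn
    simp only [hf]
    rw [hmul m n hmn]
    push_cast
    exact mul_div_mul_comm _ _ _ _
  have hf1 : f 1 = 1 := by simp [hf, hone]
  -- local factor
  have hval' : ∀ p, ((ch Δ p : ℤ) : ℝ) = 0 ∨ ((ch Δ p : ℤ) : ℝ) = 1 ∨ ((ch Δ p : ℤ) : ℝ) = -1 := by
    intro p
    rcases hval p with h | h | h <;> simp [h]
  have hloc : ∀ p : ℕ, p.Prime → ∀ m : ℕ, ∑ k ∈ range (m + 1), f (p ^ k) ≤ 1 / eu Δ p := by
    intro p hp m
    have hp0 : (0 : ℝ) < p := by exact_mod_cast hp.pos
    have hp1 : (1 : ℝ) < p := by exact_mod_cast hp.one_lt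
    have := partial_le (ch Δ p : ℝ) (1 / p) (hval' p) (by positivity)
      (by rw [div_lt_one hp0]; exact hp1) m
    have e1 : eu Δ p = (1 - 1 / (p : ℝ)) * (1 - (ch Δ p : ℝ) * (1 / p)) := by
      unfold eu; ring
    rw [e1]
    refine le_trans (le_of_eq ?_) this
    apply Finset.sum_congr rfl
    intro k _
    simp only [hf]
    rw [hpow p k hp]
    push_cast
    rw [div_eq_mul_inv, one_div, inv_pow]
  have heu : ∀ p : ℕ, p.Prime → 0 < eu Δ p := by
    intro p hp
    have hp1 : (1 : ℝ) < p := by exact_mod_cast hp.one_lt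
    have hp0 : (0 : ℝ) < p := by exact_mod_cast hp.pos
    have hlt : 1 / (p : ℝ) < 1 := by rw [div_lt_one hp0]; exact hp1
    have hpos : 0 < 1 / (p : ℝ) := by positivity
    unfold eu
    apply mul_pos (by linarith)
    rcases hval' p with h | h | h <;> rw [h]
    · simp
    · linarith
    · have : (-1 : ℝ) / p = - (1 / p) := by ring
      rw [this]; linarith
  -- removing the primes of a set
  have hrem : ∀ T : Finset ℕ, (∀ p ∈ T, p.Prime) →
      (∏ p ∈ T, eu Δ p) * (∑ n ∈ Icc 1 z, f n) ≤
        ∑ n ∈ (Icc 1 z).filter (fun n => ∀ p ∈ T, ¬ p ∣ n), f n := by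
    intro T
    induction T using Finset.induction_on with
    | empty => intro _; simp
    | insert q T hqT ih =>
      intro hT
      have hq : q.Prime := hT q (Finset.mem_insert_self _ _)
      have ih' := ih fun p hp => hT p (Finset.mem_insert_of_mem hp)
      rw [Finset.prod_insert hqT, mul_assoc]
      refine le_trans (mul_le_mul_of_nonneg_left ih' (heu q hq).le) ?_
      have h := inj_sum f q hq hf0 hfm ((Icc 1 z).filter (fun n => ∀ p ∈ T, ¬ p ∣ n))
        ((Icc 1 z).filter (fun n => ∀ p ∈ insert q T, ¬ p ∣ n)) (range (z + 1)) (by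
          intro n hn
          rw [Finset.mem_filter, Finset.mem_Icc] at hn
          obtain ⟨⟨hn1, hnz⟩, hnT⟩ := hn
          have hn0 : n ≠ 0 := by omega
          refine ⟨hn0, ?_, ?_⟩
          · rw [Finset.mem_range]
            have := Nat.factorization_lt q hn0
            omega
          · rw [Finset.mem_filter, Finset.mem_Icc]
            refine ⟨⟨Nat.ordCompl_pos q hn0, le_trans (Nat.div_le_self _ _) hnz⟩, ?_⟩
            intro p hp
            rw [Finset.mem_insert] at hp
            rcases hp with rfl | hp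
            · exact Nat.not_dvd_ordCompl hq hn0
            · intro hd
              exact hnT p hp (hd.trans (Nat.ordCompl_dvd n q)))
      have hB : 0 ≤ ∑ m ∈ (Icc 1 z).filter (fun n => ∀ p ∈ insert q T, ¬ p ∣ n), f m :=
        Finset.sum_nonneg fun _ _ => hf0 _
      calc eu Δ q * ∑ n ∈ (Icc 1 z).filter (fun n => ∀ p ∈ T, ¬ p ∣ n), f n
          ≤ eu Δ q * (1 / eu Δ q *
              ∑ m ∈ (Icc 1 z).filter (fun n => ∀ p ∈ insert q T, ¬ p ∣ n), f m) := by
            apply mul_le_mul_of_nonneg_left _ (heu q hq).le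
            exact le_trans h (mul_le_mul_of_nonneg_right (hloc q hq z) hB)
        _ = _ := by
            rw [← mul_assoc, mul_one_div_cancel (heu q hq).ne', one_mul]
  -- numbers with given prime factors
  have hfib : ∀ T : Finset ℕ, (∀ p ∈ T, p.Prime) →
      ∑ n ∈ (Icc 1 z).filter (fun n => n.primeFactors = T), f n ≤ ∏ p ∈ T, (1 / eu Δ p - 1) := by
    intro T
    induction T using Finset.induction_on with
    | empty =>
      intro _
      have : (Icc 1 z).filter (fun n => n.primeFactors = ∅) ⊆ {1} := by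
        intro n hn
        rw [Finset.mem_filter, Finset.mem_Icc, Nat.primeFactors_eq_empty] at hn
        rw [Finset.mem_singleton]
        omega
      refine le_trans (Finset.sum_le_sum_of_subset_of_nonneg this fun _ _ _ => hf0 _) ?_
      simp [hf1]
    | insert q T hqT ih =>
      intro hT
      have hq : q.Prime := hT q (Finset.mem_insert_self _ _)
      have ih' := ih fun p hp => hT p (Finset.mem_insert_of_mem hp)
      have h := inj_sum f q hq hf0 hfm
        ((Icc 1 z).filter (fun n => n.primeFactors = insert q T))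
        ((Icc 1 z).filter (fun n => n.primeFactors = T)) (Icc 1 z) (by
          intro n hn
          rw [Finset.mem_filter, Finset.mem_Icc] at hn
          obtain ⟨⟨hn1, hnz⟩, hnT⟩ := hn
          have hn0 : n ≠ 0 := by omega
          have hqn : q ∈ n.primeFactors := by rw [hnT]; exact Finset.mem_insert_self _ _
          refine ⟨hn0, ?_, ?_⟩
          · rw [Finset.mem_Icc]
            have := Nat.factorization_lt q hn0
            have h2 : 0 < n.factorization q :=
              hq.factorization_pos_of_dvd hn0 (Nat.dvd_of_mem_primeFactors hqn)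
            omega
          · rw [Finset.mem_filter, Finset.mem_Icc]
            refine ⟨⟨Nat.ordCompl_pos q hn0, le_trans (Nat.div_le_self _ _) hnz⟩, ?_⟩
            have h3 : (n / q ^ n.factorization q).primeFactors = n.primeFactors.erase q := by
              rw [← Nat.support_factorization, Nat.factorization_ordCompl,
                Finsupp.support_erase, Nat.support_factorization]
            rw [h3, hnT, Finset.erase_insert hqT])
      rw [Finset.prod_insert hqT]
      refine le_trans h ?_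
      have h4 : ∑ k ∈ Icc 1 z, f (q ^ k) ≤ 1 / eu Δ q - 1 := by
        have h5 := hloc q hq z
        rw [Finset.sum_range_succ', pow_zero, hf1] at h5
        have h6 : ∑ k ∈ Icc 1 z, f (q ^ k) = ∑ k ∈ range z, f (q ^ (k + 1)) := by
          rw [Finset.range_eq_Ico, Finset.sum_Ico_add' (fun k => f (q ^ k)) 0 z 1]
          apply Finset.sum_congr _ fun _ _ => rfl
          ext k; simp only [Finset.mem_Icc, Finset.mem_Ico]; omega
        rw [h6]; linarith
      exact mul_le_mul h4 ih' (Finset.sum_nonneg fun _ _ => hf0 _)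
        (le_trans (Finset.sum_nonneg fun _ _ => hf0 _) h4)
  refine le_trans (hrem K.primeFactors fun p hp => Nat.prime_of_mem_primeFactors hp) ?_
  -- group by radical
  have hmaps : ∀ n ∈ (Icc 1 z).filter (fun n => ∀ p ∈ K.primeFactors, ¬ p ∣ n),
      (∏ p ∈ n.primeFactors, p) ∈ (Icc 1 z).filter (fun l => Squarefree l ∧ l.Coprime K) := by
    intro n hn
    rw [Finset.mem_filter, Finset.mem_Icc] at hn
    obtain ⟨⟨hn1, hnz⟩, hnK⟩ := hn
    have hn0 : n ≠ 0 := by omega
    have hd : (∏ p ∈ n.primeFactors, p) ∣ n := Nat.prod_primeFactors_dvd n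
    rw [Finset.mem_filter, Finset.mem_Icc]
    refine ⟨⟨Nat.pos_of_dvd_of_pos hd hn1, le_trans (Nat.le_of_dvd hn1 hd) hnz⟩, ?_, ?_⟩
    · refine Finset.squarefree_prod_of_pairwise_isCoprime ?_ ?_
      · intro p hp q hq hpq
        have hp' := Nat.prime_of_mem_primeFactors hp
        have hq' := Nat.prime_of_mem_primeFactors hq
        exact Nat.coprime_iff_isRelPrime.1 ((Nat.coprime_primes hp' hq').2 hpq)
      · intro p hp
        exact (Nat.prime_of_mem_primeFactors hp).prime.squarefree
    · apply Nat.Coprime.coprime_dvd_left hd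
      by_contra hne
      obtain ⟨p, hp, hpd⟩ := Nat.exists_prime_and_dvd hne
      exact hnK p (Nat.mem_primeFactors.2 ⟨hp, hpd.trans (Nat.gcd_dvd_right _ _), hK.ne'⟩)
        (hpd.trans (Nat.gcd_dvd_left _ _))
  rw [← Finset.sum_fiberwise_of_maps_to hmaps]
  apply Finset.sum_le_sum
  intro l hl
  refine le_trans ?_ (hfib l.primeFactors fun p hp => Nat.prime_of_mem_primeFactors hp)
  apply Finset.sum_le_sum_of_subset_of_nonneg
  · intro n hn
    rw [Finset.mem_filter, Finset.mem_filter] at hn
    rw [Finset.mem_filter]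
    refine ⟨hn.1.1, ?_⟩
    rw [← hn.2, Nat.primeFactors_prod]
    exact fun p hp => Nat.prime_of_mem_primeFactors hp
  · intro _ _ _; exact hf0 _

end SSN
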