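import Pool.Agent.SSN.Targets

/-! Siegel's theorem for real characters (Estermann / Goldfeld argument). -/

open scoped BigOperators ComplexConjugate
open Finset Complex Filter Topology

namespace SSN

namespace SIEG_

/-- real character: values `0, 1, -1` -/
def RC {q : ℕ} (χ : DirichletCharacter ℂ q) : Prop :=
  ∀ n : ℕ, χ (n : ZMod q) = 0 ∨ χ (n : ZMod q) = 1 ∨ χ (n : ZMod q) = -1

section basic

variable {q : ℕ} [NeZero q] (χ : DirichletCharacter ℂ q)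

omit [NeZero q] in
theorem RC_conj (h : RC χ) (n : ℕ) : conj (χ (n : ZMod q)) = χ (n : ZMod q) := by
  rcases h n with h | h | h <;> rw [h] <;> simp

omit [NeZero q] in
theorem LSeries_conj (h : RC χ) (s : ℂ) :
    LSeries (fun n : ℕ => χ (n : ZMod q)) s
      = conj (LSeries (fun n : ℕ => χ (n : ZMod q)) (conj s)) := by
  rw [LSeries, LSeries, Complex.conj_tsum]
  refine tsum_congr (fun n => ?_)
  by_cases hn : n = 0
  · simp [hn]
  · rw [LSeries.term_of_ne_zero hn, LSeries.term_of_ne_zero hn, map_div₀, RC_conj χ h]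
    congr 1
    have h3 : ((n : ℂ)).arg ≠ Real.pi := by
      rw [show ((n : ℂ)) = ((n : ℝ) : ℂ) by simp, Complex.arg_ofReal_of_nonneg (Nat.cast_nonneg n)]
      exact Real.pi_pos.ne
    rw [Complex.cpow_conj _ _ h3]
    simp

theorem LFunction_conj (hχ : χ ≠ 1) (hR : RC χ) (s : ℂ) :
    DirichletCharacter.LFunction χ s = conj (DirichletCharacter.LFunction χ (conj s)) := by
  have h1 : Differentiable ℂ (DirichletCharacter.LFunction χ) :=
    DirichletCharacter.differentiable_LFunction hχ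
  have h2 : Differentiable ℂ (fun z => conj (DirichletCharacter.LFunction χ (conj z))) := by
    intro z
    have h3 : DifferentiableAt ℂ (conj ∘ DirichletCharacter.LFunction χ ∘ conj)
        (conj (conj z)) :=
      (DirichletCharacter.differentiable_LFunction hχ (conj z)).conj_conj
    rw [Complex.conj_conj] at h3
    exact h3
  have h3 : AnalyticOnNhd ℂ (DirichletCharacter.LFunction χ) Set.univ :=
    fun z _ => h1.analyticAt z
  have h4 : AnalyticOnNhd ℂ (fun z => conj (DirichletCharacter.LFunction χ (conj z))) Set.univ :=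
    fun z _ => h2.analyticAt z
  have h5 : DirichletCharacter.LFunction χ =
      fun z => conj (DirichletCharacter.LFunction χ (conj z)) := by
    apply h3.eq_of_eventuallyEq h4 (z₀ := 2)
    filter_upwards [(isOpen_lt continuous_const continuous_re).mem_nhds
      (show (1 : ℝ) < (2 : ℂ).re by norm_num)] with z hz
    have hz' : 1 < z.re := hz
    rw [DirichletCharacter.LFunction_eq_LSeries _ hz',
      DirichletCharacter.LFunction_eq_LSeries _ (by simpa using hz')]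
    exact LSeries_conj χ hR z
  exact congrFun h5 s

theorem L_real (hχ : χ ≠ 1) (hR : RC χ) (σ : ℝ) :
    χ.LFunction (σ : ℂ) = ((χ.LFunction (σ : ℂ)).re : ℂ) := by
  have h := LFunction_conj χ hχ hR (σ : ℂ)
  rw [Complex.conj_ofReal] at h
  exact (Complex.conj_eq_iff_re.1 h.symm).symm

theorem L_cont (hχ : χ ≠ 1) : Continuous (fun σ : ℝ => (χ.LFunction (σ : ℂ)).re) := by
  have h1 : Differentiable ℂ (DirichletCharacter.LFunction χ) :=
    DirichletCharacter.differentiable_LFunction hχ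
  exact continuous_re.comp (h1.continuous.comp continuous_ofReal)

theorem L_pos (hχ : χ ≠ 1) (hR : RC χ) (σ : ℝ)
    (h0 : ∀ τ : ℝ, σ ≤ τ → τ < 1 → χ.LFunction (τ : ℂ) ≠ 0) :
    0 < (χ.LFunction (σ : ℂ)).re := by
  have hne : ∀ τ : ℝ, σ ≤ τ → (χ.LFunction (τ : ℂ)).re ≠ 0 := by
    intro τ hτ hz
    have h1 : χ.LFunction (τ : ℂ) = 0 := by
      rw [L_real χ hχ hR τ, hz]; simp
    rcases lt_or_ge τ 1 with h2 | h2
    · exact h0 τ hτ h2 h1
    · exact DirichletCharacter.LFunction_ne_zero_of_one_le_re χ (Or.inl hχ) (by simpa using h2) h1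
  -- large `X`
  have hlim : Tendsto (fun x : ℝ => (χ.LFunction (x : ℂ)).re) atTop (𝓝 1) := by
    have h1 : Tendsto (fun x : ℝ => LSeries (fun n : ℕ => χ (n : ZMod q)) (x : ℂ)) atTop
        (𝓝 (χ ((1 : ℕ) : ZMod q))) := by
      apply LSeries.tendsto_atTop
      have h2 := DirichletCharacter.absicssaOfAbsConv_eq_one (N := q) (NeZero.ne q) χ
      rw [h2]
      exact EReal.coe_lt_top 1
    have h2 : Tendsto (fun x : ℝ => (LSeries (fun n : ℕ => χ (n : ZMod q)) (x : ℂ)).re) atTop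
        (𝓝 1) := by
      have h3 := (continuous_re.tendsto _).comp h1
      simpa [Function.comp_def] using h3
    refine h2.congr' ?_
    filter_upwards [eventually_gt_atTop (1 : ℝ)] with x hx
    rw [DirichletCharacter.LFunction_eq_LSeries _ (by simpa using hx)]
  obtain ⟨X, hX1, hX2⟩ : ∃ X : ℝ, σ ≤ X ∧ 0 < (χ.LFunction (X : ℂ)).re := by
    have h1 := (hlim.eventually (lt_mem_nhds (show (0 : ℝ) < 1 by norm_num))).and
      (eventually_ge_atTop σ)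
    obtain ⟨X, h2, h3⟩ := h1.exists
    exact ⟨X, h3, h2⟩
  by_contra hneg
  push Not at hneg
  have hcont := (L_cont χ hχ).continuousOn (s := Set.Icc σ X)
  have := intermediate_value_Icc hX1 hcont
  obtain ⟨τ, hτ, hτ0⟩ := this ⟨hneg, hX2.le⟩
  exact hne τ hτ.1 hτ0

theorem L1_pos (hχ : χ ≠ 1) (hR : RC χ) : 0 < (χ.LFunction 1).re := by
  have := L_pos χ hχ hR 1 (fun τ h1 h2 => absurd h1 (not_le.2 h2))
  simpa using this

theorem L1_real (hχ : χ ≠ 1) (hR : RC χ) : χ.LFunction 1 = ((χ.LFunction 1).re : ℂ) := by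
  have := L_real χ hχ hR 1
  simpa using this

end basic

/-- `(s-1)ζ(s)`, entire -/
noncomputable def Z : ℂ → ℂ := DirichletCharacter.LFunctionTrivChar₁ 1

theorem Z_diff : Differentiable ℂ Z := DirichletCharacter.differentiable_LFunctionTrivChar₁ 1

theorem Z_one : Z 1 = 1 := by simp [Z, DirichletCharacter.LFunctionTrivChar₁]

theorem Z_ne {s : ℂ} (hs : s ≠ 1) : Z s = (s - 1) * riemannZeta s := by
  simp [Z, DirichletCharacter.LFunctionTrivChar₁, Function.update_of_ne hs,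
    DirichletCharacter.LFunctionTrivChar, DirichletCharacter.LFunction_modOne_eq]

theorem Z_bdd : ∃ K0 : ℝ, 0 ≤ K0 ∧ ∀ s ∈ Metric.ball (2 : ℂ) (3 / 2), ‖Z s‖ ≤ K0 := by
  have h := (isCompact_closedBall (2 : ℂ) (3 / 2)).exists_bound_of_continuousOn
    (f := Z) Z_diff.continuous.continuousOn
  obtain ⟨K0, hK⟩ := h
  refine ⟨max K0 0, le_max_right _ _, fun s hs => le_trans (hK s (Metric.ball_subset_closedBall hs))
    (le_max_left _ _)⟩

theorem ball_re {s : ℂ} (hs : s ∈ Metric.ball (2 : ℂ) (3 / 2)) : 1 / 2 < s.re ∧ ‖s‖ ≤ 7 / 2 := by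
  rw [Metric.mem_ball, dist_eq_norm] at hs
  constructor
  · have h1 := Complex.abs_re_le_norm (s - 2)
    have h2 : (s - 2).re = s.re - 2 := by simp
    rw [h2] at h1
    have h3 := (abs_le.1 h1).1
    linarith
  · have h1 : ‖s‖ ≤ ‖s - 2‖ + ‖(2 : ℂ)‖ := by
      simpa using norm_add_le (s - 2) 2
    have h2 : ‖(2 : ℂ)‖ = 2 := by simp
    rw [h2] at h1
    linarith

theorem L_bd (h3 : T_LBD) {q : ℕ} [NeZero q] (χ : DirichletCharacter ℂ q) (hχ : χ ≠ 1) {s : ℂ}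
    (hs : s ∈ Metric.ball (2 : ℂ) (3 / 2)) : ‖χ.LFunction s‖ ≤ 7 * q := by
  obtain ⟨h1, h2⟩ := ball_re hs
  refine le_trans ((h3 q χ hχ).1 s (by linarith)) ?_
  rw [div_le_iff₀ (by linarith)]
  have hq : (0 : ℝ) ≤ q := Nat.cast_nonneg q
  nlinarith

theorem one_mem : (1 : ℂ) ∈ Metric.ball (2 : ℂ) (3 / 2) := by
  rw [Metric.mem_ball, dist_eq_norm]
  norm_num

/-- bound for `g` from a bound for `G` -/
theorem dslope_bd (G : ℂ → ℂ) (hG : Differentiable ℂ G) (hG1 : G 1 = 0) (K : ℝ)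
    (hK : ∀ s ∈ Metric.ball (2 : ℂ) (3 / 2), ‖G s‖ ≤ K) :
    ∀ s ∈ Metric.ball (2 : ℂ) (3 / 2), ‖dslope G 1 s‖ ≤ 4 * K := by
  have hg : Differentiable ℂ (dslope G 1) := by
    rw [← differentiableOn_univ, Complex.differentiableOn_dslope Filter.univ_mem]
    exact hG.differentiableOn
  have hfar : ∀ s ∈ Metric.ball (2 : ℂ) (3 / 2), 1 / 4 ≤ ‖s - 1‖ → ‖dslope G 1 s‖ ≤ 4 * K := by
    intro s hs h1
    have hs1 : s ≠ 1 := by
      rintro rfl
      norm_num at h1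
    rw [dslope_of_ne _ hs1, slope_def_field, hG1, sub_zero, norm_div]
    rw [div_le_iff₀ (by linarith)]
    have := hK s hs
    have hK0 : 0 ≤ K := le_trans (norm_nonneg _) this
    nlinarith
  intro s hs
  rcases le_or_gt (1 / 4) ‖s - 1‖ with h1 | h1
  · exact hfar s hs h1
  · have hU : Bornology.IsBounded (Metric.ball (1 : ℂ) (1 / 4)) := Metric.isBounded_ball
    apply Complex.norm_le_of_forall_mem_frontier_norm_le hU (f := dslope G 1)
    · exact hg.diffContOnCl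
    · intro z hz
      rw [frontier_ball _ (by norm_num), mem_sphere_iff_norm] at hz
      apply hfar z
      · rw [Metric.mem_ball, dist_eq_norm]
        have h2 : ‖z - 2‖ ≤ ‖z - 1‖ + ‖(1 : ℂ)‖ := by
          have := norm_sub_le (z - 1) 1
          rwa [show z - 1 - 1 = z - 2 by ring] at this
        rw [hz, norm_one] at h2
        linarith
      · rw [hz]
    · apply subset_closure
      rw [Metric.mem_ball, dist_eq_norm]
      exact h1

theorem main (h3 : T_LBD) (h4 : T_EST) (h5 : T_POS) : ∃ C : ℝ, 1 ≤ C ∧ ∀ (q₁ q₂ : ℕ)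
    [NeZero q₁] [NeZero q₂] (χ₁ : DirichletCharacter ℂ q₁) (χ₂ : DirichletCharacter ℂ q₂)
    (χ : DirichletCharacter ℂ (q₁ * q₂)), RC χ₁ → RC χ₂ → RC χ → χ₁ ≠ 1 → χ₂ ≠ 1 → χ ≠ 1 →
    (∀ n : ℕ, χ (n : ZMod (q₁ * q₂)) = χ₁ (n : ZMod q₁) * χ₂ (n : ZMod q₂)) →
    ∀ σ : ℝ, 7 / 8 ≤ σ → σ < 1 →
      1 / 2 - 3 * ((χ₁.LFunction 1).re * (χ₂.LFunction 1).re * (χ.LFunction 1).re) *
        (C * (q₁ : ℝ) ^ 2 * (q₂ : ℝ) ^ 2) ^ (4 * (1 - σ)) / (1 - σ) ≤
        (riemannZeta σ * χ₁.LFunction σ * χ₂.LFunction σ * χ.LFunction σ).re := by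
  obtain ⟨K0, hK0, hZ⟩ := Z_bdd
  refine ⟨32 * (343 * K0 + 343) + 1, by nlinarith, ?_⟩
  intro q₁ q₂ _ _ χ₁ χ₂ χ hR₁ hR₂ hR hn₁ hn₂ hn hmul σ hσ1 hσ2
  set lam : ℝ := (χ₁.LFunction 1).re * (χ₂.LFunction 1).re * (χ.LFunction 1).re with hlam
  have hlam0 : 0 < lam := mul_pos (mul_pos (L1_pos χ₁ hn₁ hR₁) (L1_pos χ₂ hn₂ hR₂))
    (L1_pos χ hn hR)
  have hlamC : (lam : ℂ) = χ₁.LFunction 1 * χ₂.LFunction 1 * χ.LFunction 1 := by
    rw [L1_real χ₁ hn₁ hR₁, L1_real χ₂ hn₂ hR₂, L1_real χ hn hR, hlam]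
    push_cast
    ring
  have hq₁ : (1 : ℝ) ≤ q₁ := by exact_mod_cast Nat.one_le_iff_ne_zero.2 (NeZero.ne q₁)
  have hq₂ : (1 : ℝ) ≤ q₂ := by exact_mod_cast Nat.one_le_iff_ne_zero.2 (NeZero.ne q₂)
  set P : ℝ := (q₁ : ℝ) ^ 2 * (q₂ : ℝ) ^ 2 with hP
  have hP1 : 1 ≤ P := by
    rw [hP]
    have h1 : (1 : ℝ) ≤ (q₁ : ℝ) ^ 2 := by nlinarith
    have h2 : (1 : ℝ) ≤ (q₂ : ℝ) ^ 2 := by nlinarith
    nlinarith
  let H : ℂ → ℂ := fun s => χ₁.LFunction s * χ₂.LFunction s * χ.LFunction s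
  have hHd : Differentiable ℂ H :=
    ((DirichletCharacter.differentiable_LFunction hn₁).mul
      (DirichletCharacter.differentiable_LFunction hn₂)).mul
      (DirichletCharacter.differentiable_LFunction hn)
  have hHb : ∀ s ∈ Metric.ball (2 : ℂ) (3 / 2), ‖H s‖ ≤ 343 * P := by
    intro s hs
    have b1 := L_bd h3 χ₁ hn₁ hs
    have b2 := L_bd h3 χ₂ hn₂ hs
    have b3 := L_bd h3 χ hn hs
    simp only [H, norm_mul]
    calc ‖χ₁.LFunction s‖ * ‖χ₂.LFunction s‖ * ‖χ.LFunction s‖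
        ≤ (7 * q₁) * (7 * q₂) * (7 * ((q₁ * q₂ : ℕ) : ℝ)) := by
          gcongr
      _ = 343 * P := by rw [hP]; push_cast; ring
  let G : ℂ → ℂ := fun s => Z s * H s - lam
  have hGd : Differentiable ℂ G := (Z_diff.mul hHd).sub_const _
  have hG1 : G 1 = 0 := by
    simp only [G, H, Z_one, hlamC]; ring
  have hGb : ∀ s ∈ Metric.ball (2 : ℂ) (3 / 2), ‖G s‖ ≤ (343 * K0 + 343) * P := by
    intro s hs
    have b1 := hHb s hs
    have b2 := hZ s hs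
    have b3 := hHb 1 one_mem
    have b4 : ‖(lam : ℂ)‖ ≤ 343 * P := by rw [hlamC]; exact b3
    calc ‖G s‖ ≤ ‖Z s * H s‖ + ‖(lam : ℂ)‖ := norm_sub_le _ _
      _ ≤ K0 * (343 * P) + 343 * P := by
          rw [norm_mul]
          gcongr
      _ = _ := by ring
  have hgd : Differentiable ℂ (dslope G 1) := by
    rw [← differentiableOn_univ, Complex.differentiableOn_dslope Filter.univ_mem]
    exact hGd.differentiableOn
  have hgb := dslope_bd G hGd hG1 _ hGb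
  have hgval : ∀ s : ℂ, s ≠ 1 → dslope G 1 s + lam / (s - 1) =
      riemannZeta s * χ₁.LFunction s * χ₂.LFunction s * χ.LFunction s := by
    intro s hs
    have hs' : s - 1 ≠ 0 := sub_ne_zero.2 hs
    rw [dslope_of_ne _ hs, slope_def_field, hG1, sub_zero]
    simp only [G, H, Z_ne hs]
    field_simp
    ring
  obtain ⟨b, hb0, hb1, hb⟩ := h5 q₁ q₂ χ₁ χ₂ χ hR₁ hR₂ hmul
  have key := h4 (dslope G 1) lam (4 * ((343 * K0 + 343) * P) ) b hlam0.le (by nlinarith)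
    hgd.differentiableOn hgb hb0 hb1 (by
      intro s hs
      have hs1 : s ≠ 1 := by
        rintro rfl
        rw [Metric.mem_ball, dist_eq_norm] at hs
        norm_num at hs
      rw [hgval s hs1]
      exact hb s hs) σ hσ1 hσ2
  have hval := hgval (σ : ℂ) (by
    intro h
    have : σ = 1 := by exact_mod_cast h
    linarith)
  have hre : (dslope G 1 (σ : ℂ)).re + lam / (σ - 1) =
      (riemannZeta σ * χ₁.LFunction σ * χ₂.LFunction σ * χ.LFunction σ).re := by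
    rw [← hval, Complex.add_re]
    congr 1
    rw [show ((lam : ℂ) / ((σ : ℂ) - 1)) = ((lam / (σ - 1) : ℝ) : ℂ) by push_cast; ring,
      Complex.ofReal_re]
  rw [← hre]
  refine le_trans ?_ key
  have hpw : (8 * (4 * ((343 * K0 + 343) * P))) ^ (4 * (1 - σ)) ≤
      ((32 * (343 * K0 + 343) + 1) * (q₁ : ℝ) ^ 2 * (q₂ : ℝ) ^ 2) ^ (4 * (1 - σ)) := by
    apply Real.rpow_le_rpow
    · positivity
    · rw [mul_assoc, ← hP]
      nlinarith
    · linarith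
  have hσ3 : 0 < 1 - σ := by linarith
  have : 3 * lam * (8 * (4 * ((343 * K0 + 343) * P))) ^ (4 * (1 - σ)) / (1 - σ) ≤
      3 * lam * ((32 * (343 * K0 + 343) + 1) * (q₁ : ℝ) ^ 2 * (q₂ : ℝ) ^ 2) ^ (4 * (1 - σ))
        / (1 - σ) := by
    gcongr
  linarith

theorem L1_le (h3 : T_LBD) {q : ℕ} [NeZero q] (χ : DirichletCharacter ℂ q) (hχ : χ ≠ 1) :
    (χ.LFunction 1).re ≤ 3 + Real.log q := by
  have hq : 1 ≤ q := Nat.one_le_iff_ne_zero.2 (NeZero.ne q)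
  have h := (h3 q χ hχ).2 q hq
  have hq' : (q : ℝ) ≠ 0 := by exact_mod_cast NeZero.ne q
  rw [mul_div_assoc, div_self hq', mul_one] at h
  set S : ℂ := ∑ n ∈ Icc 1 q, χ (n : ZMod q) / (n : ℂ) with hS
  have hSn : ‖S‖ ≤ 1 + Real.log q := by
    have h1 : ‖S‖ ≤ ∑ n ∈ Icc 1 q, ((n : ℝ))⁻¹ := by
      refine le_trans (norm_sum_le _ _) (Finset.sum_le_sum fun n _ => ?_)
      rw [norm_div, Complex.norm_natCast, div_eq_mul_inv]
      have h2 := DirichletCharacter.norm_le_one χ (n : ZMod q)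
      have h3 : (0 : ℝ) ≤ ((n : ℝ))⁻¹ := by positivity
      nlinarith
    have h2 := harmonic_le_one_add_log q
    rw [harmonic_eq_sum_Icc] at h2
    push_cast at h2
    exact h1.trans h2
  have h4 : (χ.LFunction 1).re ≤ ‖χ.LFunction 1‖ := Complex.re_le_norm _
  have h5 : ‖χ.LFunction 1‖ ≤ ‖S‖ + ‖S - χ.LFunction 1‖ := by
    have := norm_sub_le S (S - χ.LFunction 1)
    rwa [sub_sub_cancel] at this
  linarith

section product

variable {q₁ q₂ : ℕ} [NeZero q₁] [NeZero q₂] (χ₁ : DirichletCharacter ℂ q₁)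
  (χ₂ : DirichletCharacter ℂ q₂)

/-- product character -/
noncomputable def pr : DirichletCharacter ℂ (q₁ * q₂) :=
  DirichletCharacter.changeLevel (dvd_mul_right q₁ q₂) χ₁ *
    DirichletCharacter.changeLevel (dvd_mul_left q₂ q₁) χ₂

omit [NeZero q₁] [NeZero q₂] in
theorem cl_val {m q : ℕ} (h : q ∣ m) (χ : DirichletCharacter ℂ q) (n : ℕ) (hn : n.Coprime m) :
    DirichletCharacter.changeLevel h χ (n : ZMod m) = χ (n : ZMod q) := by
  have h1 := DirichletCharacter.changeLevel_eq_cast_of_dvd χ h (ZMod.unitOfCoprime n hn)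
  rw [ZMod.coe_unitOfCoprime] at h1
  rw [h1, ZMod.cast_natCast h]

omit [NeZero q₁] [NeZero q₂] in
theorem val_zero {q : ℕ} (χ : DirichletCharacter ℂ q) (n : ℕ) (hn : ¬ n.Coprime q) :
    χ (n : ZMod q) = 0 := by
  apply MulChar.map_nonunit
  rwa [ZMod.isUnit_iff_coprime]

omit [NeZero q₁] [NeZero q₂] in
theorem pr_val (n : ℕ) :
    pr χ₁ χ₂ (n : ZMod (q₁ * q₂)) = χ₁ (n : ZMod q₁) * χ₂ (n : ZMod q₂) := by
  by_cases hn : n.Coprime (q₁ * q₂)
  · rw [pr, MulChar.mul_apply, cl_val _ _ _ hn, cl_val _ _ _ hn]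
  · rw [val_zero _ n hn]
    rw [Nat.coprime_mul_iff_right, not_and_or] at hn
    rcases hn with hn | hn
    · rw [val_zero _ n hn, zero_mul]
    · rw [val_zero _ n hn, mul_zero]

omit [NeZero q₁] [NeZero q₂] in
theorem pr_RC (h1 : RC χ₁) (h2 : RC χ₂) : RC (pr χ₁ χ₂) := by
  intro n
  rw [pr_val]
  rcases h1 n with h | h | h <;> rcases h2 n with h' | h' | h' <;> rw [h, h'] <;> simp

theorem cl_eq (h2 : RC χ₂) (h : pr χ₁ χ₂ = 1) :
    DirichletCharacter.changeLevel (dvd_mul_right q₁ q₂) χ₁ =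
    DirichletCharacter.changeLevel (dvd_mul_left q₂ q₁) χ₂ := by
  have hsq : DirichletCharacter.changeLevel (dvd_mul_left q₂ q₁) χ₂ *
      DirichletCharacter.changeLevel (dvd_mul_left q₂ q₁) χ₂ = 1 := by
    ext u
    rw [MulChar.mul_apply, MulChar.one_apply_coe]
    obtain ⟨n, hn⟩ : ∃ n : ℕ, (n : ZMod (q₁ * q₂)) = u :=
      ⟨(u : ZMod (q₁ * q₂)).val, by rw [ZMod.natCast_val, ZMod.cast_id]⟩
    have hc : n.Coprime (q₁ * q₂) := by
      rw [← ZMod.isUnit_iff_coprime, hn]; exact u.isUnit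
    rw [← hn, cl_val _ _ _ hc]
    have hne : χ₂ (n : ZMod q₂) ≠ 0 := by
      have h3 : IsUnit (n : ZMod q₂) := by
        rw [ZMod.isUnit_iff_coprime]
        exact Nat.Coprime.coprime_mul_left_right hc
      exact (h3.map χ₂).ne_zero
    rcases h2 n with h | h | h
    · exact absurd h hne
    · rw [h]; norm_num
    · rw [h]; norm_num
  have h1 : DirichletCharacter.changeLevel (dvd_mul_right q₁ q₂) χ₁ *
    DirichletCharacter.changeLevel (dvd_mul_left q₂ q₁) χ₂ = 1 := h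
  rw [← hsq] at h1
  exact mul_right_cancel h1

omit [NeZero q₁] [NeZero q₂] in
theorem factor {q : ℕ} (χ : DirichletCharacter ℂ q) (hR : RC χ) (p : ℕ) (hp : p.Prime) :
    (1 - χ (p : ZMod q) * (p : ℂ) ^ (-(1 : ℂ))) =
      ((1 - (χ (p : ZMod q)).re / p : ℝ) : ℂ) ∧ 1 / 2 ≤ 1 - (χ (p : ZMod q)).re / p ∧
      1 - (χ (p : ZMod q)).re / p ≤ 3 / 2 := by
  have h2 : (2 : ℝ) ≤ p := by exact_mod_cast hp.two_le
  have h3 : (1 : ℝ) / p ≤ 1 / 2 := one_div_le_one_div_of_le (by norm_num) h2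
  have h4 : (0 : ℝ) ≤ 1 / p := by positivity
  have hinv : (p : ℂ) ^ (-(1 : ℂ)) = (p : ℂ)⁻¹ := by
    rw [Complex.cpow_neg, Complex.cpow_one]
  rw [hinv]
  rcases hR p with h | h | h
  · rw [h]
    refine ⟨by simp, by norm_num, by norm_num⟩
  · rw [h]
    refine ⟨by push_cast; simp, ?_, ?_⟩
    · simp only [Complex.one_re]; linarith
    · simp only [Complex.one_re]; linarith
  · rw [h]
    refine ⟨by push_cast; simp; ring, ?_, ?_⟩
    · simp only [Complex.neg_re, Complex.one_re, neg_div]; linarith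
    · simp only [Complex.neg_re, Complex.one_re, neg_div]; linarith

theorem compL (hn₁ : χ₁ ≠ 1) (hn₂ : χ₂ ≠ 1) (h1 : RC χ₁) (h2 : RC χ₂) (h : pr χ₁ χ₂ = 1) :
    (χ₁.LFunction 1).re ≤ 4 ^ (q₁ * q₂).primeFactors.card * (χ₂.LFunction 1).re := by
  have e := cl_eq χ₁ χ₂ h2 h
  have e1 := DirichletCharacter.LFunction_changeLevel (dvd_mul_right q₁ q₂) (χ := χ₁) (s := 1)
    (Or.inl hn₁)
  have e2 := DirichletCharacter.LFunction_changeLevel (dvd_mul_left q₂ q₁) (χ := χ₂) (s := 1)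
    (Or.inl hn₂)
  rw [e, e2] at e1
  rw [Finset.prod_congr rfl (fun p hp => (factor χ₁ h1 p (Nat.prime_of_mem_primeFactors hp)).1),
    Finset.prod_congr rfl (fun p hp => (factor χ₂ h2 p (Nat.prime_of_mem_primeFactors hp)).1),
    L1_real χ₁ hn₁ h1, L1_real χ₂ hn₂ h2] at e1
  norm_cast at e1
  set w := (q₁ * q₂).primeFactors.card with hw
  have hp1 := L1_pos χ₁ hn₁ h1
  have hp2 := L1_pos χ₂ hn₂ h2
  have b1 : (1 / 2 : ℝ) ^ w ≤ ∏ p ∈ (q₁ * q₂).primeFactors, (1 - (χ₁ (p : ZMod q₁)).re / p) := by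
    rw [hw, ← Finset.prod_const]
    apply Finset.prod_le_prod
    · intro p hp; norm_num
    · intro p hp
      exact (factor χ₁ h1 p (Nat.prime_of_mem_primeFactors hp)).2.1
  have b2 : ∏ p ∈ (q₁ * q₂).primeFactors, (1 - (χ₂ (p : ZMod q₂)).re / p) ≤ (3 / 2 : ℝ) ^ w := by
    rw [hw, ← Finset.prod_const]
    apply Finset.prod_le_prod
    · intro p hp
      have := (factor χ₂ h2 p (Nat.prime_of_mem_primeFactors hp)).2.1
      linarith
    · intro p hp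
      exact (factor χ₂ h2 p (Nat.prime_of_mem_primeFactors hp)).2.2
  have c1 : (χ₁.LFunction 1).re * (1 / 2 : ℝ) ^ w ≤ (χ₂.LFunction 1).re * (3 / 2 : ℝ) ^ w := by
    calc (χ₁.LFunction 1).re * (1 / 2 : ℝ) ^ w ≤ (χ₁.LFunction 1).re *
        ∏ p ∈ (q₁ * q₂).primeFactors, (1 - (χ₁ (p : ZMod q₁)).re / p) :=
          mul_le_mul_of_nonneg_left b1 hp1.le
      _ = (χ₂.LFunction 1).re *
        ∏ p ∈ (q₁ * q₂).primeFactors, (1 - (χ₂ (p : ZMod q₂)).re / p) := e1.symm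
      _ ≤ _ := mul_le_mul_of_nonneg_left b2 hp2.le
  have c2 : (χ₁.LFunction 1).re ≤ 3 ^ w * (χ₂.LFunction 1).re := by
    have d : (0 : ℝ) < (1 / 2 : ℝ) ^ w := by positivity
    have d2 : (3 / 2 : ℝ) ^ w = 3 ^ w * (1 / 2 : ℝ) ^ w := by rw [← mul_pow]; norm_num
    rw [d2] at c1
    have : (χ₁.LFunction 1).re * (1 / 2 : ℝ) ^ w ≤
      (3 ^ w * (χ₂.LFunction 1).re) * (1 / 2 : ℝ) ^ w := by linarith
    exact le_of_mul_le_mul_right this d
  refine c2.trans (mul_le_mul_of_nonneg_right ?_ hp2.le)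
  exact pow_le_pow_left₀ (by norm_num) (by norm_num) w

end product

theorem zeta_neg : ∃ δ : ℝ, 0 < δ ∧ ∀ σ : ℝ, 1 - δ < σ → σ < 1 → (riemannZeta (σ : ℂ)).re < 0 := by
  have hc : Continuous (fun σ : ℝ => (Z (σ : ℂ)).re) :=
    continuous_re.comp (Z_diff.continuous.comp continuous_ofReal)
  have h1 : (0 : ℝ) < (Z ((1 : ℝ) : ℂ)).re := by
    rw [Complex.ofReal_one, Z_one]; norm_num
  have h2 : ∀ᶠ σ : ℝ in 𝓝 1, 0 < (Z (σ : ℂ)).re := hc.continuousAt.eventually (lt_mem_nhds h1)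
  obtain ⟨δ, hδ, h3⟩ := Metric.eventually_nhds_iff.1 h2
  refine ⟨δ, hδ, fun σ hσ1 hσ2 => ?_⟩
  have h4 := h3 (y := σ) (by rw [Real.dist_eq, abs_lt]; constructor <;> linarith)
  have hne : (σ : ℂ) ≠ 1 := by
    intro h
    have : σ = 1 := by exact_mod_cast h
    linarith
  rw [Z_ne hne, show ((σ : ℂ) - 1) = ((σ - 1 : ℝ) : ℂ) by push_cast; ring, Complex.re_ofReal_mul] at h4
  by_contra hneg
  push Not at hneg
  nlinarith

theorem exc (h1 : T_CHR) (ε : ℝ) (hε0 : 0 < ε)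
    (hz : ∀ σ : ℝ, 1 - ε ≤ σ → σ < 1 → (riemannZeta (σ : ℂ)).re < 0) :
    ∃ σ₁ : ℝ, 1 - ε ≤ σ₁ ∧ σ₁ < 1 ∧ ∃ (q₁ : ℕ) (_ : NeZero q₁) (χ₁ : DirichletCharacter ℂ q₁),
      RC χ₁ ∧ χ₁ ≠ 1 ∧ ∀ (q₂ : ℕ) [NeZero q₂] (χ₂ : DirichletCharacter ℂ q₂)
      (χ : DirichletCharacter ℂ (q₁ * q₂)), RC χ₂ → RC χ → χ₂ ≠ 1 → χ ≠ 1 →
      (riemannZeta σ₁ * χ₁.LFunction σ₁ * χ₂.LFunction σ₁ * χ.LFunction σ₁).re ≤ 0 := by
  by_cases hA : ∃ (q₁ : ℕ) (_ : NeZero q₁) (χ₁ : DirichletCharacter ℂ q₁), RC χ₁ ∧ χ₁ ≠ 1 ∧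
    ∃ σ₁ : ℝ, 1 - ε ≤ σ₁ ∧ σ₁ < 1 ∧ χ₁.LFunction (σ₁ : ℂ) = 0
  · obtain ⟨q₁, i, χ₁, hR, hn, σ₁, hσ1, hσ2, h0⟩ := hA
    refine ⟨σ₁, hσ1, hσ2, q₁, i, χ₁, hR, hn, ?_⟩
    intro q₂ _ χ₂ χ _ _ _ _
    rw [h0]
    simp
  · obtain ⟨χ₁, hn, hv⟩ := h1 1 one_pos
    have i : NeZero (4 * 1) := ⟨by norm_num⟩
    have hR : RC χ₁ := by
      intro n
      rw [hv n]
      unfold ch
      split_ifs
      · left; simp
      · have := jacobiSym.trichotomy (-((1 : ℕ) : ℤ)) n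
        rcases this with h | h | h <;> rw [h] <;> simp
    refine ⟨1 - ε, le_rfl, by linarith, 4 * 1, i, χ₁, hR, hn, ?_⟩
    intro q₂ _ χ₂ χ hR₂ hR' hn₂ hn'
    have key : ∀ (q : ℕ) [NeZero q] (ψ : DirichletCharacter ℂ q), RC ψ → ψ ≠ 1 →
        0 < (ψ.LFunction ((1 - ε : ℝ) : ℂ)).re := by
      intro q iq ψ hRψ hnψ
      apply L_pos ψ hnψ hRψ
      intro τ h3 h4 h5
      exact hA ⟨q, iq, ψ, hRψ, hnψ, τ, h3, h4, h5⟩
    have k1 := key _ χ₁ hR hn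
    have k2 := key _ χ₂ hR₂ hn₂
    have k3 := key _ χ hR' hn'
    rw [L_real χ₁ hn hR, L_real χ₂ hn₂ hR₂, L_real χ hn' hR', Complex.re_mul_ofReal,
      Complex.re_mul_ofReal, Complex.re_mul_ofReal]
    have k4 := hz (1 - ε) le_rfl (by linarith)
    have k5 := mul_pos (mul_pos k1 k2) k3
    nlinarith

/-- Siegel's theorem for all real characters -/
theorem siegel (h1 : T_CHR) (h3 : T_LBD) (h4 : T_EST) (h5 : T_POS) (h6 : T_OMG) (η : ℝ)
    (hη : 0 < η) : ∃ c : ℝ, 0 < c ∧ ∀ (q : ℕ) [NeZero q] (χ : DirichletCharacter ℂ q), RC χ →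
      χ ≠ 1 → c * (q : ℝ) ^ (-η) ≤ (χ.LFunction 1).re := by
  obtain ⟨C, hC1, hmain⟩ := main h3 h4 h5
  obtain ⟨δ, hδ, hzn⟩ := zeta_neg
  obtain ⟨D, hD, hOm⟩ := h6 η hη
  set ε : ℝ := min (δ / 2) (min (1 / 8) (η / 40)) with hε
  have hε0 : 0 < ε := by rw [hε]; positivity
  have hε1 : ε ≤ δ / 2 := min_le_left _ _
  have hε2 : ε ≤ 1 / 8 := (min_le_right _ _).trans (min_le_left _ _)
  have hε3 : ε ≤ η / 40 := (min_le_right _ _).trans (min_le_right _ _)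
  obtain ⟨σ₁, hσ1, hσ2, q₁, i, χ₁, hR₁, hn₁, hexc⟩ := exc h1 ε hε0
    (fun σ ha hb => hzn σ (by linarith) hb)
  set l₁ : ℝ := (χ₁.LFunction 1).re with hl₁
  have hl₁0 : 0 < l₁ := L1_pos χ₁ hn₁ hR₁
  have hq₁ : (1 : ℝ) ≤ q₁ := by exact_mod_cast Nat.one_le_iff_ne_zero.2 (NeZero.ne q₁)
  -- constants
  set A : ℝ := 6 * (C * (q₁ : ℝ) ^ 2) ^ (η / 10) * l₁ * ((3 + 2 / η) * (q₁ : ℝ) ^ (η / 2)) with hA
  have hA0 : 0 < A := by rw [hA]; positivity
  set c₁ : ℝ := (1 - σ₁) / A with hc₁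
  have hc₁0 : 0 < c₁ := div_pos (by linarith) hA0
  set c₂ : ℝ := l₁ / (D * (q₁ : ℝ) ^ η) with hc₂
  have hc₂0 : 0 < c₂ := by rw [hc₂]; positivity
  refine ⟨min c₁ c₂, lt_min hc₁0 hc₂0, ?_⟩
  intro q _ χ₂ hR₂ hn₂
  have hq : (1 : ℝ) ≤ q := by exact_mod_cast Nat.one_le_iff_ne_zero.2 (NeZero.ne q)
  have hqη : 0 < (q : ℝ) ^ (-η) := by positivity
  set l₂ : ℝ := (χ₂.LFunction 1).re with hl₂
  have hl₂0 : 0 < l₂ := L1_pos χ₂ hn₂ hR₂
  by_cases hpr : pr χ₁ χ₂ = 1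
  · -- the two characters agree
    have h7 := compL χ₁ χ₂ hn₁ hn₂ hR₁ hR₂ hpr
    have h8 := hOm (q₁ * q) (Nat.pos_of_ne_zero (NeZero.ne _))
    have h9 : l₁ ≤ D * ((q₁ : ℝ) ^ η * (q : ℝ) ^ η) * l₂ := by
      refine h7.trans (mul_le_mul_of_nonneg_right ?_ hl₂0.le)
      refine h8.trans (le_of_eq ?_)
      push_cast
      rw [Real.mul_rpow (by positivity) (by positivity)]
    refine le_trans (mul_le_mul_of_nonneg_right (min_le_right _ _) hqη.le) ?_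
    rw [hc₂, Real.rpow_neg (by positivity), ← div_eq_mul_inv, div_div, div_le_iff₀ (by positivity)]
    linarith
  · have h7 := hmain q₁ q χ₁ χ₂ (pr χ₁ χ₂) hR₁ hR₂ (pr_RC χ₁ χ₂ hR₁ hR₂) hn₁ hn₂ hpr
      (pr_val χ₁ χ₂) σ₁ (by linarith) hσ2
    have h8 := hexc q χ₂ (pr χ₁ χ₂) hR₂ (pr_RC χ₁ χ₂ hR₁ hR₂) hn₂ hpr
    have h9 := h7.trans h8
    set l₃ : ℝ := ((pr χ₁ χ₂).LFunction 1).re with hl₃
    have hl₃0 : 0 < l₃ := L1_pos _ hpr (pr_RC χ₁ χ₂ hR₁ hR₂)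
    have hl₃1 : l₃ ≤ (3 + 2 / η) * ((q₁ : ℝ) ^ (η / 2) * (q : ℝ) ^ (η / 2)) := by
      have h10 := L1_le h3 (pr χ₁ χ₂) hpr
      have h11 : Real.log ((q₁ * q : ℕ) : ℝ) ≤ ((q₁ * q : ℕ) : ℝ) ^ (η / 2) / (η / 2) :=
        Real.log_le_rpow_div (by positivity) (by positivity)
      have h12 : (1 : ℝ) ≤ ((q₁ * q : ℕ) : ℝ) ^ (η / 2) := by
        apply Real.one_le_rpow _ (by positivity)
        push_cast
        nlinarith
      rw [← Real.mul_rpow (by positivity) (by positivity)]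
      push_cast at h10 h11 h12 ⊢
      have h13 : ((q₁ : ℝ) * q) ^ (η / 2) / (η / 2) = 2 / η * ((q₁ : ℝ) * q) ^ (η / 2) := by
        field_simp
      rw [h13] at h11
      nlinarith
    have hpow : (C * (q₁ : ℝ) ^ 2 * (q : ℝ) ^ 2) ^ (4 * (1 - σ₁)) ≤
        (C * (q₁ : ℝ) ^ 2) ^ (η / 10) * (q : ℝ) ^ (η / 5) := by
      have hb : (1 : ℝ) ≤ C * (q₁ : ℝ) ^ 2 * (q : ℝ) ^ 2 := by
        have h10 : (1 : ℝ) ≤ (q₁ : ℝ) ^ 2 := one_le_pow₀ hq₁
        have h11 : (1 : ℝ) ≤ (q : ℝ) ^ 2 := one_le_pow₀ hq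
        have h12 : (1 : ℝ) ≤ C * (q₁ : ℝ) ^ 2 := one_le_mul_of_one_le_of_one_le hC1 h10
        exact one_le_mul_of_one_le_of_one_le h12 h11
      refine (Real.rpow_le_rpow_of_exponent_le hb (show 4 * (1 - σ₁) ≤ η / 10 by linarith)).trans
        (le_of_eq ?_)
      rw [Real.mul_rpow (by positivity) (by positivity)]
      congr 1
      rw [← Real.rpow_natCast, ← Real.rpow_mul (by positivity)]
      congr 1
      push_cast
      ring
    have hσ3 : 0 < 1 - σ₁ := by linarith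
    have h10 : (1 - σ₁) ≤ 6 * (l₁ * l₂ * l₃) *
        (C * (q₁ : ℝ) ^ 2 * (q : ℝ) ^ 2) ^ (4 * (1 - σ₁)) := by
      have h11 : 1 / 2 ≤ 3 * (l₁ * l₂ * l₃) *
        (C * (q₁ : ℝ) ^ 2 * (q : ℝ) ^ 2) ^ (4 * (1 - σ₁)) / (1 - σ₁) := by linarith
      rw [le_div_iff₀ hσ3] at h11
      linarith
    have h11 : (1 - σ₁) ≤ A * (q : ℝ) ^ η * l₂ := by
      have hqq : (q : ℝ) ^ (η / 5) * (q : ℝ) ^ (η / 2) ≤ (q : ℝ) ^ η := by
        rw [← Real.rpow_add (by linarith)]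
        exact Real.rpow_le_rpow_of_exponent_le hq (by linarith)
      calc (1 - σ₁) ≤ 6 * (l₁ * l₂ * l₃) *
          (C * (q₁ : ℝ) ^ 2 * (q : ℝ) ^ 2) ^ (4 * (1 - σ₁)) := h10
        _ ≤ 6 * (l₁ * l₂ * ((3 + 2 / η) * ((q₁ : ℝ) ^ (η / 2) * (q : ℝ) ^ (η / 2)))) *
          ((C * (q₁ : ℝ) ^ 2) ^ (η / 10) * (q : ℝ) ^ (η / 5)) := by gcongr
        _ = A * ((q : ℝ) ^ (η / 5) * (q : ℝ) ^ (η / 2)) * l₂ := by rw [hA]; ring
        _ ≤ A * (q : ℝ) ^ η * l₂ := by gcongr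
    refine le_trans (mul_le_mul_of_nonneg_right (min_le_left _ _) hqη.le) ?_
    rw [hc₁, Real.rpow_neg (by positivity), ← div_eq_mul_inv, div_div, div_le_iff₀ (by positivity)]
    linarith

end SIEG_

open SIEG_ in
theorem p_SIEG (h1 : T_CHR) (h2 : T_RRM) (h3 : T_LBD) (h4 : T_EST) (h5 : T_POS) (h6 : T_OMG) :
    T_SIEG := by
  intro η hη
  obtain ⟨c, hc, hs⟩ := siegel h1 h3 h4 h5 h6 η hη
  refine ⟨c * (4 : ℝ) ^ (-η), by positivity, ?_⟩
  intro Δ hΔ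
  obtain ⟨χ, hn, hv⟩ := h1 Δ hΔ
  have : NeZero (4 * Δ) := ⟨by omega⟩
  have hR : RC χ := by
    intro n
    rw [hv n]
    unfold ch
    split_ifs
    · left; simp
    · rcases jacobiSym.trichotomy (-(Δ : ℤ)) n with h | h | h <;> rw [h] <;> simp
  refine ⟨(χ.LFunction 1).re, ?_, ?_⟩
  · have h7 := hs (4 * Δ) χ hR hn
    push_cast at h7
    rw [Real.mul_rpow (by norm_num) (by positivity)] at h7
    linarith
  · intro N hN
    have h7 := (h3 (4 * Δ) χ hn).2 N hN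
    have h8 : (∑ n ∈ Icc 1 N, (ch Δ n : ℝ) / n) - (χ.LFunction 1).re =
        ((∑ n ∈ Icc 1 N, χ (n : ZMod (4 * Δ)) / (n : ℂ)) - χ.LFunction 1).re := by
      rw [Complex.sub_re, Complex.re_sum]
      congr 1
      refine Finset.sum_congr rfl fun n _ => ?_
      rw [hv n, show (((ch Δ n : ℤ) : ℂ) / (n : ℂ)) = (((ch Δ n : ℝ) / (n : ℝ) : ℝ) : ℂ) by
        push_cast; ring, Complex.ofReal_re]
    rw [h8]
    refine (Complex.abs_re_le_norm _).trans (h7.trans (le_of_eq ?_))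
    push_cast
    ring

end SSN
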