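import Pool.Agent.SSN.Targets

open scoped BigOperators
open Finset

namespace SSN
namespace SIEVE_

lemma four_qf {a b c : ℤ} {Δ : ℕ} (h : Red a b c Δ) (x y : ℤ) :
    4 * a * qf a b c x y = (2 * a * x + b * y) ^ 2 + (Δ : ℤ) * y ^ 2 := by
  obtain ⟨_, -, -, hD, _⟩ := h
  rw [← hD]; unfold qf; ring

lemma qf_nonneg {a b c : ℤ} {Δ : ℕ} (h : Red a b c Δ) (x y : ℤ) : 0 ≤ qf a b c x y := by
  have h4 := four_qf h x y
  have ha := h.1
  have h5 : 0 ≤ 4 * a * qf a b c x y := by rw [h4]; positivity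
  by_contra hneg
  push Not at hneg
  have : 4 * a * qf a b c x y < 0 := mul_neg_of_pos_of_neg (by positivity) hneg
  linarith

lemma abs_le_of_sq_le {v W : ℤ} (h : v ^ 2 ≤ W) : |v| ≤ W := by
  have h1 : |v| ≤ v ^ 2 := by
    rw [← sq_abs]
    rcases eq_or_ne v 0 with rfl | h0
    · simp
    · have : 1 ≤ |v| := Int.one_le_abs h0
      nlinarith
  linarith

lemma fin_qf {a b c : ℤ} {Δ : ℕ} (h : Red a b c Δ) (N : ℤ) :
    {R : ℤ × ℤ | qf a b c R.1 R.2 ≤ N}.Finite := by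
  have ha := h.1
  set W : ℤ := 4 * a * |N| with hW
  have hW0 : 0 ≤ W := by positivity
  refine Set.Finite.subset ((Set.finite_Icc (-(W + a * W)) (W + a * W)).prod
    (Set.finite_Icc (-W) W)) ?_
  rintro ⟨x, y⟩ hR
  simp only [Set.mem_ofPred_eq] at hR
  have h4 := four_qf h x y
  have hN : qf a b c x y ≤ |N| := hR.trans (le_abs_self N)
  have h5 : 4 * a * qf a b c x y ≤ W := by
    rw [hW]; exact mul_le_mul_of_nonneg_left hN (by positivity)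
  have hΔ : (1 : ℤ) ≤ Δ := by exact_mod_cast h.2.2.2.2
  have hy2 : y ^ 2 ≤ W := by
    have : y ^ 2 ≤ (Δ : ℤ) * y ^ 2 := by nlinarith [sq_nonneg y]
    nlinarith [sq_nonneg (2 * a * x + b * y)]
  have hx2 : (2 * a * x + b * y) ^ 2 ≤ W := by
    have : 0 ≤ (Δ : ℤ) * y ^ 2 := by positivity
    linarith
  have hy := abs_le_of_sq_le hy2
  have hx := abs_le_of_sq_le hx2
  have hb := h.2.1
  have hby : |b * y| ≤ a * W := by
    rw [abs_mul]
    exact mul_le_mul hb hy (abs_nonneg _) ha.le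
  have hax : |x| ≤ |2 * a * x| := by
    rw [abs_mul]
    have : 1 ≤ |2 * a| := Int.one_le_abs (by omega)
    nlinarith [abs_nonneg x]
  have hxx : |2 * a * x| ≤ W + a * W := by
    have : 2 * a * x = (2 * a * x + b * y) - b * y := by ring
    rw [this]
    exact (abs_sub _ _).trans (add_le_add hx hby)
  have hx' := hax.trans hxx
  rw [abs_le] at hx' hy
  simp only [Set.mem_prod, Set.mem_Icc]
  exact ⟨hx', hy⟩

lemma MM_pos {P : Finset ℕ} (hP : OddPr P) : 8 ≤ MM P := by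
  unfold MM
  have : 1 ≤ ∏ p ∈ P, p := Finset.prod_pos fun p hp => (hP p hp).1.pos
  omega

/-- the local densities -/
noncomputable def nuf (Δ : ℕ) : ArithmeticFunction ℝ :=
  ArithmeticFunction.prodPrimeFactors (fun p => zr Δ p / (p : ℝ) ^ 2)

lemma nuf_mult (Δ : ℕ) : (nuf Δ).IsMultiplicative :=
  ArithmeticFunction.IsMultiplicative.prodPrimeFactors _

lemma nuf_apply {Δ n : ℕ} (hn : n ≠ 0) :
    nuf Δ n = ∏ p ∈ n.primeFactors, zr Δ p / (p : ℝ) ^ 2 :=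
  ArithmeticFunction.prodPrimeFactors_apply hn

lemma nuf_prime {Δ p : ℕ} (hp : p.Prime) : nuf Δ p = zr Δ p / (p : ℝ) ^ 2 := by
  rw [nuf_apply hp.ne_zero, Nat.Prime.primeFactors hp, Finset.prod_singleton]

lemma nuf_sqfree {Δ d : ℕ} (hd : Squarefree d) :
    nuf Δ d = (∏ p ∈ d.primeFactors, zr Δ p) / (d : ℝ) ^ 2 := by
  rw [nuf_apply hd.ne_zero, Finset.prod_div_distrib, Finset.prod_pow]
  congr 2
  rw [← Nat.cast_prod, Nat.prod_primeFactors_of_squarefree hd]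

lemma one_sub_nuf {Δ p : ℕ} (hp : p.Prime) : 1 - nuf Δ p = eu Δ p := by
  have h0 : (p : ℝ) ≠ 0 := by exact_mod_cast hp.ne_zero
  rw [nuf_prime hp]
  unfold zr eu
  field_simp
  ring

lemma ch_cast {Δ n : ℕ} (h6 : T_RRM) (hΔ : 0 < Δ) :
    (ch Δ n : ℝ) = 0 ∨ (ch Δ n : ℝ) = 1 ∨ (ch Δ n : ℝ) = -1 := by
  rcases (h6 Δ hΔ).2.2.2.2.2.2.1 n with h | h | h <;> rw [h] <;> simp

lemma eu_pos {Δ p : ℕ} (h6 : T_RRM) (hΔ : 0 < Δ) (hp : p.Prime) : 0 < eu Δ p := by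
  have hp2 : (2 : ℝ) ≤ p := by exact_mod_cast hp.two_le
  have h1 : 1 / (p : ℝ) ≤ 1 / 2 := one_div_le_one_div_of_le (by norm_num) hp2
  have h2 : (ch Δ p : ℝ) / p ≤ 1 / 2 := by
    rw [div_le_div_iff₀ (by linarith) (by norm_num)]
    rcases ch_cast (n := p) h6 hΔ with h | h | h <;> rw [h] <;> linarith
  unfold eu
  apply mul_pos <;> linarith

lemma eu_le_one {Δ p : ℕ} (h6 : T_RRM) (hΔ : 0 < Δ) (hp : p.Prime) : eu Δ p ≤ 1 := by
  have hp2 : (2 : ℝ) ≤ p := by exact_mod_cast hp.two_le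
  have h0 : (p : ℝ) ≠ 0 := by linarith
  unfold eu
  have h3 : (1 - 1 / (p : ℝ)) * (1 - (ch Δ p : ℝ) / p) =
    1 - ((ch Δ p : ℝ) * (p - 1) + p) / (p : ℝ) ^ 2 := by
    field_simp
    ring
  rw [h3]
  have : 0 ≤ ((ch Δ p : ℝ) * (p - 1) + p) / (p : ℝ) ^ 2 := by
    apply div_nonneg _ (by positivity)
    rcases ch_cast (n := p) h6 hΔ with h | h | h <;> rw [h] <;> linarith
  linarith

lemma zr_pos {Δ p : ℕ} (h6 : T_RRM) (hΔ : 0 < Δ) (hp : p.Prime) : 0 < zr Δ p := by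
  have hp2 : (2 : ℝ) ≤ p := by exact_mod_cast hp.two_le
  unfold zr
  rcases ch_cast (n := p) h6 hΔ with h | h | h <;> rw [h] <;> nlinarith

/-- the product of the sieving primes -/
def pp (z K : ℕ) : ℕ := ∏ p ∈ (Icc 1 z).filter (fun p => p.Prime ∧ ¬ p ∣ K), p

lemma pp_primeFactors (z K : ℕ) :
    (pp z K).primeFactors = (Icc 1 z).filter (fun p => p.Prime ∧ ¬ p ∣ K) := by
  unfold pp
  apply Nat.primeFactors_prod
  intro p hp
  exact (mem_filter.mp hp).2.1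

lemma pp_sqfree (z K : ℕ) : Squarefree (pp z K) := by
  unfold pp
  apply Finset.squarefree_prod_of_pairwise_isCoprime
  · intro p hp q hq hpq
    simp only [coe_filter, mem_Icc, Set.mem_ofPred_eq] at hp hq
    exact Nat.coprime_iff_isRelPrime.mp ((Nat.coprime_primes hp.2.1 hq.2.1).mpr hpq)
  · intro p hp
    exact (mem_filter.mp hp).2.1.squarefree

/-- the weights -/
noncomputable def wt {a b c : ℤ} {Δ : ℕ} (hR : Red a b c Δ) (M N n : ℕ) : ℝ :=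
  if M ∣ n + 1 then
    (((fin_qf hR N).toFinset.filter (fun R => (qf a b c R.1 R.2).toNat = n)).card : ℝ) else 0

lemma multSum_eq {a b c : ℤ} {Δ : ℕ} (hR : Red a b c Δ) {M : ℕ} (hM : 8 ≤ M) (d : ℕ)
    {t : ℝ} (ht : 1 ≤ t) :
    (∑ n ∈ Icc 1 ⌊t⌋₊, if d ∣ n then wt hR M ⌊t⌋₊ n else 0) =
    (({R : ℤ × ℤ | (qf a b c R.1 R.2 : ℝ) ≤ t ∧ (M : ℤ) ∣ qf a b c R.1 R.2 + 1 ∧
      (d : ℤ) ∣ qf a b c R.1 R.2}.ncard : ℕ) : ℝ) := by
  classical
  set N := ⌊t⌋₊ with hN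
  set F := (fin_qf hR N).toFinset with hF
  have hmem : ∀ R : ℤ × ℤ, R ∈ F ↔ qf a b c R.1 R.2 ≤ N := by
    intro R; simp [hF]
  have hle : ∀ R : ℤ × ℤ, (qf a b c R.1 R.2 : ℝ) ≤ t ↔ qf a b c R.1 R.2 ≤ N := by
    intro R
    rw [hN, Int.natCast_floor_eq_floor (by linarith), Int.le_floor]
  have hset : {R : ℤ × ℤ | (qf a b c R.1 R.2 : ℝ) ≤ t ∧ (M : ℤ) ∣ qf a b c R.1 R.2 + 1 ∧
      (d : ℤ) ∣ qf a b c R.1 R.2} =
      ↑(F.filter (fun R => (M : ℤ) ∣ qf a b c R.1 R.2 + 1 ∧ (d : ℤ) ∣ qf a b c R.1 R.2)) := by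
    ext R
    simp only [Set.mem_ofPred_eq, coe_filter, hmem, hle]
  rw [hset, Set.ncard_coe_finset]
  rw [Finset.card_eq_sum_card_fiberwise (f := fun R : ℤ × ℤ => (qf a b c R.1 R.2).toNat)
    (t := Icc 1 N)]
  · push_cast
    apply Finset.sum_congr rfl
    intro n hn
    unfold wt
    have key : ∀ R : ℤ × ℤ, (qf a b c R.1 R.2).toNat = n → qf a b c R.1 R.2 = n := by
      intro R h
      have := qf_nonneg hR R.1 R.2
      omega
    by_cases hd : d ∣ n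
    · by_cases hm : M ∣ n + 1
      · rw [if_pos hd, if_pos hm]
        congr 2
        ext R
        simp only [mem_filter]
        constructor
        · rintro ⟨h1, h2⟩
          have h3 := key R h2
          refine ⟨⟨h1, ?_, ?_⟩, h2⟩
          · rw [h3]; exact_mod_cast hm
          · rw [h3]; exact_mod_cast hd
        · rintro ⟨⟨h1, -, -⟩, h2⟩
          exact ⟨h1, h2⟩
      · rw [if_pos hd, if_neg hm]
        symm
        rw [Nat.cast_eq_zero, card_eq_zero, Finset.eq_empty_iff_forall_notMem]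
        intro R h
        simp only [mem_filter] at h
        have h3 := key R h.2
        rw [h3] at h
        exact hm (by exact_mod_cast h.1.2.1)
    · rw [if_neg hd]
      symm
      rw [Nat.cast_eq_zero, card_eq_zero, Finset.eq_empty_iff_forall_notMem]
      intro R h
      simp only [mem_filter] at h
      have h3 := key R h.2
      rw [h3] at h
      exact hd (by exact_mod_cast h.1.2.2)
  · intro R h
    simp only [coe_filter, Set.mem_ofPred_eq, hmem] at h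
    have h0 := qf_nonneg hR R.1 R.2
    have h1 : qf a b c R.1 R.2 ≠ 0 := by
      intro hz
      rw [hz] at h
      have := Int.le_of_dvd (by norm_num) h.2.1
      omega
    simp only [coe_Icc, Set.mem_Icc]
    omega

/-- the sieve -/
noncomputable def sv (h6 : T_RRM) {a b c : ℤ} {Δ : ℕ} (hR : Red a b c Δ) (M N z : ℕ)
    (hz : 1 ≤ z) (X : ℝ) : SelbergSieve where
  support := Icc 1 N
  prodPrimes := pp z (2 * M * Δ)
  prodPrimes_squarefree := pp_sqfree _ _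
  weights := wt hR M N
  weights_nonneg := by
    intro n
    unfold wt
    split_ifs <;> positivity
  totalMass := X
  nu := nuf Δ
  nu_mult := nuf_mult Δ
  nu_pos_of_prime := by
    intro p hp _
    rw [nuf_prime hp]
    have := zr_pos h6 hR.2.2.2.2 hp
    have hp0 : (0 : ℝ) < p := by exact_mod_cast hp.pos
    positivity
  nu_lt_one_of_prime := by
    intro p hp _
    have h1 := one_sub_nuf (Δ := Δ) hp
    have h2 := eu_pos h6 hR.2.2.2.2 hp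
    linarith
  level := (z : ℝ) ^ 2
  one_le_level := by
    have : (1 : ℝ) ≤ z := by exact_mod_cast hz
    nlinarith

lemma selberg_eq (h6 : T_RRM) {a b c : ℤ} {Δ : ℕ} (hR : Red a b c Δ) (M N z : ℕ)
    (hz : 1 ≤ z) (X : ℝ) {l : ℕ} (hl : l ≠ 0) :
    (sv h6 hR M N z hz X).selbergTerms l = ∏ p ∈ l.primeFactors, (1 / eu Δ p - 1) := by
  rw [BoundingSieve.selbergTerms_apply]
  change nuf Δ l * ∏ p ∈ l.primeFactors, (1 - nuf Δ p)⁻¹ = _
  rw [nuf_apply hl, ← Finset.prod_mul_distrib]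
  apply Finset.prod_congr rfl
  intro p hp
  have hp' := Nat.prime_of_mem_primeFactors hp
  have h1 := one_sub_nuf (Δ := Δ) hp'
  have h2 := eu_pos h6 hR.2.2.2.2 hp'
  rw [h1, ← nuf_prime hp']
  have : nuf Δ p = 1 - eu Δ p := by linarith
  rw [this]
  field_simp

/-- the Selberg sum -/
noncomputable def SS (Δ K z : ℕ) : ℝ :=
  ∑ l ∈ (Icc 1 z).filter (fun l => Squarefree l ∧ l.Coprime K),
    ∏ p ∈ l.primeFactors, (1 / eu Δ p - 1)

lemma term_nonneg {Δ : ℕ} (h6 : T_RRM) (hΔ : 0 < Δ) (l : ℕ) :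
    0 ≤ ∏ p ∈ l.primeFactors, (1 / eu Δ p - 1) := by
  apply Finset.prod_nonneg
  intro p hp
  have hp' := Nat.prime_of_mem_primeFactors hp
  have h1 := eu_pos h6 hΔ hp'
  have h2 := eu_le_one h6 hΔ hp'
  have : 1 ≤ 1 / eu Δ p := by rw [le_div_iff₀ h1]; linarith
  linarith

lemma SS_ge_one {Δ K z : ℕ} (h6 : T_RRM) (hΔ : 0 < Δ) (hz : 1 ≤ z) : 1 ≤ SS Δ K z := by
  unfold SS
  have h1 : (1 : ℕ) ∈ (Icc 1 z).filter (fun l => Squarefree l ∧ l.Coprime K) := by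
    simp [hz]
  have h2 := Finset.single_le_sum (f := fun l : ℕ => ∏ p ∈ l.primeFactors, (1 / eu Δ p - 1))
    (fun l _ => term_nonneg h6 hΔ l) h1
  simpa using h2

lemma dvd_pp {z K l : ℕ} (hl : l ≤ z) (hs : Squarefree l) (hc : l.Coprime K) : l ∣ pp z K := by
  unfold pp
  rw [← Nat.prod_primeFactors_of_squarefree hs]
  apply Finset.prod_dvd_prod_of_subset
  intro p hp
  have hp' := Nat.prime_of_mem_primeFactors hp
  have hd := Nat.dvd_of_mem_primeFactors hp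
  simp only [mem_filter, mem_Icc]
  refine ⟨⟨hp'.one_lt.le, (Nat.le_of_dvd (Nat.pos_of_ne_zero hs.ne_zero) hd).trans hl⟩, hp', ?_⟩
  intro hK
  exact hp'.one_lt.ne' (Nat.Coprime.eq_one_of_dvd (Nat.Coprime.coprime_dvd_left hd hc) hK)

lemma pp_ne_zero (z K : ℕ) : pp z K ≠ 0 := (pp_sqfree z K).ne_zero

lemma prime_dvd_pp {z K k : ℕ} (hk : k.Prime) (h : k ∣ pp z K) : k ≤ z ∧ ¬ k ∣ K := by
  have h1 : k ∈ (pp z K).primeFactors := Nat.mem_primeFactors.mpr ⟨hk, h, pp_ne_zero z K⟩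
  rw [pp_primeFactors] at h1
  simp only [mem_filter, mem_Icc] at h1
  exact ⟨h1.1.2, h1.2.2⟩

lemma coprime_of_dvd_pp {z K d : ℕ} (hd : d ∣ pp z K) : d.Coprime K := by
  apply Nat.coprime_of_dvd
  intro k hk hkd
  exact (prime_dvd_pp hk (hkd.trans hd)).2

lemma SS_le (h6 : T_RRM) {a b c : ℤ} {Δ : ℕ} (hR : Red a b c Δ) (M N z : ℕ)
    (hz : 1 ≤ z) (X : ℝ) : SS Δ (2 * M * Δ) z ≤
    ∑ l ∈ (sv h6 hR M N z hz X).prodPrimes.divisors,
      if (l : ℝ) ^ 2 ≤ (sv h6 hR M N z hz X).level then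
        (sv h6 hR M N z hz X).selbergTerms l else 0 := by
  rw [← Finset.sum_filter]
  unfold SS
  have hsub : (Icc 1 z).filter (fun l => Squarefree l ∧ l.Coprime (2 * M * Δ)) ⊆
      (sv h6 hR M N z hz X).prodPrimes.divisors.filter
        (fun l : ℕ => (l : ℝ) ^ 2 ≤ (sv h6 hR M N z hz X).level) := by
    intro l hl
    simp only [mem_filter, mem_Icc, Nat.mem_divisors] at hl ⊢
    refine ⟨⟨dvd_pp hl.1.2 hl.2.1 hl.2.2, pp_ne_zero _ _⟩, ?_⟩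
    change (l : ℝ) ^ 2 ≤ (z : ℝ) ^ 2
    have : (l : ℝ) ≤ z := by exact_mod_cast hl.1.2
    gcongr
  refine le_trans (le_of_eq ?_) (Finset.sum_le_sum_of_subset_of_nonneg hsub ?_)
  · apply Finset.sum_congr rfl
    intro l hl
    simp only [mem_filter, mem_Icc] at hl
    rw [selberg_eq]
    omega
  · intro l hl _
    simp only [mem_filter, Nat.mem_divisors] at hl
    exact (BoundingSieve.selbergTerms_pos hl.1.1).le

lemma err_le (h6 : T_RRM) {a b c : ℤ} {Δ : ℕ} (hR : Red a b c Δ) (M z : ℕ)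
    (hz : 1 ≤ z) (X B : ℝ) (t : ℝ) (hB : 0 ≤ B)
    (hrem : ∀ d : ℕ, d ∣ pp z (2 * M * Δ) →
      |(sv h6 hR M ⌊t⌋₊ z hz X).rem d| ≤ B * (d : ℝ) ^ 2) :
    (∑ d ∈ (sv h6 hR M ⌊t⌋₊ z hz X).prodPrimes.divisors,
      if (d : ℝ) ≤ (sv h6 hR M ⌊t⌋₊ z hz X).level then
        (d : ℝ) ^ 2 * |(sv h6 hR M ⌊t⌋₊ z hz X).rem d| else 0) ≤ B * (z : ℝ) ^ 10 := by
  rw [← Finset.sum_filter]
  have hsub : (sv h6 hR M ⌊t⌋₊ z hz X).prodPrimes.divisors.filter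
      (fun d : ℕ => (d : ℝ) ≤ (sv h6 hR M ⌊t⌋₊ z hz X).level) ⊆ Icc 1 (z ^ 2) := by
    intro d hd
    simp only [mem_filter, mem_Icc, Nat.mem_divisors] at hd ⊢
    refine ⟨Nat.pos_of_ne_zero (ne_zero_of_dvd_ne_zero hd.1.2 hd.1.1), ?_⟩
    have : (d : ℝ) ≤ (z : ℝ) ^ 2 := hd.2
    exact_mod_cast this
  calc _ ≤ ∑ d ∈ ((sv h6 hR M ⌊t⌋₊ z hz X).prodPrimes.divisors.filter
      (fun d : ℕ => (d : ℝ) ≤ (sv h6 hR M ⌊t⌋₊ z hz X).level)), B * (z : ℝ) ^ 8 := by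
        apply Finset.sum_le_sum
        intro d hd
        simp only [mem_filter, Nat.mem_divisors] at hd
        have h1 : (d : ℝ) ≤ (z : ℝ) ^ 2 := hd.2
        have h2 := hrem d hd.1.1
        have h3 : (0 : ℝ) ≤ d := by positivity
        calc (d : ℝ) ^ 2 * |(sv h6 hR M ⌊t⌋₊ z hz X).rem d| ≤ (d : ℝ) ^ 2 * (B * (d : ℝ) ^ 2) := by
              gcongr
          _ = B * (d : ℝ) ^ 4 := by ring
          _ ≤ B * ((z : ℝ) ^ 2) ^ 4 := by gcongr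
          _ = B * (z : ℝ) ^ 8 := by ring
    _ ≤ ∑ d ∈ Icc 1 (z ^ 2), B * (z : ℝ) ^ 8 := by
        apply Finset.sum_le_sum_of_subset_of_nonneg hsub
        intros; positivity
    _ = B * (z : ℝ) ^ 10 := by
        simp only [sum_const, Nat.card_Icc, nsmul_eq_mul]
        push_cast
        ring

lemma rem_le (h6 : T_RRM) {a b c : ℤ} {Δ : ℕ} (hR : Red a b c Δ) {M z : ℕ} (hM : 8 ≤ M)
    (hz : 1 ≤ z) {ρ C t : ℝ} (ht : 1 ≤ t)
    (hcnt : ∀ d : ℕ, Squarefree d → d.Coprime (2 * M * Δ) → ∀ t : ℝ, 1 ≤ t →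
      |(({R : ℤ × ℤ | (qf a b c R.1 R.2 : ℝ) ≤ t ∧ (M : ℤ) ∣ qf a b c R.1 R.2 + 1 ∧
      (d : ℤ) ∣ qf a b c R.1 R.2}.ncard : ℕ) : ℝ) -
      ρ * (∏ p ∈ d.primeFactors, zr Δ p) *
      (2 * Real.pi * t / (Real.sqrt Δ * ((M : ℝ) * d) ^ 2))| ≤
      C * ((M : ℝ) * d) ^ 2 * Real.sqrt t) (d : ℕ) (hd : d ∣ pp z (2 * M * Δ)) :
    |(sv h6 hR M ⌊t⌋₊ z hz (ρ * (2 * Real.pi * t / (Real.sqrt Δ * (M : ℝ) ^ 2)))).rem d| ≤
      (C * (M : ℝ) ^ 2 * Real.sqrt t) * (d : ℝ) ^ 2 := by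
  have hs : Squarefree d := (pp_sqfree _ _).squarefree_of_dvd hd
  have h1 := hcnt d hs (coprime_of_dvd_pp hd) t ht
  unfold BoundingSieve.rem BoundingSieve.multSum
  change |(∑ n ∈ Icc 1 ⌊t⌋₊, if d ∣ n then wt hR M ⌊t⌋₊ n else 0) -
    nuf Δ d * (ρ * (2 * Real.pi * t / (Real.sqrt Δ * (M : ℝ) ^ 2)))| ≤ _
  rw [multSum_eq hR hM d ht, nuf_sqfree hs]
  have hd0 : (d : ℝ) ≠ 0 := by exact_mod_cast hs.ne_zero
  have hM0 : (M : ℝ) ≠ 0 := by
    have : M ≠ 0 := by omega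
    exact_mod_cast this
  have hD0 : Real.sqrt (Δ : ℝ) ≠ 0 := by
    have : (0 : ℝ) < Δ := by exact_mod_cast hR.2.2.2.2
    positivity
  have h2 : (∏ p ∈ d.primeFactors, zr Δ p) / (d : ℝ) ^ 2 *
      (ρ * (2 * Real.pi * t / (Real.sqrt Δ * (M : ℝ) ^ 2))) =
      ρ * (∏ p ∈ d.primeFactors, zr Δ p) *
      (2 * Real.pi * t / (Real.sqrt Δ * ((M : ℝ) * d) ^ 2)) := by
    field_simp
  rw [h2]
  refine h1.trans (le_of_eq ?_)
  ring

lemma count_le (h6 : T_RRM) {a b c : ℤ} {Δ : ℕ} (hR : Red a b c Δ) {M z : ℕ}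
    (hz : 1 ≤ z) (X : ℝ) {t : ℝ} :
    (({ℓ : ℕ | ℓ.Prime ∧ (ℓ : ℝ) ≤ t ∧ M ∣ ℓ + 1 ∧ Val a b c ℓ}.ncard : ℕ) : ℝ) ≤
      z + (sv h6 hR M ⌊t⌋₊ z hz X).siftedSum := by
  classical
  set G := (Icc 1 ⌊t⌋₊).filter (fun ℓ => z < ℓ ∧ ℓ.Prime ∧ M ∣ ℓ + 1 ∧ Val a b c ℓ) with hG
  have hsub : {ℓ : ℕ | ℓ.Prime ∧ (ℓ : ℝ) ≤ t ∧ M ∣ ℓ + 1 ∧ Val a b c ℓ} ⊆
      ((Icc 1 z ∪ G : Finset ℕ) : Set ℕ) := by
    intro ℓ hℓ
    simp only [Set.mem_ofPred_eq] at hℓ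
    have h1 : 1 ≤ ℓ := hℓ.1.one_lt.le
    have h2 : ℓ ≤ ⌊t⌋₊ := Nat.le_floor hℓ.2.1
    simp only [coe_union, hG, coe_Icc, coe_filter, Set.mem_union, Set.mem_Icc, Set.mem_ofPred_eq,
      mem_Icc]
    by_cases h : ℓ ≤ z
    · exact Or.inl ⟨h1, h⟩
    · exact Or.inr ⟨⟨h1, h2⟩, by omega, hℓ.1, hℓ.2.2.1, hℓ.2.2.2⟩
  have h1 : (({ℓ : ℕ | ℓ.Prime ∧ (ℓ : ℝ) ≤ t ∧ M ∣ ℓ + 1 ∧ Val a b c ℓ}.ncard : ℕ) : ℝ) ≤
      ((Icc 1 z ∪ G).card : ℝ) := by
    rw [← Set.ncard_coe_finset]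
    exact_mod_cast Set.ncard_le_ncard hsub (Finset.finite_toSet _)
  have h2 : ((Icc 1 z ∪ G).card : ℝ) ≤ z + G.card := by
    have := Finset.card_union_le (Icc 1 z) G
    rw [Nat.card_Icc] at this
    have h3 : (Icc 1 z ∪ G).card ≤ z + G.card := by omega
    exact_mod_cast h3
  have h3 : (G.card : ℝ) ≤ (sv h6 hR M ⌊t⌋₊ z hz X).siftedSum := by
    unfold BoundingSieve.siftedSum
    change _ ≤ ∑ d ∈ Icc 1 ⌊t⌋₊, if Nat.Coprime (pp z (2 * M * Δ)) d then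
      wt hR M ⌊t⌋₊ d else 0
    rw [← Finset.sum_filter]
    have hG2 : G ⊆ (Icc 1 ⌊t⌋₊).filter (fun d => Nat.Coprime (pp z (2 * M * Δ)) d) := by
      intro ℓ hℓ
      simp only [hG, mem_filter] at hℓ ⊢
      refine ⟨hℓ.1, ?_⟩
      rw [Nat.coprime_comm, Nat.Prime.coprime_iff_not_dvd hℓ.2.2.1]
      intro h
      have := (prime_dvd_pp hℓ.2.2.1 h).1
      omega
    calc (G.card : ℝ) = ∑ ℓ ∈ G, (1 : ℝ) := by simp
      _ ≤ ∑ ℓ ∈ G, wt hR M ⌊t⌋₊ ℓ := by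
          apply Finset.sum_le_sum
          intro ℓ hℓ
          simp only [hG, mem_filter, mem_Icc] at hℓ
          unfold wt
          rw [if_pos hℓ.2.2.2.1]
          obtain ⟨x, y, hxy⟩ := hℓ.2.2.2.2
          have : (x, y) ∈ ((fin_qf hR ⌊t⌋₊).toFinset.filter
              (fun R => (qf a b c R.1 R.2).toNat = ℓ)) := by
            simp only [mem_filter, Set.Finite.mem_toFinset, Set.mem_ofPred_eq]
            rw [hxy]
            exact ⟨by exact_mod_cast hℓ.1.2, by simp⟩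
          have h4 : 1 ≤ ((fin_qf hR ⌊t⌋₊).toFinset.filter
              (fun R => (qf a b c R.1 R.2).toNat = ℓ)).card := Finset.card_pos.mpr ⟨_, this⟩
          exact_mod_cast h4
      _ ≤ _ := by
          apply Finset.sum_le_sum_of_subset_of_nonneg hG2
          intro n _ _
          unfold wt
          split_ifs <;> positivity
  linarith

lemma main_ineq (h2 : T_SEL) (h6 : T_RRM) {a b c : ℤ} {Δ : ℕ} (hR : Red a b c Δ) {M z : ℕ}
    (hM : 8 ≤ M) (hz : 1 ≤ z) {ρ C t : ℝ} (ht : 1 ≤ t) (hρ : 0 ≤ ρ) (hC : 0 ≤ C)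
    (hcnt : ∀ d : ℕ, Squarefree d → d.Coprime (2 * M * Δ) → ∀ t : ℝ, 1 ≤ t →
      |(({R : ℤ × ℤ | (qf a b c R.1 R.2 : ℝ) ≤ t ∧ (M : ℤ) ∣ qf a b c R.1 R.2 + 1 ∧
      (d : ℤ) ∣ qf a b c R.1 R.2}.ncard : ℕ) : ℝ) -
      ρ * (∏ p ∈ d.primeFactors, zr Δ p) *
      (2 * Real.pi * t / (Real.sqrt Δ * ((M : ℝ) * d) ^ 2))| ≤
      C * ((M : ℝ) * d) ^ 2 * Real.sqrt t) :
    (({ℓ : ℕ | ℓ.Prime ∧ (ℓ : ℝ) ≤ t ∧ M ∣ ℓ + 1 ∧ Val a b c ℓ}.ncard : ℕ) : ℝ) ≤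
      z + (ρ * (2 * Real.pi * t / (Real.sqrt Δ * (M : ℝ) ^ 2))) / SS Δ (2 * M * Δ) z +
        (C * (M : ℝ) ^ 2 * Real.sqrt t) * (z : ℝ) ^ 10 := by
  set X := ρ * (2 * Real.pi * t / (Real.sqrt Δ * (M : ℝ) ^ 2)) with hX
  have hX0 : 0 ≤ X := by
    rw [hX]
    have := Real.pi_pos
    positivity
  have e1 := count_le h6 hR (M := M) hz X (t := t)
  have e2 := h2 (sv h6 hR M ⌊t⌋₊ z hz X) hX0
  have e3 := SS_le h6 hR M ⌊t⌋₊ z hz X
  have e4 := SS_ge_one (K := 2 * M * Δ) h6 hR.2.2.2.2 hz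
  have e5 := err_le h6 hR M z hz X (C * (M : ℝ) ^ 2 * Real.sqrt t) t (by positivity)
    (rem_le h6 hR hM hz ht hcnt)
  have e6 : (sv h6 hR M ⌊t⌋₊ z hz X).totalMass /
      (∑ l ∈ (sv h6 hR M ⌊t⌋₊ z hz X).prodPrimes.divisors,
      if (l : ℝ) ^ 2 ≤ (sv h6 hR M ⌊t⌋₊ z hz X).level then
        (sv h6 hR M ⌊t⌋₊ z hz X).selbergTerms l else 0) ≤ X / SS Δ (2 * M * Δ) z := by
    change X / _ ≤ _
    exact div_le_div_of_nonneg_left hX0 (by linarith) e3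
  linarith

lemma loc {P : Finset ℕ} {Δ : ℕ} (h6 : T_RRM) (hΔ : 0 < Δ) (hP : OddPr P) {ρ : ℝ}
    (hρ : ρ ≤ 64 * ∏ p ∈ P, (if p ∣ Δ then 2 * (p : ℝ) else (p : ℝ) - ch Δ p)) :
    ρ / (MM P : ℝ) ^ 2 ≤ (∏ p ∈ (2 * MM P * Δ).primeFactors, eu Δ p) *
      ((2 : ℝ) ^ (2 * Δ).primeFactors.card / ph P) := by
  classical
  set T := (2 * MM P * Δ).primeFactors with hT
  set U := (2 * Δ).primeFactors with hU
  have hM := MM_pos hP
  have hM0 : MM P ≠ 0 := by omega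
  have hPT : P ⊆ T := by
    intro p hp
    rw [hT, Nat.mem_primeFactors]
    refine ⟨(hP p hp).1, ?_, by positivity⟩
    have : p ∣ MM P := (Finset.dvd_prod_of_mem (fun p => p) hp).trans (Dvd.intro_left _ rfl)
    exact Dvd.dvd.mul_right (Dvd.dvd.mul_left this 2) Δ
  have hUT : U ⊆ T := by
    rw [hT, hU]
    apply Nat.primeFactors_mono
    · exact ⟨MM P, by ring⟩
    · positivity
  have hTU : ∀ p ∈ T, p ∉ P → p ∈ U := by
    intro p hp hpP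
    rw [hT, Nat.mem_primeFactors] at hp
    obtain ⟨hpp, hpd, -⟩ := hp
    rw [hU, Nat.mem_primeFactors]
    refine ⟨hpp, ?_, by positivity⟩
    have h1 : p ∣ MM P * (2 * Δ) := by
      have : MM P * (2 * Δ) = 2 * MM P * Δ := by ring
      rw [this]; exact hpd
    rcases (Nat.Prime.dvd_mul hpp).mp h1 with h | h
    · unfold MM at h
      rcases (Nat.Prime.dvd_mul hpp).mp h with h | h
      · have : p ∣ 2 ^ 3 := by simpa using h
        have := hpp.dvd_of_dvd_pow this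
        exact Dvd.dvd.mul_right this Δ
      · exfalso
        rw [Prime.dvd_finsetProd_iff hpp.prime] at h
        obtain ⟨q, hq, hpq⟩ := h
        rw [Nat.prime_dvd_prime_iff_eq hpp (hP q hq).1] at hpq
        exact hpP (hpq ▸ hq)
    · exact h
  -- rewriting the two sides as products over `T`
  have e1 : ρ / (MM P : ℝ) ^ 2 ≤
      ∏ p ∈ P, (if p ∣ Δ then 2 * (p : ℝ) else (p : ℝ) - ch Δ p) / (p : ℝ) ^ 2 := by
    rw [Finset.prod_div_distrib, Finset.prod_pow]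
    have : ((MM P : ℕ) : ℝ) = 8 * ∏ p ∈ P, (p : ℝ) := by unfold MM; push_cast; ring
    rw [this]
    have h0 : 0 < ∏ p ∈ P, (p : ℝ) :=
      Finset.prod_pos fun p hp => by exact_mod_cast (hP p hp).1.pos
    rw [div_le_div_iff₀ (by positivity) (by positivity)]
    nlinarith [mul_le_mul_of_nonneg_right hρ (sq_nonneg (∏ p ∈ P, (p : ℝ)))]
  have e2 : ∏ p ∈ P, (if p ∣ Δ then 2 * (p : ℝ) else (p : ℝ) - ch Δ p) / (p : ℝ) ^ 2 =
      ∏ p ∈ T, (if p ∈ P then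
        (if p ∣ Δ then 2 * (p : ℝ) else (p : ℝ) - ch Δ p) / (p : ℝ) ^ 2 else 1) := by
    rw [Finset.prod_ite_mem, Finset.inter_eq_right.mpr hPT]
  have e3 : (2 : ℝ) ^ U.card = ∏ p ∈ T, (if p ∈ U then (2 : ℝ) else 1) := by
    rw [Finset.prod_ite_mem, Finset.inter_eq_right.mpr hUT, Finset.prod_const]
  have e4 : 1 / ph P = ∏ p ∈ T, (if p ∈ P then 1 / ((p : ℝ) - 1) else 1) := by
    rw [Finset.prod_ite_mem, Finset.inter_eq_right.mpr hPT]
    unfold ph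
    simp
  have e5 : (∏ p ∈ T, eu Δ p) * ((2 : ℝ) ^ U.card / ph P) =
      ∏ p ∈ T, (eu Δ p * ((if p ∈ U then (2 : ℝ) else 1) *
        (if p ∈ P then 1 / ((p : ℝ) - 1) else 1))) := by
    rw [Finset.prod_mul_distrib, Finset.prod_mul_distrib, ← e3, ← e4]
    ring
  rw [e5]
  refine (e1.trans (le_of_eq e2)).trans ?_
  have hch : ∀ p, p.Prime → p ∣ 2 * Δ → (ch Δ p : ℝ) = 0 := by
    intro p hp hd
    have := ((h6 Δ hΔ).2.2.2.2.2.2.2 p).mpr (by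
      intro hc
      exact hp.one_lt.ne' (Nat.Coprime.eq_one_of_dvd hc hd))
    rw [this]; simp
  apply Finset.prod_le_prod
  · intro p hp
    have hpp := Nat.prime_of_mem_primeFactors hp
    have hp2 : (2 : ℝ) ≤ p := by exact_mod_cast hpp.two_le
    split_ifs
    · positivity
    · apply div_nonneg _ (by positivity)
      rcases ch_cast (n := p) h6 hΔ with h | h | h <;> rw [h] <;> linarith
    · norm_num
  · intro p hp
    have hpp := Nat.prime_of_mem_primeFactors hp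
    have hp2 : (2 : ℝ) ≤ p := by exact_mod_cast hpp.two_le
    have hp0 : (p : ℝ) ≠ 0 := by linarith
    have hp1 : (p : ℝ) - 1 ≠ 0 := by
      intro h; linarith
    by_cases hpP : p ∈ P
    · rw [if_pos hpP, if_pos hpP]
      by_cases hpd : p ∣ Δ
      · have hpU : p ∈ U := by
          rw [hU, Nat.mem_primeFactors]
          exact ⟨hpp, hpd.mul_left 2, by positivity⟩
        rw [if_pos hpd, if_pos hpU]
        unfold eu
        rw [hch p hpp (hpd.mul_left 2)]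
        apply le_of_eq
        field_simp
        ring
      · have hpU : p ∉ U := by
          rw [hU, Nat.mem_primeFactors]
          rintro ⟨-, h, -⟩
          rcases (Nat.Prime.dvd_mul hpp).mp h with h | h
          · exact (hP p hpP).2 ((Nat.prime_dvd_prime_iff_eq hpp Nat.prime_two).mp h)
          · exact hpd h
        rw [if_neg hpd, if_neg hpU]
        unfold eu
        apply le_of_eq
        field_simp
    · have hpU := hTU p hp hpP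
      rw [if_neg hpP, if_neg hpP, if_pos hpU]
      unfold eu
      rw [hU, Nat.mem_primeFactors] at hpU
      rw [hch p hpp hpU.2.1]
      have h1 : 1 / (p : ℝ) ≤ 1 / 2 := one_div_le_one_div_of_le (by norm_num) hp2
      have h0 : (0 : ℝ) / p = 0 := zero_div _
      rw [h0]
      linarith

lemma ev_log (A s : ℝ) (k : ℕ) (hs : 0 < s) :
    ∀ᶠ t : ℝ in Filter.atTop, A * (Real.log t) ^ k ≤ t ^ s := by
  have h := (isLittleO_log_rpow_rpow_atTop (k : ℝ) hs).bound (c := 1 / (|A| + 1)) (by positivity)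
  filter_upwards [h, Filter.eventually_ge_atTop (1 : ℝ)] with t ht h1
  rw [Real.rpow_natCast, Real.norm_eq_abs, Real.norm_eq_abs,
    abs_of_nonneg (Real.rpow_nonneg (by linarith : (0 : ℝ) ≤ t) s)] at ht
  have hA : 0 < |A| + 1 := by positivity
  have h2 : (|A| + 1) * |Real.log t ^ k| ≤ t ^ s := by
    calc (|A| + 1) * |Real.log t ^ k| ≤ (|A| + 1) * (1 / (|A| + 1) * t ^ s) := by gcongr
      _ = t ^ s := by field_simp
  calc A * Real.log t ^ k ≤ |A * Real.log t ^ k| := le_abs_self _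
    _ = |A| * |Real.log t ^ k| := abs_mul _ _
    _ ≤ (|A| + 1) * |Real.log t ^ k| := by gcongr; linarith
    _ ≤ t ^ s := h2

lemma ev (A B : ℝ) : ∃ t₀ : ℝ, ∀ t : ℝ, t₀ ≤ t → 1 ≤ t ∧ 1 ≤ Real.log t ∧
    2 ≤ t ^ (1 / 200 : ℝ) ∧ A * (Real.log t) ^ 6 ≤ t ^ (1 / 200 : ℝ) ∧
    B * (Real.log t) ^ 2 ≤ t ^ (2 / 5 : ℝ) := by
  have h1 := ev_log A (1 / 200) 6 (by norm_num)
  have h2 := ev_log B (2 / 5) 2 (by norm_num)
  have h3 : ∀ᶠ t : ℝ in Filter.atTop, 2 ≤ t ^ (1 / 200 : ℝ) :=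
    (tendsto_rpow_atTop (by norm_num)).eventually_ge_atTop 2
  have h4 : ∀ᶠ t : ℝ in Filter.atTop, 1 ≤ Real.log t :=
    Real.tendsto_log_atTop.eventually_ge_atTop 1
  obtain ⟨t₀, h⟩ := Filter.eventually_atTop.mp
    (h1.and (h2.and (h3.and (h4.and (Filter.eventually_ge_atTop (1 : ℝ))))))
  refine ⟨t₀, fun t ht => ?_⟩
  obtain ⟨a1, a2, a3, a4, a5⟩ := h t ht
  exact ⟨a5, a4, a3, a1, a2⟩

end SIEVE_

open SIEVE_ in
theorem p_SIEVE (h1 : T_RL) (h2 : T_SEL) (h3 : T_CNT) (h4 : T_SHH) (h5 : T_OMG) (h6 : T_RRM) :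
    T_SIEVE := by
  obtain ⟨c, hc, C₀, hC₀, hRL⟩ := h1 (1 / 8) (by norm_num)
  obtain ⟨Cc, hCc, hCNT⟩ := h3
  obtain ⟨Co, hCo, hOMG⟩ := h5 (1 / 8) (by norm_num)
  have hpi := Real.pi_pos
  refine ⟨1 + 800 * Real.pi * Co / c, by positivity, ?_⟩
  intro P hP
  have hM := MM_pos hP
  have hph : 0 < ph P := by
    unfold ph
    apply Finset.prod_pos
    intro p hp
    have : (2 : ℝ) ≤ p := by exact_mod_cast (hP p hp).1.two_le
    linarith
  obtain ⟨t₀, hev⟩ := ev (C₀ ^ 2) ((1 + Cc * (MM P : ℝ) ^ 2) * ph P)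
  refine ⟨t₀, ?_⟩
  intro t ht a b c' Δ hR hΔt
  obtain ⟨ht1, hl1, ht2, hA, hB⟩ := hev t ht
  have hΔ := hR.2.2.2.2
  have hΔ1 : (1 : ℝ) ≤ Δ := by exact_mod_cast hΔ
  have ht0 : (0 : ℝ) < t := by linarith
  -- the sieving range
  set z := ⌊t ^ (1 / 100 : ℝ)⌋₊ with hz
  have hz1 : (z : ℝ) ≤ t ^ (1 / 100 : ℝ) := Nat.floor_le (by positivity)
  have hz2 : t ^ (1 / 200 : ℝ) ≤ z := by
    have h7 : t ^ (1 / 100 : ℝ) = t ^ (1 / 200 : ℝ) * t ^ (1 / 200 : ℝ) := by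
      rw [← Real.rpow_add ht0]; norm_num
    have h8 : t ^ (1 / 100 : ℝ) < z + 1 := Nat.lt_floor_add_one _
    nlinarith
  have hz3 : 1 ≤ z := by
    have : (1 : ℝ) ≤ z := by linarith
    exact_mod_cast this
  have hlogz : Real.log t / 200 ≤ Real.log z := by
    have : Real.log (t ^ (1 / 200 : ℝ)) ≤ Real.log z :=
      Real.log_le_log (by positivity) hz2
    rw [Real.log_rpow ht0] at this
    linarith
  obtain ⟨ρ, hρ0, hρ1, hcnt⟩ := hCNT a b c' Δ hR P hP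
  have key := main_ineq h2 h6 hR hM hz3 ht1 hρ0 hCc.le hcnt
  -- the Selberg sum
  have hRL' := hRL Δ hΔ z (by
    calc (C₀ * Δ) ^ 2 = C₀ ^ 2 * (Δ : ℝ) ^ 2 := by ring
      _ ≤ C₀ ^ 2 * ((Real.log t) ^ 3) ^ 2 := by gcongr
      _ = C₀ ^ 2 * (Real.log t) ^ 6 := by ring
      _ ≤ t ^ (1 / 200 : ℝ) := hA
      _ ≤ z := hz2)
  have hSHH := h4 Δ hΔ (2 * MM P * Δ) (by positivity) z
  have hOM := hOMG (2 * Δ) (by positivity)
  have hloc := loc h6 hΔ hP hρ1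
  set E := ∏ p ∈ (2 * MM P * Δ).primeFactors, eu Δ p with hE
  have hE0 : 0 < E := Finset.prod_pos fun p hp => eu_pos h6 hΔ (Nat.prime_of_mem_primeFactors hp)
  have hMr : (0 : ℝ) < MM P := by
    have : 0 < MM P := by omega
    exact_mod_cast this
  have hs0 : (0 : ℝ) < Real.sqrt Δ := Real.sqrt_pos.mpr (by linarith)
  have hlogz0 : 0 < Real.log z := by linarith
  have hmain : (ρ * (2 * Real.pi * t / (Real.sqrt Δ * (MM P : ℝ) ^ 2))) /
      SS Δ (2 * MM P * Δ) z ≤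
      800 * Real.pi * Co / c * (t / (ph P * (Δ : ℝ) ^ (1 / 4 : ℝ) * Real.log t)) := by
    have g1 : E * (c * (Δ : ℝ) ^ (-(1 / 8) : ℝ) * Real.log z) ≤ SS Δ (2 * MM P * Δ) z := by
      refine le_trans ?_ hSHH
      gcongr
    have g2 : ρ * (2 * Real.pi * t / (Real.sqrt Δ * (MM P : ℝ) ^ 2)) ≤
        E * ((2 : ℝ) ^ (2 * Δ).primeFactors.card / ph P) * (2 * Real.pi * t / Real.sqrt Δ) := by
      calc ρ * (2 * Real.pi * t / (Real.sqrt Δ * (MM P : ℝ) ^ 2)) =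
          ρ / (MM P : ℝ) ^ 2 * (2 * Real.pi * t / Real.sqrt Δ) := by field_simp
        _ ≤ _ := by gcongr
    have g3 : (2 : ℝ) ^ (2 * Δ).primeFactors.card ≤ 2 * Co * (Δ : ℝ) ^ (1 / 8 : ℝ) := by
      calc (2 : ℝ) ^ (2 * Δ).primeFactors.card ≤ (4 : ℝ) ^ (2 * Δ).primeFactors.card := by
            gcongr; norm_num
        _ ≤ Co * ((2 * Δ : ℕ) : ℝ) ^ (1 / 8 : ℝ) := hOM
        _ = Co * ((2 : ℝ) ^ (1 / 8 : ℝ) * (Δ : ℝ) ^ (1 / 8 : ℝ)) := by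
            push_cast
            rw [Real.mul_rpow (by norm_num) (by linarith)]
        _ ≤ Co * ((2 : ℝ) ^ (1 : ℝ) * (Δ : ℝ) ^ (1 / 8 : ℝ)) := by
            have : (2 : ℝ) ^ (1 / 8 : ℝ) ≤ (2 : ℝ) ^ (1 : ℝ) :=
              Real.rpow_le_rpow_of_exponent_le (by norm_num) (by norm_num)
            gcongr
        _ = 2 * Co * (Δ : ℝ) ^ (1 / 8 : ℝ) := by rw [Real.rpow_one]; ring
    have g4 : 0 < c * (Δ : ℝ) ^ (-(1 / 8) : ℝ) * (Real.log t / 200) := by positivity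
    have g5 : E * (c * (Δ : ℝ) ^ (-(1 / 8) : ℝ) * (Real.log t / 200)) ≤
        SS Δ (2 * MM P * Δ) z := by
      refine le_trans ?_ g1
      gcongr
    calc (ρ * (2 * Real.pi * t / (Real.sqrt Δ * (MM P : ℝ) ^ 2))) / SS Δ (2 * MM P * Δ) z
        ≤ (E * ((2 : ℝ) ^ (2 * Δ).primeFactors.card / ph P) * (2 * Real.pi * t / Real.sqrt Δ)) /
          (E * (c * (Δ : ℝ) ^ (-(1 / 8) : ℝ) * (Real.log t / 200))) := by
          apply div_le_div₀ _ g2 (by positivity) g5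
          positivity
      _ ≤ (E * ((2 * Co * (Δ : ℝ) ^ (1 / 8 : ℝ)) / ph P) * (2 * Real.pi * t / Real.sqrt Δ)) /
          (E * (c * (Δ : ℝ) ^ (-(1 / 8) : ℝ) * (Real.log t / 200))) := by gcongr
      _ = 800 * Real.pi * Co / c * (t / (ph P * (Δ : ℝ) ^ (1 / 4 : ℝ) * Real.log t)) := by
          have k1 : (Δ : ℝ) ^ (-(1 / 8) : ℝ) = ((Δ : ℝ) ^ (1 / 8 : ℝ))⁻¹ :=
            Real.rpow_neg (by linarith) _
          have k2 : Real.sqrt Δ = ((Δ : ℝ) ^ (1 / 8 : ℝ)) ^ 4 := by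
            rw [Real.sqrt_eq_rpow, ← Real.rpow_natCast, ← Real.rpow_mul (by linarith)]
            norm_num
          have k3 : (Δ : ℝ) ^ (1 / 4 : ℝ) = ((Δ : ℝ) ^ (1 / 8 : ℝ)) ^ 2 := by
            rw [← Real.rpow_natCast, ← Real.rpow_mul (by linarith)]
            norm_num
          rw [k1, k2, k3]
          have k4 : (0 : ℝ) < (Δ : ℝ) ^ (1 / 8 : ℝ) := by positivity
          field_simp
          ring
  -- the error terms
  have herr : (z : ℝ) + (Cc * (MM P : ℝ) ^ 2 * Real.sqrt t) * (z : ℝ) ^ 10 ≤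
      t / (ph P * (Δ : ℝ) ^ (1 / 4 : ℝ) * Real.log t) := by
    have hΔ4 : (Δ : ℝ) ^ (1 / 4 : ℝ) ≤ Real.log t := by
      calc (Δ : ℝ) ^ (1 / 4 : ℝ) ≤ ((Real.log t) ^ 4) ^ (1 / 4 : ℝ) := by
            apply Real.rpow_le_rpow (by linarith) _ (by norm_num)
            refine hΔt.trans ?_
            apply pow_le_pow_right₀ hl1 (by norm_num)
        _ = Real.log t := by
            rw [← Real.rpow_natCast, ← Real.rpow_mul (by linarith)]
            norm_num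
    have q1 : (z : ℝ) ≤ t ^ (3 / 5 : ℝ) :=
      hz1.trans (Real.rpow_le_rpow_of_exponent_le ht1 (by norm_num))
    have q2 : Real.sqrt t * (z : ℝ) ^ 10 ≤ t ^ (3 / 5 : ℝ) := by
      calc Real.sqrt t * (z : ℝ) ^ 10 ≤ Real.sqrt t * (t ^ (1 / 100 : ℝ)) ^ 10 := by gcongr
        _ = t ^ (3 / 5 : ℝ) := by
            rw [Real.sqrt_eq_rpow, ← Real.rpow_natCast (t ^ (1 / 100 : ℝ)),
              ← Real.rpow_mul ht0.le, ← Real.rpow_add ht0]
            norm_num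
    have q3 : (z : ℝ) + (Cc * (MM P : ℝ) ^ 2 * Real.sqrt t) * (z : ℝ) ^ 10 ≤
        (1 + Cc * (MM P : ℝ) ^ 2) * t ^ (3 / 5 : ℝ) := by
      have : (Cc * (MM P : ℝ) ^ 2) * (Real.sqrt t * (z : ℝ) ^ 10) ≤
          (Cc * (MM P : ℝ) ^ 2) * t ^ (3 / 5 : ℝ) := by gcongr
      nlinarith
    refine q3.trans ?_
    have hlt : 0 < Real.log t := by linarith
    rw [le_div_iff₀ (by positivity)]
    calc (1 + Cc * (MM P : ℝ) ^ 2) * t ^ (3 / 5 : ℝ) *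
          (ph P * (Δ : ℝ) ^ (1 / 4 : ℝ) * Real.log t)
        ≤ (1 + Cc * (MM P : ℝ) ^ 2) * t ^ (3 / 5 : ℝ) * (ph P * Real.log t * Real.log t) := by
          gcongr
      _ = ((1 + Cc * (MM P : ℝ) ^ 2) * ph P * (Real.log t) ^ 2) * t ^ (3 / 5 : ℝ) := by ring
      _ ≤ t ^ (2 / 5 : ℝ) * t ^ (3 / 5 : ℝ) := by gcongr
      _ = t := by
          rw [← Real.rpow_add ht0]
          norm_num
  calc (({ℓ : ℕ | ℓ.Prime ∧ (ℓ : ℝ) ≤ t ∧ MM P ∣ ℓ + 1 ∧ Val a b c' ℓ}.ncard : ℕ) : ℝ)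
      ≤ (ρ * (2 * Real.pi * t / (Real.sqrt Δ * (MM P : ℝ) ^ 2))) / SS Δ (2 * MM P * Δ) z +
        ((z : ℝ) + (Cc * (MM P : ℝ) ^ 2 * Real.sqrt t) * (z : ℝ) ^ 10) := by linarith
    _ ≤ 800 * Real.pi * Co / c * (t / (ph P * (Δ : ℝ) ^ (1 / 4 : ℝ) * Real.log t)) +
        t / (ph P * (Δ : ℝ) ^ (1 / 4 : ℝ) * Real.log t) := add_le_add hmain herr
    _ = (1 + 800 * Real.pi * Co / c) * t /
        (ph P * (Δ : ℝ) ^ (1 / 4 : ℝ) * Real.log t) := by ring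

end SSN
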