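import Pool.Agent.SSN.Targets

/-!
# SUM: sums over a sparse set
-/

set_option autoImplicit false

open scoped BigOperators
open Finset Filter

namespace SSN

namespace SUM_

/-- the level of `n`: `2 ^ lv n ≤ log n < 2 ^ (lv n + 1)` -/
noncomputable def lv (n : ℕ) : ℕ := ⌊Real.logb 2 (Real.log n)⌋₊

lemma one_le_log {n : ℕ} (hn : 3 ≤ n) : 1 ≤ Real.log n := by
  have h3 : (3 : ℝ) ≤ n := by exact_mod_cast hn
  rw [Real.le_log_iff_exp_le (by linarith)]
  have := Real.exp_one_lt_d9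
  linarith

lemma lv_le {n : ℕ} (hn : 3 ≤ n) : (2 : ℝ) ^ lv n ≤ Real.log n := by
  have h1 := one_le_log hn
  have h2 : 0 ≤ Real.logb 2 (Real.log n) := Real.logb_nonneg (by norm_num) h1
  have h3 : (lv n : ℝ) ≤ Real.logb 2 (Real.log n) := Nat.floor_le h2
  rw [← Real.rpow_natCast]
  rwa [Real.le_logb_iff_rpow_le (by norm_num) (by linarith)] at h3

lemma lt_lv {n : ℕ} (hn : 3 ≤ n) : Real.log n < 2 * (2 : ℝ) ^ lv n := by
  have h1 := one_le_log hn
  have h3 : Real.logb 2 (Real.log n) < (lv n : ℝ) + 1 := Nat.lt_floor_add_one _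
  rw [Real.logb_lt_iff_lt_rpow (by norm_num) (by linarith)] at h3
  have h4 : (2 : ℝ) ^ ((lv n : ℝ) + 1) = 2 * (2 : ℝ) ^ lv n := by
    rw [Real.rpow_add (by norm_num), Real.rpow_natCast, Real.rpow_one]
    ring
  rwa [h4] at h3

/-- counting the elements of level `k` -/
lemma count {S : Set ℕ} {β x₀ : ℝ} (hβ : 0 < β)
    (h : ∀ x : ℝ, x₀ ≤ x →
      (({p : ℕ | p ∈ S ∧ (p : ℝ) ≤ x}.ncard : ℕ) : ℝ) ≤ (Real.log x) ^ β)
    (u : Finset ℕ) (hu : ∀ n ∈ u, n ∈ S ∧ 3 ≤ n) (k : ℕ) (hk : ∀ n ∈ u, lv n = k) :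
    (u.card : ℝ) ≤ (max 2 (Real.log x₀)) ^ β * ((2 : ℝ) ^ β) ^ k := by
  obtain ⟨t, ht⟩ : ∃ t : ℝ, t = 2 * (2 : ℝ) ^ k := ⟨_, rfl⟩
  obtain ⟨c, hc⟩ : ∃ c : ℝ, c = max 2 (Real.log x₀) := ⟨_, rfl⟩
  rw [← hc]
  have hc2 : 2 ≤ c := by rw [hc]; exact le_max_left _ _
  have hcx : Real.log x₀ ≤ c := by rw [hc]; exact le_max_right _ _
  have h2k : (1 : ℝ) ≤ (2 : ℝ) ^ k := one_le_pow₀ (by norm_num)
  obtain ⟨x', hx'⟩ : ∃ x' : ℝ, x' = max (Real.exp t) x₀ := ⟨_, rfl⟩
  have h1 := h x' (by rw [hx']; exact le_max_right _ _)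
  have hfin : {p : ℕ | p ∈ S ∧ (p : ℝ) ≤ x'}.Finite := by
    refine (Set.finite_Iic ⌊x'⌋₊).subset ?_
    rintro p ⟨_, hp⟩
    rw [Set.mem_Iic]
    exact Nat.le_floor hp
  have hsub : (u : Set ℕ) ⊆ {p : ℕ | p ∈ S ∧ (p : ℝ) ≤ x'} := by
    intro n hn
    have hn' := hu n (by exact_mod_cast hn)
    refine ⟨hn'.1, ?_⟩
    have h5 := lt_lv hn'.2
    rw [hk n (by exact_mod_cast hn), ← ht] at h5
    have h6 : (0 : ℝ) < n := by
      have := hn'.2
      exact_mod_cast (by omega : 0 < n)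
    have h7 : (n : ℝ) < Real.exp t := (Real.log_lt_iff_lt_exp h6).1 h5
    rw [hx']
    exact h7.le.trans (le_max_left _ _)
  have hcard : (u.card : ℝ) ≤ (({p : ℕ | p ∈ S ∧ (p : ℝ) ≤ x'}.ncard : ℕ) : ℝ) := by
    have := Set.ncard_le_ncard hsub hfin
    rw [Set.ncard_coe_finset] at this
    exact_mod_cast this
  have hlog0 : 0 ≤ Real.log x' := by
    apply Real.log_nonneg
    rw [hx']
    refine le_trans ?_ (le_max_left _ _)
    apply Real.one_le_exp
    rw [ht]; positivity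
  have hlog : Real.log x' ≤ c * (2 : ℝ) ^ k := by
    rw [hx']
    rcases le_total x₀ (Real.exp t) with h8 | h8
    · rw [max_eq_left h8, Real.log_exp, ht]
      exact mul_le_mul_of_nonneg_right hc2 (by positivity)
    · rw [max_eq_right h8]
      calc Real.log x₀ ≤ c := hcx
        _ = c * 1 := (mul_one c).symm
        _ ≤ c * (2 : ℝ) ^ k := mul_le_mul_of_nonneg_left h2k (by linarith)
  calc (u.card : ℝ) ≤ (Real.log x') ^ β := hcard.trans h1
    _ ≤ (c * (2 : ℝ) ^ k) ^ β := Real.rpow_le_rpow hlog0 hlog hβ.le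
    _ = c ^ β * ((2 : ℝ) ^ β) ^ k := by
        rw [Real.mul_rpow (by linarith) (by positivity), ← Real.rpow_natCast, ← Real.rpow_natCast,
          ← Real.rpow_mul (by norm_num), ← Real.rpow_mul (by norm_num), mul_comm (k : ℝ) β]

end SUM_

open SUM_ in
theorem p_SUM : T_SUM := by
  classical
  intro S β γ x₀ hβ hβγ h
  obtain ⟨c, hc⟩ : ∃ c : ℝ, c = (max 2 (Real.log x₀)) ^ β := ⟨_, rfl⟩
  have hc0 : 0 ≤ c := by rw [hc]; positivity
  obtain ⟨r, hr⟩ : ∃ r : ℝ, r = (2 : ℝ) ^ (β - γ) := ⟨_, rfl⟩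
  have hr0 : 0 ≤ r := by rw [hr]; positivity
  have hr1 : r < 1 := by
    rw [hr]
    exact Real.rpow_lt_one_of_one_lt_of_neg (by norm_num) (by linarith)
  have hgeo : Summable fun k : ℕ => c * r ^ k := (summable_geometric_of_lt_one hr0 hr1).mul_left c
  have hf0 : ∀ n : ℕ, 0 ≤ S.indicator
      (fun n : ℕ => if 3 ≤ n then (Real.log n) ^ (-γ) else 0) n := by
    intro n
    apply Set.indicator_nonneg
    intro m _
    split_ifs with h3
    · exact Real.rpow_nonneg (by linarith [one_le_log h3]) _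
    · exact le_rfl
  have hfirst : Summable (S.indicator fun n : ℕ => if 3 ≤ n then (Real.log n) ^ (-γ) else 0) := by
    refine summable_of_sum_le hf0 (c := ∑' k : ℕ, c * r ^ k) ?_
    intro u
    obtain ⟨v, hv⟩ : ∃ v : Finset ℕ, v = u.filter (fun n => n ∈ S ∧ 3 ≤ n) := ⟨_, rfl⟩
    have hv' : ∀ n ∈ v, n ∈ S ∧ 3 ≤ n := by
      intro n hn
      rw [hv, mem_filter] at hn
      exact hn.2
    have h1 : ∑ n ∈ u, S.indicator (fun n : ℕ => if 3 ≤ n then (Real.log n) ^ (-γ) else 0) n =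
        ∑ n ∈ v, (Real.log n) ^ (-γ) := by
      rw [hv, sum_filter]
      refine sum_congr rfl fun n _ => ?_
      by_cases hS : n ∈ S
      · rw [Set.indicator_of_mem hS]
        by_cases h3 : 3 ≤ n
        · rw [if_pos h3, if_pos ⟨hS, h3⟩]
        · rw [if_neg h3, if_neg (fun hh => h3 hh.2)]
      · rw [Set.indicator_of_notMem hS, if_neg (fun hh => hS hh.1)]
    rw [h1, ← sum_fiberwise_of_maps_to (s := v) (t := v.image lv) (g := lv)
      (fun n hn => mem_image_of_mem _ hn)]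
    refine le_trans ?_ (hgeo.sum_le_tsum (v.image lv) (fun k _ => by positivity))
    refine sum_le_sum fun k _ => ?_
    have h2 : ∀ n ∈ v.filter (fun n => lv n = k), (Real.log n) ^ (-γ) ≤ ((2 : ℝ) ^ (-γ)) ^ k := by
      intro n hn
      rw [mem_filter] at hn
      have h3 := (hv' n hn.1).2
      have h4 := lv_le h3
      rw [hn.2] at h4
      have h5 : ((2 : ℝ) ^ (-γ)) ^ k = ((2 : ℝ) ^ k) ^ (-γ) := by
        rw [← Real.rpow_natCast, ← Real.rpow_natCast, ← Real.rpow_mul (by norm_num),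
          ← Real.rpow_mul (by norm_num), mul_comm]
      rw [h5]
      exact Real.rpow_le_rpow_of_nonpos (by positivity) h4 (by linarith)
    have h6 := SUM_.count hβ h (v.filter (fun n => lv n = k))
      (fun n hn => hv' n (mem_filter.1 hn).1) k (fun n hn => (mem_filter.1 hn).2)
    rw [← hc] at h6
    calc ∑ n ∈ v.filter (fun n => lv n = k), (Real.log n) ^ (-γ)
        ≤ ∑ _n ∈ v.filter (fun n => lv n = k), ((2 : ℝ) ^ (-γ)) ^ k := sum_le_sum h2
      _ = ((v.filter (fun n => lv n = k)).card : ℝ) * ((2 : ℝ) ^ (-γ)) ^ k := by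
          rw [sum_const, nsmul_eq_mul]
      _ ≤ (c * ((2 : ℝ) ^ β) ^ k) * ((2 : ℝ) ^ (-γ)) ^ k :=
          mul_le_mul_of_nonneg_right h6 (by positivity)
      _ = c * r ^ k := by
          rw [mul_assoc, ← mul_pow, ← Real.rpow_add (by norm_num), hr]
          congr 2
  refine ⟨hfirst, ?_⟩
  refine Summable.of_norm_bounded_eventually_nat hfirst ?_
  have hlit := (isLittleO_log_rpow_rpow_atTop γ (by norm_num : (0 : ℝ) < 1 / 4)).bound one_pos
  have hlit2 := (tendsto_natCast_atTop_atTop (R := ℝ)).eventually hlit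
  filter_upwards [hlit2, eventually_ge_atTop 3] with n hn h3
  by_cases hS : n ∈ S
  · rw [Set.indicator_of_mem hS, Set.indicator_of_mem hS, if_pos h3]
    have hn0 : (0 : ℝ) < n := by exact_mod_cast (by omega : 0 < n)
    have hl := one_le_log h3
    have hl0 : 0 < Real.log (n : ℝ) := by linarith
    have e1 : ‖Real.log (n : ℝ) ^ γ‖ ≤ 1 * ‖(n : ℝ) ^ (1 / 4 : ℝ)‖ := hn
    rw [one_mul, Real.norm_of_nonneg (by positivity), Real.norm_of_nonneg (by positivity)] at e1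
    rw [Real.norm_of_nonneg (by positivity), Real.rpow_neg hl0.le,
      show (-1 / 4 : ℝ) = -(1 / 4) by norm_num, Real.rpow_neg hn0.le]
    exact inv_anti₀ (by positivity) e1
  · rw [Set.indicator_of_notMem hS, Set.indicator_of_notMem hS, norm_zero]

end SSN
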