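import Pool.Agent.SSN.Targets

/-!
# SSN, target W (weighted sums from counting bounds), helper92
-/

open scoped BigOperators
open Finset

namespace SSN
namespace W_

/-- the weight -/
noncomputable def wt (Y : ℝ) (n : ℕ) : ℝ := Real.log n * (n : ℝ) ^ (-1 - 1 / Y)

lemma log_ge_one {n : ℕ} (hn : 3 ≤ n) : 1 < Real.log n := by
  have h : Real.exp 1 < (n : ℝ) := by
    have h1 := Real.exp_one_lt_d9
    have h2 : (3 : ℝ) ≤ n := by exact_mod_cast hn
    linarith
  rw [Real.lt_log_iff_exp_lt (by positivity)]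
  exact h

lemma wt_nonneg (Y : ℝ) (n : ℕ) : 0 ≤ wt Y n := by
  unfold wt
  have h1 : 0 ≤ Real.log (n : ℝ) := Real.log_natCast_nonneg n
  positivity

/-- `log n / n` is decreasing -/
lemma log_div_anti {n : ℕ} (hn : 3 ≤ n) :
    Real.log ((n + 1 : ℕ) : ℝ) / ((n + 1 : ℕ) : ℝ) ≤ Real.log (n : ℝ) / (n : ℝ) := by
  have h3 : (3 : ℝ) ≤ n := by exact_mod_cast hn
  have he : Real.exp 1 ≤ (n : ℝ) := by
    have h1 := Real.exp_one_lt_d9
    linarith
  refine Real.log_div_self_antitoneOn (a := (n : ℝ)) (b := ((n + 1 : ℕ) : ℝ)) he ?_ ?_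
  · show Real.exp 1 ≤ ((n + 1 : ℕ) : ℝ)
    push_cast; linarith
  · push_cast; linarith

lemma wt_eq {Y : ℝ} {n : ℕ} (hn : 0 < n) :
    wt Y n = (Real.log n / n) * (n : ℝ) ^ (-(1 / Y)) := by
  unfold wt
  have hn' : (0 : ℝ) < n := by exact_mod_cast hn
  rw [show (-1 - 1 / Y : ℝ) = -1 + -(1 / Y) by ring, Real.rpow_add hn', Real.rpow_neg_one]
  ring

lemma wt_anti {Y : ℝ} (hY : 1 ≤ Y) {n : ℕ} (hn : 3 ≤ n) : wt Y (n + 1) ≤ wt Y n := by
  rw [wt_eq (by omega), wt_eq (by omega)]
  have hn' : (0 : ℝ) < n := by exact_mod_cast (show 0 < n by omega)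
  refine mul_le_mul (log_div_anti hn) ?_ (by positivity) ?_
  · refine Real.rpow_le_rpow_of_nonpos hn' (by push_cast; linarith) ?_
    have : 0 < 1 / Y := by positivity
    linarith
  · exact div_nonneg (Real.log_natCast_nonneg n) hn'.le

lemma wt_le {Y : ℝ} (hY : 1 ≤ Y) {n : ℕ} (hn : 3 ≤ n) : wt Y n ≤ Real.log n / n := by
  rw [wt_eq (by omega)]
  have hn' : (1 : ℝ) ≤ n := by exact_mod_cast (show 1 ≤ n by omega)
  have h1 : (n : ℝ) ^ (-(1 / Y)) ≤ 1 := by
    refine Real.rpow_le_one_of_one_le_of_nonpos hn' ?_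
    have : 0 < 1 / Y := by positivity
    linarith
  have h2 : 0 ≤ Real.log n / n := div_nonneg (Real.log_natCast_nonneg n) (by linarith)
  calc _ ≤ (Real.log n / n) * 1 := mul_le_mul_of_nonneg_left h1 h2
    _ = _ := mul_one _

lemma mul_wt_le {Y : ℝ} (hY : 1 ≤ Y) {n : ℕ} (hn : 3 ≤ n) : (n : ℝ) * wt Y n ≤ Y := by
  rw [wt_eq (by omega)]
  have hn' : (0 : ℝ) < n := by exact_mod_cast (show 0 < n by omega)
  have hY0 : 0 < Y := by linarith
  have h1 : Real.log (n : ℝ) ≤ (n : ℝ) ^ (1 / Y) / (1 / Y) :=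
    Real.log_le_rpow_div hn'.le (by positivity)
  have h2 : (0 : ℝ) < (n : ℝ) ^ (1 / Y) := by positivity
  rw [Real.rpow_neg hn'.le]
  have h3 : (n : ℝ) * (Real.log n / n * ((n : ℝ) ^ (1 / Y))⁻¹) =
      Real.log n / (n : ℝ) ^ (1 / Y) := by
    field_simp
  rw [h3, div_le_iff₀ h2]
  calc _ ≤ (n : ℝ) ^ (1 / Y) / (1 / Y) := h1
    _ = _ := by field_simp

/-- from finite sums over `F` to the indicator sum -/
lemma tsum_ind_le (F : Set ℕ) (w : ℕ → ℝ) (B : ℝ) (hw : ∀ n, 0 ≤ w n)
    (h : ∀ G : Finset ℕ, (∀ n ∈ G, n ∈ F) → ∑ n ∈ G, w n ≤ B) :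
    (∑' n, F.indicator w n) ≤ B := by
  classical
  have hB : 0 ≤ B := by simpa using h ∅ (by simp)
  refine Real.tsum_le_of_sum_le (fun n => Set.indicator_nonneg (fun i _ => hw i) n) ?_
  intro G
  have : ∑ n ∈ G, F.indicator w n = ∑ n ∈ G.filter (fun n => n ∈ F), w n := by
    rw [Finset.sum_filter]
    refine Finset.sum_congr rfl fun n _ => ?_
    by_cases hn : n ∈ F <;> simp [hn]
  rw [this]
  exact h _ (by intro n hn; exact (Finset.mem_filter.1 hn).2)

lemma sum_ge_third {n : ℕ} (hn : 3 ≤ n) (f : ℕ → ℝ) (hf : ∀ m ∈ Icc 3 n, f n ≤ f m)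
    (hfn : 0 ≤ f n) : (n : ℝ) * f n ≤ 3 * ∑ m ∈ Icc 3 n, f m := by
  have h1 : (Icc 3 n).card • f n ≤ ∑ m ∈ Icc 3 n, f m := Finset.card_nsmul_le_sum _ _ _ hf
  rw [Nat.card_Icc, nsmul_eq_mul] at h1
  have h2 : (n : ℝ) ≤ 3 * ((n + 1 - 3 : ℕ) : ℝ) := by
    have : n ≤ 3 * (n + 1 - 3) := by omega
    exact_mod_cast this
  calc (n : ℝ) * f n ≤ (3 * ((n + 1 - 3 : ℕ) : ℝ)) * f n := mul_le_mul_of_nonneg_right h2 hfn
    _ = 3 * (((n + 1 - 3 : ℕ) : ℝ) * f n) := by ring
    _ ≤ _ := by linarith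

end W_

open W_ in
theorem p_W (h1 : T_ZS) (h2 : T_PS) : T_W := by
  classical
  obtain ⟨C, hC, hZ⟩ := h1
  refine ⟨21 * C + 1, by positivity, ?_⟩
  intro F Y hY hF
  obtain ⟨hs1, hb1, hs2, hb2, hs3, hb3⟩ := hZ Y hY
  have hY0 : 0 < Y := by linarith
  have hw0 : ∀ n, 0 ≤ wt Y n := wt_nonneg Y
  have hmono : ∀ n, 3 ≤ n → 0 ≤ wt Y (n + 1) ∧ wt Y (n + 1) ≤ wt Y n :=
    fun n hn => ⟨hw0 _, wt_anti hY hn⟩
  refine ⟨?_, ?_, ?_⟩
  · refine Summable.of_nonneg_of_le (fun n => Set.indicator_nonneg (fun i _ => hw0 i) n) ?_ hs1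
    intro n
    by_cases hn : n ∈ F
    · rw [Set.indicator_of_mem hn, if_pos (hF n hn)]
    · rw [Set.indicator_of_notMem hn]
      split_ifs
      · exact hw0 n
      · exact le_rfl
  · intro L α hL hα hFL hcount
    refine tsum_ind_le F (wt Y) _ hw0 ?_
    intro G hG
    set β : ℕ → ℝ := fun m => if m = L then 1 + α * L else if L < m then α else 0 with hβ
    have hβ0 : ∀ n, 0 ≤ β n := by
      intro n
      simp only [hβ]
      split_ifs <;> positivity
    set g : ℕ → ℝ := fun n => (if n = L then (1 + α * L) * wt Y L else 0) +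
      α * (if 3 ≤ n then Real.log n * (n : ℝ) ^ (-1 - 1 / Y) else 0) with hg
    have hsg1 : HasSum (fun n : ℕ => if n = L then (1 + α * L) * wt Y L else 0)
        ((1 + α * L) * wt Y L) := hasSum_ite_eq L _
    have hsg : HasSum g ((1 + α * L) * wt Y L +
        α * ∑' n : ℕ, if 3 ≤ n then Real.log n * (n : ℝ) ^ (-1 - 1 / Y) else 0) :=
      hsg1.add (hs1.hasSum.mul_left α)
    have hle : ∀ n, (if 3 ≤ n then β n * wt Y n else 0) ≤ g n := by
      intro n
      simp only [hβ, hg]
      by_cases h3 : 3 ≤ n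
      · simp only [if_pos h3]
        by_cases hnL : n = L
        · subst hnL
          simp only [if_true]
          have := mul_nonneg hα (hw0 n)
          unfold wt at this ⊢
          linarith
        · simp only [if_neg hnL]
          by_cases hlt : L < n
          · simp only [if_pos hlt]
            unfold wt
            linarith
          · simp only [if_neg hlt]
            have := mul_nonneg hα (hw0 n)
            unfold wt at this
            linarith
      · have hnL : n ≠ L := by omega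
        simp only [if_neg h3, if_neg hnL]
        simp
    have hnn : ∀ n, 0 ≤ (if 3 ≤ n then β n * wt Y n else 0) := by
      intro n
      split_ifs
      · exact mul_nonneg (hβ0 n) (hw0 n)
      · exact le_rfl
    have hsum : Summable (fun n => if 3 ≤ n then β n * wt Y n else 0) :=
      Summable.of_nonneg_of_le hnn hle hsg.summable
    have hcnt : ∀ n, 3 ≤ n → (((F ∩ Set.Iic n).ncard : ℕ) : ℝ) ≤ ∑ m ∈ Icc 3 n, β m := by
      intro n hn
      by_cases hLn : L ≤ n
      · have hsplit : ∑ m ∈ Icc 3 n, β m = 1 + α * n := by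
          have e1 : ∑ m ∈ Icc 3 n, β m = ∑ m ∈ Icc L n, β m := by
            symm
            refine Finset.sum_subset (Finset.Icc_subset_Icc_left hL) ?_
            intro m hm hm'
            have : m < L := by
              by_contra hcon
              exact hm' (Finset.mem_Icc.2 ⟨by omega, (Finset.mem_Icc.1 hm).2⟩)
            simp only [hβ]
            rw [if_neg (by omega), if_neg (by omega)]
          rw [e1, ← Finset.add_sum_Ioc_eq_sum_Icc hLn]
          have e2 : ∑ m ∈ Ioc L n, β m = ∑ m ∈ Ioc L n, α := by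
            refine Finset.sum_congr rfl fun m hm => ?_
            have := Finset.mem_Ioc.1 hm
            simp only [hβ]
            rw [if_neg (by omega), if_pos (by omega)]
          rw [e2, Finset.sum_const, Nat.card_Ioc, nsmul_eq_mul, Nat.cast_sub hLn]
          simp only [hβ, if_true]
          ring
        rw [hsplit]
        exact hcount n hn
      · have : F ∩ Set.Iic n = ∅ := by
          ext m
          simp only [Set.mem_inter_iff, Set.mem_Iic, Set.mem_empty_iff_false, iff_false, not_and]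
          intro hm
          have := hFL m hm
          omega
        rw [this, Set.ncard_empty]
        simpa using Finset.sum_nonneg fun m (_ : m ∈ Icc 3 n) => hβ0 m
    have key := h2 F (wt Y) β hF hmono hβ0 hsum hcnt G hG
    have hts := hsum.tsum_le_tsum hle hsg.summable
    rw [hsg.tsum_eq] at hts
    have hwL := wt_le hY hL
    have hLw := mul_wt_le hY hL
    have hLw' : (L : ℝ) * wt Y L ≤ Y ^ 2 := by nlinarith
    have a1 : (1 + α * L) * wt Y L ≤ Real.log L / L + α * Y ^ 2 := by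
      have : (1 + α * L) * wt Y L = wt Y L + α * (L * wt Y L) := by ring
      rw [this]
      have := mul_le_mul_of_nonneg_left hLw' hα
      linarith
    have a2 := mul_le_mul_of_nonneg_left hb1 hα
    have a3 : 0 ≤ C * α * Y ^ 2 := by positivity
    calc _ ≤ _ := key
      _ ≤ _ := hts
      _ ≤ (Real.log L / L + α * Y ^ 2) + α * (C * Y ^ 2) := add_le_add a1 a2
      _ ≤ _ := by nlinarith
  · intro A κ hA hκ hcount
    refine tsum_ind_le F (wt Y) _ hw0 ?_
    intro G hG
    set β : ℕ → ℝ := fun m => (if m = 3 then A else 0) +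
      21 * (Real.log m) ^ (-3 / 2 : ℝ) + 3 * κ * (Real.log m)⁻¹ with hβ
    have hl0 : ∀ n : ℕ, 0 ≤ Real.log (n : ℝ) := fun n => Real.log_natCast_nonneg n
    have hβ0 : ∀ n, 0 ≤ β n := by
      intro n
      have := hl0 n
      simp only [hβ]
      split_ifs <;> positivity
    set g : ℕ → ℝ := fun n => (if n = 3 then A * wt Y 3 else 0) +
      21 * (if 3 ≤ n then (Real.log n) ^ (-1 / 2 : ℝ) * (n : ℝ) ^ (-1 - 1 / Y) else 0) +
      3 * κ * (if 3 ≤ n then (n : ℝ) ^ (-1 - 1 / Y) else 0) with hg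
    have hsg1 : HasSum (fun n : ℕ => if n = 3 then A * wt Y 3 else 0)
        (A * wt Y 3) := hasSum_ite_eq 3 _
    have hsg : HasSum g (A * wt Y 3 +
        21 * (∑' n : ℕ, if 3 ≤ n then (Real.log n) ^ (-1 / 2 : ℝ) * (n : ℝ) ^ (-1 - 1 / Y) else 0) +
        3 * κ * (∑' n : ℕ, if 3 ≤ n then (n : ℝ) ^ (-1 - 1 / Y) else 0)) :=
      (hsg1.add (hs2.hasSum.mul_left 21)).add (hs3.hasSum.mul_left (3 * κ))
    have heq : ∀ n, (if 3 ≤ n then β n * wt Y n else 0) = g n := by
      intro n
      simp only [hβ, hg]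
      by_cases h3 : 3 ≤ n
      · simp only [if_pos h3]
        have hl : 0 < Real.log (n : ℝ) := by
          have := log_ge_one h3
          linarith
        have e1 : (Real.log (n : ℝ)) ^ (-3 / 2 : ℝ) * Real.log n =
            (Real.log (n : ℝ)) ^ (-1 / 2 : ℝ) := by
          rw [← Real.rpow_add_one hl.ne']
          norm_num
        have e2 : (Real.log (n : ℝ))⁻¹ * Real.log n = 1 := inv_mul_cancel₀ hl.ne'
        have e3 : (if n = 3 then A else 0) * wt Y n = if n = 3 then A * wt Y 3 else 0 := by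
          by_cases hn : n = 3
          · subst hn; simp
          · simp [hn]
        rw [add_mul, add_mul, e3]
        congr 1
        · congr 1
          unfold wt
          rw [← e1]
          ring
        · unfold wt
          calc _ = 3 * κ * (((Real.log (n : ℝ))⁻¹ * Real.log n) * (n : ℝ) ^ (-1 - 1 / Y)) := by
                ring
            _ = _ := by rw [e2, one_mul]
      · have hnL : n ≠ 3 := by omega
        simp only [if_neg h3, if_neg hnL]
        simp
    have hfun : (fun n => if 3 ≤ n then β n * wt Y n else 0) = g := funext heq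
    have hsum : Summable (fun n => if 3 ≤ n then β n * wt Y n else 0) := by
      rw [hfun]; exact hsg.summable
    have hcnt : ∀ n, 3 ≤ n → (((F ∩ Set.Iic n).ncard : ℕ) : ℝ) ≤ ∑ m ∈ Icc 3 n, β m := by
      intro n hn
      refine (hcount n hn).trans ?_
      have hln : 0 < Real.log (n : ℝ) := by
        have := log_ge_one hn
        linarith
      have b1 : ∑ m ∈ Icc 3 n, (if m = 3 then A else 0) = A := by
        rw [Finset.sum_ite_eq' (Icc 3 n) 3 (fun _ => A), if_pos (Finset.mem_Icc.2 ⟨le_rfl, hn⟩)]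
      have b2 : (n : ℝ) * (Real.log n) ^ (-3 / 2 : ℝ) ≤
          3 * ∑ m ∈ Icc 3 n, (Real.log (m : ℝ)) ^ (-3 / 2 : ℝ) := by
        refine sum_ge_third hn (fun m : ℕ => (Real.log (m : ℝ)) ^ (-3 / 2 : ℝ)) ?_ (by positivity)
        intro m hm
        have hm' := Finset.mem_Icc.1 hm
        have hlm : 0 < Real.log (m : ℝ) := by
          have := log_ge_one hm'.1
          linarith
        refine Real.rpow_le_rpow_of_nonpos hlm ?_ (by norm_num)
        refine Real.log_le_log ?_ (by exact_mod_cast hm'.2)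
        exact_mod_cast (show 0 < m by omega)
      have b3 : (n : ℝ) * (Real.log n)⁻¹ ≤ 3 * ∑ m ∈ Icc 3 n, (Real.log (m : ℝ))⁻¹ := by
        refine sum_ge_third hn (fun m : ℕ => (Real.log (m : ℝ))⁻¹) ?_ (by positivity)
        intro m hm
        have hm' := Finset.mem_Icc.1 hm
        have hlm : 0 < Real.log (m : ℝ) := by
          have := log_ge_one hm'.1
          linarith
        refine inv_anti₀ hlm ?_
        refine Real.log_le_log ?_ (by exact_mod_cast hm'.2)
        exact_mod_cast (show 0 < m by omega)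
      have hS : ∑ m ∈ Icc 3 n, β m = A + 21 * ∑ m ∈ Icc 3 n, (Real.log (m : ℝ)) ^ (-3 / 2 : ℝ) +
          3 * κ * ∑ m ∈ Icc 3 n, (Real.log (m : ℝ))⁻¹ := by
        simp only [hβ]
        rw [Finset.sum_add_distrib, Finset.sum_add_distrib, b1, Finset.mul_sum, Finset.mul_sum]
      rw [hS]
      have c1 : 7 * (n : ℝ) / (Real.log n) ^ (3 / 2 : ℝ) =
          7 * ((n : ℝ) * (Real.log n) ^ (-3 / 2 : ℝ)) := by
        rw [show (-3 / 2 : ℝ) = -(3 / 2) by norm_num, Real.rpow_neg hln.le]
        ring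
      have c2 : κ * (n : ℝ) / Real.log n = κ * ((n : ℝ) * (Real.log n)⁻¹) := by ring
      rw [c1, c2]
      have c3 := mul_le_mul_of_nonneg_left b3 hκ
      nlinarith
    have key := h2 F (wt Y) β hF hmono hβ0 hsum hcnt G hG
    rw [hfun, hsg.tsum_eq] at key
    have hw3 : wt Y 3 ≤ 1 := by
      have h := wt_le hY (le_refl 3)
      have h' : Real.log ((3 : ℕ) : ℝ) / ((3 : ℕ) : ℝ) ≤ 1 := by
        rw [div_le_one (by norm_num)]
        have := Real.log_le_sub_one_of_pos (show (0 : ℝ) < ((3 : ℕ) : ℝ) by norm_num)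
        linarith
      linarith
    have d1 := mul_le_mul_of_nonneg_left hw3 hA
    have d3 : 3 * κ * (∑' n : ℕ, if 3 ≤ n then (n : ℝ) ^ (-1 - 1 / Y) else 0) ≤ 3 * κ * Y :=
      mul_le_mul_of_nonneg_left hb3 (by positivity)
    have hsq : 0 ≤ Real.sqrt Y := Real.sqrt_nonneg Y
    have d4 : 0 ≤ C * A := by positivity
    nlinarith
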