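import Pool.Agent.SSN.Targets

set_option linter.all false

open Finset

namespace SSN

namespace ZS_

lemma tele (f G : ℕ → ℝ) (B : ℝ) (h0 : ∀ n, 3 ≤ n → 0 ≤ f n)
    (h : ∀ n, 3 ≤ n → f n ≤ G n - G (n + 1)) (hB : ∀ n, 3 ≤ n → G 3 - G n ≤ B) :
    Summable (fun n : ℕ => if 3 ≤ n then f n else 0) ∧
      (∑' n : ℕ, if 3 ≤ n then f n else 0) ≤ B := by
  have hnn : ∀ n : ℕ, 0 ≤ (if 3 ≤ n then f n else 0) := by
    intro n
    split_ifs with hn
    · exact h0 n hn
    · exact le_refl 0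
  have h3 : ∀ N : ℕ, 3 ≤ N → ∑ i ∈ Finset.range N, (if 3 ≤ i then f i else 0) ≤ G 3 - G N := by
    intro N hN
    induction N, hN using Nat.le_induction with
    | base =>
      have : ∑ i ∈ Finset.range 3, (if 3 ≤ i then f i else 0) = 0 := by
        apply Finset.sum_eq_zero
        intro i hi
        have : i < 3 := Finset.mem_range.mp hi
        rw [if_neg (by omega)]
      rw [this]; simp
    | succ N hN ih =>
      rw [Finset.sum_range_succ, if_pos hN]
      have := h N hN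
      linarith
  have hall : ∀ N : ℕ, ∑ i ∈ Finset.range N, (if 3 ≤ i then f i else 0) ≤ B := by
    intro N
    rcases le_or_gt 3 N with hN | hN
    · exact (h3 N hN).trans (hB N hN)
    · have : ∑ i ∈ Finset.range N, (if 3 ≤ i then f i else 0) = 0 := by
        apply Finset.sum_eq_zero
        intro i hi
        have : i < N := Finset.mem_range.mp hi
        rw [if_neg (by omega)]
      rw [this]
      have := hB 3 (le_refl 3)
      linarith
  exact ⟨summable_of_sum_range_le hnn hall, Real.tsum_le_of_sum_range_le hnn hall⟩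

lemma log_step (n : ℕ) (hn : 3 ≤ n) :
    (1 : ℝ) / n ≤ Real.log n - Real.log ((n : ℝ) - 1) := by
  have hn' : (3 : ℝ) ≤ n := by exact_mod_cast hn
  have hpos : (0 : ℝ) < (n : ℝ) - 1 := by linarith
  have h1 : Real.log (((n : ℝ) - 1) / n) ≤ ((n : ℝ) - 1) / n - 1 :=
    Real.log_le_sub_one_of_pos (by positivity)
  rw [Real.log_div hpos.ne' (by positivity)] at h1
  have h2 : ((n : ℝ) - 1) / n - 1 = -(1 / n) := by
    field_simp; ring
  rw [h2] at h1
  linarith

lemma pow_step (δ : ℝ) (hδ : 0 ≤ δ) (n : ℕ) (hn : 3 ≤ n) :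
    δ * (n : ℝ) ^ (-1 - δ) ≤ ((n : ℝ) - 1) ^ (-δ) - (n : ℝ) ^ (-δ) := by
  have hn' : (3 : ℝ) ≤ n := by exact_mod_cast hn
  have hn0 : (0 : ℝ) < n := by linarith
  have hpos : (0 : ℝ) < (n : ℝ) - 1 := by linarith
  have e1 : ((n : ℝ) - 1) ^ (-δ) = (n : ℝ) ^ (-δ) *
      Real.exp (δ * (Real.log n - Real.log ((n : ℝ) - 1))) := by
    rw [Real.rpow_def_of_pos hpos, Real.rpow_def_of_pos hn0, ← Real.exp_add]
    congr 1; ring
  have e2 : (n : ℝ) ^ (-1 - δ) = (n : ℝ) ^ (-δ) * (1 / n) := by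
    rw [show (-1 - δ : ℝ) = -δ + -1 by ring, Real.rpow_add hn0, Real.rpow_neg_one]
    simp
  have h1 := log_step n hn
  have h2 : 1 + δ * (1 / n) ≤ Real.exp (δ * (Real.log n - Real.log ((n : ℝ) - 1))) := by
    have := Real.add_one_le_exp (δ * (Real.log n - Real.log ((n : ℝ) - 1)))
    have h3 := mul_le_mul_of_nonneg_left h1 hδ
    linarith
  have h4 : 0 < (n : ℝ) ^ (-δ) := Real.rpow_pos_of_pos hn0 _
  rw [e1, e2]
  nlinarith [mul_le_mul_of_nonneg_left h2 h4.le]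

lemma part3 (Y : ℝ) (hY : 1 ≤ Y) :
    Summable (fun n : ℕ => if 3 ≤ n then (n : ℝ) ^ (-1 - 1 / Y) else 0) ∧
    (∑' n : ℕ, if 3 ≤ n then (n : ℝ) ^ (-1 - 1 / Y) else 0) ≤ Y := by
  have hY0 : 0 < Y := by linarith
  apply tele (fun n : ℕ => (n : ℝ) ^ (-1 - 1 / Y)) (fun n : ℕ => Y * ((n : ℝ) - 1) ^ (-(1 / Y)))
  · intro n hn
    positivity
  · intro n hn
    have h := pow_step (1 / Y) (by positivity) n hn
    have h2 := mul_le_mul_of_nonneg_left h hY0.le
    have e : Y * (1 / Y * (n : ℝ) ^ (-1 - 1 / Y)) = (n : ℝ) ^ (-1 - 1 / Y) := by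
      field_simp
    rw [e] at h2
    simp only [Nat.cast_add, Nat.cast_one, add_sub_cancel_right]
    linarith
  · intro n hn
    have hn' : (3 : ℝ) ≤ n := by exact_mod_cast hn
    have h1 : 0 ≤ Y * ((n : ℝ) - 1) ^ (-(1 / Y)) := by
      apply mul_nonneg hY0.le
      apply Real.rpow_nonneg; linarith
    have h2 : Y * (((3 : ℕ) : ℝ) - 1) ^ (-(1 / Y)) ≤ Y * 1 := by
      apply mul_le_mul_of_nonneg_left _ hY0.le
      apply Real.rpow_le_one_of_one_le_of_nonpos
      · norm_num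
      · have : 0 < 1 / Y := by positivity
        linarith
    linarith

end ZS_

open ZS_ in
theorem p_ZS : T_ZS := by
  refine ⟨4, by norm_num, ?_⟩
  intro Y hY
  have hY0 : 0 < Y := by linarith
  have hδ : 0 < 1 / Y := by positivity
  have P3 := part3 Y hY
  have P3' := part3 (2 * Y) (by linarith)
  -- part 1
  have hterm : ∀ n : ℕ, 3 ≤ n → Real.log n * (n : ℝ) ^ (-1 - 1 / Y) ≤
      2 * Y * (n : ℝ) ^ (-1 - 1 / (2 * Y)) := by
    intro n hn
    have hn' : (3 : ℝ) ≤ n := by exact_mod_cast hn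
    have hn0 : (0 : ℝ) < n := by linarith
    have h1 : Real.log n ≤ (n : ℝ) ^ (1 / (2 * Y)) / (1 / (2 * Y)) :=
      Real.log_le_rpow_div hn0.le (by positivity)
    have h2 : (n : ℝ) ^ (1 / (2 * Y)) / (1 / (2 * Y)) = 2 * Y * (n : ℝ) ^ (1 / (2 * Y)) := by
      field_simp
    have h3 : (n : ℝ) ^ (1 / (2 * Y)) * (n : ℝ) ^ (-1 - 1 / Y) = (n : ℝ) ^ (-1 - 1 / (2 * Y)) := by
      rw [← Real.rpow_add hn0]
      congr 1
      field_simp; ring
    calc Real.log n * (n : ℝ) ^ (-1 - 1 / Y)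
        ≤ (2 * Y * (n : ℝ) ^ (1 / (2 * Y))) * (n : ℝ) ^ (-1 - 1 / Y) := by
          apply mul_le_mul_of_nonneg_right _ (by positivity)
          rw [← h2]; exact h1
      _ = 2 * Y * (n : ℝ) ^ (-1 - 1 / (2 * Y)) := by rw [mul_assoc, h3]
  have S1' : Summable (fun n : ℕ => 2 * Y * (if 3 ≤ n then (n : ℝ) ^ (-1 - 1 / (2 * Y)) else 0)) :=
    P3'.1.mul_left _
  have hle1 : ∀ n : ℕ, (if 3 ≤ n then Real.log n * (n : ℝ) ^ (-1 - 1 / Y) else 0) ≤
      2 * Y * (if 3 ≤ n then (n : ℝ) ^ (-1 - 1 / (2 * Y)) else 0) := by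
    intro n
    split_ifs with hn
    · exact hterm n hn
    · simp
  have hnn1 : ∀ n : ℕ, 0 ≤ (if 3 ≤ n then Real.log n * (n : ℝ) ^ (-1 - 1 / Y) else 0) := by
    intro n
    split_ifs with hn
    · have : (1 : ℝ) ≤ n := by exact_mod_cast (by omega : 1 ≤ n)
      exact mul_nonneg (Real.log_nonneg this) (by positivity)
    · exact le_refl 0
  have S1 : Summable (fun n : ℕ => if 3 ≤ n then Real.log n * (n : ℝ) ^ (-1 - 1 / Y) else 0) :=
    Summable.of_nonneg_of_le hnn1 hle1 S1'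
  have B1 : (∑' n : ℕ, if 3 ≤ n then Real.log n * (n : ℝ) ^ (-1 - 1 / Y) else 0) ≤ 4 * Y ^ 2 := by
    calc (∑' n : ℕ, if 3 ≤ n then Real.log n * (n : ℝ) ^ (-1 - 1 / Y) else 0)
        ≤ ∑' n : ℕ, 2 * Y * (if 3 ≤ n then (n : ℝ) ^ (-1 - 1 / (2 * Y)) else 0) :=
          S1.tsum_le_tsum hle1 S1'
      _ = 2 * Y * ∑' n : ℕ, (if 3 ≤ n then (n : ℝ) ^ (-1 - 1 / (2 * Y)) else 0) := tsum_mul_left
      _ ≤ 2 * Y * (2 * Y) := mul_le_mul_of_nonneg_left P3'.2 (by positivity)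
      _ = 4 * Y ^ 2 := by ring
  -- part 2
  have P2 : Summable (fun n : ℕ => if 3 ≤ n then (Real.log n) ^ (-1 / 2 : ℝ) * (n : ℝ) ^ (-1 - 1 / Y) else 0) ∧
      (∑' n : ℕ, if 3 ≤ n then (Real.log n) ^ (-1 / 2 : ℝ) * (n : ℝ) ^ (-1 - 1 / Y) else 0) ≤
        3 * Real.sqrt Y := by
    apply tele (fun n : ℕ => (Real.log n) ^ (-1 / 2 : ℝ) * (n : ℝ) ^ (-1 - 1 / Y))
      (fun n : ℕ => -2 * min (Real.sqrt (Real.log ((n : ℝ) - 1))) (Real.sqrt Y) +
        Real.sqrt Y * ((n : ℝ) - 1) ^ (-(1 / Y)))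
    · intro n hn
      have : (1 : ℝ) ≤ n := by exact_mod_cast (by omega : 1 ≤ n)
      have h1 : 0 ≤ Real.log n := Real.log_nonneg this
      positivity
    · intro n hn
      have hn' : (3 : ℝ) ≤ n := by exact_mod_cast hn
      have hn0 : (0 : ℝ) < n := by linarith
      have hpos : (0 : ℝ) < (n : ℝ) - 1 := by linarith
      simp only [Nat.cast_add, Nat.cast_one, add_sub_cancel_right]
      have hl0 : 0 < Real.log n := Real.log_pos (by linarith)
      have hl1 : 0 ≤ Real.log ((n : ℝ) - 1) := Real.log_nonneg (by linarith)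
      have hls := log_step n hn
      have hlle : Real.log ((n : ℝ) - 1) ≤ Real.log n := by
        have : 0 < (1 : ℝ) / n := by positivity
        linarith
      have hps := pow_step (1 / Y) hδ.le n hn
      have hmono : min (Real.sqrt (Real.log ((n : ℝ) - 1))) (Real.sqrt Y) ≤
          min (Real.sqrt (Real.log n)) (Real.sqrt Y) :=
        min_le_min_right _ (Real.sqrt_le_sqrt hlle)
      have hdn : 0 ≤ ((n : ℝ) - 1) ^ (-(1 / Y)) - (n : ℝ) ^ (-(1 / Y)) := by
        refine le_trans ?_ hps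
        positivity
      have hsY : 0 < Real.sqrt Y := Real.sqrt_pos.mpr hY0
      have hsY2 : Real.sqrt Y * Real.sqrt Y = Y := Real.mul_self_sqrt hY0.le
      have hrp : (Real.log n) ^ (-1 / 2 : ℝ) = 1 / Real.sqrt (Real.log n) := by
        rw [show (-1 / 2 : ℝ) = -(1 / 2) by ring, Real.rpow_neg hl0.le, ← Real.sqrt_eq_rpow, one_div]
      have hsl : 0 < Real.sqrt (Real.log n) := Real.sqrt_pos.mpr hl0
      rcases le_or_gt (Real.log n) Y with hc | hc
      · -- small n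
        have m1 : min (Real.sqrt (Real.log n)) (Real.sqrt Y) = Real.sqrt (Real.log n) :=
          min_eq_left (Real.sqrt_le_sqrt hc)
        have m2 : min (Real.sqrt (Real.log ((n : ℝ) - 1))) (Real.sqrt Y) =
            Real.sqrt (Real.log ((n : ℝ) - 1)) :=
          min_eq_left (Real.sqrt_le_sqrt (hlle.trans hc))
        rw [m1, m2]
        have hsa : Real.sqrt (Real.log n) * Real.sqrt (Real.log n) = Real.log n :=
          Real.mul_self_sqrt hl0.le
        have hsb : Real.sqrt (Real.log ((n : ℝ) - 1)) * Real.sqrt (Real.log ((n : ℝ) - 1)) =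
            Real.log ((n : ℝ) - 1) := Real.mul_self_sqrt hl1
        have hsbn : 0 ≤ Real.sqrt (Real.log ((n : ℝ) - 1)) := Real.sqrt_nonneg _
        have hsle : Real.sqrt (Real.log ((n : ℝ) - 1)) ≤ Real.sqrt (Real.log n) :=
          Real.sqrt_le_sqrt hlle
        have key : 1 / Real.sqrt (Real.log n) * (1 / n) ≤
            2 * (Real.sqrt (Real.log n) - Real.sqrt (Real.log ((n : ℝ) - 1))) := by
          rw [div_mul_eq_mul_div, one_mul, div_le_iff₀ hsl]
          nlinarith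
        have hpw : (n : ℝ) ^ (-1 - 1 / Y) ≤ 1 / n := by
          have : (n : ℝ) ^ (-1 - 1 / Y) ≤ (n : ℝ) ^ (-1 : ℝ) := by
            apply Real.rpow_le_rpow_of_exponent_le (by linarith)
            linarith
          rw [Real.rpow_neg_one] at this
          simpa using this
        have hA : (Real.log n) ^ (-1 / 2 : ℝ) * (n : ℝ) ^ (-1 - 1 / Y) ≤
            1 / Real.sqrt (Real.log n) * (1 / n) := by
          rw [hrp]
          exact mul_le_mul_of_nonneg_left hpw (by positivity)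
        have hB := mul_nonneg hsY.le hdn
        have hC : Real.sqrt Y * (((n : ℝ) - 1) ^ (-(1 / Y)) - (n : ℝ) ^ (-(1 / Y))) =
          Real.sqrt Y * ((n : ℝ) - 1) ^ (-(1 / Y)) - Real.sqrt Y * (n : ℝ) ^ (-(1 / Y)) := by ring
        rw [hC] at hB
        linarith
      · have hA : (Real.log n) ^ (-1 / 2 : ℝ) * (n : ℝ) ^ (-1 - 1 / Y) ≤
            Real.sqrt Y * (((n : ℝ) - 1) ^ (-(1 / Y)) - (n : ℝ) ^ (-(1 / Y))) := by
          have h1 : (Real.log n) ^ (-1 / 2 : ℝ) ≤ 1 / Real.sqrt Y := by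
            rw [hrp]
            exact one_div_le_one_div_of_le hsY (Real.sqrt_le_sqrt hc.le)
          have h2 : 0 ≤ (n : ℝ) ^ (-1 - 1 / Y) := by positivity
          have h3 : (1 / Real.sqrt Y) * (n : ℝ) ^ (-1 - 1 / Y) =
              Real.sqrt Y * (1 / Y * (n : ℝ) ^ (-1 - 1 / Y)) := by
            have : (1 / Real.sqrt Y) = Real.sqrt Y * (1 / Y) := by
              rw [mul_one_div, div_eq_div_iff hsY.ne' hY0.ne']; linarith
            rw [this]; ring
          calc (Real.log n) ^ (-1 / 2 : ℝ) * (n : ℝ) ^ (-1 - 1 / Y)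
              ≤ (1 / Real.sqrt Y) * (n : ℝ) ^ (-1 - 1 / Y) := mul_le_mul_of_nonneg_right h1 h2
            _ = Real.sqrt Y * (1 / Y * (n : ℝ) ^ (-1 - 1 / Y)) := h3
            _ ≤ _ := mul_le_mul_of_nonneg_left hps hsY.le
        have hC : Real.sqrt Y * (((n : ℝ) - 1) ^ (-(1 / Y)) - (n : ℝ) ^ (-(1 / Y))) =
          Real.sqrt Y * ((n : ℝ) - 1) ^ (-(1 / Y)) - Real.sqrt Y * (n : ℝ) ^ (-(1 / Y)) := by ring
        rw [hC] at hA
        linarith
    · intro n hn
      have hn' : (3 : ℝ) ≤ n := by exact_mod_cast hn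
      have hsY : 0 < Real.sqrt Y := Real.sqrt_pos.mpr hY0
      have h1 : min (Real.sqrt (Real.log ((n : ℝ) - 1))) (Real.sqrt Y) ≤ Real.sqrt Y :=
        min_le_right _ _
      have h2 : 0 ≤ Real.sqrt Y * ((n : ℝ) - 1) ^ (-(1 / Y)) := by
        apply mul_nonneg hsY.le
        apply Real.rpow_nonneg; linarith
      have h3 : 0 ≤ min (Real.sqrt (Real.log (((3 : ℕ) : ℝ) - 1))) (Real.sqrt Y) :=
        le_min (Real.sqrt_nonneg _) hsY.le
      have h4 : Real.sqrt Y * (((3 : ℕ) : ℝ) - 1) ^ (-(1 / Y)) ≤ Real.sqrt Y * 1 := by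
        apply mul_le_mul_of_nonneg_left _ hsY.le
        apply Real.rpow_le_one_of_one_le_of_nonpos
        · norm_num
        · linarith
      have goal' : ∀ a b c d s : ℝ, 0 ≤ a → b ≤ s * 1 → c ≤ s → 0 ≤ d →
          (-2 * a + b) - (-2 * c + d) ≤ 3 * s := by
        intro a b c d s _ _ _ _
        linarith
      exact goal' _ _ _ _ _ h3 h4 h1 h2
  refine ⟨S1, B1, P2.1, ?_, P3.1, P3.2⟩
  have : 0 ≤ Real.sqrt Y := Real.sqrt_nonneg Y
  linarith [P2.2]

end SSN
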