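import Pool.Agent.SSN.Targets

/-!
# MP_d74fca_nt, number theory part: lattice points with congruence conditions (job SSN-CNT)
-/

set_option autoImplicit false

open scoped BigOperators
open Finset

namespace SSN

namespace CNT_

/-- value of the form in `ZMod n` -/
def qz (a b c : ℤ) (n : ℕ) (P : ZMod n × ZMod n) : ZMod n :=
  (a : ZMod n) * P.1 ^ 2 + b * P.1 * P.2 + c * P.2 ^ 2

/-- number of solutions in `ZMod n` -/
noncomputable def cn (a b c : ℤ) (n : ℕ) (e : ZMod n) : ℕ :=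
  Nat.card {P : ZMod n × ZMod n // qz a b c n P = e}

theorem crt_fst (a b c : ℤ) (m n : ℕ) (h : m.Coprime n) (P : ZMod (m * n) × ZMod (m * n)) :
    (ZMod.chineseRemainder h (qz a b c (m * n) P)).1 =
      qz a b c m ((ZMod.chineseRemainder h P.1).1, (ZMod.chineseRemainder h P.2).1) := by
  unfold qz
  simp only [map_add, map_mul, map_pow, map_intCast, Prod.fst_add, Prod.fst_mul, Prod.pow_fst,
    Prod.fst_intCast]

theorem crt_snd (a b c : ℤ) (m n : ℕ) (h : m.Coprime n) (P : ZMod (m * n) × ZMod (m * n)) :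
    (ZMod.chineseRemainder h (qz a b c (m * n) P)).2 =
      qz a b c n ((ZMod.chineseRemainder h P.1).2, (ZMod.chineseRemainder h P.2).2) := by
  unfold qz
  simp only [map_add, map_mul, map_pow, map_intCast, Prod.snd_add, Prod.snd_mul, Prod.pow_snd,
    Prod.snd_intCast]

theorem card_crt (a b c : ℤ) (m n : ℕ) (h : m.Coprime n) (e : ZMod m) (f : ZMod n) :
    Nat.card {P : ZMod (m * n) × ZMod (m * n) //
      (ZMod.chineseRemainder h (qz a b c (m * n) P)).1 = e ∧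
      (ZMod.chineseRemainder h (qz a b c (m * n) P)).2 = f} = cn a b c m e * cn a b c n f := by
  unfold cn
  rw [← Nat.card_prod]
  refine Nat.card_congr
    { toFun := fun P => (⟨((ZMod.chineseRemainder h P.1.1).1, (ZMod.chineseRemainder h P.1.2).1),
          (crt_fst a b c m n h P.1).symm.trans P.2.1⟩,
        ⟨((ZMod.chineseRemainder h P.1.1).2, (ZMod.chineseRemainder h P.1.2).2),
          (crt_snd a b c m n h P.1).symm.trans P.2.2⟩)
      invFun := fun R => ⟨((ZMod.chineseRemainder h).symm (R.1.1.1, R.2.1.1),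
          (ZMod.chineseRemainder h).symm (R.1.1.2, R.2.1.2)), by
            rw [crt_fst, crt_snd]
            simp only [RingEquiv.apply_symm_apply]
            exact ⟨R.1.2, R.2.2⟩⟩
      left_inv := ?_
      right_inv := ?_ }
  · rintro ⟨⟨x, y⟩, hx⟩
    simp
  · rintro ⟨⟨⟨x, y⟩, hx⟩, ⟨⟨z, w⟩, hz⟩⟩
    simp

theorem cn_mul (a b c e : ℤ) (m n : ℕ) (h : m.Coprime n) :
    cn a b c (m * n) e = cn a b c m e * cn a b c n e := by
  rw [← card_crt a b c m n h]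
  unfold cn
  refine Nat.card_congr (Equiv.subtypeEquivRight ?_)
  intro P
  constructor
  · intro h1
    rw [h1]
    simp
  · rintro ⟨h1, h2⟩
    apply (ZMod.chineseRemainder h).injective
    rw [map_intCast]
    exact Prod.ext (by rw [h1]; simp) (by rw [h2]; simp)

theorem cn_one (a b c e : ℤ) : cn a b c 1 e = 1 := by
  unfold cn
  rw [Nat.card_eq_one_iff_unique]
  exact ⟨⟨fun x y => Subtype.ext (Subsingleton.elim _ _)⟩, ⟨⟨0, Subsingleton.elim _ _⟩⟩⟩

theorem cn_prod (a b c e : ℤ) (P : Finset ℕ) (hP : ∀ p ∈ P, p.Prime) :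
    cn a b c (∏ p ∈ P, p) e = ∏ p ∈ P, cn a b c p e := by
  classical
  induction P using Finset.induction_on with
  | empty =>
    have h1 := cn_one a b c e
    rw [Finset.prod_empty]
    exact h1
  | insert q s hq ih =>
    rw [prod_insert hq, prod_insert hq, cn_mul, ih (fun p hp => hP p (mem_insert_of_mem hp))]
    apply Nat.Coprime.prod_right
    intro p hp
    refine (Nat.coprime_primes (hP q (mem_insert_self q s)) (hP p (mem_insert_of_mem hp))).2 ?_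
    rintro rfl
    exact hq hp

theorem cn_le (a b c : ℤ) (n : ℕ) [NeZero n] (e : ZMod n) : cn a b c n e ≤ n ^ 2 := by
  unfold cn
  calc Nat.card {P : ZMod n × ZMod n // qz a b c n P = e} ≤ Nat.card (ZMod n × ZMod n) :=
        Nat.card_le_card_of_injective _ Subtype.val_injective
    _ = n ^ 2 := by
        rw [Nat.card_prod, Nat.card_zmod, pow_two]

theorem coprime_eight (P : Finset ℕ) (hP : OddPr P) : Nat.Coprime 8 (∏ p ∈ P, p) := by
  apply Nat.Coprime.prod_right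
  intro p hp
  have h1 : Nat.Coprime 2 p := (Nat.coprime_primes Nat.prime_two (hP p hp).1).2 (hP p hp).2.symm
  have h2 := Nat.Coprime.pow_left 3 h1
  norm_num at h2
  exact h2

theorem MM_pos (P : Finset ℕ) (hP : OddPr P) : 0 < MM P := by
  unfold MM
  exact Nat.mul_pos (by norm_num) (Finset.prod_pos fun p hp => (hP p hp).1.pos)

/-- the number of classes mod `MM P` -/
theorem rho_le (h2 : T_ROOT) (a b c : ℤ) (Δ : ℕ) (hR : Red a b c Δ) (P : Finset ℕ)
    (hP : OddPr P) : ((cn a b c (MM P) (-1 : ℤ) : ℕ) : ℝ) ≤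
      64 * ∏ p ∈ P, (if p ∣ Δ then 2 * (p : ℝ) else (p : ℝ) - ch Δ p) := by
  have h3 : cn a b c (MM P) ((-1 : ℤ) : ZMod (MM P)) =
      cn a b c 8 ((-1 : ℤ) : ZMod 8) * ∏ p ∈ P, cn a b c p ((-1 : ℤ) : ZMod p) := by
    unfold MM
    rw [cn_mul a b c (-1) 8 (∏ p ∈ P, p) (coprime_eight P hP),
      cn_prod a b c (-1) P fun p hp => (hP p hp).1]
  rw [h3]
  push_cast
  have h4 : ((cn a b c 8 (-1 : ZMod 8) : ℕ) : ℝ) ≤ 64 := by
    have := cn_le a b c 8 (-1 : ZMod 8)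
    exact_mod_cast this
  refine mul_le_mul h4 ?_ (Finset.prod_nonneg fun p _ => Nat.cast_nonneg _) (by norm_num)
  refine Finset.prod_le_prod (fun p _ => Nat.cast_nonneg _) fun p hp => ?_
  obtain ⟨h5, h6⟩ := h2 a b c Δ hR p (hP p hp).1 (hP p hp).2
  by_cases hd : p ∣ Δ
  · rw [if_pos hd]
    exact h6 hd
  · rw [if_neg hd]
    exact (h5 hd).2.le

theorem zeros (h2 : T_ROOT) (a b c : ℤ) (Δ : ℕ) (hR : Red a b c Δ) (d : ℕ) (hd : Squarefree d)
    (hd2 : d.Coprime (2 * Δ)) : ((cn a b c d (0 : ℤ) : ℕ) : ℝ) = ∏ p ∈ d.primeFactors, zr Δ p := by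
  have h3 : cn a b c (∏ p ∈ d.primeFactors, p) ((0 : ℤ) : ZMod (∏ p ∈ d.primeFactors, p)) =
      ∏ p ∈ d.primeFactors, cn a b c p ((0 : ℤ) : ZMod p) :=
    cn_prod a b c 0 _ fun p hp => Nat.prime_of_mem_primeFactors hp
  rw [Nat.prod_primeFactors_of_squarefree hd] at h3
  rw [h3]
  push_cast
  refine Finset.prod_congr rfl fun p hp => ?_
  have hpp := Nat.prime_of_mem_primeFactors hp
  have hpd := Nat.dvd_of_mem_primeFactors hp
  have h4 : ¬ p ∣ 2 * Δ := fun h => hpp.one_lt.ne' (Nat.dvd_one.1 (hd2 ▸ Nat.dvd_gcd hpd h))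
  obtain ⟨h5, -⟩ := h2 a b c Δ hR p hpp fun h => h4 (h ▸ Dvd.intro _ rfl)
  exact (h5 fun h => h4 (h.mul_left 2)).1

theorem cast_qf (a b c : ℤ) (n : ℕ) (x y : ℤ) :
    ((qf a b c x y : ℤ) : ZMod n) = qz a b c n ((x : ZMod n), (y : ZMod n)) := by
  unfold qf qz
  push_cast
  ring

/-- the main counting step -/
theorem count (a b c : ℤ) (M d : ℕ) (hM : 0 < M) (hd : 0 < d) (hMd : M.Coprime d) (t A E : ℝ)
    (hL : ∀ u v : ℤ, {P : ℤ × ℤ | (qf a b c P.1 P.2 : ℝ) ≤ t ∧ ((M * d : ℕ) : ℤ) ∣ P.1 - u ∧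
        ((M * d : ℕ) : ℤ) ∣ P.2 - v}.Finite ∧
      |(({P : ℤ × ℤ | (qf a b c P.1 P.2 : ℝ) ≤ t ∧ ((M * d : ℕ) : ℤ) ∣ P.1 - u ∧
        ((M * d : ℕ) : ℤ) ∣ P.2 - v}.ncard : ℕ) : ℝ) - A| ≤ E) :
    |(({R : ℤ × ℤ | (qf a b c R.1 R.2 : ℝ) ≤ t ∧ (M : ℤ) ∣ qf a b c R.1 R.2 + 1 ∧
      (d : ℤ) ∣ qf a b c R.1 R.2}.ncard : ℕ) : ℝ) -
      (cn a b c M (-1 : ℤ) : ℝ) * (cn a b c d (0 : ℤ) : ℝ) * A| ≤ ((M : ℝ) * d) ^ 2 * E := by
  classical
  have : NeZero (M * d) := ⟨(Nat.mul_pos hM hd).ne'⟩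
  set good : Finset (ZMod (M * d) × ZMod (M * d)) := univ.filter fun w =>
    (ZMod.chineseRemainder hMd (qz a b c (M * d) w)).1 = ((-1 : ℤ) : ZMod M) ∧
    (ZMod.chineseRemainder hMd (qz a b c (M * d) w)).2 = ((0 : ℤ) : ZMod d) with hgood
  have hcard : good.card = cn a b c M ((-1 : ℤ) : ZMod M) * cn a b c d ((0 : ℤ) : ZMod d) := by
    rw [← card_crt a b c M d hMd, Nat.card_eq_fintype_card, Fintype.card_subtype]
  let F : ZMod (M * d) × ZMod (M * d) → Finset (ℤ × ℤ) := fun w =>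
    (hL (w.1.val : ℤ) (w.2.val : ℤ)).1.toFinset
  have hF : ∀ w R, R ∈ F w ↔ (qf a b c R.1 R.2 : ℝ) ≤ t ∧ (R.1 : ZMod (M * d)) = w.1 ∧
      (R.2 : ZMod (M * d)) = w.2 := by
    intro w R
    have h1 : ∀ (x : ℤ) (z : ZMod (M * d)), ((M * d : ℕ) : ℤ) ∣ x - (z.val : ℤ) ↔
        (x : ZMod (M * d)) = z := by
      intro x z
      rw [← ZMod.intCast_zmod_eq_zero_iff_dvd]
      push_cast
      rw [sub_eq_zero, ZMod.natCast_zmod_val]
    simp only [F, Set.Finite.mem_toFinset, Set.mem_ofPred_eq, h1]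
  have hS : {R : ℤ × ℤ | (qf a b c R.1 R.2 : ℝ) ≤ t ∧ (M : ℤ) ∣ qf a b c R.1 R.2 + 1 ∧
      (d : ℤ) ∣ qf a b c R.1 R.2} = ((good.biUnion F : Finset (ℤ × ℤ)) : Set (ℤ × ℤ)) := by
    ext R
    have h1 : (M : ℤ) ∣ qf a b c R.1 R.2 + 1 ↔ (qf a b c R.1 R.2 : ZMod M) = ((-1 : ℤ) : ZMod M) := by
      rw [← ZMod.intCast_zmod_eq_zero_iff_dvd]
      push_cast
      rw [add_eq_zero_iff_eq_neg]
    have h2 : (d : ℤ) ∣ qf a b c R.1 R.2 ↔ (qf a b c R.1 R.2 : ZMod d) = ((0 : ℤ) : ZMod d) := by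
      rw [← ZMod.intCast_zmod_eq_zero_iff_dvd]
      push_cast
      rfl
    have h3 : (ZMod.chineseRemainder hMd (qz a b c (M * d) ((R.1 : ZMod (M * d)),
        (R.2 : ZMod (M * d))))) = ((qf a b c R.1 R.2 : ZMod M), (qf a b c R.1 R.2 : ZMod d)) := by
      rw [← cast_qf, map_intCast]
      rfl
    simp only [Set.mem_ofPred_eq, Finset.mem_coe, Finset.mem_biUnion, hF, hgood, mem_filter,
      mem_univ, true_and]
    constructor
    · rintro ⟨h4, h5, h6⟩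
      refine ⟨((R.1 : ZMod (M * d)), (R.2 : ZMod (M * d))), ?_, h4, rfl, rfl⟩
      rw [h3]
      exact ⟨h1.1 h5, h2.1 h6⟩
    · rintro ⟨w, ⟨h4, h5⟩, h6, h7, h8⟩
      have h9 : w = ((R.1 : ZMod (M * d)), (R.2 : ZMod (M * d))) := Prod.ext h7.symm h8.symm
      rw [h9, h3] at h4 h5
      exact ⟨h6, h1.2 h4, h2.2 h5⟩
  have hdisj : (good : Set (ZMod (M * d) × ZMod (M * d))).PairwiseDisjoint F := by
    intro w _ w' _ hne
    refine Finset.disjoint_left.2 fun R h1 h2 => hne ?_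
    rw [hF] at h1 h2
    exact Prod.ext (h1.2.1.symm.trans h2.2.1) (h1.2.2.symm.trans h2.2.2)
  have hFc : ∀ w, |((F w).card : ℝ) - A| ≤ E := by
    intro w
    have h1 := (hL (w.1.val : ℤ) (w.2.val : ℤ)).2
    rw [Set.ncard_eq_toFinset_card _ (hL (w.1.val : ℤ) (w.2.val : ℤ)).1] at h1
    exact h1
  have hE : 0 ≤ E := (abs_nonneg _).trans (hFc (0, 0))
  rw [hS, Set.ncard_coe_finset, Finset.card_biUnion hdisj]
  have h5 : ((∑ w ∈ good, (F w).card : ℕ) : ℝ) - (cn a b c M ((-1 : ℤ) : ZMod M) : ℝ) *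
      (cn a b c d ((0 : ℤ) : ZMod d) : ℝ) * A = ∑ w ∈ good, (((F w).card : ℝ) - A) := by
    rw [Finset.sum_sub_distrib, Finset.sum_const, nsmul_eq_mul, hcard]
    push_cast
    ring
  rw [h5]
  calc |∑ w ∈ good, (((F w).card : ℝ) - A)| ≤ ∑ w ∈ good, |((F w).card : ℝ) - A| :=
        Finset.abs_sum_le_sum_abs _ _
    _ ≤ ∑ _w ∈ good, E := Finset.sum_le_sum fun w _ => hFc w
    _ = good.card * E := by rw [Finset.sum_const, nsmul_eq_mul]
    _ ≤ ((M : ℝ) * d) ^ 2 * E := by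
        refine mul_le_mul_of_nonneg_right ?_ hE
        have h6 : good.card ≤ (M * d) ^ 2 := by
          refine (Finset.card_le_univ _).trans ?_
          rw [Fintype.card_prod, ZMod.card, pow_two]
        exact_mod_cast h6

end CNT_

theorem p_CNT (h1 : T_LAT) (h2 : T_ROOT) : T_CNT := by
  obtain ⟨C, hC, hL⟩ := h1
  refine ⟨C, hC, fun a b c Δ hR P hP => ⟨(CNT_.cn a b c (MM P) ((-1 : ℤ) : ZMod (MM P)) : ℝ),
    Nat.cast_nonneg _, CNT_.rho_le h2 a b c Δ hR P hP, fun d hd hcop t ht => ?_⟩⟩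
  have hM := CNT_.MM_pos P hP
  have hd0 : 0 < d := Nat.pos_of_ne_zero hd.ne_zero
  have hc1 : (MM P).Coprime d := by
    have := Nat.Coprime.coprime_dvd_right (Dvd.intro_left _ rfl : MM P ∣ 2 * MM P)
      (Nat.Coprime.coprime_mul_right_right hcop)
    exact this.symm
  have hc2 : d.Coprime (2 * Δ) := by
    have h3 : d.Coprime 2 := Nat.Coprime.coprime_mul_right_right
      (Nat.Coprime.coprime_mul_right_right hcop)
    have h4 : d.Coprime Δ := Nat.Coprime.coprime_mul_left_right hcop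
    exact Nat.Coprime.mul_right h3 h4
  rw [← CNT_.zeros h2 a b c Δ hR d hd hc2]
  have h3 := CNT_.count a b c (MM P) d hM hd0 hc1 t
    (2 * Real.pi * t / (Real.sqrt Δ * ((MM P : ℝ) * d) ^ 2)) (C * Real.sqrt t) (fun u v => by
      have := hL a b c Δ hR (MM P * d) (Nat.mul_pos hM hd0) u v t ht
      refine ⟨this.1, ?_⟩
      have h4 := this.2
      push_cast at h4 ⊢
      exact h4)
  refine h3.trans (le_of_eq ?_)
  ring

end SSN
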