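import Mathlib
import Pool.Agent.SSN.Targets

set_option autoImplicit false

/-!
# SEL: the sieve of Selberg
-/

open scoped BigOperators ArithmeticFunction.Moebius
open Finset

namespace SSN

namespace SEL_

open ArithmeticFunction

variable (s : BoundingSieve) (y : ℝ)

/-- the sum `S` -/
noncomputable def SS : ℝ := ∑ l ∈ s.prodPrimes.divisors, if (l : ℝ) ^ 2 ≤ y then s.selbergTerms l else 0

/-- the sum over the multiples of `d` -/
noncomputable def TT (d : ℕ) : ℝ :=
  ∑ l ∈ s.prodPrimes.divisors, if d ∣ l ∧ (l : ℝ) ^ 2 ≤ y then s.selbergTerms l else 0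

/-- the optimal weights -/
noncomputable def ww (d : ℕ) : ℝ :=
  if d ∣ s.prodPrimes then (μ d : ℝ) / (s.nu d * SS s y) * TT s y d else 0

theorem h_nonneg {l : ℕ} (hl : l ∈ s.prodPrimes.divisors) : 0 ≤ s.selbergTerms l :=
  (BoundingSieve.selbergTerms_pos (Nat.dvd_of_mem_divisors hl)).le

theorem SS_pos (hy : 1 ≤ y) : 0 < SS s y := by
  have h1 : (1 : ℕ) ∈ s.prodPrimes.divisors :=
    Nat.mem_divisors.mpr ⟨one_dvd _, BoundingSieve.prodPrimes_ne_zero⟩
  have h2 : (if ((1 : ℕ) : ℝ) ^ 2 ≤ y then s.selbergTerms 1 else 0) ≤ SS s y := by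
    refine Finset.single_le_sum (f := fun l : ℕ => if (l : ℝ) ^ 2 ≤ y then s.selbergTerms l else 0)
      ?_ h1
    intro l hl
    split_ifs
    · exact h_nonneg s hl
    · exact le_refl _
  rw [if_pos (by simpa using hy)] at h2
  exact lt_of_lt_of_le (BoundingSieve.selbergTerms_pos (one_dvd _)) h2

theorem TT_one : TT s y 1 = SS s y := by
  unfold TT SS
  refine Finset.sum_congr rfl fun l _ => ?_
  by_cases h : (l : ℝ) ^ 2 ≤ y
  · rw [if_pos ⟨one_dvd l, h⟩, if_pos h]
  · rw [if_neg (fun h' => h h'.2), if_neg h]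

theorem ww_one (hy : 1 ≤ y) : ww s y 1 = 1 := by
  unfold ww
  rw [if_pos (one_dvd _), TT_one, s.nu_mult.map_one]
  have := (SS_pos s y hy).ne'
  simp only [moebius_apply_one, Int.cast_one, one_mul]
  field_simp

/-- the sum of the Moebius function over an interval of the divisibility order -/
theorem mu_sum {l k : ℕ} (hk : k ∣ s.prodPrimes) :
    ∑ d ∈ s.prodPrimes.divisors, (if l ∣ d ∧ d ∣ k then (μ d : ℝ) else 0) =
      if l = k then (μ l : ℝ) else 0 := by
  have hP : s.prodPrimes ≠ 0 := BoundingSieve.prodPrimes_ne_zero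
  have hksq : Squarefree k := BoundingSieve.squarefree_of_dvd_prodPrimes hk
  have hk0 : k ≠ 0 := hksq.ne_zero
  by_cases hlk : l ∣ k
  · obtain ⟨e, rfl⟩ := hlk
    have hl0 : l ≠ 0 := left_ne_zero_of_mul hk0
    have he0 : e ≠ 0 := right_ne_zero_of_mul hk0
    have h1 : ∑ d ∈ s.prodPrimes.divisors, (if l ∣ d ∧ d ∣ l * e then (μ d : ℝ) else 0) =
        ∑ f ∈ e.divisors, (μ (l * f) : ℝ) := by
      rw [← Finset.sum_filter]
      symm
      refine Finset.sum_bij (fun f _ => l * f) ?_ ?_ ?_ ?_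
      · intro f hf
        have hf' := Nat.dvd_of_mem_divisors hf
        rw [Finset.mem_filter, Nat.mem_divisors]
        exact ⟨⟨(Nat.mul_dvd_mul_left l hf').trans hk, hP⟩, dvd_mul_right l f,
          Nat.mul_dvd_mul_left l hf'⟩
      · intro f _ f' _ h
        exact Nat.eq_of_mul_eq_mul_left (Nat.pos_of_ne_zero hl0) h
      · intro d hd
        rw [Finset.mem_filter, Nat.mem_divisors] at hd
        obtain ⟨_, ⟨f, rfl⟩, h2⟩ := hd
        exact ⟨f, Nat.mem_divisors.mpr ⟨Nat.dvd_of_mul_dvd_mul_left (Nat.pos_of_ne_zero hl0) h2,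
          he0⟩, rfl⟩
      · intro f _
        rfl
    have h2 : ∀ f ∈ e.divisors, (μ (l * f) : ℝ) = (μ l : ℝ) * (μ f : ℝ) := by
      intro f hf
      have hf' := Nat.dvd_of_mem_divisors hf
      have hcop : Nat.Coprime l f :=
        Nat.Coprime.coprime_dvd_right hf' (Nat.coprime_of_squarefree_mul hksq)
      rw [isMultiplicative_moebius.map_mul_of_coprime hcop]
      push_cast
      rfl
    rw [h1, Finset.sum_congr rfl h2, ← Finset.mul_sum]
    have h3 : ∑ f ∈ e.divisors, (μ f : ℝ) = if e = 1 then 1 else 0 := by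
      have h4 : ∑ f ∈ e.divisors, μ f = if e = 1 then 1 else 0 := by
        rw [← coe_mul_zeta_apply, moebius_mul_coe_zeta, one_apply]
      have h5 := congrArg (fun z : ℤ => (z : ℝ)) h4
      push_cast at h5
      exact h5
    rw [h3]
    by_cases he : e = 1
    · subst he
      simp
    · rw [if_neg he, mul_zero, if_neg]
      intro h
      apply he
      exact Nat.eq_of_mul_eq_mul_left (Nat.pos_of_ne_zero hl0) (by rw [← h, mul_one])
  · rw [if_neg (by rintro rfl; exact hlk (dvd_refl _))]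
    apply Finset.sum_eq_zero
    intro d _
    rw [if_neg]
    rintro ⟨h1, h2⟩
    exact hlk (h1.trans h2)

/-- the diagonalising variables -/
theorem diag (l : ℕ) :
    (∑ d ∈ s.prodPrimes.divisors, if l ∣ d then s.nu d * ww s y d else 0) =
      (SS s y)⁻¹ * ∑ k ∈ s.prodPrimes.divisors,
        (if (k : ℝ) ^ 2 ≤ y then s.selbergTerms k else 0) * (if l = k then (μ l : ℝ) else 0) := by
  have h1 : ∀ d ∈ s.prodPrimes.divisors, (if l ∣ d then s.nu d * ww s y d else 0) =
      (SS s y)⁻¹ * ∑ k ∈ s.prodPrimes.divisors,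
        (if (k : ℝ) ^ 2 ≤ y then s.selbergTerms k else 0) *
          (if l ∣ d ∧ d ∣ k then (μ d : ℝ) else 0) := by
    intro d hd
    have hdP := Nat.dvd_of_mem_divisors hd
    have hnu := BoundingSieve.nu_ne_zero hdP
    by_cases hld : l ∣ d
    · rw [if_pos hld]
      unfold ww TT
      rw [if_pos hdP, Finset.mul_sum, Finset.mul_sum, Finset.mul_sum]
      refine Finset.sum_congr rfl fun k _ => ?_
      by_cases h2 : d ∣ k <;> by_cases h3 : (k : ℝ) ^ 2 ≤ y
      · rw [if_pos ⟨h2, h3⟩, if_pos h3, if_pos ⟨hld, h2⟩]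
        by_cases hS : SS s y = 0
        · rw [hS]; simp
        · field_simp
      · rw [if_neg (fun h => h3 h.2), if_neg h3]
        simp
      · rw [if_neg (fun h => h2 h.1), if_neg (fun h : l ∣ d ∧ d ∣ k => h2 h.2)]
        simp
      · rw [if_neg (fun h => h2 h.1), if_neg (fun h : l ∣ d ∧ d ∣ k => h2 h.2)]
        simp
    · rw [if_neg hld]
      symm
      rw [Finset.sum_eq_zero, mul_zero]
      intro k _
      rw [if_neg (fun h : l ∣ d ∧ d ∣ k => hld h.1), mul_zero]
  rw [Finset.sum_congr rfl h1, ← Finset.mul_sum, Finset.sum_comm]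
  congr 1
  refine Finset.sum_congr rfl fun k hk => ?_
  rw [← Finset.mul_sum, mu_sum s (Nat.dvd_of_mem_divisors hk)]

/-- the main term -/
theorem main (hy : 1 ≤ y) : s.mainSum (BoundingSieve.lambdaSquared (ww s y)) = 1 / SS s y := by
  have hS := SS_pos s y hy
  rw [BoundingSieve.mainSum_lambdaSquared_eq_sum_mul_sum_sq]
  have h1 : ∀ l ∈ s.prodPrimes.divisors, (s.selbergTerms l)⁻¹ *
      (∑ d ∈ s.prodPrimes.divisors, if l ∣ d then s.nu d * ww s y d else 0) ^ 2 =
      (SS s y)⁻¹ ^ 2 * (if (l : ℝ) ^ 2 ≤ y then s.selbergTerms l else 0) := by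
    intro l hl
    have hlP := Nat.dvd_of_mem_divisors hl
    have hpos := BoundingSieve.selbergTerms_pos hlP
    have hmu : (μ l : ℝ) ^ 2 = 1 := by
      have := moebius_sq_eq_one_of_squarefree (BoundingSieve.squarefree_of_dvd_prodPrimes hlP)
      exact_mod_cast this
    rw [diag]
    have h2 : ∑ k ∈ s.prodPrimes.divisors,
        (if (k : ℝ) ^ 2 ≤ y then s.selbergTerms k else 0) * (if l = k then (μ l : ℝ) else 0) =
        (if (l : ℝ) ^ 2 ≤ y then s.selbergTerms l else 0) * (μ l : ℝ) := by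
      rw [Finset.sum_eq_single l]
      · rw [if_pos rfl]
      · intro k _ hk
        rw [if_neg (fun h : l = k => hk h.symm), mul_zero]
      · intro h
        exact absurd hl h
    rw [h2, mul_pow, mul_pow, hmu, mul_one]
    by_cases h3 : (l : ℝ) ^ 2 ≤ y
    · rw [if_pos h3]
      field_simp
    · rw [if_neg h3]
      simp
  rw [Finset.sum_congr rfl h1, ← Finset.mul_sum]
  show (SS s y)⁻¹ ^ 2 * SS s y = 1 / SS s y
  field_simp

/-- the key inequality -/
theorem TT_le {d : ℕ} (hd : d ∣ s.prodPrimes) : TT s y d ≤ s.nu d * SS s y := by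
  have hP : s.prodPrimes ≠ 0 := BoundingSieve.prodPrimes_ne_zero
  have hd0 : d ≠ 0 := (BoundingSieve.squarefree_of_dvd_prodPrimes hd).ne_zero
  have hdpos : 0 < d := Nat.pos_of_ne_zero hd0
  have hhd := BoundingSieve.selbergTerms_pos hd
  have hnu := BoundingSieve.nu_pos_of_dvd_prodPrimes hd
  -- the two index sets
  set A : Finset ℕ := s.prodPrimes.divisors.filter (fun k => k ∣ d) with hA
  set B : Finset ℕ := s.prodPrimes.divisors.filter (fun l => d ∣ l ∧ (l : ℝ) ^ 2 ≤ y) with hB
  set C : Finset ℕ := s.prodPrimes.divisors.filter (fun l => (l : ℝ) ^ 2 ≤ y) with hC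
  have hAsum : ∑ k ∈ A, s.selbergTerms k = s.selbergTerms d * (s.nu d)⁻¹ := by
    rw [hA, Finset.sum_filter]
    exact BoundingSieve.sum_divisors_selbergTerms_eq_selbergTerms_mul_nu_inv hd
  have hTT : TT s y d = ∑ l ∈ B, s.selbergTerms l := by
    rw [hB, Finset.sum_filter]
    rfl
  have hSS : SS s y = ∑ l ∈ C, s.selbergTerms l := by
    rw [hC, Finset.sum_filter]
    rfl
  -- facts on elements of B
  have hBf : ∀ l ∈ B, ∃ m : ℕ, l = d * m ∧ d.Coprime m ∧ l ∣ s.prodPrimes ∧ (l : ℝ) ^ 2 ≤ y := by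
    intro l hl
    rw [hB, Finset.mem_filter, Nat.mem_divisors] at hl
    obtain ⟨⟨h1, _⟩, ⟨m, rfl⟩, h3⟩ := hl
    exact ⟨m, rfl, Nat.coprime_of_squarefree_mul (BoundingSieve.squarefree_of_dvd_prodPrimes h1),
      h1, h3⟩
  have hprod : ∑ p ∈ A ×ˢ B, s.selbergTerms (p.1 * (p.2 / d)) ≤ ∑ l ∈ C, s.selbergTerms l := by
    rw [← Finset.sum_image (s := A ×ˢ B) (g := fun p : ℕ × ℕ => p.1 * (p.2 / d))
      (f := fun n => s.selbergTerms n)]
    · apply Finset.sum_le_sum_of_subset_of_nonneg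
      · intro n hn
        rw [Finset.mem_image] at hn
        obtain ⟨⟨k, l⟩, hkl, rfl⟩ := hn
        rw [Finset.mem_product] at hkl
        obtain ⟨hk, hl⟩ := hkl
        obtain ⟨m, rfl, hcop, hlP, hly⟩ := hBf l hl
        rw [hA, Finset.mem_filter] at hk
        have hkd := hk.2
        dsimp only at hkd hlP hly ⊢
        rw [Nat.mul_div_cancel_left m hdpos, hC, Finset.mem_filter, Nat.mem_divisors]
        refine ⟨⟨(Nat.mul_dvd_mul_right hkd m).trans hlP, hP⟩, ?_⟩
        refine le_trans ?_ hly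
        have h5 : k * m ≤ d * m := Nat.mul_le_mul_right m (Nat.le_of_dvd hdpos hkd)
        have h6 : ((k * m : ℕ) : ℝ) ≤ ((d * m : ℕ) : ℝ) := by exact_mod_cast h5
        exact pow_le_pow_left₀ (Nat.cast_nonneg _) h6 2
      · intro n hn _
        rw [hC, Finset.mem_filter] at hn
        exact h_nonneg s hn.1
    · rintro ⟨k, l⟩ hkl ⟨k', l'⟩ hkl' heq
      rw [Finset.mem_coe, Finset.mem_product] at hkl hkl'
      obtain ⟨hk, hl⟩ := hkl
      obtain ⟨hk', hl'⟩ := hkl'
      dsimp only at hk hl hk' hl' heq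
      obtain ⟨m, rfl, hcop, _, _⟩ := hBf l hl
      obtain ⟨m', rfl, hcop', _, _⟩ := hBf l' hl'
      rw [hA, Finset.mem_filter] at hk hk'
      rw [Nat.mul_div_cancel_left m hdpos, Nat.mul_div_cancel_left m' hdpos] at heq
      have g1 : Nat.gcd (k * m) d = k := by
        rw [Nat.Coprime.gcd_mul_right_cancel k hcop.symm]
        exact Nat.gcd_eq_left hk.2
      have g2 : Nat.gcd (k' * m') d = k' := by
        rw [Nat.Coprime.gcd_mul_right_cancel k' hcop'.symm]
        exact Nat.gcd_eq_left hk'.2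
      have e1 : k = k' := by rw [← g1, ← g2, heq]
      subst e1
      have hk0 : 0 < k := Nat.pos_of_dvd_of_pos hk.2 hdpos
      have e2 : m = m' := Nat.eq_of_mul_eq_mul_left hk0 heq
      rw [e2]
  have hterm : ∀ p ∈ A ×ˢ B, s.selbergTerms (p.1 * (p.2 / d)) =
      s.selbergTerms p.1 * (s.selbergTerms p.2 / s.selbergTerms d) := by
    rintro ⟨k, l⟩ hkl
    rw [Finset.mem_product] at hkl
    obtain ⟨hk, hl⟩ := hkl
    dsimp only at hk hl ⊢
    obtain ⟨m, rfl, hcop, _, _⟩ := hBf l hl
    rw [hA, Finset.mem_filter] at hk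
    rw [Nat.mul_div_cancel_left m hdpos,
      BoundingSieve.selbergTerms_isMultiplicative.map_mul_of_coprime hcop,
      BoundingSieve.selbergTerms_isMultiplicative.map_mul_of_coprime
        (Nat.Coprime.coprime_dvd_left hk.2 hcop)]
    field_simp
  rw [Finset.sum_congr rfl hterm, Finset.sum_product, ← hSS] at hprod
  have h7 : ∑ k ∈ A, ∑ l ∈ B, s.selbergTerms k * (s.selbergTerms l / s.selbergTerms d) =
      (s.nu d)⁻¹ * TT s y d := by
    simp only [← Finset.mul_sum, ← Finset.sum_mul, ← Finset.sum_div]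
    rw [hAsum, ← hTT]
    field_simp
  rw [h7] at hprod
  have h8 := mul_le_mul_of_nonneg_left hprod hnu.le
  rwa [← mul_assoc, mul_inv_cancel₀ hnu.ne', one_mul] at h8

theorem TT_nonneg (d : ℕ) : 0 ≤ TT s y d := by
  unfold TT
  apply Finset.sum_nonneg
  intro l hl
  split_ifs
  · exact h_nonneg s hl
  · exact le_refl _

theorem abs_ww_le (hy : 1 ≤ y) (d : ℕ) : |ww s y d| ≤ 1 := by
  unfold ww
  split_ifs with hd
  · have hS := SS_pos s y hy
    have hnu := BoundingSieve.nu_pos_of_dvd_prodPrimes hd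
    have h1 : |(μ d : ℝ)| ≤ 1 := by
      have := abs_moebius_le_one (n := d)
      exact_mod_cast this
    rw [abs_mul, abs_div, abs_of_pos (mul_pos hnu hS), abs_of_nonneg (TT_nonneg s y d),
      div_mul_eq_mul_div, div_le_one (mul_pos hnu hS)]
    calc |(μ d : ℝ)| * TT s y d ≤ 1 * TT s y d :=
          mul_le_mul_of_nonneg_right h1 (TT_nonneg s y d)
      _ = TT s y d := one_mul _
      _ ≤ s.nu d * SS s y := TT_le s y hd
  · simp

/-- the support of the weights -/
theorem ww_supp {d : ℕ} (h : ww s y d ≠ 0) : (d : ℝ) ^ 2 ≤ y := by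
  by_contra hcon
  apply h
  unfold ww
  split_ifs with hd
  · have hT : TT s y d = 0 := by
      unfold TT
      apply Finset.sum_eq_zero
      intro l hl
      rw [if_neg]
      rintro ⟨h1, h2⟩
      apply hcon
      refine le_trans ?_ h2
      have hl0 : 0 < l := Nat.pos_of_mem_divisors hl
      have h3 : (d : ℝ) ≤ l := by exact_mod_cast Nat.le_of_dvd hl0 h1
      exact pow_le_pow_left₀ (Nat.cast_nonneg _) h3 2
    rw [hT, mul_zero]
  · rfl

theorem lam_le (hy : 1 ≤ y) (d : ℕ) :
    |BoundingSieve.lambdaSquared (ww s y) d| ≤ if (d : ℝ) ≤ y then (d : ℝ) ^ 2 else 0 := by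
  unfold BoundingSieve.lambdaSquared
  split_ifs with hdy
  · have h1 : |∑ d1 ∈ d.divisors, ∑ d2 ∈ d.divisors,
        if d = Nat.lcm d1 d2 then ww s y d1 * ww s y d2 else 0| ≤
        ∑ d1 ∈ d.divisors, ∑ d2 ∈ d.divisors, (1 : ℝ) := by
      refine (Finset.abs_sum_le_sum_abs _ _).trans (Finset.sum_le_sum fun d1 _ => ?_)
      refine (Finset.abs_sum_le_sum_abs _ _).trans (Finset.sum_le_sum fun d2 _ => ?_)
      split_ifs
      · rw [abs_mul]
        exact mul_le_one₀ (abs_ww_le s y hy d1) (abs_nonneg _) (abs_ww_le s y hy d2)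
      · simp
    refine h1.trans ?_
    simp only [Finset.sum_const, nsmul_eq_mul, mul_one]
    have h2 : ((d.divisors.card : ℕ) : ℝ) ≤ d := by exact_mod_cast Nat.card_divisors_le_self d
    rw [sq]
    exact mul_le_mul h2 h2 (Nat.cast_nonneg _) (Nat.cast_nonneg _)
  · have h1 : ∑ d1 ∈ d.divisors, ∑ d2 ∈ d.divisors,
        (if d = Nat.lcm d1 d2 then ww s y d1 * ww s y d2 else 0) = 0 := by
      apply Finset.sum_eq_zero
      intro d1 _
      apply Finset.sum_eq_zero
      intro d2 _
      split_ifs with hl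
      · by_contra hne
        have h1 := ww_supp s y (left_ne_zero_of_mul hne)
        have h2 := ww_supp s y (right_ne_zero_of_mul hne)
        apply hdy
        have h3 : d ≤ d1 * d2 := by
          rw [hl]
          by_cases h0 : d1 * d2 = 0
          · rcases mul_eq_zero.mp h0 with h0 | h0 <;> simp [h0]
          · exact Nat.le_of_dvd (Nat.pos_of_ne_zero h0) (Nat.lcm_dvd_mul d1 d2)
        have h4 : (d : ℝ) ≤ d1 * d2 := by exact_mod_cast h3
        refine h4.trans ?_
        have h5 : ((d1 : ℝ) * d2) ^ 2 ≤ y ^ 2 := by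
          rw [mul_pow, sq y]
          exact mul_le_mul h1 h2 (by positivity) (by linarith)
        exact abs_le_of_sq_le_sq' h5 (by linarith) |>.2
      · rfl
    rw [h1, abs_zero]

end SEL_

open SEL_ in
/-- SEL -/
theorem p_SEL : T_SEL := by
  intro s hX
  have hy := s.one_le_level
  have h1 := BoundingSieve.siftedSum_le_mainSum_errSum_of_upperMoebius (s := s.toBoundingSieve)
    (BoundingSieve.lambdaSquared (ww s.toBoundingSieve s.level))
    (BoundingSieve.upperMoebius_lambdaSquared _ (ww_one _ _ hy))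
  rw [main _ _ hy] at h1
  refine h1.trans (add_le_add (le_of_eq ?_) ?_)
  · rw [mul_one_div]
    rfl
  · unfold BoundingSieve.errSum
    refine Finset.sum_le_sum fun d _ => ?_
    have h2 := lam_le s.toBoundingSieve s.level hy d
    have h3 := mul_le_mul_of_nonneg_right h2 (abs_nonneg (s.rem d))
    refine h3.trans (le_of_eq ?_)
    split_ifs
    · rfl
    · rw [zero_mul]

end SSN
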